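import Mathlib

set_option autoImplicit false

/-!
Quadratic twists `C_t : t y² = F(x)` of a hyperelliptic curve `y² = F(x)`, `F ∈ ℤ[x]` of even
degree: local solubility and the fake `2`-Selmer set.
-/

namespace Stoll308.Irr

open Polynomial Finset

/-- The smooth projective curve `C_t` with the affine equation `t y² = F(x)` (`F` of even degree)
has a point over the field `K`: an affine one, or one of the two points at infinity, which are
defined over `K` if and only if `t` times the leading coefficient of `F` is a square in `K`. -/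
def HasPoint (F : ℤ[X]) (t : ℤ) (K : Type*) [Field K] : Prop :=
  (∃ x y : K, (t : K) * y ^ 2 = (F.map (Int.castRingHom K)).eval x) ∨
    IsSquare ((t : K) * (F.leadingCoeff : K))

/-- `C_t` has points over all completions of `ℚ`. -/
def ELS (F : ℤ[X]) (t : ℤ) : Prop :=
  (∀ (p : ℕ) [Fact p.Prime], HasPoint F t ℚ_[p]) ∧ HasPoint F t ℝ

/-- There is an affine point `(x, y)`, `y ≠ 0`, of `C_t` over the field `K ⊇ ℚ` such that the class
of `x - θ` in `(K[θ]/F)ˣ` modulo squares and modulo `Kˣ` (`θ` the class of the variable) is the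
class of `δ`. -/
def LocalImage (F : ℤ[X]) (t : ℤ) (δ : ℚ[X]) (K : Type*) [Field K] [Algebra ℚ K] : Prop :=
  ∃ (x y c : K) (s : K[X]), y ≠ 0 ∧ c ≠ 0 ∧
    (t : K) * y ^ 2 = (F.map (Int.castRingHom K)).eval x ∧
    F.map (Int.castRingHom K) ∣ (C x - X) - C c * δ.map (algebraMap ℚ K) * s ^ 2

/-- The fake `2`-Selmer set of `C_t` is nonempty: some `δ ∈ (ℚ[X]/F)ˣ` is in the image of the local
points at all places of `ℚ`. -/
def FakeSel (F : ℤ[X]) (t : ℤ) : Prop :=
  ∃ δ : ℚ[X], IsCoprime δ (F.map (Int.castRingHom ℚ)) ∧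
    (∀ (p : ℕ) [Fact p.Prime], LocalImage F t δ ℚ_[p]) ∧ LocalImage F t δ ℝ

open Classical in
/-- The number of squarefree integers `t`, `|t| ≤ X`, with the property `P`. -/
noncomputable def cnt (P : ℤ → Prop) (X : ℕ) : ℕ :=
  ((Icc (-(X : ℤ)) X).filter (fun t => Squarefree t ∧ P t)).card

end Stoll308.Irr
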