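import Mathlib

set_option autoImplicit false

/-!
Quadratic twists `C_t : t y² = f(x)` of a hyperelliptic curve, `f` monic irreducible of even degree:
local solubility and the fake `2`-Selmer set.
-/

namespace Stoll308.Gen

open Polynomial Finset NumberTheorySymbols

/-- The curve `C_t : t y² = f(x)` (`f` monic of even degree) has a point over the field `F`: an
affine one, or one at infinity, which means that `t` is a square in `F`. -/
def HasPoint (f : ℤ[X]) (t : ℤ) (F : Type*) [Field F] : Prop :=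
  (∃ x y : F, (t : F) * y ^ 2 = (f.map (Int.castRingHom F)).eval x) ∨ IsSquare (t : F)

/-- `C_t` has points over all completions of `ℚ`. -/
def ELS (f : ℤ[X]) (t : ℤ) : Prop :=
  (∀ (p : ℕ) [Fact p.Prime], HasPoint f t ℚ_[p]) ∧ HasPoint f t ℝ

/-- The class of `δ ∈ (F[X]/f)ˣ` modulo squares and modulo `Fˣ` is the image `x - X` of an affine
point `(x, y)`, `y ≠ 0`, of `C_t` over `F`. -/
def LocalImage (f : ℤ[X]) (t : ℤ) (δ : ℚ[X]) (F : Type*) [Field F] [Algebra ℚ F] : Prop :=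
  ∃ (x y c : F) (s : F[X]), y ≠ 0 ∧ c ≠ 0 ∧
    (t : F) * y ^ 2 = (f.map (Int.castRingHom F)).eval x ∧
    f.map (Int.castRingHom F) ∣ (C x - X) - C c * δ.map (algebraMap ℚ F) * s ^ 2

/-- The fake `2`-Selmer set of `C_t` is nonempty: some `δ ∈ (ℚ[X]/f)ˣ` is in the local image at all
places of `ℚ`. -/
def Sel (f : ℤ[X]) (t : ℤ) : Prop :=
  ∃ δ : ℚ[X], IsCoprime δ (f.map (Int.castRingHom ℚ)) ∧
    (∀ (p : ℕ) [Fact p.Prime], LocalImage f t δ ℚ_[p]) ∧ LocalImage f t δ ℝ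

/-- The roots of `f` modulo `p`. -/
def R (f : ℤ[X]) (p : ℕ) : Finset ℕ := (range p).filter fun a => (p : ℤ) ∣ f.eval (a : ℤ)

/-- The roots of `f` modulo `p` used for the conditions at `p` if the chosen root is `ρ`: all the
other roots, one of which is left out if `f` splits completely modulo `p`. -/
noncomputable def J (f : ℤ[X]) (p ρ : ℕ) : Finset ℕ :=
  if (R f p).card < f.natDegree then (R f p).erase ρ
  else ((R f p).erase ρ).erase (((R f p).erase ρ).sup id)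

/-- The polynomial with the coefficients `g`. -/
noncomputable def poly {n : ℕ} {A : Type*} [CommRing A] (g : Fin n → A) : A[X] :=
  ∑ i, C (g i) * X ^ (i : ℕ)

/-- The value of the polynomial with coefficients `g`. -/
def ev {n : ℕ} {A : Type*} [CommRing A] (g : Fin n → A) (a : A) : A := ∑ i, g i * a ^ (i : ℕ)

/-- The norm of `g(θ)`: the resultant of `f` and the polynomial with coefficients `g`. -/
noncomputable def Nm (f : ℤ[X]) {n : ℕ} {A : Type*} [CommRing A] (g : Fin n → A) : A :=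
  resultant (f.map (Int.castRingHom A)) (poly g) f.natDegree n

/-- The quadratic character `g ↦ (g(a) g(ρ) N(g) / p)`. -/
noncomputable def W (f : ℤ[X]) (p ρ a : ℕ) {n : ℕ} (g : Fin n → ℤ) : ℤ :=
  J(ev g (a : ℤ) * ev g (ρ : ℤ) * Nm f g | p)

/-- The primes `> C₀` dividing `t`. -/
def bigPrimes (C₀ : ℕ) (t : ℤ) : Finset ℕ := t.natAbs.primeFactors.filter fun p => C₀ < p

/-- `(T, ρ)` is a valid datum: `T` is a finite set of primes `> C₀`, and `ρ p` is a root of `f`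
modulo `p` for `p ∈ T`. -/
def Valid (f : ℤ[X]) (C₀ : ℕ) (T : Finset ℕ) (ρ : ℕ → ℕ) : Prop :=
  ∀ p ∈ T, p.Prime ∧ C₀ < p ∧ ρ p ∈ R f p

/-- Small elements of the ideals of `ℤ[θ]`, and the relations satisfied by the twists with
nonempty fake `2`-Selmer set. -/
structure RelData (f : ℤ[X]) where
  C₀ : ℕ
  m : ℕ
  g : Finset ℕ → (ℕ → ℕ) → (Fin f.natDegree → ℤ)
  κ : Finset ℕ → (ℕ → ℕ) → ℤ
  c : Fin m → ℤ → Finset ℕ → (ℕ → ℕ) → ℕ → ℕ → ℤ
  g_congr : ∀ T ρ ρ', (∀ p ∈ T, ρ p = ρ' p) → g T ρ = g T ρ'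
  κ_congr : ∀ T ρ ρ', (∀ p ∈ T, ρ p = ρ' p) → κ T ρ = κ T ρ'
  c_congr : ∀ e s T ρ ρ' p a, (∀ p ∈ T, ρ p = ρ' p) → c e s T ρ p a = c e s T ρ' p a
  c_le : ∀ e s T ρ p a, |c e s T ρ p a| ≤ 1
  g_le : ∀ T ρ, Valid f C₀ T ρ → ∀ i, |g T ρ i| ^ f.natDegree ≤ ((∏ p ∈ T, p : ℕ) : ℤ)
  g_res : ∀ T ρ, Valid f C₀ T ρ → Nm f (g T ρ) = κ T ρ * ((∏ p ∈ T, p : ℕ) : ℤ)
  κ_ne : ∀ T ρ, Valid f C₀ T ρ → κ T ρ ≠ 0
  κ_le : ∀ T ρ, Valid f C₀ T ρ → |κ T ρ| ≤ C₀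
  g_inj : ∀ T ρ T' ρ', Valid f C₀ T ρ → Valid f C₀ T' ρ' → g T ρ = g T' ρ' →
    T = T' ∧ ∀ p ∈ T, ρ p = ρ' p
  rel : ∀ t : ℤ, Squarefree t → Sel f t → ∃ ρ : ℕ → ℕ, Valid f C₀ (bigPrimes C₀ t) ρ ∧
    ∀ T₁ T₂ : Finset ℕ, Disjoint T₁ T₂ → T₁ ∪ T₂ = bigPrimes C₀ t →
      ∃ e : Fin m, ∀ p ∈ T₁, ∀ a ∈ R f p, a ≠ ρ p →
        c e (t / ((∏ p ∈ bigPrimes C₀ t, p : ℕ) : ℤ)) T₁ ρ p a *
          (J(κ T₂ ρ | p) * W f p (ρ p) a (g T₂ ρ)) = 1

/-- The characters are nontrivial: for `p > C₀`, a root `ρ` of `f` modulo `p` and a nonempty subset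
`A` of `J f p ρ`. -/
def NonTriv (f : ℤ[X]) (C₀ : ℕ) : Prop :=
  ∀ p : ℕ, p.Prime → C₀ < p → ∀ ρ ∈ R f p, ∀ A ⊆ J f p ρ, A.Nonempty →
    ∑ g : Fin f.natDegree → Fin p, ∏ a ∈ A, W f p ρ a (fun i => ((g i : ℕ) : ℤ)) = 0

/-- Mertens for the primes modulo which `f` splits into distinct linear factors (lower bound). -/
def SplitMert (f : ℤ[X]) : Prop :=
  ∃ κ B : ℝ, 0 < κ ∧ ∀ x y : ℝ, 3 ≤ x → x ≤ y →
    κ * (Real.log (Real.log y) - Real.log (Real.log x)) - B ≤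
      ∑ p ∈ (Icc 1 ⌊y⌋₊).filter (fun p : ℕ => p.Prime ∧ x < (p : ℝ) ∧
        (R f p).card = f.natDegree), 1 / (p : ℝ)

/-- The primes up to `X` modulo which `f` has a root. -/
def rootPrimes (f : ℤ[X]) (X : ℕ) : Finset ℕ :=
  (Icc 1 X).filter fun p => p.Prime ∧ (R f p).Nonempty

/-- The number of roots of `f` modulo `p`. -/
noncomputable def nr (f : ℤ[X]) (p : ℕ) : ℝ := ((R f p).card : ℝ)

/-- The weight of a prime at which the conditions are imposed. -/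
noncomputable def wt (f : ℤ[X]) (p : ℕ) : ℝ := ∑ ρ ∈ R f p, (1 / 2 : ℝ) ^ (J f p ρ).card

end Stoll308.Gen
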