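import Mathlib
import Pool.Agent.Work.MP_308fa9_nt.ChebE
import Pool.Agent.Work.MP_308fa9_nt.Rankin
import Pool.Agent.Work.MP_308fa9_nt.Gen.Defs

set_option autoImplicit false

/-! Comparison of Euler products. -/

namespace Stoll308.Gen

open Finset Polynomial Stoll308.MeanSum Pool.Agent.Work.MP_2b9663_nt

/-- Mertens with a real cutoff. -/
lemma mertens_real : ∃ C : ℝ, 0 < C ∧ ∀ z : ℝ, 3 ≤ z →
    |∑ p ∈ PR ⌊z⌋₊, 1 / (p : ℝ) - Real.log (Real.log z)| ≤ C := by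
  obtain ⟨C, hC, h⟩ := mv_sum (c := fun _ => 1) MV.one
  refine ⟨C + 1, by linarith, fun z hz => ?_⟩
  have hX3 : 3 ≤ ⌊z⌋₊ := Nat.le_floor (by exact_mod_cast hz)
  have h1 := abs_le.1 (h ⌊z⌋₊ hX3)
  rw [one_mul] at h1
  have hx1 : (3 : ℝ) ≤ ⌊z⌋₊ := by exact_mod_cast hX3
  have hlog3 : 1 ≤ Real.log 3 := by
    have : Real.log (Real.exp 1) ≤ Real.log 3 :=
      Real.log_le_log (Real.exp_pos 1) (Real.exp_one_lt_d9.le.trans (by norm_num))
    rwa [Real.log_exp] at this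
  have h5 : Real.log (Real.log ⌊z⌋₊) ≤ Real.log (Real.log z) := by
    apply Real.log_le_log
    · exact Real.log_pos (by linarith)
    · exact Real.log_le_log (by linarith) (Nat.floor_le (by linarith))
  have h6 : Real.log (Real.log z) - 1 ≤ Real.log (Real.log ⌊z⌋₊) := by
    have h7 : z ≤ 2 * ⌊z⌋₊ := by
      have := Nat.lt_floor_add_one z
      linarith
    have h8 : 1 ≤ Real.log ⌊z⌋₊ := hlog3.trans (Real.log_le_log (by norm_num) hx1)
    have h9 : Real.log z ≤ 2 * Real.log ⌊z⌋₊ := by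
      have h10 : Real.log z ≤ Real.log (2 * ⌊z⌋₊) := Real.log_le_log (by linarith) h7
      rw [Real.log_mul (by norm_num) (by linarith)] at h10
      have h11 : Real.log 2 ≤ 1 := by
        have := Real.log_two_lt_d9
        linarith
      linarith
    have h12 : Real.log (Real.log z) ≤ Real.log (2 * Real.log ⌊z⌋₊) :=
      Real.log_le_log (Real.log_pos (by linarith)) h9
    rw [Real.log_mul (by norm_num) (by linarith)] at h12
    have h11 : Real.log 2 ≤ 1 := by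
      have := Real.log_two_lt_d9
      linarith
    linarith
  rw [abs_le]
  constructor <;> linarith [h1.1, h1.2]

lemma prod_le_exp (s : Finset ℕ) (a : ℕ → ℝ) (ha : ∀ p ∈ s, 0 ≤ a p) :
    ∏ p ∈ s, (1 + a p / p) ≤ Real.exp (∑ p ∈ s, a p / p) := by
  rw [Real.exp_sum]
  refine prod_le_prod (fun p hp => ?_) fun p hp => ?_
  · have := ha p hp
    positivity
  · have := Real.add_one_le_exp (a p / (p : ℝ))
    linarith

lemma prod_ge_exp (s : Finset ℕ) (hs : ∀ p ∈ s, p.Prime) :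
    Real.exp (∑ p ∈ s, 1 / (p : ℝ) - 1) ≤ ∏ p ∈ s, (1 + 1 / (p : ℝ)) := by
  have h2 : ∑ p ∈ s, (1 / (p : ℝ)) ^ 2 ≤ 1 := AP.sum_inv_sq_le s hs
  have hpos : 0 < ∏ p ∈ s, (1 + 1 / (p : ℝ)) := prod_pos fun p _ => by positivity
  rw [← Real.le_log_iff_exp_le hpos, Real.log_prod fun p _ => by positivity]
  calc ∑ p ∈ s, 1 / (p : ℝ) - 1 ≤ ∑ p ∈ s, (1 / (p : ℝ) - (1 / (p : ℝ)) ^ 2) := by
        rw [sum_sub_distrib]; linarith
    _ ≤ _ := sum_le_sum fun p _ => AP.log_one_add_ge (by positivity)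

/-- E4 -/
theorem euler_const (A : ℝ) (hA : 0 ≤ A) : ∃ C : ℝ, 0 < C ∧ ∀ X : ℕ, 3 ≤ X →
    ∏ p ∈ (Icc 1 X).filter Nat.Prime, (1 + A / (p : ℝ)) ≤ C * Real.log X ^ A := by
  obtain ⟨C, hC, h⟩ := mertens_real
  refine ⟨Real.exp (A * C), Real.exp_pos _, fun X hX => ?_⟩
  have hX1 : (3 : ℝ) ≤ X := by exact_mod_cast hX
  have hlog : 0 < Real.log X := Real.log_pos (by linarith)
  refine (prod_le_exp _ (fun _ => A) fun _ _ => hA).trans ?_
  rw [Real.rpow_def_of_pos hlog, ← Real.exp_add, Real.exp_le_exp]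
  have h1 := (abs_le.1 (h X hX1)).2
  rw [Nat.floor_natCast] at h1
  have h2 : ∑ p ∈ (Icc 1 X).filter Nat.Prime, A / (p : ℝ) = A * ∑ p ∈ PR X, 1 / (p : ℝ) := by
    rw [mul_sum]
    exact sum_congr rfl fun p _ => by ring
  rw [h2]
  have h3 := mul_le_mul_of_nonneg_left h1 hA
  linarith [mul_sub A (∑ p ∈ PR X, 1 / (p : ℝ)) (Real.log (Real.log X))]

section weights

variable {f : ℤ[X]}

lemma card_R_le (hf : f.Monic) {p : ℕ} (hp : p.Prime) : (R f p).card ≤ f.natDegree := by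
  classical
  have : Fact p.Prime := ⟨hp⟩
  rw [Cheb.card_R]
  unfold Cheb.nroots
  have h1 : (f.map (Int.castRingHom (ZMod p))) ≠ 0 := (hf.map _).ne_zero
  have h2 : (f.map (Int.castRingHom (ZMod p))).natDegree = f.natDegree := hf.natDegree_map _
  rw [← h2]
  refine le_trans ?_ (card_roots' _)
  refine le_trans ?_ (Multiset.toFinset_card_le _)
  rw [Nat.card_eq_fintype_card, Fintype.card_subtype]
  apply card_le_card
  intro x hx
  rw [mem_filter] at hx
  rw [Multiset.mem_toFinset, mem_roots h1]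
  exact hx.2

lemma card_J_lt {p ρ : ℕ} (hρ : ρ ∈ R f p) (h : (R f p).card < f.natDegree) :
    (J f p ρ).card = (R f p).card - 1 := by
  unfold J
  rw [if_pos h, card_erase_of_mem hρ]

lemma card_J_eq {p ρ : ℕ} (hρ : ρ ∈ R f p) (h : (R f p).card = f.natDegree)
    (h2 : 2 ≤ f.natDegree) : (J f p ρ).card = f.natDegree - 2 := by
  unfold J
  rw [if_neg (by omega)]
  have h1 : ((R f p).erase ρ).card = f.natDegree - 1 := by rw [card_erase_of_mem hρ, h]
  have hne : ((R f p).erase ρ).Nonempty := by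
    rw [← card_pos, h1]; omega
  have hmem : ((R f p).erase ρ).sup id ∈ (R f p).erase ρ := by
    obtain ⟨a, ha, hsup⟩ := Finset.exists_mem_eq_sup _ hne id
    rw [hsup]
    exact ha
  rw [card_erase_of_mem hmem, h1]
  omega

lemma wt_nonneg (p : ℕ) : 0 ≤ wt f p := by
  unfold wt
  exact sum_nonneg fun _ _ => by positivity

lemma nr_nonneg (p : ℕ) : 0 ≤ nr f p := by
  unfold nr
  positivity

lemma two_pow_bound {n : ℕ} (hn : 6 ≤ n) : (n : ℝ) * (1 / 2) ^ (n - 2) ≤ 3 / 8 := by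
  induction n, hn using Nat.le_induction with
  | base => norm_num
  | succ n hn ih =>
    have h1 : n + 1 - 2 = (n - 2) + 1 := by omega
    rw [h1, pow_succ]
    have h2 : (6 : ℝ) ≤ n := by exact_mod_cast hn
    have h3 : (0 : ℝ) < (1 / 2) ^ (n - 2) := by positivity
    push_cast
    nlinarith

lemma n_pow_bound (n : ℕ) (hn : 1 ≤ n) : (n : ℝ) * (1 / 2) ^ (n - 1) ≤ 1 := by
  induction n, hn using Nat.le_induction with
  | base => norm_num
  | succ n hn ih =>
    have h1 : n + 1 - 1 = (n - 1) + 1 := by omega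
    rw [h1, pow_succ]
    have h2 : (1 : ℝ) ≤ n := by exact_mod_cast hn
    have h3 : (0 : ℝ) < (1 / 2) ^ (n - 1) := by positivity
    push_cast
    nlinarith

/-- the weight is at most the indicator of having a root minus `5/8` of that of splitting -/
lemma wt_le (hf : f.Monic) (h6 : 6 ≤ f.natDegree) {p : ℕ} (hp : p.Prime) :
    wt f p ≤ (if (R f p).Nonempty then (1 : ℝ) else 0) -
      5 / 8 * (if (R f p).card = f.natDegree then (1 : ℝ) else 0) := by
  have hle := card_R_le hf hp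
  rcases hle.lt_or_eq with h | h
  · rw [if_neg h.ne, mul_zero, sub_zero]
    split_ifs with hne
    · unfold wt
      rw [sum_congr rfl fun ρ hρ => by rw [card_J_lt hρ h]]
      rw [sum_const, nsmul_eq_mul]
      exact n_pow_bound _ (card_pos.2 hne)
    · rw [not_nonempty_iff_eq_empty] at hne
      unfold wt
      rw [hne, sum_empty]
  · rw [if_pos h]
    have hne : (R f p).Nonempty := by rw [← card_pos]; omega
    rw [if_pos hne]
    unfold wt
    rw [sum_congr rfl fun ρ hρ => by rw [card_J_eq hρ h (by omega)]]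
    rw [sum_const, nsmul_eq_mul, h]
    have := two_pow_bound h6
    linarith

end weights

section main

open Filter Topology

lemma eventually_rpow_log {a : ℝ} (ha : 0 < a) (M : ℝ) : ∃ X₀ : ℕ, ∀ X : ℕ, X₀ ≤ X →
    M ≤ Real.log X ^ a := by
  have h1 : Tendsto (fun X : ℕ => Real.log X ^ a) atTop atTop :=
    (tendsto_rpow_atTop ha).comp (Real.tendsto_log_atTop.comp tendsto_natCast_atTop_atTop)
  exact eventually_atTop.1 (h1.eventually_ge_atTop M)

lemma sum_small {X : ℕ} {z : ℝ} (g : ℕ → ℝ) (hz : z ≤ X) (hz0 : 0 ≤ z) :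
    ∑ p ∈ PR X, (if (p : ℝ) ≤ z then g p else 0) = ∑ p ∈ PR ⌊z⌋₊, g p := by
  rw [← sum_filter]
  apply sum_congr _ fun _ _ => rfl
  ext p
  rw [mem_filter, mem_PR, mem_PR, Nat.le_floor_iff hz0]
  constructor
  · rintro ⟨⟨h1, _⟩, h3⟩
    exact ⟨h1, h3⟩
  · rintro ⟨h1, h2⟩
    refine ⟨⟨h1, ?_⟩, h2⟩
    exact_mod_cast h2.trans hz

lemma sum_root (f : ℤ[X]) (X : ℕ) :
    ∑ p ∈ PR X, (if (R f p).Nonempty then 1 / (p : ℝ) else 0) =
      ∑ p ∈ rootPrimes f X, 1 / (p : ℝ) := by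
  rw [← sum_filter]
  apply sum_congr _ fun _ _ => rfl
  unfold rootPrimes
  ext p
  simp only [mem_filter, and_assoc]

lemma three_le_exp_two : (3 : ℝ) ≤ Real.exp 2 := by
  have := Real.add_one_le_exp (2 : ℝ)
  linarith

/-- E1 -/
theorem euler_main (f : ℤ[X]) (hf : f.Monic) (h6 : 6 ≤ f.natDegree) (hS : SplitMert f) :
    ∃ η₀ : ℝ, 0 < η₀ ∧ ∀ η : ℝ, 0 < η → η ≤ η₀ → ∃ c : ℝ, 0 < c ∧ ∃ (C : ℝ) (X₀ : ℕ), 0 < C ∧
      ∀ X : ℕ, X₀ ≤ X → ∏ p ∈ (Icc 1 X).filter Nat.Prime,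
        (1 + (if Real.exp (Real.log X ^ η) < (p : ℝ) ∧ (p : ℝ) ≤ Real.exp (Real.log X ^ (1 - η))
          then wt f p else nr f p) / (p : ℝ)) ≤
        C * Real.log X ^ (-c) * ∏ p ∈ rootPrimes f X, (1 + 1 / (p : ℝ)) := by
  obtain ⟨κ, B, hκ, hSM⟩ := hS
  obtain ⟨C₀, hC₀, hM⟩ := mertens_real
  set n : ℝ := (f.natDegree : ℝ) with hn
  have hn0 : 0 < n := by rw [hn]; exact_mod_cast (by omega : 0 < f.natDegree)
  refine ⟨min (1 / 4) (5 / 64 * κ / n), by positivity, fun η hη0 hη => ?_⟩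
  have hη1 : η ≤ 1 / 4 := hη.trans (min_le_left _ _)
  have hη2 : η * n ≤ 5 / 64 * κ := by
    have := hη.trans (min_le_right _ _)
    rwa [le_div_iff₀ hn0] at this
  obtain ⟨X₁, hX₁⟩ := eventually_rpow_log hη0 2
  refine ⟨5 / 32 * κ, by positivity, Real.exp (1 + 5 / 8 * B + 3 * n * C₀), max X₁ 3,
    Real.exp_pos _, fun X hX => ?_⟩
  have hX1 : (3 : ℝ) ≤ X := by exact_mod_cast (le_max_right _ _).trans hX
  have hL2 := hX₁ X ((le_max_left _ _).trans hX)
  set L := Real.log X with hL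
  have hL0 : 0 < L := Real.log_pos (by linarith)
  have hL1 : 1 ≤ L := by
    by_contra hcon
    push Not at hcon
    have : L ^ η ≤ 1 := Real.rpow_le_one hL0.le hcon.le hη0.le
    linarith
  have hlL : 0 ≤ Real.log L := Real.log_nonneg hL1
  set z₁ := Real.exp (L ^ η) with hz₁
  set z₂ := Real.exp (L ^ (1 - η)) with hz₂
  have h3z₁ : 3 ≤ z₁ := three_le_exp_two.trans (Real.exp_le_exp.2 hL2)
  have hz₁₂ : z₁ ≤ z₂ := Real.exp_le_exp.2 (Real.rpow_le_rpow_of_exponent_le hL1 (by linarith))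
  have hz₂X : z₂ ≤ X := by
    rw [hz₂, ← Real.le_log_iff_exp_le (by linarith), ← hL]
    calc L ^ (1 - η) ≤ L ^ (1 : ℝ) := Real.rpow_le_rpow_of_exponent_le hL1 (by linarith)
      _ = L := Real.rpow_one L
  have h3z₂ : 3 ≤ z₂ := h3z₁.trans hz₁₂
  have e₁ : Real.log (Real.log z₁) = η * Real.log L := by
    rw [hz₁, Real.log_exp, Real.log_rpow hL0]
  have e₂ : Real.log (Real.log z₂) = (1 - η) * Real.log L := by
    rw [hz₂, Real.log_exp, Real.log_rpow hL0]
  -- the pointwise bound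
  have hpt : ∀ p ∈ PR X, (if z₁ < (p : ℝ) ∧ (p : ℝ) ≤ z₂ then wt f p else nr f p) / (p : ℝ) ≤
      (if (R f p).Nonempty then 1 / (p : ℝ) else 0) -
      5 / 8 * (if z₁ < (p : ℝ) ∧ (p : ℝ) ≤ z₂ ∧ (R f p).card = f.natDegree then 1 / (p : ℝ) else 0)
      + n * (if (p : ℝ) ≤ z₁ then 1 / (p : ℝ) else 0) +
      (n * (1 / (p : ℝ)) - n * (if (p : ℝ) ≤ z₂ then 1 / (p : ℝ) else 0)) := by
    intro p hp
    rw [mem_PR] at hp
    have hp0 : (0 : ℝ) < p := by exact_mod_cast hp.1.pos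
    have hinv : 0 < 1 / (p : ℝ) := by positivity
    have hroot : 0 ≤ (if (R f p).Nonempty then 1 / (p : ℝ) else 0) := by split_ifs <;> positivity
    have hnr : nr f p ≤ n := by
      unfold nr
      rw [hn]
      exact_mod_cast card_R_le hf hp.1
    by_cases h1 : (p : ℝ) ≤ z₁
    · have h2 : (p : ℝ) ≤ z₂ := h1.trans hz₁₂
      have a1 : ¬ (z₁ < (p : ℝ) ∧ (p : ℝ) ≤ z₂) := fun h => not_lt.2 h1 h.1
      have a2 : ¬ (z₁ < (p : ℝ) ∧ (p : ℝ) ≤ z₂ ∧ (R f p).card = f.natDegree) :=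
        fun h => not_lt.2 h1 h.1
      rw [if_neg a1, if_neg a2, if_pos h1, if_pos h2, div_eq_mul_one_div]
      have := mul_le_mul_of_nonneg_right hnr hinv.le
      linarith
    · push Not at h1
      by_cases h2 : (p : ℝ) ≤ z₂
      · rw [if_pos ⟨h1, h2⟩, if_neg (not_le.2 h1), if_pos h2]
        have h3 := wt_le hf h6 hp.1
        have h4 := mul_le_mul_of_nonneg_right h3 hinv.le
        rw [div_eq_mul_one_div]
        refine h4.trans (le_of_eq ?_)
        by_cases h5 : (R f p).Nonempty <;> by_cases h6 : (R f p).card = f.natDegree <;>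
          (simp [h5, h6, h1, h2]; try ring)
      · have a1 : ¬ (z₁ < (p : ℝ) ∧ (p : ℝ) ≤ z₂) := fun h => h2 h.2
        have a2 : ¬ (z₁ < (p : ℝ) ∧ (p : ℝ) ≤ z₂ ∧ (R f p).card = f.natDegree) :=
          fun h => h2 h.2.1
        rw [if_neg a1, if_neg a2, if_neg (not_le.2 h1), if_neg h2, div_eq_mul_one_div]
        have := mul_le_mul_of_nonneg_right hnr hinv.le
        linarith
  have hsum := sum_le_sum hpt
  rw [sum_add_distrib, sum_add_distrib, sum_sub_distrib, sum_sub_distrib, ← mul_sum, ← mul_sum,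
    ← mul_sum, ← mul_sum, sum_root, sum_small (fun p => 1 / (p : ℝ)) (hz₁₂.trans hz₂X) (by linarith),
    sum_small (fun p => 1 / (p : ℝ)) hz₂X (by linarith)] at hsum
  have hMX := (abs_le.1 (hM X hX1)).2
  rw [Nat.floor_natCast, ← hL] at hMX
  have hM₁ := (abs_le.1 (hM z₁ h3z₁)).2
  have hM₂ := (abs_le.1 (hM z₂ h3z₂)).1
  rw [e₁] at hM₁
  rw [e₂] at hM₂
  have hS1 := hSM z₁ z₂ h3z₁ hz₁₂
  rw [e₁, e₂] at hS1
  have hsub : ∑ p ∈ (Icc 1 ⌊z₂⌋₊).filter (fun p : ℕ => p.Prime ∧ z₁ < (p : ℝ) ∧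
        (R f p).card = f.natDegree), 1 / (p : ℝ) ≤
      ∑ p ∈ PR X, (if z₁ < (p : ℝ) ∧ (p : ℝ) ≤ z₂ ∧ (R f p).card = f.natDegree
        then 1 / (p : ℝ) else 0) := by
    rw [← sum_filter]
    apply sum_le_sum_of_subset_of_nonneg
    · intro p hp
      rw [mem_filter, mem_Icc] at hp
      obtain ⟨⟨_, h2⟩, h3, h4, h5⟩ := hp
      have h6 : (p : ℝ) ≤ z₂ := (Nat.le_floor_iff (by linarith)).1 h2
      rw [mem_filter, mem_PR]
      exact ⟨⟨h3, by exact_mod_cast h6.trans hz₂X⟩, h4, h6, h5⟩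
    · intro p _ _
      positivity
  -- assembling
  have hprod := prod_le_exp (PR X) (fun p : ℕ =>
    (if z₁ < (p : ℝ) ∧ (p : ℝ) ≤ z₂ then wt f p else nr f p)) (fun p _ => by
      split_ifs
      · exact wt_nonneg p
      · exact nr_nonneg p)
  refine hprod.trans ?_
  have hge := prod_ge_exp (rootPrimes f X) (fun p hp => by
    unfold rootPrimes at hp
    rw [mem_filter] at hp
    exact hp.2.1)
  refine le_trans ?_ (mul_le_mul_of_nonneg_left hge (by positivity))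
  rw [Real.rpow_def_of_pos hL0, ← Real.exp_add, ← Real.exp_add, Real.exp_le_exp]
  have k1 := mul_le_mul_of_nonneg_left hM₁ hn0.le
  have k2 := mul_le_mul_of_nonneg_left hM₂ hn0.le
  have k3 := mul_le_mul_of_nonneg_left hMX hn0.le
  have k4 : κ * ((1 - η) * Real.log L - η * Real.log L) ≥ κ * (1 / 2) * Real.log L := by
    have : (1 / 2) * Real.log L ≤ (1 - η) * Real.log L - η * Real.log L := by nlinarith
    nlinarith
  have k5 : η * n * Real.log L ≤ 5 / 64 * κ * Real.log L := mul_le_mul_of_nonneg_right hη2 hlL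
  nlinarith

/-- E2 -/
theorem euler_short (f : ℤ[X]) (h1n : 1 ≤ f.natDegree) (hS : SplitMert f) (η : ℝ) (hη0 : 0 < η)
    (hη1 : η < 1) : ∃ c : ℝ, 0 < c ∧ ∃ (C : ℝ) (X₀ : ℕ), 0 < C ∧ ∀ X : ℕ, X₀ ≤ X →
      ∏ p ∈ (rootPrimes f X).filter (fun p : ℕ => (p : ℝ) ≤ Real.exp (Real.log X ^ (1 - η / 2))),
        (1 + 1 / (p : ℝ)) ≤ C * Real.log X ^ (-c) * ∏ p ∈ rootPrimes f X, (1 + 1 / (p : ℝ)) := by
  obtain ⟨κ, B, hκ, hSM⟩ := hS
  obtain ⟨X₁, hX₁⟩ := eventually_rpow_log (a := 1 - η / 2) (by linarith) 2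
  refine ⟨κ * (η / 2), by positivity, Real.exp (B + 1), max X₁ 3, Real.exp_pos _, fun X hX => ?_⟩
  have hX1 : (3 : ℝ) ≤ X := by exact_mod_cast (le_max_right _ _).trans hX
  have hL2 := hX₁ X ((le_max_left _ _).trans hX)
  set L := Real.log X with hL
  have hL0 : 0 < L := Real.log_pos (by linarith)
  have hL1 : 1 ≤ L := by
    by_contra hcon
    push Not at hcon
    have : L ^ (1 - η / 2) ≤ 1 := Real.rpow_le_one hL0.le hcon.le (by linarith)
    linarith
  set z₃ := Real.exp (L ^ (1 - η / 2)) with hz₃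
  have h3z₃ : 3 ≤ z₃ := three_le_exp_two.trans (Real.exp_le_exp.2 hL2)
  have hz₃X : z₃ ≤ X := by
    rw [hz₃, ← Real.le_log_iff_exp_le (by linarith), ← hL]
    calc L ^ (1 - η / 2) ≤ L ^ (1 : ℝ) := Real.rpow_le_rpow_of_exponent_le hL1 (by linarith)
      _ = L := Real.rpow_one L
  have e₃ : Real.log (Real.log z₃) = (1 - η / 2) * Real.log L := by
    rw [hz₃, Real.log_exp, Real.log_rpow hL0]
  have hS1 := hSM z₃ X h3z₃ hz₃X
  rw [e₃, Nat.floor_natCast, ← hL] at hS1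
  rw [← prod_filter_mul_prod_filter_not (rootPrimes f X) (fun p : ℕ => (p : ℝ) ≤ z₃)]
  set A := ∏ p ∈ (rootPrimes f X).filter (fun p : ℕ => (p : ℝ) ≤ z₃), (1 + 1 / (p : ℝ)) with hA
  have hA0 : 0 < A := prod_pos fun p _ => by positivity
  have hge := prod_ge_exp ((rootPrimes f X).filter (fun p : ℕ => ¬ (p : ℝ) ≤ z₃)) (fun p hp => by
    rw [mem_filter] at hp
    have := hp.1
    unfold rootPrimes at this
    rw [mem_filter] at this
    exact this.2.1)
  have hsub : ∑ p ∈ (Icc 1 X).filter (fun p : ℕ => p.Prime ∧ z₃ < (p : ℝ) ∧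
        (R f p).card = f.natDegree), 1 / (p : ℝ) ≤
      ∑ p ∈ (rootPrimes f X).filter (fun p : ℕ => ¬ (p : ℝ) ≤ z₃), 1 / (p : ℝ) := by
    apply sum_le_sum_of_subset_of_nonneg
    · intro p hp
      rw [mem_filter] at hp
      obtain ⟨h2, h3, h4, h5⟩ := hp
      rw [mem_filter]
      unfold rootPrimes
      rw [mem_filter]
      exact ⟨⟨h2, h3, card_pos.1 (by omega)⟩, not_le.2 h4⟩
    · intro p _ _
      positivity
  have h5 : Real.exp (κ * (η / 2) * Real.log L - B - 1) ≤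
      ∏ p ∈ (rootPrimes f X).filter (fun p : ℕ => ¬ (p : ℝ) ≤ z₃), (1 + 1 / (p : ℝ)) := by
    refine le_trans (Real.exp_le_exp.2 ?_) hge
    have : κ * (Real.log L - (1 - η / 2) * Real.log L) = κ * (η / 2) * Real.log L := by ring
    linarith
  have h6 : Real.exp (B + 1) * L ^ (-(κ * (η / 2))) *
      (A * Real.exp (κ * (η / 2) * Real.log L - B - 1)) = A := by
    rw [Real.rpow_def_of_pos hL0]
    calc Real.exp (B + 1) * Real.exp (Real.log L * -(κ * (η / 2))) *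
      (A * Real.exp (κ * (η / 2) * Real.log L - B - 1)) = A * (Real.exp (B + 1) *
        Real.exp (Real.log L * -(κ * (η / 2))) * Real.exp (κ * (η / 2) * Real.log L - B - 1)) := by
          ring
      _ = A := by
        rw [← Real.exp_add, ← Real.exp_add]
        have : B + 1 + Real.log L * -(κ * (η / 2)) + (κ * (η / 2) * Real.log L - B - 1) = 0 := by
          ring
        rw [this, Real.exp_zero, mul_one]
  calc A = Real.exp (B + 1) * L ^ (-(κ * (η / 2))) *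
      (A * Real.exp (κ * (η / 2) * Real.log L - B - 1)) := h6.symm
    _ ≤ _ := by
      apply mul_le_mul_of_nonneg_left _ (by positivity)
      exact mul_le_mul_of_nonneg_left h5 hA0.le

/-- E3 (Rankin) -/
theorem euler_rankin (A : ℝ) (hA : 0 ≤ A) (η : ℝ) (hη0 : 0 < η) (hη1 : η < 1) :
    ∃ (C : ℝ) (X₀ : ℕ), 0 < C ∧ ∀ X : ℕ, X₀ ≤ X →
      ∑ T ∈ (((Icc 1 X).filter Nat.Prime).filter (fun p : ℕ => Real.exp (Real.log X ^ η) < (p : ℝ) ∧
        (p : ℝ) ≤ Real.exp (Real.log X ^ (1 - η)))).powerset.filter (fun T =>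
          Real.exp (Real.log X ^ (1 - 3 * η / 4)) < ((∏ p ∈ T, p : ℕ) : ℝ)),
        A ^ T.card / ((∏ p ∈ T, p : ℕ) : ℝ) ≤
        C * Real.log X ^ C * Real.exp (-(Real.log X ^ (η / 4))) := by
  obtain ⟨C₁, hC₁, h4⟩ := euler_const (A * Real.exp 1) (by positivity)
  refine ⟨max C₁ (A * Real.exp 1), 3, lt_of_lt_of_le hC₁ (le_max_left _ _), fun X hX => ?_⟩
  have hX1 : (3 : ℝ) ≤ X := by exact_mod_cast hX
  have hE := h4 X hX
  set L := Real.log X with hL
  have hL1 : 1 ≤ L := by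
    rw [hL, Real.le_log_iff_exp_le (by linarith)]
    have := Real.exp_one_lt_d9
    linarith
  have hL0 : 0 < L := by linarith
  set S := ((Icc 1 X).filter Nat.Prime).filter (fun p : ℕ => Real.exp (L ^ η) < (p : ℝ) ∧
        (p : ℝ) ≤ Real.exp (L ^ (1 - η))) with hS
  set δ := L ^ (-(1 - η)) with hδ
  have hδ0 : 0 < δ := Real.rpow_pos_of_pos hL0 _
  -- termwise
  have hterm : ∀ T ∈ S.powerset.filter (fun T =>
      Real.exp (L ^ (1 - 3 * η / 4)) < ((∏ p ∈ T, p : ℕ) : ℝ)),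
      A ^ T.card / ((∏ p ∈ T, p : ℕ) : ℝ) ≤
        Real.exp (-(L ^ (η / 4))) * ∏ p ∈ T, (A * Real.exp 1 / (p : ℝ)) := by
    intro T hT
    rw [mem_filter, mem_powerset] at hT
    obtain ⟨hTS, hT2⟩ := hT
    have hm0 : (0 : ℝ) < ((∏ p ∈ T, p : ℕ) : ℝ) := lt_trans (Real.exp_pos _) hT2
    have h1 : Real.exp (L ^ (η / 4)) ≤ ((∏ p ∈ T, p : ℕ) : ℝ) ^ δ := by
      rw [Real.rpow_def_of_pos hm0, Real.exp_le_exp]
      have h2 : L ^ (1 - 3 * η / 4) ≤ Real.log ((∏ p ∈ T, p : ℕ) : ℝ) := by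
        rw [Real.le_log_iff_exp_le hm0]
        exact hT2.le
      calc L ^ (η / 4) = L ^ (1 - 3 * η / 4) * δ := by
            rw [hδ, ← Real.rpow_add hL0]
            congr 1
            ring
        _ ≤ _ := mul_le_mul_of_nonneg_right h2 hδ0.le
    have h3 : ((∏ p ∈ T, p : ℕ) : ℝ) ^ δ ≤ Real.exp 1 ^ T.card := by
      push_cast
      rw [← Real.finsetProd_rpow _ _ fun p _ => Nat.cast_nonneg p, ← prod_const]
      refine prod_le_prod (fun p _ => Real.rpow_nonneg (Nat.cast_nonneg p) _) fun p hp => ?_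
      have hpS := hTS hp
      rw [hS, mem_filter, mem_filter] at hpS
      have hp0 : (0 : ℝ) < p := by exact_mod_cast hpS.1.2.pos
      rw [Real.rpow_def_of_pos hp0, Real.exp_le_exp]
      have h4 : Real.log p ≤ L ^ (1 - η) := by
        rw [Real.log_le_iff_le_exp hp0]
        exact hpS.2.2
      calc Real.log p * δ ≤ L ^ (1 - η) * δ := mul_le_mul_of_nonneg_right h4 hδ0.le
        _ = 1 := by
          rw [hδ, ← Real.rpow_add hL0]
          simp
    have h5 : ∏ p ∈ T, (A * Real.exp 1 / (p : ℝ)) =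
        A ^ T.card * Real.exp 1 ^ T.card / ((∏ p ∈ T, p : ℕ) : ℝ) := by
      rw [prod_div_distrib, prod_const, mul_pow]
      push_cast
      rfl
    rw [h5, Real.exp_neg, ← mul_div_assoc]
    apply div_le_div_of_nonneg_right _ hm0.le
    rw [inv_mul_eq_div, le_div_iff₀ (Real.exp_pos _)]
    exact mul_le_mul_of_nonneg_left (h1.trans h3) (by positivity)
  refine (sum_le_sum hterm).trans ?_
  refine (sum_le_sum_of_subset_of_nonneg (filter_subset _ _) fun T _ _ => by positivity).trans ?_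
  rw [← mul_sum, ← Finset.prod_one_add]
  have h6 : ∏ p ∈ S, (1 + A * Real.exp 1 / (p : ℝ)) ≤
      ∏ p ∈ (Icc 1 X).filter Nat.Prime, (1 + A * Real.exp 1 / (p : ℝ)) := by
    apply prod_le_prod_of_subset_of_one_le (filter_subset _ _)
    · intro p _
      positivity
    · intro p _ _
      have : 0 ≤ A * Real.exp 1 / (p : ℝ) := by positivity
      linarith
  have h7 : L ^ (A * Real.exp 1) ≤ L ^ (max C₁ (A * Real.exp 1)) :=
    Real.rpow_le_rpow_of_exponent_le hL1 (le_max_right _ _)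
  calc Real.exp (-(L ^ (η / 4))) * ∏ p ∈ S, (1 + A * Real.exp 1 / (p : ℝ))
      ≤ Real.exp (-(L ^ (η / 4))) * (C₁ * L ^ (A * Real.exp 1)) :=
        mul_le_mul_of_nonneg_left (h6.trans hE) (Real.exp_pos _).le
    _ ≤ Real.exp (-(L ^ (η / 4))) * (max C₁ (A * Real.exp 1) * L ^ (max C₁ (A * Real.exp 1))) := by
        apply mul_le_mul_of_nonneg_left _ (Real.exp_pos _).le
        exact mul_le_mul (le_max_left _ _) h7 (Real.rpow_nonneg hL0.le _)
          (hC₁.le.trans (le_max_left _ _))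
    _ = _ := by ring

end main

end Stoll308.Gen
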