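import Pool.Agent.Work.MP_308fa9_nt.Gen.LocalThm

set_option autoImplicit false

/-!
From `ℚ_p[X]/f` to `ℚ[X]/f`: approximation.
-/

namespace Stoll308.Gen

open Polynomial Finset NumberTheorySymbols

variable {p : ℕ} [hp : Fact p.Prime] {f : ℤ[X]}

/-- `f` over `ℚ`. -/
noncomputable abbrev fr (f : ℤ[X]) : ℚ[X] := f.map (Int.castRingHom ℚ)

lemma fr_map : (fr f).map (algebraMap ℚ ℚ_[p]) = fq f p := map_cast_map f _

/-- Integral polynomials. -/
def IsInt (p : ℕ) [Fact p.Prime] (q : ℚ_[p][X]) : Prop :=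
  ∃ q₀ : ℤ_[p][X], q₀.map (algebraMap ℤ_[p] ℚ_[p]) = q

lemma IsInt.mul {q r : ℚ_[p][X]} (hq : IsInt p q) (hr : IsInt p r) : IsInt p (q * r) := by
  obtain ⟨q, rfl⟩ := hq
  obtain ⟨r, rfl⟩ := hr
  exact ⟨q * r, Polynomial.map_mul _⟩

lemma IsInt.sub {q r : ℚ_[p][X]} (hq : IsInt p q) (hr : IsInt p r) : IsInt p (q - r) := by
  obtain ⟨q, rfl⟩ := hq
  obtain ⟨r, rfl⟩ := hr
  exact ⟨q - r, Polynomial.map_sub _⟩

lemma isInt_of_coeff {q : ℚ_[p][X]} (h : ∀ i, ‖q.coeff i‖ ≤ 1) : IsInt p q := by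
  have h' : ∀ i, ∃ c : ℤ_[p], (c : ℚ_[p]) = q.coeff i := fun i => ⟨⟨q.coeff i, h i⟩, rfl⟩
  choose c hc using h'
  refine ⟨∑ i ∈ range (q.natDegree + 1), C (c i) * X ^ i, ?_⟩
  rw [Polynomial.map_sum]
  conv_rhs => rw [q.as_sum_range_C_mul_X_pow]
  refine sum_congr rfl fun i _ => ?_
  rw [Polynomial.map_mul, map_C, Polynomial.map_pow, map_X, PadicInt.algebraMap_apply, hc]

lemma norm_coeff_le {q : ℚ_[p][X]} (h : IsInt p q) (i : ℕ) : ‖q.coeff i‖ ≤ 1 := by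
  obtain ⟨q, rfl⟩ := h
  rw [coeff_map]
  exact PadicInt.norm_le_one (q.coeff i)

/-- Every polynomial becomes integral after multiplication by a power of `p`. -/
lemma exists_pow_isInt (q : ℚ_[p][X]) :
    ∃ M : ℕ, ∀ M', M ≤ M' → IsInt p (C ((p : ℚ_[p]) ^ M') * q) := by
  obtain ⟨B, hB⟩ : ∃ B : ℝ, ∀ i, ‖q.coeff i‖ ≤ B := by
    refine ⟨∑ i ∈ range (q.natDegree + 1), ‖q.coeff i‖, fun i => ?_⟩
    by_cases hi : i ≤ q.natDegree
    · exact single_le_sum (f := fun i => ‖q.coeff i‖) (fun j _ => norm_nonneg _)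
        (mem_range.2 (by omega))
    · rw [coeff_eq_zero_of_natDegree_lt (by omega), norm_zero]
      exact sum_nonneg fun _ _ => norm_nonneg _
  have hp1 : (1 : ℝ) < p := by exact_mod_cast hp.out.one_lt
  obtain ⟨M, hM⟩ := pow_unbounded_of_one_lt B hp1
  refine ⟨M, fun M' hM' => isInt_of_coeff fun i => ?_⟩
  rw [coeff_C_mul, norm_mul, norm_pow, Padic.norm_p, inv_pow]
  have hpp : (0 : ℝ) < (p : ℝ) ^ M' := by positivity
  rw [inv_mul_le_iff₀ hpp, mul_one]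
  exact (hB i).trans (hM.le.trans (pow_le_pow_right₀ hp1.le hM'))

/-- Approximation of a polynomial over `ℚ_p` by a polynomial over `ℚ`. -/
lemma exists_approx (W : ℚ_[p][X]) (K : ℕ) :
    ∃ W' : ℚ[X], ∃ V : ℚ_[p][X], IsInt p V ∧
      W = W'.map (algebraMap ℚ ℚ_[p]) + C ((p : ℚ_[p]) ^ K) * V := by
  have hp0 : (0 : ℝ) < p := by exact_mod_cast hp.out.pos
  have hε : (0 : ℝ) < ((p : ℝ) ^ K)⁻¹ := by positivity
  choose r hr using fun i => Padic.rat_dense p (W.coeff i) hε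
  set W' : ℚ[X] := ∑ i ∈ range (W.natDegree + 1), C (r i) * X ^ i with hW'
  have hcoeff : ∀ i, W'.coeff i = if i ≤ W.natDegree then r i else 0 := by
    intro i
    rw [hW', finsetSum_coeff]
    simp only [coeff_C_mul_X_pow]
    by_cases hi : i ≤ W.natDegree
    · rw [if_pos hi, sum_eq_single i]
      · simp
      · intro j _ hj
        rw [if_neg (fun h => hj h.symm)]
      · intro h
        exact absurd (mem_range.2 (by omega)) h
    · rw [if_neg hi]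
      refine sum_eq_zero fun j hj => ?_
      rw [mem_range] at hj
      rw [if_neg (by omega)]
  refine ⟨W', C ((p : ℚ_[p]) ^ K)⁻¹ * (W - W'.map (algebraMap ℚ ℚ_[p])), ?_, ?_⟩
  · apply isInt_of_coeff
    intro i
    rw [coeff_C_mul, coeff_sub, coeff_map, hcoeff, norm_mul, norm_inv, norm_pow, Padic.norm_p,
      inv_pow, inv_inv]
    have hpp : (0 : ℝ) < (p : ℝ) ^ K := by positivity
    split_ifs with hi
    · have h1 := (hr i).le
      have h2 : (algebraMap ℚ ℚ_[p]) (r i) = ((r i : ℚ) : ℚ_[p]) := by simp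
      rw [h2]
      calc (p : ℝ) ^ K * ‖W.coeff i - (r i : ℚ_[p])‖ ≤ (p : ℝ) ^ K * ((p : ℝ) ^ K)⁻¹ :=
            mul_le_mul_of_nonneg_left h1 hpp.le
        _ = 1 := mul_inv_cancel₀ hpp.ne'
    · rw [coeff_eq_zero_of_natDegree_lt (by omega)]
      simp
  · rw [← mul_assoc, ← C_mul, mul_inv_cancel₀ (pow_ne_zero _ p_ne_zero_q), C_1, one_mul]
    ring

/-- A rational polynomial with `p`-integral coefficients has a denominator prime to `p`. -/
lemma exists_den {a : ℚ[X]} (h : IsInt p (a.map (algebraMap ℚ ℚ_[p]))) :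
    ∃ (d : ℤ) (b : ℤ[X]), ¬ (p : ℤ) ∣ d ∧ b.map (Int.castRingHom ℚ) = C (d : ℚ) * a := by
  set d : ℤ := ∏ i ∈ range (a.natDegree + 1), ((a.coeff i).den : ℤ) with hd
  have hden : ∀ i, ¬ (p : ℤ) ∣ ((a.coeff i).den : ℤ) := by
    intro i hdiv
    have h1 := norm_coeff_le h i
    rw [coeff_map] at h1
    have h2 : (algebraMap ℚ ℚ_[p]) (a.coeff i) = ((a.coeff i : ℚ) : ℚ_[p]) := by simp
    rw [h2] at h1
    have h3 := PadicInt.isUnit_den (a.coeff i) h1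
    rw [← rd_ne_zero_iff, map_natCast, Ne, ZMod.natCast_eq_zero_iff] at h3
    exact h3 (Int.natCast_dvd_natCast.1 hdiv)
  have hz : ∀ i ∈ range (a.natDegree + 1), ∃ z : ℤ, (z : ℚ) = d * a.coeff i := by
    intro i hi
    rw [hd, ← mul_prod_erase _ _ hi]
    refine ⟨(∏ j ∈ (range (a.natDegree + 1)).erase i, ((a.coeff j).den : ℤ)) * (a.coeff i).num, ?_⟩
    have h1 := Rat.den_mul_eq_num (a.coeff i)
    push_cast
    rw [← h1]
    ring
  choose! z hz using hz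
  refine ⟨d, ∑ i ∈ range (a.natDegree + 1), C (z i) * X ^ i, ?_, ?_⟩
  · rw [hd, Prime.dvd_finsetProd_iff (Nat.prime_iff_prime_int.1 hp.out)]
    rintro ⟨i, -, hi⟩
    exact hden i hi
  · rw [Polynomial.map_sum]
    conv_rhs => rw [a.as_sum_range_C_mul_X_pow, mul_sum]
    refine sum_congr rfl fun i hi => ?_
    rw [Polynomial.map_mul, map_C, Polynomial.map_pow, map_X, ← mul_assoc, ← C_mul]
    congr 2
    rw [eq_intCast]
    exact hz i hi

/-- The rational form of the statement that `p^e Δ w²` is a unit at `p`. -/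
def EvenAt (f : ℤ[X]) (p : ℕ) (Δ : ℚ[X]) : Prop :=
  ∃ (w : ℚ[X]) (a : ℤ[X]) (d : ℤ), ¬ (p : ℤ) ∣ d ∧ IsCoprime (a.map (Int.castRingHom (ZMod p))) (fp f p) ∧
    fr f ∣ C (d : ℚ) * Δ * w ^ 2 - a.map (Int.castRingHom ℚ)

theorem evenAt_of_UU (hf : f.Monic) {Δ : ℚ[X]} {e : ℤ} {w : AdjoinRoot (fq f p)}
    (h : UU f p (mkq f p (C ((p : ℚ_[p]) ^ e)) * mkq f p (dq Δ p) * w ^ 2)) :
    EvenAt f p (C ((p : ℚ) ^ e) * Δ) := by
  obtain ⟨u, hu, huw⟩ := h
  obtain ⟨W, rfl⟩ := AdjoinRoot.mk_surjective w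
  rw [mkz_apply, ← map_pow, ← map_mul, ← map_mul] at huw
  have hdvd := AdjoinRoot.mk_eq_mk.1 huw
  set Y : ℚ[X] := C ((p : ℚ) ^ e) * Δ with hY
  set YY : ℚ_[p][X] := Y.map (algebraMap ℚ ℚ_[p]) with hYY
  have hYe : YY = C ((p : ℚ_[p]) ^ e) * dq Δ p := by
    rw [hYY, hY, Polynomial.map_mul, map_C]
    simp
  rw [← hYe] at hdvd
  obtain ⟨M₁, hM₁⟩ := exists_pow_isInt YY
  obtain ⟨M₂, hM₂⟩ := exists_pow_isInt W
  set M := max M₁ M₂ with hM
  have hYM := hM₁ M (le_max_left _ _)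
  have hWM := hM₂ M (le_max_right _ _)
  obtain ⟨W', V, hV, hWV⟩ := exists_approx W (3 * M + 1)
  -- the difference is `p` times an integral polynomial
  obtain ⟨I, hI⟩ : ∃ I : ℤ_[p][X], YY * W ^ 2 - YY * (W'.map (algebraMap ℚ ℚ_[p])) ^ 2 =
      (C (p : ℤ_[p]) * I).map (algebraMap ℤ_[p] ℚ_[p]) := by
    have h2 : IsInt p (C ((p : ℚ_[p]) ^ M) *
        (W + W'.map (algebraMap ℚ ℚ_[p]))) := by
      have h3 : C ((p : ℚ_[p]) ^ M) * (W + W'.map (algebraMap ℚ ℚ_[p])) =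
          (C ((p : ℚ_[p]) ^ M) * W) * C 2 - C ((p : ℚ_[p]) ^ M) * (C ((p : ℚ_[p]) ^ (3 * M + 1)) * V) := by
        have : W'.map (algebraMap ℚ ℚ_[p]) = W - C ((p : ℚ_[p]) ^ (3 * M + 1)) * V := by
          rw [hWV]; ring
        rw [this]
        have h2C : (C 2 : ℚ_[p][X]) = 2 := map_ofNat C 2
        rw [h2C]
        ring
      rw [h3]
      have hC : ∀ k : ℕ, IsInt p (C ((p : ℚ_[p]) ^ k)) := fun k =>
        ⟨C ((p : ℤ_[p]) ^ k), by rw [map_C]; simp⟩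
      refine (hWM.mul ⟨C 2, by rw [map_C, map_ofNat]⟩).sub ((hC _).mul ((hC _).mul hV))
    obtain ⟨J, hJ⟩ := (hYM.mul h2).mul hV
    refine ⟨C ((p : ℤ_[p]) ^ M) * J, ?_⟩
    rw [Polynomial.map_mul, Polynomial.map_mul, hJ, map_C, map_C]
    have h4 : YY * W ^ 2 - YY * (W'.map (algebraMap ℚ ℚ_[p])) ^ 2 =
        YY * (W + W'.map (algebraMap ℚ ℚ_[p])) * (C ((p : ℚ_[p]) ^ (3 * M + 1)) * V) := by
      have : C ((p : ℚ_[p]) ^ (3 * M + 1)) * V = W - W'.map (algebraMap ℚ ℚ_[p]) := by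
        rw [hWV]; ring
      rw [this]
      ring
    rw [h4]
    have h5 : (C ((p : ℚ_[p]) ^ (3 * M + 1)) : ℚ_[p][X]) =
        C ((algebraMap ℤ_[p] ℚ_[p]) (p : ℤ_[p])) * C ((algebraMap ℤ_[p] ℚ_[p]) ((p : ℤ_[p]) ^ M)) *
          C ((p : ℚ_[p]) ^ M) * C ((p : ℚ_[p]) ^ M) := by
      rw [← C_mul, ← C_mul, ← C_mul]
      congr 1
      rw [map_pow, map_natCast]
      ring
    rw [h5]
    ring
  -- the reduced polynomial
  set a₀ : ℚ[X] := (Y * W' ^ 2) %ₘ (fr f) with ha₀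
  have hfm : (fr f).Monic := hf.map _
  have hzm : (fz f p).Monic := hf.map _
  have hqm : (fq f p).Monic := hf.map _
  have hpm : (fp f p).Monic := hf.map _
  set u' : ℤ_[p][X] := (u - C (p : ℤ_[p]) * I) %ₘ (fz f p) with hu'
  have hmap : a₀.map (algebraMap ℚ ℚ_[p]) = u'.map (algebraMap ℤ_[p] ℚ_[p]) := by
    rw [ha₀, map_modByMonic _ hfm, fr_map, hu', map_modByMonic _ hzm, fz_map',
      ← sub_eq_zero, ← sub_modByMonic, modByMonic_eq_zero_iff_dvd hqm]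
    rw [Polynomial.map_sub, ← hI, Polynomial.map_mul, Polynomial.map_pow, ← hYY]
    have h6 : YY * (W'.map (algebraMap ℚ ℚ_[p])) ^ 2 - (u.map (algebraMap ℤ_[p] ℚ_[p]) -
        (YY * W ^ 2 - YY * (W'.map (algebraMap ℚ ℚ_[p])) ^ 2)) =
        -(u.map (algebraMap ℤ_[p] ℚ_[p]) - YY * W ^ 2) := by ring
    rw [h6, dvd_neg]
    exact hdvd
  obtain ⟨d, b, hd, hb⟩ := exists_den (p := p) (a := a₀) ⟨u', hmap.symm⟩
  refine ⟨W', b, d, hd, ?_, ?_⟩
  · -- coprimality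
    have hbu : b.map (Int.castRingHom ℤ_[p]) = C (d : ℤ_[p]) * u' := by
      apply Polynomial.map_injective (algebraMap ℤ_[p] ℚ_[p])
        (FaithfulSMul.algebraMap_injective ℤ_[p] ℚ_[p])
      rw [map_cast_map, ← map_cast_map b (algebraMap ℚ ℚ_[p]), hb, Polynomial.map_mul,
        Polynomial.map_mul, hmap, map_C, map_C]
      simp
    have hbr : b.map (Int.castRingHom (ZMod p)) = C (d : ZMod p) * (u.map (rd p) %ₘ fp f p) := by
      rw [← map_cast_map b (rd p), hbu, Polynomial.map_mul, map_C, rd_intCast, hu',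
        map_modByMonic _ hzm, fz_map]
      congr 2
      rw [Polynomial.map_sub, Polynomial.map_mul, map_C, map_natCast, CharP.cast_eq_zero, C_0,
        zero_mul, sub_zero]
    rw [hbr]
    have hdu : IsUnit (C (d : ZMod p)) := by
      rw [Polynomial.isUnit_C, isUnit_iff_ne_zero, Ne, ZMod.intCast_zmod_eq_zero_iff_dvd]
      exact hd
    have h7 : IsCoprime (u.map (rd p) %ₘ fp f p) (fp f p) := by
      have h8 : u.map (rd p) %ₘ fp f p = u.map (rd p) + fp f p * (-(u.map (rd p) /ₘ fp f p)) := by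
        have := modByMonic_add_div (u.map (rd p)) (fp f p)
        linear_combination this
      rw [h8]
      exact hu.add_mul_left_left _
    exact (isCoprime_mul_unit_left_left hdu _ _).2 h7
  · rw [hb, mul_assoc, ← mul_sub]
    apply Dvd.dvd.mul_left
    rw [ha₀]
    refine ⟨(Y * W' ^ 2) /ₘ (fr f), ?_⟩
    have := modByMonic_add_div (Y * W' ^ 2) (fr f)
    linear_combination (-1 : ℚ[X]) * this

end Stoll308.Gen
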