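import Mathlib

set_option autoImplicit false

/-! Sums over boxes of products of periodic functions. -/

namespace Stoll308.Gen

open Finset

/-- the box `[-B, B]^n` -/
noncomputable def box (B n : ℕ) : Finset (Fin n → ℤ) := Fintype.piFinset fun _ => Icc (-(B : ℤ)) B

lemma mem_box {B n : ℕ} {g : Fin n → ℤ} : g ∈ box B n ↔ ∀ i, -(B : ℤ) ≤ g i ∧ g i ≤ B := by
  unfold box
  simp only [Fintype.mem_piFinset, mem_Icc]

lemma card_box (B n : ℕ) : (box B n).card = (2 * B + 1) ^ n := by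
  unfold box
  rw [Fintype.card_piFinset, prod_const, Int.card_Icc, card_univ, Fintype.card_fin]
  congr 1
  omega

section shift

variable {n : ℕ}

/-- A function which is periodic modulo `p` as a function on `(ℤ/p)^n`. -/
lemma periodic_eq {p : ℕ} [NeZero p] (F : (Fin n → ℤ) → ℝ)
    (per : ∀ g g', (∀ i, (p : ℤ) ∣ g i - g' i) → F g = F g') (g : Fin n → ℤ) :
    F g = F (fun i => (((g i : ZMod p).val : ℕ) : ℤ)) := by
  apply per
  intro i
  rw [← ZMod.intCast_zmod_eq_zero_iff_dvd]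
  push_cast
  rw [ZMod.natCast_zmod_val, sub_self]

lemma sum_shift {p : ℕ} (hp : p.Prime) (F : (Fin n → ℤ) → ℝ)
    (per : ∀ g g', (∀ i, (p : ℤ) ∣ g i - g' i) → F g = F g') {q : ℕ} (hq : Nat.Coprime q p)
    (g : Fin n → ℤ) :
    ∑ v : Fin n → Fin p, F (fun i => g i + q * ((v i : ℕ) : ℤ)) =
      ∑ v : Fin n → Fin p, F (fun i => ((v i : ℕ) : ℤ)) := by
  have hNe : NeZero p := ⟨hp.ne_zero⟩
  have hfact : Fact p.Prime := ⟨hp⟩
  have hq0 : (q : ZMod p) ≠ 0 := by
    rw [Ne, ZMod.natCast_eq_zero_iff]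
    intro h
    have := Nat.Coprime.eq_one_of_dvd (Nat.Coprime.symm hq) h
    exact hp.one_lt.ne' this
  let e : ZMod p ≃ Fin p := (ZMod.finEquiv p).symm.toEquiv
  have he : ∀ x : Fin p, (((e.symm x : ZMod p)).val) = (x : ℕ) := by
    intro x
    obtain ⟨m, rfl⟩ : ∃ m, p = m + 1 := ⟨p - 1, by have := hp.pos; omega⟩
    rfl
  let G : (Fin n → ZMod p) → ℝ := fun x => F (fun i => (((x i).val : ℕ) : ℤ))
  have h1 : ∑ v : Fin n → Fin p, F (fun i => ((v i : ℕ) : ℤ)) = ∑ x : Fin n → ZMod p, G x := by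
    symm
    refine Fintype.sum_equiv (Equiv.piCongrRight fun _ => e) _ _ fun x => ?_
    simp only [G]
    congr 1
    ext i
    have := he (e (x i))
    rw [Equiv.symm_apply_apply] at this
    rw [this]
    rfl
  have h2 : ∑ v : Fin n → Fin p, F (fun i => g i + q * ((v i : ℕ) : ℤ)) =
      ∑ x : Fin n → ZMod p, G (fun i => (g i : ZMod p) + q * x i) := by
    symm
    refine Fintype.sum_equiv (Equiv.piCongrRight fun _ => e) _ _ fun x => ?_
    rw [periodic_eq F per (fun i => g i + q * (((Equiv.piCongrRight fun _ => e) x i : ℕ) : ℤ))]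
    simp only [G]
    congr 1
    ext i
    have := he (e (x i))
    rw [Equiv.symm_apply_apply] at this
    have h3 : (((Equiv.piCongrRight fun _ => e) x i : Fin p) : ℕ) = (x i).val := this.symm
    rw [h3]
    push_cast
    rw [ZMod.natCast_zmod_val]
  rw [h1, h2]
  refine Fintype.sum_bijective (fun (x : Fin n → ZMod p) (i : Fin n) => (g i : ZMod p) + q * x i)
    ?_ _ _ fun x => rfl
  constructor
  · intro x y hxy
    ext i
    have h3 := congrFun hxy i
    simp only [add_right_inj] at h3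
    exact mul_left_cancel₀ hq0 h3
  · intro y
    refine ⟨fun i => (q : ZMod p)⁻¹ * (y i - g i), ?_⟩
    ext i
    simp only
    rw [← mul_assoc, mul_inv_cancel₀ hq0, one_mul, add_sub_cancel]

/-- The number of points lost by a shift. -/
lemma card_box_sdiff (B Q : ℕ) (w : Fin n → ℤ) (hw0 : ∀ i, 0 ≤ w i) (hw : ∀ i, w i ≤ Q) :
    ((box B n) \ ((box B n).map (Equiv.addRight w).toEmbedding)).card ≤
      n * Q * (2 * B + 1) ^ (n - 1) := by
  classical
  have hsub : (box B n) \ ((box B n).map (Equiv.addRight w).toEmbedding) ⊆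
      univ.biUnion fun i : Fin n => Fintype.piFinset (Function.update
        (fun _ : Fin n => Icc (-(B : ℤ)) B) i (Ico (-(B : ℤ)) (-B + w i))) := by
    intro g hg
    rw [mem_sdiff, mem_map] at hg
    obtain ⟨hg, hng⟩ := hg
    rw [mem_biUnion]
    by_contra hcon
    push Not at hcon
    apply hng
    refine ⟨fun i => g i - w i, ?_, ?_⟩
    · rw [mem_box] at hg ⊢
      intro i
      have h1 := hg i
      refine ⟨?_, by linarith [hw0 i, h1.2]⟩
      by_contra hlt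
      push Not at hlt
      apply hcon i (mem_univ i)
      rw [Fintype.mem_piFinset]
      intro j
      by_cases hj : j = i
      · subst hj
        rw [Function.update_self, mem_Ico]
        exact ⟨h1.1, by linarith⟩
      · rw [Function.update_of_ne hj, mem_Icc]
        exact hg j
    · ext i
      simp
  refine (card_le_card hsub).trans (card_biUnion_le.trans ?_)
  have hcard : ∀ i : Fin n, (Fintype.piFinset (Function.update
        (fun _ : Fin n => Icc (-(B : ℤ)) B) i (Ico (-(B : ℤ)) (-B + w i)))).card ≤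
      Q * (2 * B + 1) ^ (n - 1) := by
    intro i
    rw [Fintype.card_piFinset]
    have h1 : ∀ j, (Function.update (fun _ : Fin n => Icc (-(B : ℤ)) B) i
        (Ico (-(B : ℤ)) (-B + w i)) j).card =
        Function.update (fun _ : Fin n => 2 * B + 1) i (w i).toNat j := by
      intro j
      by_cases hj : j = i
      · subst hj
        rw [Function.update_self, Function.update_self, Int.card_Ico]
        congr 1
        ring
      · rw [Function.update_of_ne hj, Function.update_of_ne hj, Int.card_Icc]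
        omega
    rw [prod_congr rfl fun j _ => h1 j, prod_update_of_mem (mem_univ i), prod_const]
    have h2 : (univ \ {i} : Finset (Fin n)).card = n - 1 := by
      rw [← erase_eq, card_erase_of_mem (mem_univ i), card_univ, Fintype.card_fin]
    rw [h2]
    apply Nat.mul_le_mul_right
    have := hw i
    omega
  refine (sum_le_sum fun i _ => hcard i).trans ?_
  rw [sum_const, card_univ, Fintype.card_fin, smul_eq_mul]
  exact le_of_eq (by ring)

lemma sum_box_shift (B Q : ℕ) (w : Fin n → ℤ) (hw0 : ∀ i, 0 ≤ w i) (hw : ∀ i, w i ≤ Q)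
    (H : (Fin n → ℤ) → ℝ) (hH : ∀ g, |H g| ≤ 1) :
    |∑ g ∈ box B n, H g - ∑ g ∈ box B n, H (g + w)| ≤ 2 * n * Q * (2 * B + 1 : ℝ) ^ (n - 1) := by
  classical
  set A := box B n with hA
  set A' := A.map (Equiv.addRight w).toEmbedding with hA'
  have h1 : ∑ g ∈ A, H (g + w) = ∑ g ∈ A', H g := by
    rw [hA', sum_map]
    rfl
  have h2 : A.card = A'.card := by rw [hA', card_map]
  have h3 : (A \ A').card = (A' \ A).card := card_sdiff_comm h2
  have h4 : (A \ A').card ≤ n * Q * (2 * B + 1) ^ (n - 1) := card_box_sdiff B Q w hw0 hw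
  have hb : ∀ s : Finset (Fin n → ℤ), |∑ g ∈ s, H g| ≤ s.card := by
    intro s
    refine (abs_sum_le_sum_abs _ _).trans ((sum_le_sum fun g _ => hH g).trans ?_)
    simp
  have h5 : ∑ g ∈ A, H g - ∑ g ∈ A', H g = ∑ g ∈ A \ A', H g - ∑ g ∈ A' \ A, H g := by
    rw [← sum_inter_add_sum_sdiff A A', ← sum_inter_add_sum_sdiff A' A, inter_comm A' A]
    ring
  rw [h1, h5]
  have h6 := hb (A \ A')
  have h7 := hb (A' \ A)
  rw [← h3] at h7
  have h8 : ((A \ A').card : ℝ) ≤ n * Q * (2 * B + 1 : ℝ) ^ (n - 1) := by exact_mod_cast h4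
  calc |∑ g ∈ A \ A', H g - ∑ g ∈ A' \ A, H g| ≤ |∑ g ∈ A \ A', H g| + |∑ g ∈ A' \ A, H g| :=
        abs_sub _ _
    _ ≤ _ := by linarith

end shift

/-- **X1** -/
theorem box_prod {n : ℕ} (S : Finset ℕ) (hS : ∀ p ∈ S, p.Prime) (F : ℕ → (Fin n → ℤ) → ℝ)
    (per : ∀ p ∈ S, ∀ g g', (∀ i, (p : ℤ) ∣ g i - g' i) → F p g = F p g')
    (bd : ∀ p ∈ S, ∀ g, |F p g| ≤ 1) {p₀ : ℕ} (hp₀ : p₀ ∈ S)
    (mean : ∑ g : Fin n → Fin p₀, F p₀ (fun i => ((g i : ℕ) : ℤ)) = 0) (B : ℕ) :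
    |∑ g ∈ box B n, ∏ p ∈ S, F p g| ≤
      2 * n * ((∏ p ∈ S, p : ℕ) : ℝ) * (2 * B + 1 : ℝ) ^ (n - 1) := by
  classical
  set H : (Fin n → ℤ) → ℝ := fun g => ∏ p ∈ S, F p g with hH
  set q' := ∏ p ∈ S.erase p₀, p with hq'
  have hpr := hS p₀ hp₀
  have hqq : p₀ * q' = ∏ p ∈ S, p := mul_prod_erase S (fun p => p) hp₀
  have hcop : Nat.Coprime q' p₀ := by
    rw [hq']
    apply Nat.Coprime.prod_left
    intro p hp
    rw [mem_erase] at hp
    exact (Nat.coprime_primes (hS p hp.2) hpr).2 hp.1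
  have hHb : ∀ g, |H g| ≤ 1 := by
    intro g
    rw [hH, abs_prod]
    exact prod_le_one (fun _ _ => abs_nonneg _) fun p hp => bd p hp g
  let w : (Fin n → Fin p₀) → (Fin n → ℤ) := fun v i => q' * ((v i : ℕ) : ℤ)
  have hzero : ∀ g, ∑ v : Fin n → Fin p₀, H (g + w v) = 0 := by
    intro g
    have h1 : ∀ v : Fin n → Fin p₀, H (g + w v) =
        (∏ p ∈ S.erase p₀, F p g) * F p₀ (fun i => g i + q' * ((v i : ℕ) : ℤ)) := by
      intro v
      rw [hH]
      simp only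
      rw [← mul_prod_erase S _ hp₀, mul_comm]
      congr 1
      refine prod_congr rfl fun p hp => ?_
      rw [mem_erase] at hp
      apply per p hp.2
      intro i
      simp only [Pi.add_apply, add_sub_cancel_left, w]
      apply Dvd.dvd.mul_right
      rw [hq']
      exact_mod_cast Finset.dvd_prod_of_mem (fun p => p) (mem_erase.2 hp)
    rw [sum_congr rfl fun v _ => h1 v, ← mul_sum, sum_shift hpr (F p₀) (per p₀ hp₀) hcop g, mean,
      mul_zero]
  have hdiff : ∀ v : Fin n → Fin p₀, |∑ g ∈ box B n, H g - ∑ g ∈ box B n, H (g + w v)| ≤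
      2 * n * ((∏ p ∈ S, p : ℕ) : ℝ) * (2 * B + 1 : ℝ) ^ (n - 1) := by
    intro v
    apply sum_box_shift B _ (w v) _ _ H hHb
    · intro i
      simp only [w]
      positivity
    · intro i
      simp only [w]
      rw [← hqq]
      push_cast
      rw [mul_comm (p₀ : ℤ)]
      apply mul_le_mul_of_nonneg_left _ (Int.natCast_nonneg _)
      exact_mod_cast (v i).2.le
  have hsum : ∑ v : Fin n → Fin p₀, (∑ g ∈ box B n, H g - ∑ g ∈ box B n, H (g + w v)) =
      (Fintype.card (Fin n → Fin p₀) : ℝ) * ∑ g ∈ box B n, H g := by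
    have hz : ∑ v : Fin n → Fin p₀, ∑ g ∈ box B n, H (g + w v) = 0 := by
      rw [sum_comm]
      exact sum_eq_zero fun g _ => hzero g
    rw [sum_sub_distrib, hz, sub_zero, sum_const, card_univ, nsmul_eq_mul]
  have hcard : (0 : ℝ) < Fintype.card (Fin n → Fin p₀) := by
    have : Nonempty (Fin p₀) := ⟨⟨0, hpr.pos⟩⟩
    exact_mod_cast Fintype.card_pos
  have hfin : (Fintype.card (Fin n → Fin p₀) : ℝ) * |∑ g ∈ box B n, H g| ≤
      (Fintype.card (Fin n → Fin p₀) : ℝ) *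
        (2 * n * ((∏ p ∈ S, p : ℕ) : ℝ) * (2 * B + 1 : ℝ) ^ (n - 1)) := by
    rw [← abs_of_pos hcard, ← abs_mul, ← hsum, abs_of_pos hcard]
    refine (abs_sum_le_sum_abs _ _).trans ((sum_le_sum fun v _ => hdiff v).trans ?_)
    rw [sum_const, card_univ, nsmul_eq_mul]
  exact le_of_mul_le_mul_left hfin hcard

lemma box_pair {n : ℕ} {D D' : Finset ℕ} (hD : ∀ p ∈ D, p.Prime) (hD' : ∀ p ∈ D', p.Prime)
    (F F' : ℕ → (Fin n → ℤ) → ℝ)
    (per : ∀ p ∈ D, ∀ g g', (∀ i, (p : ℤ) ∣ g i - g' i) → F p g = F p g')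
    (bd : ∀ p ∈ D, ∀ g, |F p g| ≤ 1)
    (per' : ∀ p ∈ D', ∀ g g', (∀ i, (p : ℤ) ∣ g i - g' i) → F' p g = F' p g')
    (bd' : ∀ p ∈ D', ∀ g, |F' p g| ≤ 1) {p₀ : ℕ} (hp₀ : p₀ ∈ D) (hp₀' : p₀ ∉ D')
    (mean : ∑ g : Fin n → Fin p₀, F p₀ (fun i => ((g i : ℕ) : ℤ)) = 0) (B : ℕ) :
    |∑ g ∈ box B n, (∏ p ∈ D, F p g) * ∏ p ∈ D', F' p g| ≤
      2 * n * ((∏ p ∈ D, p : ℕ) : ℝ) * ((∏ p ∈ D', p : ℕ) : ℝ) * (2 * B + 1 : ℝ) ^ (n - 1) := by
  classical
  let G : ℕ → (Fin n → ℤ) → ℝ := fun p g =>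
    (if p ∈ D then F p g else 1) * (if p ∈ D' then F' p g else 1)
  have hG : ∀ g, (∏ p ∈ D, F p g) * ∏ p ∈ D', F' p g = ∏ p ∈ D ∪ D', G p g := by
    intro g
    simp only [G]
    rw [prod_mul_distrib, prod_ite_mem, prod_ite_mem]
    congr 2
    · rw [union_inter_cancel_left]
    · rw [union_inter_cancel_right]
  have h1 := box_prod (D ∪ D') (fun p hp => by
      rcases mem_union.1 hp with h | h
      · exact hD p h
      · exact hD' p h) G (fun p _ g g' h => by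
      simp only [G]
      congr 1
      · split_ifs with h1
        · exact per p h1 g g' h
        · rfl
      · split_ifs with h1
        · exact per' p h1 g g' h
        · rfl) (fun p _ g => by
      simp only [G]
      rw [abs_mul]
      apply mul_le_one₀ _ (abs_nonneg _)
      · split_ifs with h1
        · exact bd' p h1 g
        · simp
      · split_ifs with h1
        · exact bd p h1 g
        · simp) (p₀ := p₀) (mem_union_left _ hp₀) (by
      simp only [G]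
      simp only [if_pos hp₀, if_neg hp₀', mul_one]
      exact mean) B
  simp only [hG]
  refine h1.trans ?_
  have h2 : ((∏ p ∈ D ∪ D', p : ℕ) : ℝ) ≤ ((∏ p ∈ D, p : ℕ) : ℝ) * ((∏ p ∈ D', p : ℕ) : ℝ) := by
    have h3 : (∏ p ∈ D ∪ D', p) * (∏ p ∈ D ∩ D', p) = (∏ p ∈ D, p) * ∏ p ∈ D', p :=
      prod_union_inter
    have h4 : 1 ≤ ∏ p ∈ D ∩ D', p := by
      apply Nat.one_le_iff_ne_zero.2
      rw [prod_ne_zero_iff]
      intro p hp
      exact (hD p (mem_inter.1 hp).1).ne_zero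
    have h5 : (∏ p ∈ D ∪ D', p) ≤ (∏ p ∈ D, p) * ∏ p ∈ D', p := by
      rw [← h3]
      exact Nat.le_mul_of_pos_right _ h4
    exact_mod_cast h5
  have h6 : (0 : ℝ) ≤ (2 * B + 1 : ℝ) ^ (n - 1) := by positivity
  have h7 : (0 : ℝ) ≤ 2 * n := by positivity
  calc 2 * n * ((∏ p ∈ D ∪ D', p : ℕ) : ℝ) * (2 * B + 1 : ℝ) ^ (n - 1)
      ≤ 2 * n * (((∏ p ∈ D, p : ℕ) : ℝ) * ((∏ p ∈ D', p : ℕ) : ℝ)) * (2 * B + 1 : ℝ) ^ (n - 1) :=
        mul_le_mul_of_nonneg_right (mul_le_mul_of_nonneg_left h2 h7) h6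
    _ = _ := by ring

/-- **X2** -/
theorem box_l2 {n : ℕ} {ι : Type*} (I : Finset ι) (D : ι → Finset ℕ)
    (hD : ∀ i ∈ I, ∀ p ∈ D i, p.Prime) (F : ι → ℕ → (Fin n → ℤ) → ℝ)
    (per : ∀ i ∈ I, ∀ p ∈ D i, ∀ g g', (∀ k, (p : ℤ) ∣ g k - g' k) → F i p g = F i p g')
    (bd : ∀ i ∈ I, ∀ p ∈ D i, ∀ g, |F i p g| ≤ 1)
    (mean : ∀ i ∈ I, ∀ p ∈ D i, ∑ g : Fin n → Fin p, F i p (fun k => ((g k : ℕ) : ℤ)) = 0)
    (γ : ι → ℝ) (B : ℕ) :
    ∑ g ∈ box B n, (∑ i ∈ I, γ i * ∏ p ∈ D i, F i p g) ^ 2 ≤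
      ∑ i ∈ I, ∑ j ∈ I, |γ i| * |γ j| * (if D i = D j then (2 * B + 1 : ℝ) ^ n else
        2 * n * ((∏ p ∈ D i, p : ℕ) : ℝ) * ((∏ p ∈ D j, p : ℕ) : ℝ) *
          (2 * B + 1 : ℝ) ^ (n - 1)) := by
  classical
  have hexp : ∑ g ∈ box B n, (∑ i ∈ I, γ i * ∏ p ∈ D i, F i p g) ^ 2 =
      ∑ i ∈ I, ∑ j ∈ I, γ i * γ j *
        ∑ g ∈ box B n, (∏ p ∈ D i, F i p g) * ∏ p ∈ D j, F j p g := by
    calc ∑ g ∈ box B n, (∑ i ∈ I, γ i * ∏ p ∈ D i, F i p g) ^ 2
        = ∑ g ∈ box B n, ∑ i ∈ I, ∑ j ∈ I, γ i * γ j *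
            ((∏ p ∈ D i, F i p g) * ∏ p ∈ D j, F j p g) := by
          refine sum_congr rfl fun g _ => ?_
          rw [sq, sum_mul_sum]
          exact sum_congr rfl fun i _ => sum_congr rfl fun j _ => by ring
      _ = ∑ i ∈ I, ∑ g ∈ box B n, ∑ j ∈ I, γ i * γ j *
            ((∏ p ∈ D i, F i p g) * ∏ p ∈ D j, F j p g) := sum_comm
      _ = _ := by
          refine sum_congr rfl fun i _ => ?_
          rw [sum_comm]
          exact sum_congr rfl fun j _ => by rw [mul_sum]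
  rw [hexp]
  refine sum_le_sum fun i hi => sum_le_sum fun j hj => ?_
  refine (le_abs_self _).trans ?_
  rw [abs_mul, abs_mul]
  refine mul_le_mul_of_nonneg_left ?_ (by positivity)
  split_ifs with hij
  · refine (abs_sum_le_sum_abs _ _).trans ?_
    have h1 : ∀ g ∈ box B n, |(∏ p ∈ D i, F i p g) * ∏ p ∈ D j, F j p g| ≤ 1 := by
      intro g _
      rw [abs_mul, abs_prod, abs_prod]
      apply mul_le_one₀ _ (prod_nonneg fun _ _ => abs_nonneg _)
      · exact prod_le_one (fun _ _ => abs_nonneg _) fun p hp => bd j hj p hp g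
      · exact prod_le_one (fun _ _ => abs_nonneg _) fun p hp => bd i hi p hp g
    refine (sum_le_sum h1).trans ?_
    rw [sum_const, card_box, nsmul_eq_mul, mul_one]
    push_cast
    exact le_rfl
  · have hne : (∃ p, p ∈ D i ∧ p ∉ D j) ∨ ∃ p, p ∈ D j ∧ p ∉ D i := by
      by_contra hcon
      push Not at hcon
      apply hij
      ext p
      exact ⟨hcon.1 p, hcon.2 p⟩
    rcases hne with ⟨p, h1, h2⟩ | ⟨p, h1, h2⟩
    · exact box_pair (hD i hi) (hD j hj) (F i) (F j) (per i hi) (bd i hi) (per j hj) (bd j hj)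
        h1 h2 (mean i hi p h1) B
    · have h3 := box_pair (hD j hj) (hD i hi) (F j) (F i) (per j hj) (bd j hj) (per i hi) (bd i hi)
        h1 h2 (mean j hj p h1) B
      have h4 : ∀ g, (∏ p ∈ D i, F i p g) * ∏ p ∈ D j, F j p g =
        (∏ p ∈ D j, F j p g) * ∏ p ∈ D i, F i p g := fun g => mul_comm _ _
      rw [sum_congr rfl fun g _ => h4 g]
      refine h3.trans (le_of_eq ?_)
      ring

end Stoll308.Gen
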