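import Pool.Agent.Work.MP_308fa9_nt.Gen.Kappa

set_option autoImplicit false

/-!
The component of `ℚ_p[X]/f` at a root of `f` in `ℤ_p`.
-/

namespace Stoll308.Gen

open Polynomial Finset NumberTheorySymbols

variable {p : ℕ} [hp : Fact p.Prime] (f : ℤ[X])

/-- `ℚ_p[X] → ℚ_p[X]/f`. -/
noncomputable abbrev mkq (f : ℤ[X]) (p : ℕ) [Fact p.Prime] :
    ℚ_[p][X] →+* AdjoinRoot (fq f p) := AdjoinRoot.mk (fq f p)

/-- `ℤ_p[X] → ℚ_p[X]/f`. -/
noncomputable abbrev mkz (f : ℤ[X]) (p : ℕ) [Fact p.Prime] :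
    ℤ_[p][X] →+* AdjoinRoot (fq f p) :=
  (mkq f p).comp (mapRingHom (algebraMap ℤ_[p] ℚ_[p]))

lemma mkz_f : mkz f p (fz f p) = 0 := by
  change mkq f p ((fz f p).map (algebraMap ℤ_[p] ℚ_[p])) = 0
  rw [fz_map']
  exact AdjoinRoot.mk_self

lemma mkz_eq_of_dvd {a b : ℤ_[p][X]} (h : fz f p ∣ a - b) : mkz f p a = mkz f p b := by
  obtain ⟨q, hq⟩ := h
  rw [← sub_eq_zero, ← map_sub, hq, map_mul, mkz_f, zero_mul]

/-- Integral units modulo `f`. -/
def UU (f : ℤ[X]) (p : ℕ) [Fact p.Prime] (z : AdjoinRoot (fq f p)) : Prop :=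
  ∃ u : ℤ_[p][X], IsCoprime (u.map (rd p)) (fp f p) ∧ mkz f p u = z

variable {f}

lemma UU.mul {z w : AdjoinRoot (fq f p)} (hz : UU f p z) (hw : UU f p w) : UU f p (z * w) := by
  obtain ⟨u, hu, rfl⟩ := hz
  obtain ⟨v, hv, rfl⟩ := hw
  refine ⟨u * v, ?_, map_mul _ _ _⟩
  rw [Polynomial.map_mul]
  exact hu.mul_left hv

lemma UU.C {v : ℤ_[p]} (hv : IsUnit v) : UU f p (mkz f p (C v)) := by
  refine ⟨Polynomial.C v, ?_, rfl⟩
  rw [map_C]
  have : IsUnit (Polynomial.C (rd p v) : (ZMod p)[X]) :=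
    Polynomial.isUnit_C.2 (isUnit_iff_ne_zero.2 (rd_ne_zero_iff.2 hv))
  obtain ⟨w, hw⟩ := this.exists_left_inv
  exact ⟨w, 0, by rw [hw]; ring⟩

section comp

variable {α : ℤ_[p]} {k : ℤ_[p][X]} {κ : ℤ_[p]}

/-- The idempotent of the root `α`. -/
noncomputable abbrev ee (k : ℤ_[p][X]) (κ : ℤ_[p]) : ℤ_[p][X] := C κ * k

lemma ee_ann (hk : fz f p = (X - C α) * k) (g : ℤ_[p][X]) :
    mkz f p (g * ee k κ) = mkz f p (C (g.eval α) * ee k κ) := by
  apply mkz_eq_of_dvd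
  obtain ⟨q, hq⟩ := X_sub_C_dvd_sub_C_eval (a := α) (p := g)
  refine ⟨C κ * q, ?_⟩
  rw [← sub_mul, hq, hk]
  ring

lemma ee_idem (hk : fz f p = (X - C α) * k) (hκ : κ * k.eval α = 1) :
    mkz f p (ee k κ) * mkz f p (ee k κ) = mkz f p (ee k κ) := by
  rw [← map_mul, ee_ann hk, eval_mul, eval_C, hκ, C_1, one_mul]

/-- The element which is `c` at the root `α` and `1` elsewhere. -/
noncomputable def PP (f : ℤ[X]) (k : ℤ_[p][X]) (κ : ℤ_[p]) (c : ℚ_[p]) : AdjoinRoot (fq f p) :=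
  1 + (mkq f p (C c) - 1) * mkz f p (ee k κ)

lemma PP_mul (hk : fz f p = (X - C α) * k) (hκ : κ * k.eval α = 1) (c d : ℚ_[p]) :
    PP f k κ c * PP f k κ d = PP f k κ (c * d) := by
  unfold PP
  rw [C_mul, map_mul (mkq f p)]
  linear_combination (mkq f p (C c) - 1) * (mkq f p (C d) - 1) * ee_idem hk hκ

lemma PP_one : PP f k κ (1 : ℚ_[p]) = 1 := by
  unfold PP
  rw [C_1, map_one, sub_self, zero_mul, add_zero]

/-- Splitting an integral element into its part at `α` and a unit. -/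
lemma PP_decomp (hk : fz f p = (X - C α) * k) (hκ : κ * k.eval α = 1) (g : ℤ_[p][X])
    {q v : ℤ_[p]} (h : g.eval α = q * v) :
    mkz f p g = PP f k κ (q : ℚ_[p]) * mkz f p (C v * ee k κ + g * (1 - ee k κ)) := by
  have h1 := ee_ann (κ := κ) hk g
  have h2 := ee_idem hk hκ
  have h3 : mkq f p (C (q : ℚ_[p])) = mkz f p (C q) := by
    change _ = mkq f p ((C q).map (algebraMap ℤ_[p] ℚ_[p]))
    rw [map_C]
    rfl
  unfold PP
  rw [h3]
  rw [h, C_mul, map_mul, map_mul (mkz f p) (C q * C v), map_mul (mkz f p) (C q)] at h1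
  simp only [map_add, map_mul, map_sub, map_one] at h1 h2 ⊢
  linear_combination h1 + (mkz f p (C q) - 1) * (mkz f p g - mkz f p (C v)) * h2

lemma PP_coprime (hk : fz f p = (X - C α) * k)
    (hκ : κ * k.eval α = 1) (g : ℤ_[p][X]) {v : ℤ_[p]} (hv : IsUnit v)
    (hg : IsCoprime (g.map (rd p)) (k.map (rd p))) :
    IsCoprime ((C v * ee k κ + g * (1 - ee k κ)).map (rd p)) (fp f p) := by
  have hf : fp f p = (X - C (rd p α)) * k.map (rd p) := by
    rw [← fz_map, hk, Polynomial.map_mul, Polynomial.map_sub, map_X, map_C]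
  rw [hf]
  apply IsCoprime.mul_right
  · -- at the root
    have h1 : ((C v * ee k κ + g * (1 - ee k κ)).map (rd p)).eval (rd p α) = rd p v := by
      rw [eval_map_apply]
      congr 1
      simp only [eval_add, eval_mul, eval_C, eval_sub, eval_one]
      linear_combination (v - g.eval α) * hκ
    obtain ⟨q, hq⟩ := X_sub_C_dvd_sub_C_eval (a := rd p α)
      (p := (C v * ee k κ + g * (1 - ee k κ)).map (rd p))
    rw [h1] at hq
    have h2 : (C v * ee k κ + g * (1 - ee k κ)).map (rd p) = C (rd p v) + (X - C (rd p α)) * q := by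
      rw [← hq]; ring
    rw [h2]
    have h3 : IsCoprime (C (rd p v)) (X - C (rd p α)) := by
      have : IsUnit (C (rd p v) : (ZMod p)[X]) :=
        Polynomial.isUnit_C.2 (isUnit_iff_ne_zero.2 (rd_ne_zero_iff.2 hv))
      obtain ⟨w, hw⟩ := this.exists_left_inv
      exact ⟨w, 0, by rw [hw]; ring⟩
    exact h3.add_mul_left_left _
  · -- modulo `k`
    have h2 : (C v * ee k κ + g * (1 - ee k κ)).map (rd p) = g.map (rd p) +
        k.map (rd p) * (C (rd p κ) * (C (rd p v) - g.map (rd p))) := by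
      simp only [Polynomial.map_add, Polynomial.map_mul, Polynomial.map_sub, Polynomial.map_one,
        map_C]
      ring
    rw [h2]
    exact hg.add_mul_left_left _

end comp

end Stoll308.Gen
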