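import Pool.Agent.Work.MP_308fa9_nt.Count3

set_option autoImplicit false

/-!
Lower bound for the number of squarefree numbers composed of primes of a set.
-/

namespace Stoll308.AP

open Finset

lemma PP_mono {P : ℕ → Prop} {x y : ℕ} (h : x ≤ y) : PP P x ⊆ PP P y := by
  intro p hp
  rw [mem_PP] at hp ⊢
  exact ⟨hp.1.trans h, hp.2⟩

lemma one_le_prod_one_add (s : Finset ℕ) : (1 : ℝ) ≤ ∏ p ∈ s, (1 + 1 / (p : ℝ)) := by
  have h0 := prod_le_prod (s := s) (f := fun _ => (1 : ℝ))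
    (g := fun p : ℕ => 1 + 1 / (p : ℝ)) (fun _ _ => zero_le_one) fun p _ => by
      have : 0 ≤ 1 / (p : ℝ) := by positivity
      linarith
  rwa [prod_const_one] at h0

lemma V_mono (P : ℕ → Prop) {x y : ℕ} (h : x ≤ y) : V P x ≤ V P y := by
  classical
  unfold V
  rw [← prod_sdiff (PP_mono (P := P) h)]
  exact le_mul_of_one_le_left (prod_nonneg fun p _ => by positivity) (one_le_prod_one_add _)

lemma V_pow (P : ℕ → Prop) (k : ℕ) (hk : 1 ≤ k) : ∃ C : ℝ, 0 < C ∧ ∀ z : ℕ, 2 ≤ z →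
    V P (z ^ k) ≤ C * V P z := by
  classical
  obtain ⟨C, hC0, hC⟩ := Mert.one.loglog
  refine ⟨Real.exp (2 * C + Real.log k), Real.exp_pos _, fun z hz => ?_⟩
  have hzk : z ≤ z ^ k := Nat.le_self_pow (by omega) z
  unfold V
  rw [← prod_sdiff (PP_mono (P := P) hzk)]
  refine mul_le_mul_of_nonneg_right ?_ (prod_nonneg fun p _ => by positivity)
  have h1 : ∏ p ∈ PP P (z ^ k) \ PP P z, (1 + 1 / (p : ℝ)) ≤
      Real.exp (∑ p ∈ PP P (z ^ k) \ PP P z, 1 / (p : ℝ)) := by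
    rw [Real.exp_sum]
    refine prod_le_prod (fun p _ => by positivity) fun p _ => ?_
    have := Real.add_one_le_exp (1 / (p : ℝ))
    linarith
  refine h1.trans (Real.exp_le_exp.2 ?_)
  have hsub : (Icc 0 z).filter Nat.Prime ⊆ (Icc 0 (z ^ k)).filter Nat.Prime := by
    intro p hp
    rw [mem_filter, mem_Icc] at hp ⊢
    exact ⟨⟨hp.1.1, hp.1.2.trans hzk⟩, hp.2⟩
  have h2 : ∑ p ∈ PP P (z ^ k) \ PP P z, 1 / (p : ℝ) ≤
      ∑ p ∈ (Icc 0 (z ^ k)).filter Nat.Prime \ (Icc 0 z).filter Nat.Prime, 1 / (p : ℝ) := by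
    refine sum_le_sum_of_subset_of_nonneg ?_ fun p _ _ => by positivity
    intro p hp
    rw [mem_sdiff, mem_PP, mem_PP] at hp
    rw [mem_sdiff, mem_filter, mem_filter, mem_Icc, mem_Icc]
    refine ⟨⟨⟨Nat.zero_le _, hp.1.1⟩, hp.1.2.1⟩, fun h => hp.2 ⟨h.1.2, hp.1.2⟩⟩
  refine h2.trans ?_
  have h3 := sum_sdiff (f := fun p : ℕ => 1 / (p : ℝ)) hsub
  have h4 := (abs_le.1 (hC z hz)).1
  have h5 := (abs_le.1 (hC (z ^ k) (hz.trans hzk))).2
  have hlz : 0 < Real.log z := log_nat_pos hz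
  have hk' : (0 : ℝ) < k := by exact_mod_cast (by omega : 0 < k)
  have h6 : Real.log (Real.log ((z ^ k : ℕ) : ℝ)) = Real.log k + Real.log (Real.log z) := by
    rw [Nat.cast_pow, Real.log_pow, Real.log_mul hk'.ne' hlz.ne']
  rw [h6] at h5
  linarith

lemma V_restrict (P : ℕ → Prop) (C₂ : ℕ) : ∃ c : ℝ, 0 < c ∧ ∀ z : ℕ,
    c * V P z ≤ V (fun p => C₂ < p ∧ P p) z := by
  classical
  refine ⟨(V P C₂)⁻¹, inv_pos.2 (V_pos P C₂), fun z => ?_⟩
  rw [inv_mul_le_iff₀ (V_pos P C₂)]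
  have hsub : PP P z ⊆ PP P C₂ ∪ PP (fun p => C₂ < p ∧ P p) z := by
    intro p hp
    rw [mem_PP] at hp
    rw [mem_union, mem_PP, mem_PP]
    by_cases h : p ≤ C₂
    · exact Or.inl ⟨h, hp.2⟩
    · exact Or.inr ⟨hp.1, hp.2.1, not_le.1 h, hp.2.2⟩
  unfold V
  have hdisj : Disjoint (PP P C₂) (PP (fun p => C₂ < p ∧ P p) z) := by
    rw [disjoint_left]
    intro p h1 h2
    rw [mem_PP] at h1 h2
    omega
  rw [← prod_union hdisj, ← prod_sdiff hsub]
  exact le_mul_of_one_le_left (prod_nonneg fun p _ => by positivity) (one_le_prod_one_add _)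

/-- Many primes with the property `P` in short multiplicative intervals. -/
def Many (P : ℕ → Prop) : Prop :=
  open Classical in
  ∃ K : ℕ, 0 < K ∧ ∀ y : ℕ, K < y → (y : ℝ) / (K * Real.log y) ≤
    (((Ioc (y / K) y).filter (fun p => p.Prime ∧ P p)).card : ℝ)

/-- The finite sets of primes with the property `P`, all of them `> C₂`, of product at most `Y`. -/
noncomputable def FS (P : ℕ → Prop) (C₂ Y : ℕ) : Finset (Finset ℕ) :=
  open Classical in
  (PP (fun p => C₂ < p ∧ P p) Y).powerset.filter (fun T => ∏ p ∈ T, p ≤ Y)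

theorem card_FS_ge {P : ℕ → Prop} (hK : Many P) (C₂ : ℕ) :
    ∃ c : ℝ, 0 < c ∧ ∃ (k Y₀ : ℕ), 1 ≤ k ∧ ∀ Y : ℕ, Y₀ ≤ Y → ∃ z : ℕ, 3 ≤ z ∧ Y < z ^ k ∧
      c * Y / Real.log Y * V P z ≤ ((FS P C₂ Y).card : ℝ) := by
  classical
  obtain ⟨K₁, hK₁⟩ := rankin (fun p => C₂ < p ∧ P p)
  obtain ⟨K₂, hK₂0, hK₂⟩ := hK
  obtain ⟨c₀, hc₀, hV⟩ := V_restrict P C₂
  have hK₂r : (0 : ℝ) < K₂ := by exact_mod_cast hK₂0
  set E := K₁ + 2 with hE
  have hEr : (0 : ℝ) < E := by positivity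
  refine ⟨c₀ / (4 * K₂), by positivity, 2 * E, (K₂ + C₂ + 3) ^ E, by omega, fun X hX => ?_⟩
  obtain ⟨z, hzX, hXz⟩ := exists_root E X (by omega)
  have hZz : K₂ + C₂ + 3 ≤ z := by
    by_contra hlt
    have : (z + 1) ^ E ≤ (K₂ + C₂ + 3) ^ E := Nat.pow_le_pow_left (by omega) E
    omega
  have hz3 : 3 ≤ z := by omega
  have hz1 : 1 ≤ z := by omega
  have hzX' : z ≤ X := (Nat.le_self_pow (by omega) z).trans hzX
  have hX0 : 0 < X := by omega
  have hXr : (0 : ℝ) < X := by exact_mod_cast hX0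
  have hlX : 0 < Real.log X := log_nat_pos (by omega)
  have hz0r : (0 : ℝ) < z := by exact_mod_cast (by omega : 0 < z)
  refine ⟨z, hz3, ?_, ?_⟩
  · calc X < (z + 1) ^ E := hXz
      _ ≤ (z ^ 2) ^ E := Nat.pow_le_pow_left (by nlinarith) E
      _ = z ^ (2 * E) := by rw [← pow_mul]
  set P' : ℕ → Prop := fun p => C₂ < p ∧ P p with hP'
  set MS := (PP P' z).powerset.filter (fun T => ∏ p ∈ T, p ≤ z ^ K₁) with hMdef
  set m : Finset ℕ → ℕ := fun T => ∏ r ∈ T, r with hm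
  have hMsub : ∀ T ∈ MS, T ⊆ PP P' z := fun T hT => mem_powerset.1 (mem_filter.1 hT).1
  have hprT : ∀ T ∈ MS, ∀ r ∈ T, r.Prime := fun T hT r hr => (mem_PP.1 (hMsub T hT hr)).2.1
  have hm0 : ∀ T ∈ MS, 0 < m T := fun T hT => prod_pos fun r hr => (hprT T hT r hr).pos
  have hzK : ∀ T ∈ MS, z * K₂ ≤ X / m T := by
    intro T hT
    rw [Nat.le_div_iff_mul_le (hm0 T hT)]
    calc z * K₂ * m T ≤ z * z * z ^ K₁ :=
          Nat.mul_le_mul (Nat.mul_le_mul_left _ (by omega)) (mem_filter.1 hT).2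
      _ = z ^ E := by rw [hE]; ring
      _ ≤ X := hzX
  set R : Finset ℕ → Finset ℕ := fun T => (Ioc (X / m T / K₂) (X / m T)).filter
    (fun p : ℕ => p.Prime ∧ P p) with hR
  have hRz : ∀ T ∈ MS, ∀ p ∈ R T, z < p := by
    intro T hT p hp
    rw [hR, mem_filter, mem_Ioc] at hp
    have : z ≤ X / m T / K₂ := by
      rw [Nat.le_div_iff_mul_le hK₂0]
      exact hzK T hT
    omega
  have hnotmem : ∀ T ∈ MS, ∀ p ∈ R T, p ∉ T := by
    intro T hT p hp hpT
    have h1 := hRz T hT p hp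
    have h2 := (mem_PP.1 (hMsub T hT hpT)).1
    omega
  -- the count
  have hcard : ∑ T ∈ MS, (R T).card ≤ (FS P C₂ X).card := by
    rw [← card_sigma]
    refine card_le_card_of_injOn (fun x => insert x.2 x.1) ?_ ?_
    · rintro ⟨T, p⟩ hx
      rw [mem_coe, mem_sigma] at hx
      obtain ⟨hT, hp⟩ := hx
      simp only at hT hp ⊢
      have hpz := hRz T hT p hp
      have hpn := hnotmem T hT p hp
      rw [hR, mem_filter, mem_Ioc] at hp
      unfold FS
      rw [mem_coe, mem_filter, mem_powerset]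
      have hpX : p ≤ X := hp.1.2.trans (Nat.div_le_self _ _)
      refine ⟨?_, ?_⟩
      · intro q hq
        rw [mem_insert] at hq
        rcases hq with rfl | hq
        · rw [mem_PP]
          exact ⟨hpX, hp.2.1, by omega, hp.2.2⟩
        · exact PP_mono hzX' (hMsub T hT hq)
      · rw [prod_insert hpn, mul_comm]
        calc m T * p ≤ m T * (X / m T) := Nat.mul_le_mul_left _ hp.1.2
          _ ≤ X := Nat.mul_div_le _ _
    · rintro ⟨T, p⟩ hx ⟨S, q⟩ hy heq
      rw [mem_coe, mem_sigma] at hx hy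
      obtain ⟨hT, hp⟩ := hx
      obtain ⟨hS, hq⟩ := hy
      simp only at hT hp hS hq heq
      have hzp := hRz T hT p hp
      have hzq := hRz S hS q hq
      have hTz : ∀ r ∈ T, r ≤ z := fun r hr => (mem_PP.1 (hMsub T hT hr)).1
      have hSz : ∀ r ∈ S, r ≤ z := fun r hr => (mem_PP.1 (hMsub S hS hr)).1
      have hpq : p = q := by
        have : p ∈ insert q S := by rw [← heq]; exact mem_insert_self _ _
        rcases mem_insert.1 this with h | h
        · exact h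
        · have := hSz p h
          omega
      subst hpq
      have hTS : T = S := by
        rw [← erase_insert (hnotmem T hT p hp), heq, erase_insert (hnotmem S hS p hq)]
      subst hTS
      rfl
  have hlow : ∀ T ∈ MS, X / (2 * K₂ * Real.log X) * (1 / ((∏ p ∈ T, p : ℕ) : ℝ)) ≤
      ((R T).card : ℝ) := by
    intro T hT
    have hy : K₂ < X / m T := by
      have := hzK T hT
      have h2 : K₂ * 3 ≤ z * K₂ := by rw [mul_comm]; exact Nat.mul_le_mul_right _ hz3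
      omega
    have hcount := hK₂ (X / m T) hy
    refine le_trans ?_ hcount
    have hmT0 := hm0 T hT
    have hTr : (0 : ℝ) < ((∏ p ∈ T, p : ℕ) : ℝ) := by exact_mod_cast hmT0
    have hyr : (0 : ℝ) < ((X / m T : ℕ) : ℝ) := by exact_mod_cast (by omega : 0 < X / m T)
    have hly : 0 < Real.log ((X / m T : ℕ) : ℝ) := log_nat_pos (by omega)
    have hlyX : Real.log ((X / m T : ℕ) : ℝ) ≤ Real.log X :=
      Real.log_le_log hyr (by exact_mod_cast Nat.div_le_self X (m T))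
    have e1 : (X : ℝ) ≤ 2 * ((∏ p ∈ T, p : ℕ) : ℝ) * ((X / m T : ℕ) : ℝ) := by
      have f1 : X < m T * (X / m T + 1) := Nat.lt_mul_div_succ X hmT0
      have f2 : m T * (X / m T + 1) ≤ 2 * (∏ p ∈ T, p) * (X / m T) := by
        calc m T * (X / m T + 1) ≤ m T * (2 * (X / m T)) := Nat.mul_le_mul_left _ (by omega)
          _ = _ := by rw [hm]; ring
      exact_mod_cast (f1.le.trans f2)
    calc X / (2 * K₂ * Real.log X) * (1 / ((∏ p ∈ T, p : ℕ) : ℝ))
        = (X / (2 * ((∏ p ∈ T, p : ℕ) : ℝ))) / (K₂ * Real.log X) := by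
          field_simp
      _ ≤ ((X / m T : ℕ) : ℝ) / (K₂ * Real.log X) := by
          gcongr
          rw [div_le_iff₀ (by positivity)]
          linarith
      _ ≤ ((X / m T : ℕ) : ℝ) / (K₂ * Real.log ((X / m T : ℕ) : ℝ)) := by
          gcongr
  have hsum : X / (2 * K₂ * Real.log X) * (c₀ * V P z / 2) ≤ ∑ T ∈ MS, ((R T).card : ℝ) := by
    calc X / (2 * K₂ * Real.log X) * (c₀ * V P z / 2)
        ≤ X / (2 * K₂ * Real.log X) * ∑ T ∈ MS, 1 / ((∏ p ∈ T, p : ℕ) : ℝ) := by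
          gcongr
          have := hV z
          have h2 := hK₁ z hz3
          linarith
      _ = ∑ T ∈ MS, X / (2 * K₂ * Real.log X) * (1 / ((∏ p ∈ T, p : ℕ) : ℝ)) := by
          rw [mul_sum]
      _ ≤ _ := sum_le_sum hlow
  calc c₀ / (4 * K₂) * X / Real.log X * V P z
      = X / (2 * K₂ * Real.log X) * (c₀ * V P z / 2) := by
        field_simp
        ring
    _ ≤ ∑ T ∈ MS, ((R T).card : ℝ) := hsum
    _ = ((∑ T ∈ MS, (R T).card : ℕ) : ℝ) := by push_cast; rfl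
    _ ≤ _ := by exact_mod_cast hcard

/-- Lower bound for the number of squarefree numbers, composed of primes `> C₂` with the property
`P`. -/
theorem card_FS_ge' {P : ℕ → Prop} (hK : Many P) (C₂ M : ℕ) (hM : 0 < M) :
    ∃ c : ℝ, 0 < c ∧ ∃ X₀ : ℕ, ∀ X : ℕ, X₀ ≤ X →
      c * X / Real.log X * V P X ≤ ((FS P C₂ (X / M)).card : ℝ) := by
  obtain ⟨c, hc, k, Y₀, hk, h⟩ := card_FS_ge hK C₂
  obtain ⟨C, hC, hV⟩ := V_pow P (2 * k) (by omega)
  have hMr : (0 : ℝ) < M := by exact_mod_cast hM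
  refine ⟨c / (2 * M * C), by positivity, M * (Y₀ + 2 * M + 2), fun X hX => ?_⟩
  set Y := X / M with hY
  have hYge : Y₀ + 2 * M + 2 ≤ Y := by
    rw [hY, Nat.le_div_iff_mul_le hM, mul_comm]
    exact hX
  obtain ⟨z, hz3, hYz, hz⟩ := h Y (by omega)
  have hXY : X < M * (Y + 1) := Nat.lt_mul_div_succ X hM
  have hXY2 : X ≤ 2 * M * Y := by
    have : M * (Y + 1) ≤ M * (2 * Y) := Nat.mul_le_mul_left _ (by omega)
    calc X ≤ M * (2 * Y) := hXY.le.trans this
      _ = 2 * M * Y := by ring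
  have hXY3 : X ≤ Y * Y := hXY2.trans (Nat.mul_le_mul_right _ (by omega))
  have hXz : X ≤ z ^ (2 * k) := by
    calc X ≤ Y * Y := hXY3
      _ ≤ z ^ k * z ^ k := Nat.mul_le_mul hYz.le hYz.le
      _ = z ^ (2 * k) := by ring
  have hVX : V P X ≤ C * V P z := (V_mono P hXz).trans (hV z (by omega))
  have hYX : Y ≤ X := Nat.div_le_self _ _
  have hlY : 0 < Real.log Y := log_nat_pos (by omega)
  have hYr : (0 : ℝ) < Y := by exact_mod_cast (by omega : 0 < Y)
  have hlYX : Real.log Y ≤ Real.log X := Real.log_le_log hYr (by exact_mod_cast hYX)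
  have hXY2' : (X : ℝ) ≤ 2 * M * Y := by exact_mod_cast hXY2
  refine le_trans ?_ hz
  have hVz := V_pos P z
  have hVX0 := V_pos P X
  calc c / (2 * M * C) * X / Real.log X * V P X ≤
        c / (2 * M * C) * (2 * M * Y) / Real.log Y * (C * V P z) := by
        have h1 : c / (2 * M * C) * X / Real.log X ≤
            c / (2 * M * C) * (2 * M * Y) / Real.log Y := by
          refine div_le_div₀ (by positivity) ?_ hlY hlYX
          exact mul_le_mul_of_nonneg_left hXY2' (by positivity)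
        exact mul_le_mul h1 hVX hVX0.le (by positivity)
    _ = c * Y / Real.log Y * V P z := by
        field_simp

end Stoll308.AP
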