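import Pool.Agent.Work.MP_308fa9_nt.Gen.Hensel
import Pool.Agent.Work.MP_308fa9_nt.ElsOf

set_option autoImplicit false

/-!
Many twists of `y² = f(x)` have points everywhere locally: the local part.
-/

namespace Stoll308.Gen

open Polynomial Finset NumberTheorySymbols

/-- `f` is separable modulo all large primes. -/
lemma exists_separable_of_map (f : ℤ[X]) (hsep : (f.map (Int.castRingHom ℚ)).Separable) :
    ∃ B : ℕ, ∀ p : ℕ, p.Prime → B < p → (fp f p).Separable := by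
  obtain ⟨a, b, hab⟩ := hsep
  obtain ⟨d₁, hd₁, a₁, ha₁⟩ := exists_clear a
  obtain ⟨d₂, hd₂, b₁, hb₁⟩ := exists_clear b
  set d := d₁ * d₂ with hd
  obtain ⟨a', ha'⟩ : ∃ a', a' = C d₂ * a₁ := ⟨_, rfl⟩
  obtain ⟨b', hb'⟩ : ∃ b', b' = C d₁ * b₁ := ⟨_, rfl⟩
  have hd0 : d ≠ 0 := mul_ne_zero hd₁ hd₂
  have key : a' * f + b' * derivative f = C d := by
    apply Polynomial.map_injective (Int.castRingHom ℚ) Int.cast_injective
    rw [Polynomial.map_add, Polynomial.map_mul, Polynomial.map_mul, ha', hb', Polynomial.map_mul,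
      Polynomial.map_mul, map_C, map_C, ha₁, hb₁, map_C, ← derivative_map]
    have : (C ((Int.castRingHom ℚ) d) : ℚ[X]) = C (d₁ : ℚ) * C (d₂ : ℚ) * 1 := by
      rw [hd, ← C_mul]; simp
    rw [this, ← hab]
    simp only [eq_intCast]
    ring
  refine ⟨d.natAbs, fun p hp hpd => ?_⟩
  have : Fact p.Prime := ⟨hp⟩
  have hdp : (d : ZMod p) ≠ 0 := by
    intro h
    rw [ZMod.intCast_zmod_eq_zero_iff_dvd] at h
    have h1 := Int.natAbs_dvd_natAbs.2 h
    rw [Int.natAbs_natCast] at h1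
    exact absurd (Nat.le_of_dvd (Int.natAbs_pos.2 hd0) h1) (by omega)
  have key' := congrArg (Polynomial.map (Int.castRingHom (ZMod p))) key
  rw [Polynomial.map_add, Polynomial.map_mul, Polynomial.map_mul, map_C, ← derivative_map] at key'
  refine ⟨C (d : ZMod p)⁻¹ * a'.map (Int.castRingHom (ZMod p)),
    C (d : ZMod p)⁻¹ * b'.map (Int.castRingHom (ZMod p)), ?_⟩
  have h1 : C (d : ZMod p)⁻¹ * C ((Int.castRingHom (ZMod p)) d) = 1 := by
    rw [← C_mul]
    simp [inv_mul_cancel₀ hdp]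
  rw [← h1, ← key']
  ring

/-- A monic nonconstant polynomial takes a positive value at an integer. -/
lemma exists_pos_value (f : ℤ[X]) (hf : f.Monic) (h1 : 1 ≤ f.natDegree) :
    ∃ x : ℤ, 0 < f.eval x := by
  have hm : (f.map (Int.castRingHom ℝ)).Monic := hf.map _
  have hd : (f.map (Int.castRingHom ℝ)).natDegree = f.natDegree := hf.natDegree_map _
  have ht := Polynomial.tendsto_atTop_of_leadingCoeff_nonneg (f.map (Int.castRingHom ℝ))
    (by rw [← natDegree_pos_iff_degree_pos, hd]; omega)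
    (by rw [hm.leadingCoeff]; exact zero_le_one)
  have ht2 := ht.comp (tendsto_natCast_atTop_atTop (R := ℝ))
  obtain ⟨n, hn⟩ := (ht2.eventually (Filter.eventually_gt_atTop 0)).exists
  refine ⟨n, ?_⟩
  have h : (f.map (Int.castRingHom ℝ)).eval ((n : ℕ) : ℝ) = ((f.eval (n : ℤ) : ℤ) : ℝ) := by
    simp
  simp only [Function.comp] at hn
  rw [h] at hn
  exact_mod_cast hn

/-- If `v` is a nonzero square in `F`, the twist by `t₀ v` has a point over `F`. -/
lemma hasPoint_of_sq {f : ℤ[X]} {x₀ y₀ : ℤ} {t₀ v : ℕ} (hty : (t₀ : ℤ) * y₀ ^ 2 = f.eval x₀)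
    {F : Type*} [Field F] {s : F} (hs : s ≠ 0) (hv : (v : F) = s ^ 2) :
    HasPoint f ((t₀ * v : ℕ) : ℤ) F := by
  refine Or.inl ⟨(x₀ : F), (y₀ : F) / s, ?_⟩
  have h1 : (f.map (Int.castRingHom F)).eval ((x₀ : ℤ) : F) = ((f.eval x₀ : ℤ) : F) := by
    simp
  rw [h1, ← hty]
  push_cast
  rw [hv]
  field_simp

section padic

variable {p : ℕ} [hp : Fact p.Prime]

lemma fq_eval_coe' (f : ℤ[X]) (x : ℤ_[p]) :
    (f.map (Int.castRingHom ℚ_[p])).eval (x : ℚ_[p]) = (((fz f p).eval x : ℤ_[p]) : ℚ_[p]) := by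
  have h := Polynomial.eval_map_apply (f := (algebraMap ℤ_[p] ℚ_[p])) (p := fz f p) (x := x)
  rw [fz_map'] at h
  exact h

/-- A root modulo a good prime gives a point with `y = 0`. -/
lemma hasPoint_of_root {f : ℤ[X]} (hsep : (fp f p).Separable) (hR : (R f p).Nonempty) (t : ℤ) :
    HasPoint f t ℚ_[p] := by
  obtain ⟨a, ha⟩ := hR
  obtain ⟨α, hα, -⟩ := exists_lift hsep ha
  refine Or.inl ⟨(α : ℚ_[p]), 0, ?_⟩
  rw [fq_eval_coe', hα]
  simp

/-- Points for units `t` at large primes. -/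
lemma hasPoint_of_unit {f : ℤ[X]} (hf : f.Monic) (hd : 1 ≤ f.natDegree)
    (hsep : (fp f p).Separable) (hp2 : p ≠ 2) (hbig : (2 * f.natDegree + 2) ^ 2 ≤ p) {t : ℤ}
    (ht : ¬ (p : ℤ) ∣ t) : HasPoint f t ℚ_[p] := by
  have hnd : (fp f p).natDegree = f.natDegree := hf.natDegree_map _
  have ht0 : (t : ZMod p) ≠ 0 := by
    rwa [Ne, ZMod.intCast_zmod_eq_zero_iff_dvd]
  have hε : quadraticChar (ZMod p) (t : ZMod p) = 1 ∨ quadraticChar (ZMod p) (t : ZMod p) = -1 :=
    quadraticChar_dichotomy ht0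
  obtain ⟨x, hx⟩ := exists_value (p := p) hp2 (fp f p) hsep.squarefree (by rw [hnd]; exact hd)
    (by rw [hnd]; exact hbig) hε
  have hprod : quadraticChar (ZMod p) ((fp f p).eval x * (t : ZMod p)) = 1 := by
    rw [map_mul, hx]
    rcases hε with h | h <;> rw [h] <;> norm_num
  have hne : (fp f p).eval x * (t : ZMod p) ≠ 0 := by
    intro h0
    rw [h0] at hprod
    simp at hprod
  have hsq : IsSquare ((fp f p).eval x * (t : ZMod p)) := by
    rcases (quadraticChar_one_iff_isSquare hne).1 hprod with ⟨s, hs⟩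
    exact ⟨s, hs⟩
  set X₀ : ℤ_[p] := ((x.val : ℕ) : ℤ_[p]) with hX₀
  have hrX : rd p X₀ = x := by rw [hX₀]; simp
  set u : ℤ_[p] := (fz f p).eval X₀ * (t : ℤ_[p]) with hu
  have hru : rd p u = (fp f p).eval x * (t : ZMod p) := by
    rw [hu, map_mul, rd_intCast, ← eval_map_apply, fz_map, hrX]
  have huu : IsUnit u := rd_ne_zero_iff.1 (by rw [hru]; exact hne)
  obtain ⟨s, hs⟩ := isSquare_of_rd hp2 huu (by rw [hru]; exact hsq)
  have htQ : (t : ℚ_[p]) ≠ 0 := by
    intro h0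
    have : t = 0 := by exact_mod_cast h0
    exact ht (by rw [this]; exact dvd_zero _)
  refine Or.inl ⟨(X₀ : ℚ_[p]), (s : ℚ_[p]) / t, ?_⟩
  rw [fq_eval_coe']
  have h1 : (((fz f p).eval X₀ : ℤ_[p]) : ℚ_[p]) * (t : ℚ_[p]) = (s : ℚ_[p]) * s := by
    have := congrArg (fun z : ℤ_[p] => (z : ℚ_[p])) (hu.symm.trans hs)
    simp only [PadicInt.coe_mul, PadicInt.coe_intCast] at this
    exact this
  field_simp
  rw [mul_comm, h1]
  try ring

end padic

/-- **The local part of the lower bound.** -/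
theorem els_local (f : ℤ[X]) (hf : f.Monic) (hsep : (f.map (Int.castRingHom ℚ)).Separable)
    (_hev : Even f.natDegree) (h2 : 2 ≤ f.natDegree) :
    ∃ t₀ Q C₁ : ℕ, 0 < t₀ ∧ Squarefree t₀ ∧ 0 < Q ∧ t₀ ≤ C₁ ∧ Q ≤ C₁ ∧ ∀ v : ℕ,
      (∀ p : ℕ, p.Prime → p ∣ v → C₁ < p ∧ (R f p).Nonempty) → Squarefree v →
      (∃ a : ℕ, Nat.Coprime a Q ∧ v ≡ a ^ 2 [MOD Q]) → ELS f ((t₀ * v : ℕ) : ℤ) := by
  obtain ⟨x₀, hx₀⟩ := exists_pos_value f hf (by omega)
  obtain ⟨t, y₀, htsq, hy₀, hty⟩ := exists_sqfree_part hx₀.ne'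
  have ht : 0 < t := by
    have h1 : 0 < y₀ ^ 2 := by positivity
    by_contra hcon
    push Not at hcon
    have : t * y₀ ^ 2 ≤ 0 := mul_nonpos_of_nonpos_of_nonneg hcon h1.le
    omega
  obtain ⟨t₀, rfl⟩ : ∃ t₀ : ℕ, t = (t₀ : ℤ) := ⟨t.toNat, (Int.toNat_of_nonneg ht.le).symm⟩
  have ht₀ : 0 < t₀ := by exact_mod_cast ht
  obtain ⟨B, hB⟩ := exists_separable_of_map f hsep
  set C' : ℕ := max (max B 2) (max ((2 * f.natDegree + 2) ^ 2) t₀) with hC'
  set Q : ℕ := 8 * C'.factorial with hQ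
  have hQpos : 0 < Q := by positivity
  have hC'Q : C' ≤ Q := by
    have := Nat.self_le_factorial C'
    omega
  refine ⟨t₀, Q, Q, ht₀, Int.squarefree_natCast.1 htsq, hQpos, by omega, le_refl _,
    fun v hv hvsq ⟨a, haQ, hva⟩ => ⟨?_, ?_⟩⟩
  · intro p hp
    by_cases hpC : p ≤ C'
    · have h8 : 8 * p ∣ Q := Nat.mul_dvd_mul_left 8 (hp.out.dvd_factorial.2 hpC)
      have hap : Nat.Coprime (a ^ 2) p :=
        Nat.Coprime.pow_left 2 (haQ.coprime_dvd_right ((Dvd.intro_left 8 rfl).trans h8))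
      obtain ⟨w, hw, hvw⟩ := sq_ratio (l := p) h8 hva hap
      have ha0 : a ≠ 0 := by
        rintro rfl
        rw [zero_pow two_ne_zero, Nat.coprime_zero_left] at hap
        exact hp.out.one_lt.ne' hap
      refine hasPoint_of_sq (s := (a : ℚ_[p]) * w) hty
        (mul_ne_zero (by exact_mod_cast ha0) hw) ?_
      rw [hvw]
      push_cast
      ring
    · push Not at hpC
      have hsp : (fp f p).Separable := hB p hp.out (by omega)
      by_cases hpv : p ∣ v
      · exact hasPoint_of_root hsp (hv p hp.out hpv).2 _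
      · refine hasPoint_of_unit hf (by omega) hsp (by omega) (by omega) ?_
        intro hdvd
        rw [Int.natCast_dvd_natCast, hp.out.dvd_mul] at hdvd
        rcases hdvd with h | h
        · have := Nat.le_of_dvd ht₀ h
          omega
        · exact hpv h
  · have hvpos : 0 < v := Nat.pos_of_ne_zero hvsq.ne_zero
    refine hasPoint_of_sq (s := Real.sqrt v) hty
      (Real.sqrt_pos.2 (by exact_mod_cast hvpos)).ne' ?_
    rw [Real.sq_sqrt (Nat.cast_nonneg v)]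

end Stoll308.Gen
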