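import Pool.Agent.Work.MP_308fa9_nt.Gen.CountT
import Pool.Agent.Work.MP_308fa9_nt.Gen.ElsLocal

set_option autoImplicit false

/-!
Lower bound for the number of the locally soluble twists of `y² = f(x)`.
-/

namespace Stoll308.Gen

open Finset Polynomial Stoll308.AP

/-- One prime of the class. -/
theorem exists_corr (P : ℕ → Prop) (Q : ℕ) (hQ0 : 0 < Q)
    (hPQ : ∀ p, P p → Nat.Coprime p Q) :
    ∃ C₂ : ℕ, ∀ T : Finset ℕ, (∀ p ∈ T, C₂ < p ∧ P p) → ∃ S : Finset ℕ,
      (∀ p ∈ S, p ≤ C₂ ∧ P p) ∧ ∃ a : ℕ, Nat.Coprime a Q ∧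
        (∏ p ∈ T, p) * (∏ p ∈ S, p) ≡ a ^ 2 [MOD Q] := by
  classical
  have : NeZero Q := ⟨hQ0.ne'⟩
  have hch : ∀ c : ZMod Q, ∃ w : ℕ, (∃ p, P p ∧ (p : ZMod Q) = c) → P w ∧ (w : ZMod Q) = c := by
    intro c
    by_cases h : ∃ p, P p ∧ (p : ZMod Q) = c
    · obtain ⟨p, hp⟩ := h
      exact ⟨p, fun _ => hp⟩
    · exact ⟨0, fun h' => absurd h' h⟩
  choose w hw using hch
  refine ⟨univ.sup w, fun T hT => ?_⟩
  have key : ∃ A : Finset (ZMod Q), (∀ c ∈ A, ∃ p, P p ∧ (p : ZMod Q) = c) ∧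
      ∃ a : ℕ, Nat.Coprime a Q ∧ (∏ p ∈ T, p) * (∏ c ∈ A, w c) ≡ a ^ 2 [MOD Q] := by
    induction T using Finset.induction_on with
    | empty =>
      refine ⟨∅, by simp, 1, Nat.coprime_one_left Q, ?_⟩
      simp only [prod_empty]
      rfl
    | insert p s hp ih =>
      obtain ⟨A, hA, a, ha, haT⟩ := ih fun q hq => hT q (mem_insert_of_mem hq)
      have hpp := (hT p (mem_insert_self _ _)).2
      set c : ZMod Q := (p : ZMod Q) with hc
      have hwc := hw c ⟨p, hpp, rfl⟩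
      have hpw : p ≡ w c [MOD Q] := by
        rw [← ZMod.natCast_eq_natCast_iff, hwc.2]
      rw [prod_insert hp]
      by_cases hcA : c ∈ A
      · refine ⟨A.erase c, fun d hd => hA d (mem_erase.1 hd).2, a, ha, ?_⟩
        have e1 : (∏ c ∈ A, w c) = w c * ∏ d ∈ A.erase c, w d :=
          (mul_prod_erase A w hcA).symm
        rw [e1] at haT
        calc p * (∏ q ∈ s, q) * (∏ d ∈ A.erase c, w d) ≡
              w c * (∏ q ∈ s, q) * (∏ d ∈ A.erase c, w d) [MOD Q] :=
              (hpw.mul_right _).mul_right _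
          _ = (∏ q ∈ s, q) * (w c * ∏ d ∈ A.erase c, w d) := by ring
          _ ≡ a ^ 2 [MOD Q] := haT
      · refine ⟨insert c A, ?_, a * w c, Nat.Coprime.mul_left ha (hPQ _ hwc.1), ?_⟩
        · intro d hd
          rcases mem_insert.1 hd with rfl | hd
          · exact ⟨p, hpp, rfl⟩
          · exact hA d hd
        · rw [prod_insert hcA]
          calc p * (∏ q ∈ s, q) * (w c * ∏ d ∈ A, w d) ≡
                w c * (∏ q ∈ s, q) * (w c * ∏ d ∈ A, w d) [MOD Q] :=
                (hpw.mul_right _).mul_right _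
            _ = ((∏ q ∈ s, q) * ∏ d ∈ A, w d) * w c ^ 2 := by ring
            _ ≡ a ^ 2 * w c ^ 2 [MOD Q] := haT.mul_right _
            _ = (a * w c) ^ 2 := by ring
  obtain ⟨A, hA, a, ha, haT⟩ := key
  refine ⟨A.image w, ?_, a, ha, ?_⟩
  · intro p hp
    obtain ⟨c, hc, rfl⟩ := mem_image.1 hp
    exact ⟨le_sup (mem_univ c), (hw c (hA c hc)).1⟩
  · rw [prod_image]
    · exact haT
    · intro c hc d hd hcd
      rw [← (hw c (hA c hc)).2, ← (hw d (hA d hd)).2, hcd]

open Classical in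
/-- Lower bound for the number of the locally soluble twists, if `f` has a root modulo many
primes. -/
theorem els_lower_nat_of (f : ℤ[X]) (hf : f.Monic) (hsep : (f.map (Int.castRingHom ℚ)).Separable)
    (hev : Even f.natDegree) (h2 : 2 ≤ f.natDegree) (hK : Many fun p => (R f p).Nonempty) :
    ∃ c : ℝ, 0 < c ∧ ∃ X₀ : ℕ, ∀ X : ℕ, X₀ ≤ X →
      c * X / Real.log X * ∏ p ∈ rootPrimes f X, (1 + 1 / (p : ℝ)) ≤
        (((Icc (-(X : ℤ)) X).filter (fun t => Squarefree t ∧ ELS f t)).card : ℝ) := by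
  obtain ⟨t₀, Q, C₁, ht₀, ht₀sq, hQ, ht₀C, hQC, hels⟩ := els_local f hf hsep hev h2
  set P : ℕ → Prop := fun p => p.Prime ∧ C₁ < p ∧ (R f p).Nonempty with hPdef
  obtain ⟨C₂, hC₂⟩ := exists_corr P Q hQ (fun p hp => by
    refine (Nat.Prime.coprime_iff_not_dvd hp.1).2 fun hd => ?_
    have := Nat.le_of_dvd hQ hd
    have := hp.2.1
    omega)
  choose! S hS using hC₂
  set C₃ : ℕ := max C₁ C₂ with hC₃
  set W₀ : ℕ := ∏ p ∈ (Icc 1 C₂).filter Nat.Prime, p with hW₀
  have hW₀pos : 0 < W₀ := prod_pos fun p hp => (mem_filter.1 hp).2.pos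
  obtain ⟨c, hc, X₀, h⟩ := card_FS_ge' (P := fun p => (R f p).Nonempty) hK C₃ (t₀ * W₀)
    (Nat.mul_pos ht₀ hW₀pos)
  refine ⟨c, hc, X₀, fun X hX => ?_⟩
  have hV : ∏ p ∈ rootPrimes f X, (1 + 1 / (p : ℝ)) = V (fun p => (R f p).Nonempty) X := by
    unfold V
    refine prod_congr ?_ fun _ _ => rfl
    ext p
    rw [mem_PP]
    unfold rootPrimes
    rw [mem_filter, mem_Icc]
    exact ⟨fun h => ⟨h.1.2, h.2⟩, fun h => ⟨⟨h.2.1.one_lt.le, h.1⟩, h.2⟩⟩
  rw [hV]
  refine (h X hX).trans ?_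
  have hFS : ∀ T ∈ FS (fun p => (R f p).Nonempty) C₃ (X / (t₀ * W₀)),
      (∀ p ∈ T, C₃ < p ∧ p.Prime ∧ (R f p).Nonempty) ∧ ∏ p ∈ T, p ≤ X / (t₀ * W₀) := by
    intro T hT
    unfold FS at hT
    rw [mem_filter, mem_powerset] at hT
    refine ⟨fun p hp => ?_, hT.2⟩
    have := mem_PP.1 (hT.1 hp)
    exact ⟨this.2.2.1, this.2.1, this.2.2.2⟩
  have hFS2 : ∀ T ∈ FS (fun p => (R f p).Nonempty) C₃ (X / (t₀ * W₀)),
      ∀ p ∈ T, C₂ < p ∧ P p := by
    intro T hT p hp
    obtain ⟨h1, h2, h3⟩ := (hFS T hT).1 p hp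
    exact ⟨lt_of_le_of_lt (le_max_right _ _) h1, h2, lt_of_le_of_lt (le_max_left _ _) h1, h3⟩
  have hdisj : ∀ T ∈ FS (fun p => (R f p).Nonempty) C₃ (X / (t₀ * W₀)), Disjoint T (S T) := by
    intro T hT
    rw [disjoint_left]
    intro p h1 h2
    have h3 := (hFS2 T hT p h1).1
    have h4 := ((hS T (hFS2 T hT)).1 p h2).1
    omega
  have hprimeU : ∀ T ∈ FS (fun p => (R f p).Nonempty) C₃ (X / (t₀ * W₀)),
      ∀ p ∈ T ∪ S T, P p := by
    intro T hT p hp
    rcases mem_union.1 hp with h | h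
    · exact (hFS2 T hT p h).2
    · exact ((hS T (hFS2 T hT)).1 p h).2
  have hsqU : ∀ T ∈ FS (fun p => (R f p).Nonempty) C₃ (X / (t₀ * W₀)),
      Squarefree (∏ p ∈ T ∪ S T, p) := by
    intro T hT
    have : ∀ U : Finset ℕ, (∀ p ∈ U, p.Prime) → Squarefree (∏ p ∈ U, p) := by
      intro U
      induction U using Finset.induction_on with
      | empty => simp
      | insert a s ha ih =>
        intro hU
        rw [prod_insert ha, Nat.squarefree_mul]
        · exact ⟨(hU a (mem_insert_self _ _)).prime.squarefree,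
            ih fun p hp => hU p (mem_insert_of_mem hp)⟩
        · refine Nat.Coprime.prod_right fun p hp => ?_
          refine (Nat.coprime_primes (hU a (mem_insert_self _ _)) (hU p (mem_insert_of_mem hp))).2 ?_
          rintro rfl
          exact ha hp
    exact this _ fun p hp => (hprimeU T hT p hp).1
  have hpf : ∀ T ∈ FS (fun p => (R f p).Nonempty) C₃ (X / (t₀ * W₀)),
      (∏ p ∈ T ∪ S T, p).primeFactors = T ∪ S T := fun T hT =>
    Nat.primeFactors_prod fun p hp => (hprimeU T hT p hp).1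
  have hcop : ∀ T ∈ FS (fun p => (R f p).Nonempty) C₃ (X / (t₀ * W₀)),
      Nat.Coprime t₀ (∏ p ∈ T ∪ S T, p) := by
    intro T hT
    refine Nat.Coprime.prod_right fun p hp => ?_
    have h1 := hprimeU T hT p hp
    rw [Nat.coprime_comm]
    refine (Nat.Prime.coprime_iff_not_dvd h1.1).2 fun hd => ?_
    have := Nat.le_of_dvd ht₀ hd
    have := h1.2.1
    omega
  have hcard : (FS (fun p => (R f p).Nonempty) C₃ (X / (t₀ * W₀))).card ≤
      ((Icc (-(X : ℤ)) X).filter (fun t => Squarefree t ∧ ELS f t)).card := by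
    refine card_le_card_of_injOn (fun T => ((t₀ * ∏ p ∈ T ∪ S T, p : ℕ) : ℤ)) ?_ ?_
    · intro T hT
      have hT' := mem_coe.1 hT
      rw [mem_coe, mem_filter, mem_Icc]
      refine ⟨?_, ?_, ?_⟩
      · have h1 : t₀ * ∏ p ∈ T ∪ S T, p ≤ X := by
          rw [prod_union (hdisj T hT')]
          have h2 : ∏ p ∈ S T, p ≤ W₀ := by
            rw [hW₀]
            refine prod_le_prod_of_subset_of_one_le' ?_ fun p hp _ => (mem_filter.1 hp).2.one_lt.le
            intro p hp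
            have := (hS T (hFS2 T hT')).1 p hp
            rw [mem_filter, mem_Icc]
            exact ⟨⟨this.2.1.one_lt.le, this.1⟩, this.2.1⟩
          calc t₀ * ((∏ p ∈ T, p) * ∏ p ∈ S T, p) ≤ t₀ * ((X / (t₀ * W₀)) * W₀) :=
                Nat.mul_le_mul_left _ (Nat.mul_le_mul (hFS T hT').2 h2)
            _ = (t₀ * W₀) * (X / (t₀ * W₀)) := by ring
            _ ≤ X := Nat.mul_div_le _ _
        simp only
        constructor
        · have : (0 : ℤ) ≤ ((t₀ * ∏ p ∈ T ∪ S T, p : ℕ) : ℤ) := Int.natCast_nonneg _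
          have : (0 : ℤ) ≤ X := Int.natCast_nonneg _
          linarith
        · exact Nat.cast_le.2 h1
      · rw [Int.squarefree_natCast, Nat.squarefree_mul (hcop T hT')]
        exact ⟨ht₀sq, hsqU T hT'⟩
      · refine hels _ ?_ (hsqU T hT') ?_
        · intro p hp hd
          have : p ∈ T ∪ S T := by
            rw [← hpf T hT']
            exact Nat.mem_primeFactors.2 ⟨hp, hd, (hsqU T hT').ne_zero⟩
          exact (hprimeU T hT' p this).2
        · obtain ⟨_, a, ha, haT⟩ := hS T (hFS2 T hT')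
          refine ⟨a, ha, ?_⟩
          rw [prod_union (hdisj T hT')]
          exact haT
    · intro T hT T' hT' htt
      have hT1 := mem_coe.1 hT
      have hT1' := mem_coe.1 hT'
      simp only at htt
      have h1 : t₀ * ∏ p ∈ T ∪ S T, p = t₀ * ∏ p ∈ T' ∪ S T', p := by exact_mod_cast htt
      have h2 := Nat.eq_of_mul_eq_mul_left ht₀ h1
      have h3 : T ∪ S T = T' ∪ S T' := by
        rw [← hpf T hT1, ← hpf T' hT1', h2]
      have h4 : ∀ T ∈ FS (fun p => (R f p).Nonempty) C₃ (X / (t₀ * W₀)),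
          (T ∪ S T).filter (fun p => C₂ < p) = T := by
        intro T hT
        ext p
        rw [mem_filter, mem_union]
        constructor
        · rintro ⟨h | h, h'⟩
          · exact h
          · have := ((hS T (hFS2 T hT)).1 p h).1
            omega
        · intro h
          exact ⟨Or.inl h, (hFS2 T hT p h).1⟩
      rw [← h4 T hT1, ← h4 T' hT1', h3]
  exact_mod_cast hcard

/-- The hypothesis with the usual decidability instances. -/
theorem many_of (f : ℤ[X]) (hK : ∃ K : ℕ, 0 < K ∧ ∀ y : ℕ, K < y → (y : ℝ) / (K * Real.log y) ≤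
    (((Ioc (y / K) y).filter (fun p => p.Prime ∧ (R f p).Nonempty)).card : ℝ)) :
    Many fun p => (R f p).Nonempty := by
  obtain ⟨K, hK0, h⟩ := hK
  refine ⟨K, hK0, fun y hy => ?_⟩
  convert h y hy

end Stoll308.Gen
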