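import Pool.Agent.Work.MP_308fa9_nt.Gen.RelFinal

set_option autoImplicit false

/-!
The relation data of the twists: main theorem of the algebraic part.
-/

namespace Stoll308.Gen

open Polynomial Finset NumberTheorySymbols

/-- The known part of the relation. -/
noncomputable def ZZ (f : ℤ[X]) (ε : ℚ[X]) (s : ℤ) (T : Finset ℕ) (ρ : ℕ → ℕ) (p : ℕ)
    [Fact p.Prime] (α β : ℤ_[p]) : ℚ_[p] :=
  (dq ε p).eval (β : ℚ_[p]) * (dq ε p).eval (α : ℚ_[p]) * (dq (tq f T ρ) p).eval (β : ℚ_[p]) *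
    (dq (tq f T ρ) p).eval (α : ℚ_[p]) * s * ((∏ q ∈ T, q : ℕ) : ℚ_[p]) *
    (((derivative (fz f p)).eval α * (α - β) : ℤ_[p]) : ℚ_[p])

open Classical in
/-- The sign of the relation. -/
noncomputable def cc (f : ℤ[X]) (ε : ℚ[X]) (s : ℤ) (T : Finset ℕ) (ρ : ℕ → ℕ) (p a : ℕ) : ℤ :=
  if p ∈ T ∧ ∃ (_ : Fact p.Prime) (α β : ℤ_[p]), Lift f p (ρ p) α ∧ Lift f p a β ∧
    IsSquare (ZZ f ε s T ρ p α β) then 1 else -1

lemma cc_congr (f : ℤ[X]) (ε : ℚ[X]) (s : ℤ) (T : Finset ℕ) (ρ ρ' : ℕ → ℕ) (p a : ℕ)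
    (h : ∀ p ∈ T, ρ p = ρ' p) : cc f ε s T ρ p a = cc f ε s T ρ' p a := by
  have h2 : p ∈ T → ∀ (_ : Fact p.Prime) (α β : ℤ_[p]),
      ZZ f ε s T ρ p α β = ZZ f ε s T ρ' p α β := by
    intro hp _ α β
    unfold ZZ tq
    rw [thue_congr f T ρ ρ' h]
  have h3 : (p ∈ T ∧ ∃ (_ : Fact p.Prime) (α β : ℤ_[p]), Lift f p (ρ p) α ∧ Lift f p a β ∧
      IsSquare (ZZ f ε s T ρ p α β)) ↔ (p ∈ T ∧ ∃ (_ : Fact p.Prime) (α β : ℤ_[p]),
      Lift f p (ρ' p) α ∧ Lift f p a β ∧ IsSquare (ZZ f ε s T ρ' p α β)) := by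
    constructor
    · rintro ⟨hp, i, α, β, h3, h4, h5⟩
      exact ⟨hp, i, α, β, h p hp ▸ h3, h4, by rw [← h2 hp]; exact h5⟩
    · rintro ⟨hp, i, α, β, h3, h4, h5⟩
      exact ⟨hp, i, α, β, (h p hp).symm ▸ h3, h4, by rw [h2 hp]; exact h5⟩
  unfold cc
  by_cases hP : (p ∈ T ∧ ∃ (_ : Fact p.Prime) (α β : ℤ_[p]), Lift f p (ρ p) α ∧ Lift f p a β ∧
      IsSquare (ZZ f ε s T ρ p α β))
  · rw [if_pos hP, if_pos (h3.1 hP)]
  · rw [if_neg hP, if_neg (fun h => hP (h3.2 h))]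

lemma cc_le (f : ℤ[X]) (ε : ℚ[X]) (s : ℤ) (T : Finset ℕ) (ρ : ℕ → ℕ) (p a : ℕ) :
    |cc f ε s T ρ p a| ≤ 1 := by
  unfold cc
  split_ifs <;> norm_num

section

variable {f : ℤ[X]} {C₀ : ℕ} (hG : GoodBound f C₀)

include hG

lemma fr_irr : Irreducible (fr f) := irr_rat hG.monic hG.irr

lemma mk_tq_ne_zero {T : Finset ℕ} {ρ : ℕ → ℕ} (hV : Valid f C₀ T ρ) :
    AdjoinRoot.mk (fr f) (tq f T ρ) ≠ 0 := by
  rw [Ne, AdjoinRoot.mk_eq_zero]
  intro hd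
  have hm : (fr f).Monic := hG.monic.map _
  have h2 := eq_zero_of_dvd_of_degree_lt hd (by
    rw [degree_eq_natDegree hm.ne_zero, hG.monic.natDegree_map]; exact poly_degree_lt _)
  apply (thue_spec' hG hV).1
  funext i
  have h3 := poly_coeff (fun i => (thue f T ρ i : ℚ)) i
  have h2' : poly (fun i => (thue f T ρ i : ℚ)) = 0 := h2
  rw [h2', coeff_zero] at h3
  have h4 : ((thue f T ρ i : ℤ) : ℚ) = 0 := h3.symm
  simpa using h4

/-- The symbol of the second Thue element. -/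
lemma symbol_eq {p : ℕ} [hp : Fact p.Prime] (hpC : C₀ < p) {T : Finset ℕ} {ρ : ℕ → ℕ}
    (hV : Valid f C₀ T ρ) (hpT : p ∉ T) {α β : ℤ_[p]} {r a : ℕ} (hα : Lift f p r α)
    (hβ : Lift f p a β) :
    ∃ u : ℤ_[p], IsUnit u ∧ (u : ℚ_[p]) = ((∏ q ∈ T, q : ℕ) : ℚ_[p]) *
      (dq (tq f T ρ) p).eval (α : ℚ_[p]) * (dq (tq f T ρ) p).eval (β : ℚ_[p]) ∧
      ((IsSquare (u : ℚ_[p]) ∧ J(kap f T ρ | p) * W f p r a (thue f T ρ) = 1) ∨
        (¬ IsSquare (u : ℚ_[p]) ∧ J(kap f T ρ | p) * W f p r a (thue f T ρ) = -1)) := by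
  classical
  set G := poly (fun i => (thue f T ρ i : ℤ_[p])) with hGdef
  set N := ∏ q ∈ T, q with hN
  have hco := thue_coprime hG hV hp.out hpC hpT
  have hroot : ∀ {b : ℕ} {γ : ℤ_[p]}, Lift f p b γ → rd p (G.eval γ) ≠ 0 := by
    intro b γ hγ h0
    obtain ⟨u, v, huv⟩ := hco
    have h1 := congrArg (eval (rd p γ)) huv
    rw [eval_add, eval_mul, eval_mul, ← rd_poly, eval_map_apply, h0, ← fz_map, eval_map_apply,
      hγ.1] at h1
    simp at h1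
  have hNp : (N : ZMod p) ≠ 0 := by
    rw [Ne, ZMod.natCast_eq_zero_iff, hN, hp.out.prime.dvd_finsetProd_iff]
    rintro ⟨q, hq, hpq⟩
    rw [(Nat.prime_dvd_prime_iff_eq hp.out (hV q hq).1).1 hpq] at hpT
    exact hpT hq
  have hu : IsUnit ((N : ℤ_[p]) * G.eval α * G.eval β) := by
    rw [← rd_ne_zero_iff, map_mul, map_mul, map_natCast]
    exact mul_ne_zero (mul_ne_zero hNp (hroot hα)) (hroot hβ)
  refine ⟨_, hu, ?_, ?_⟩
  · rw [dq_tq_eval, dq_tq_eval]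
    push_cast
    rfl
  · have h1 : J(kap f T ρ | p) * W f p r a (thue f T ρ) =
        quadraticChar (ZMod p) (rd p ((N : ℤ_[p]) * G.eval α * G.eval β)) := by
      unfold W
      rw [← jacobiSym.mul_left, kap_mul hG hV, ← jacobiSym.legendreSym.to_jacobiSym, legendreSym]
      have h2 : (((kap f T ρ) * (ev (thue f T ρ) (a : ℤ) * ev (thue f T ρ) (r : ℤ) *
          (kap f T ρ * ((N : ℕ) : ℤ))) : ℤ) : ZMod p) = ((kap f T ρ : ℤ) : ZMod p) ^ 2 *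
          rd p ((N : ℤ_[p]) * G.eval α * G.eval β) := by
        have h3 : ∀ {b : ℕ} {γ : ℤ_[p]}, Lift f p b γ →
            ((ev (thue f T ρ) (b : ℤ) : ℤ) : ZMod p) = rd p (G.eval γ) := by
          intro b γ hγ
          rw [hGdef, poly_eval, ev_map, hγ.2, ev_cast]
          simp
        push_cast
        rw [h3 hα, h3 hβ, map_mul, map_mul, map_natCast]
        ring
      rw [h2, map_mul, map_pow]
      have hk : ((kap f T ρ : ℤ) : ZMod p) ≠ 0 := by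
        rw [Ne, ZMod.intCast_zmod_eq_zero_iff_dvd]
        exact not_dvd_kap hG hV hpC
      rw [quadraticChar_sq_one hk, one_mul]
    rw [h1]
    have hu' := rd_ne_zero_iff.2 hu
    by_cases hsq : IsSquare (((N : ℤ_[p]) * G.eval α * G.eval β : ℤ_[p]) : ℚ_[p])
    · left
      exact ⟨hsq, (quadraticChar_one_iff_isSquare hu').2
        ((isSquare_coe_iff (hG.ne_two hpC) hu).1 hsq)⟩
    · right
      refine ⟨hsq, ?_⟩
      rw [quadraticChar_neg_one_iff_not_isSquare]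
      exact fun h => hsq ((isSquare_coe_iff (hG.ne_two hpC) hu).2 h)

/-- The main relation. -/
lemma main_rel [hirr : Fact (Irreducible (fr f))] {t : ℤ} (ht : Squarefree t) {δ : ℚ[X]}
    {ρ : ℕ → ℕ} (hV : Valid f C₀ (bigPrimes C₀ t) ρ)
    {T₁ T₂ : Finset ℕ} (hd : Disjoint T₁ T₂) (hun : T₁ ∪ T₂ = bigPrimes C₀ t) {r : ℚ} (hr : r ≠ 0)
    {ε : ℚ[X]} {γ : AdjoinRoot (fr f)} (hγ : γ ≠ 0)
    (hmk : AdjoinRoot.mk (fr f) (C r * (δ * (tq f T₁ ρ * tq f T₂ ρ))) =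
      AdjoinRoot.mk (fr f) ε * γ ^ 2)
    {p : ℕ} [hp : Fact p.Prime] (hpT : p ∈ T₁) {a : ℕ} (ha : a ∈ R f p) (hne : a ≠ ρ p)
    {α : ℤ_[p]} (hα : Lift f p (ρ p) α)
    (hrel : ∀ β : ℤ_[p], (fz f p).eval β = 0 → β ≠ α →
        (dq δ p).eval (α : ℚ_[p]) ≠ 0 ∧ (dq δ p).eval (β : ℚ_[p]) ≠ 0 ∧
        IsSquare ((dq δ p).eval (β : ℚ_[p]) * (dq δ p).eval (α : ℚ_[p]) * t *
          ((((derivative (fz f p)).eval α * (α - β) : ℤ_[p]) : ℚ_[p])))) :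
    cc f ε (t / ((∏ p ∈ bigPrimes C₀ t, p : ℕ) : ℤ)) T₁ ρ p a *
      (J(kap f T₂ ρ | p) * W f p (ρ p) a (thue f T₂ ρ)) = 1 := by
  classical
  have hV₁ : Valid f C₀ T₁ ρ := fun q hq => hV q (hun ▸ mem_union_left _ hq)
  have hV₂ : Valid f C₀ T₂ ρ := fun q hq => hV q (hun ▸ mem_union_right _ hq)
  have hpC := (hV₁ p hpT).2.1
  have hpT₂ : p ∉ T₂ := fun h => disjoint_left.1 hd hpT h
  have hsep := hG.sep p hp.out hpC
  obtain ⟨β, hβ⟩ := exists_lift hsep ha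
  have hβα : β ≠ α := by
    rintro rfl
    exact hne (cast_inj_of_lt (mem_R.1 ha).1 (mem_R.1 (hV₁ p hpT).2.2).1 (hβ.2.symm.trans hα.2))
  obtain ⟨hAδ, hBδ, hsq⟩ := hrel β hβ.1 hβα
  set s : ℤ := t / ((∏ p ∈ bigPrimes C₀ t, p : ℕ) : ℤ) with hs
  have hts : t = s * ((∏ p ∈ T₁, p : ℕ) : ℤ) * ((∏ p ∈ T₂, p : ℕ) : ℤ) := by
    have h1 : s * ((∏ p ∈ bigPrimes C₀ t, p : ℕ) : ℤ) = t :=
      Int.ediv_mul_cancel prod_bigPrimes_dvd
    rw [← hun, prod_union hd, Nat.cast_mul, ← mul_assoc] at h1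
    exact h1.symm
  -- evaluate the identity in the number field
  have hgα : evHom hα.1 γ ≠ 0 := (_root_.map_ne_zero _).2 hγ
  have hgβ : evHom hβ.1 γ ≠ 0 := (_root_.map_ne_zero _).2 hγ
  have hev : ∀ {b : ℕ} {η : ℤ_[p]} (hη : Lift f p b η),
      (r : ℚ_[p]) * ((dq δ p).eval (η : ℚ_[p]) * ((dq (tq f T₁ ρ) p).eval (η : ℚ_[p]) *
        (dq (tq f T₂ ρ) p).eval (η : ℚ_[p]))) =
      (dq ε p).eval (η : ℚ_[p]) * evHom hη.1 γ ^ 2 := by
    intro b η hη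
    have h1 := congrArg (evHom hη.1) hmk
    rw [map_mul (evHom hη.1), map_pow, evHom_mk, evHom_mk] at h1
    rw [← h1]
    unfold dq
    rw [Polynomial.map_mul, Polynomial.map_mul, Polynomial.map_mul, map_C, eval_mul, eval_mul,
      eval_mul, eval_C]
    simp
  have hevα := hev hα
  have hevβ := hev hβ
  have hG₁α : (dq (tq f T₁ ρ) p).eval (α : ℚ_[p]) ≠ 0 := by
    rw [← evHom_mk hα.1]
    exact (_root_.map_ne_zero _).2 (mk_tq_ne_zero hG hV₁)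
  have hG₁β : (dq (tq f T₁ ρ) p).eval (β : ℚ_[p]) ≠ 0 := by
    rw [← evHom_mk hβ.1]
    exact (_root_.map_ne_zero _).2 (mk_tq_ne_zero hG hV₁)
  have hG₂α : (dq (tq f T₂ ρ) p).eval (α : ℚ_[p]) ≠ 0 := by
    rw [← evHom_mk hα.1]
    exact (_root_.map_ne_zero _).2 (mk_tq_ne_zero hG hV₂)
  have hG₂β : (dq (tq f T₂ ρ) p).eval (β : ℚ_[p]) ≠ 0 := by
    rw [← evHom_mk hβ.1]
    exact (_root_.map_ne_zero _).2 (mk_tq_ne_zero hG hV₂)
  have hr' : (r : ℚ_[p]) ≠ 0 := by exact_mod_cast hr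
  have hεα : (dq ε p).eval (α : ℚ_[p]) ≠ 0 := by
    intro h
    rw [h, zero_mul] at hevα
    exact mul_ne_zero hr' (mul_ne_zero hAδ (mul_ne_zero hG₁α hG₂α)) hevα
  have hεβ : (dq ε p).eval (β : ℚ_[p]) ≠ 0 := by
    intro h
    rw [h, zero_mul] at hevβ
    exact mul_ne_zero hr' (mul_ne_zero hBδ (mul_ne_zero hG₁β hG₂β)) hevβ
  obtain ⟨u, hu, huU, hsym⟩ := symbol_eq hG hpC hV₂ hpT₂ hα hβ
  -- `Z U` is a square
  set D : ℚ_[p] := (((derivative (fz f p)).eval α * (α - β) : ℤ_[p]) : ℚ_[p]) with hD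
  have hD0 : D ≠ 0 := by
    obtain ⟨k, hkm, hk⟩ := exists_factor hG.monic hα.1
    rw [hD, PadicInt.coe_ne_zero, deriv_eval hk]
    refine mul_ne_zero ?_ (sub_ne_zero.2 hβα.symm)
    have := factor_eval_unit hsep hk (x := α) rfl
    intro h0
    rw [h0] at this
    exact not_isUnit_zero this
  have ht0 : (t : ℚ_[p]) ≠ 0 := by exact_mod_cast ht.ne_zero
  have htq : (t : ℚ_[p]) = (s : ℚ_[p]) * ((∏ p ∈ T₁, p : ℕ) : ℚ_[p]) *
      ((∏ p ∈ T₂, p : ℕ) : ℚ_[p]) := by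
    have := congrArg (Int.cast : ℤ → ℚ_[p]) hts
    rw [this]
    push_cast
    ring
  have hs0 : (s : ℚ_[p]) ≠ 0 := fun h => ht0 (by rw [htq, h]; ring)
  have hT₁0 : ((∏ p ∈ T₁, p : ℕ) : ℚ_[p]) ≠ 0 := fun h => ht0 (by rw [htq, h]; ring)
  obtain ⟨q, hq⟩ := hsq
  have hZU : ZZ f ε s T₁ ρ p α β * (u : ℚ_[p]) =
      ((r : ℚ_[p]) * ((dq (tq f T₁ ρ) p).eval (α : ℚ_[p]) * (dq (tq f T₁ ρ) p).eval (β : ℚ_[p]) *
        (dq (tq f T₂ ρ) p).eval (α : ℚ_[p]) * (dq (tq f T₂ ρ) p).eval (β : ℚ_[p])) * q /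
        (evHom hα.1 γ * evHom hβ.1 γ)) ^ 2 := by
    rw [huU]
    unfold ZZ
    rw [← hD, div_pow, eq_div_iff (pow_ne_zero 2 (mul_ne_zero hgα hgβ))]
    set Eα := (dq ε p).eval (α : ℚ_[p])
    set Eβ := (dq ε p).eval (β : ℚ_[p])
    set A := (dq δ p).eval (α : ℚ_[p])
    set B := (dq δ p).eval (β : ℚ_[p])
    set G₁α := (dq (tq f T₁ ρ) p).eval (α : ℚ_[p])
    set G₁β := (dq (tq f T₁ ρ) p).eval (β : ℚ_[p])
    set G₂α := (dq (tq f T₂ ρ) p).eval (α : ℚ_[p])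
    set G₂β := (dq (tq f T₂ ρ) p).eval (β : ℚ_[p])
    set gα := evHom hα.1 γ
    set gβ := evHom hβ.1 γ
    set N₁ : ℚ_[p] := ((∏ p ∈ T₁, p : ℕ) : ℚ_[p])
    set N₂ : ℚ_[p] := ((∏ p ∈ T₂, p : ℕ) : ℚ_[p])
    have h1 : (Eα * gα ^ 2) * (Eβ * gβ ^ 2) = (r * (A * (G₁α * G₂α))) * (r * (B * (G₁β * G₂β))) := by
      rw [hevα, hevβ]
    have h2 : B * A * (s * N₁ * N₂) * D = q * q := by
      rw [← htq, hq]
    linear_combination (G₁β * G₁α * s * N₁ * D * N₂ * G₂α * G₂β) * h1 +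
      (r ^ 2 * (G₁α * G₁β * G₂α * G₂β) ^ 2) * h2
  have hZ0 : ZZ f ε s T₁ ρ p α β ≠ 0 := by
    unfold ZZ
    exact mul_ne_zero (mul_ne_zero (mul_ne_zero (mul_ne_zero (mul_ne_zero (mul_ne_zero hεβ hεα)
      hG₁β) hG₁α) hs0) hT₁0) hD0
  have hu0 := unit_ne_zero hu
  have hiff : IsSquare (ZZ f ε s T₁ ρ p α β) ↔ IsSquare (u : ℚ_[p]) := by
    constructor
    · rintro ⟨z, hz⟩
      rw [hz] at hZU hZ0
      have hz0 : z ≠ 0 := left_ne_zero_of_mul hZ0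
      refine ⟨((r : ℚ_[p]) * ((dq (tq f T₁ ρ) p).eval (α : ℚ_[p]) *
        (dq (tq f T₁ ρ) p).eval (β : ℚ_[p]) *
        (dq (tq f T₂ ρ) p).eval (α : ℚ_[p]) * (dq (tq f T₂ ρ) p).eval (β : ℚ_[p])) * q /
        (evHom hα.1 γ * evHom hβ.1 γ)) / z, ?_⟩
      rw [div_mul_div_comm, ← sq, ← hZU, mul_comm (z * z), mul_div_assoc, div_self hZ0, mul_one]
    · rintro ⟨z, hz⟩
      rw [hz] at hZU hu0
      refine ⟨((r : ℚ_[p]) * ((dq (tq f T₁ ρ) p).eval (α : ℚ_[p]) *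
        (dq (tq f T₁ ρ) p).eval (β : ℚ_[p]) *
        (dq (tq f T₂ ρ) p).eval (α : ℚ_[p]) * (dq (tq f T₂ ρ) p).eval (β : ℚ_[p])) * q /
        (evHom hα.1 γ * evHom hβ.1 γ)) / z, ?_⟩
      rw [div_mul_div_comm, ← sq, ← hZU, mul_div_assoc, div_self hu0, mul_one]
  rcases hsym with ⟨hsq', hsym⟩ | ⟨hsq', hsym⟩
  · have hcc : cc f ε s T₁ ρ p a = 1 := by
      unfold cc
      rw [if_pos]
      exact ⟨hpT, hp, α, β, hα, hβ, hiff.2 hsq'⟩
    rw [hcc, hsym]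
    norm_num
  · have hcc : cc f ε s T₁ ρ p a = -1 := by
      unfold cc
      rw [if_neg]
      rintro ⟨-, hp', α', β', hα', hβ', hsq''⟩
      apply hsq'
      rw [← hiff]
      have e1 := Lift.unique hG.monic hsep hα' hα
      have e2 := Lift.unique hG.monic hsep hβ' hβ
      rw [← e1, ← e2]
      exact hsq''
    rw [hcc, hsym]
    norm_num

end

/-- The algebraic part: the relation data exist, with `C₀` as large as we like. -/
theorem exists_relData (f : ℤ[X]) (hf : f.Monic) (hirr : Irreducible f) (hev : Even f.natDegree)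
    (hn : 1 ≤ f.natDegree) (B : ℕ) : ∃ D : RelData f, B ≤ D.C₀ := by
  classical
  obtain ⟨B₁, hB₁⟩ := exists_separable f hf hirr
  obtain ⟨B₂, hB₂⟩ := exists_nat_ge (resConst f)
  set C₀ : ℕ := max (max B B₁) (max B₂ 2) with hC₀
  have hG : GoodBound f C₀ :=
    { monic := hf
      irr := hirr
      deg := hn
      two := le_trans (le_max_right _ _) (le_max_right _ _)
      sep := fun p hp hpC => hB₁ p hp (lt_of_le_of_lt
        (le_trans (le_max_right _ _) (le_max_left _ _)) hpC)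
      res := hB₂.trans (by exact_mod_cast le_trans (le_max_left _ _) (le_max_right _ _)) }
  have hirr' : Fact (Irreducible (fr f)) := ⟨fr_irr hG⟩
  obtain ⟨S, hS, hreps⟩ := exists_reps (f := f) hf C₀
  set S' := hS.toFinset with hS'
  have hlift : ∀ z : KK f, ∃ q : ℚ[X], AdjoinRoot.mk (fr f) q = z := AdjoinRoot.mk_surjective
  choose lf hlf using hlift
  let en := S'.equivFin
  refine ⟨
    { C₀ := C₀
      m := S'.card
      g := thue f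
      κ := kap f
      c := fun i s T ρ p a => cc f (lf (en.symm i)) s T ρ p a
      g_congr := fun T ρ ρ' h => thue_congr f T ρ ρ' h
      κ_congr := fun T ρ ρ' h => kap_congr f T ρ ρ' h
      c_congr := fun i s T ρ ρ' p a h => cc_congr f _ s T ρ ρ' p a h
      c_le := fun i s T ρ p a => cc_le f _ s T ρ p a
      g_le := fun T ρ hV i => (thue_spec' hG hV).2.1 i
      g_res := fun T ρ hV => kap_mul hG hV
      κ_ne := fun T ρ hV => kap_ne hG hV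
      κ_le := fun T ρ hV => kap_le hG hV
      g_inj := fun T ρ T' ρ' hV hV' h => thue_inj hG hV hV' h
      rel := ?_ }, le_trans (le_max_left _ _) (le_max_left _ _)⟩
  intro t ht hSel
  obtain ⟨δ, hδ, hloc, -⟩ := hSel
  obtain ⟨ρ, hV, hρ⟩ := exists_rho hG hev ht hloc
  refine ⟨ρ, hV, fun T₁ T₂ hd hun => ?_⟩
  have hV₁ : Valid f C₀ T₁ ρ := fun q hq => hV q (hun ▸ mem_union_left _ hq)
  have hV₂ : Valid f C₀ T₂ ρ := fun q hq => hV q (hun ▸ mem_union_right _ hq)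
  set Δ : ℚ[X] := δ * (tq f T₁ ρ * tq f T₂ ρ) with hΔ
  have hδ0 : AdjoinRoot.mk (fr f) δ ≠ 0 := by
    rw [Ne, AdjoinRoot.mk_eq_zero]
    intro h
    exact (fr_irr hG).not_isUnit (hδ.isUnit_of_dvd' h dvd_rfl)
  have hΔ0 : AdjoinRoot.mk (fr f) Δ ≠ 0 := by
    rw [hΔ, map_mul, map_mul]
    exact mul_ne_zero hδ0 (mul_ne_zero (mk_tq_ne_zero hG hV₁) (mk_tq_ne_zero hG hV₂))
  -- the exponents
  have hE : ∀ p : ℕ, ∃ e : ℤ, ∀ (_ : Fact p.Prime), C₀ < p →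
      EvenAt f p (C ((p : ℚ) ^ e) * Δ) := by
    intro p
    by_cases hp : p.Prime
    · by_cases hpC : C₀ < p
      · have hpf : Fact p.Prime := ⟨hp⟩
        obtain ⟨e, w, h⟩ := unit_all hG ht hloc hV (fun p hpf hpb => by
          obtain ⟨α, h1, -, h3⟩ := hρ p hpb
          exact ⟨α, h1, h3⟩) hd hun p hpC
        exact ⟨e, fun _ _ => evenAt_of_UU hf h⟩
      · exact ⟨0, fun _ h => absurd h hpC⟩
    · exact ⟨0, fun h _ => absurd h.out hp⟩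
  choose e he using hE
  obtain ⟨B₃, hB₃⟩ := evenAt_almost (f := f) (fr_irr hG) (Δ := Δ) (by
    rw [← AdjoinRoot.mk_eq_zero]
    exact hΔ0)
  set Q : Finset ℕ := (range (B₃ + 1)).filter Nat.Prime with hQ
  set r : ℚ := ∏ q ∈ Q, (q : ℚ) ^ (e q) with hr
  have hr0 : r ≠ 0 := by
    rw [hr, prod_ne_zero_iff]
    intro q hq
    rw [hQ, mem_filter] at hq
    exact zpow_ne_zero _ (by exact_mod_cast hq.2.ne_zero)
  have hall : ∀ (p : ℕ) [Fact p.Prime], C₀ < p → EvenAt f p (C r * Δ) := by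
    intro p hpf hpC
    by_cases hpQ : p ∈ Q
    · have h1 : C r * Δ = C (∏ q ∈ Q.erase p, (q : ℚ) ^ (e q)) * (C ((p : ℚ) ^ (e p)) * Δ) := by
        rw [hr, ← mul_prod_erase Q _ hpQ, C_mul]
        ring
      rw [h1]
      apply (he p hpf hpC).prod_mul
      · intro q hq
        have := mem_of_mem_erase hq
        rw [hQ, mem_filter] at this
        exact this.2
      · exact notMem_erase _ _
    · apply EvenAt.prod_mul _ Q (fun q hq => by rw [hQ, mem_filter] at hq; exact hq.2) hpQ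
      apply hB₃
      by_contra hle
      apply hpQ
      rw [hQ, mem_filter, mem_range]
      exact ⟨by omega, hpf.out⟩
  have hrΔ0 : AdjoinRoot.mk (fr f) (C r * Δ) ≠ 0 := by
    rw [map_mul]
    refine mul_ne_zero ?_ hΔ0
    rw [AdjoinRoot.mk_C]
    exact (_root_.map_ne_zero _).2 hr0
  obtain ⟨ε, hε, γ, hγ, hmk⟩ := hreps (C r * Δ) hrΔ0 hall
  have hε' : ε ∈ S' := by
    rw [hS', Set.Finite.mem_toFinset]
    exact hε
  refine ⟨en ⟨ε, hε'⟩, fun p hpT a ha hne => ?_⟩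
  have hpf : Fact p.Prime := ⟨(hV₁ p hpT).1⟩
  obtain ⟨α, hα, hrel, -⟩ := hρ p (hun ▸ mem_union_left _ hpT)
  have h1 : (lf ((en.symm (en ⟨ε, hε'⟩) : S') : KK f)) = lf ε := by
    rw [Equiv.symm_apply_apply]
  simp only [h1]
  refine main_rel hG ht hV hd hun hr0 hγ (δ := δ) ?_ hpT ha hne hα hrel
  rw [hlf]
  exact hmk

end Stoll308.Gen
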