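import Pool.Agent.Work.MP_308fa9_nt.Gen.Lead
import Pool.Agent.Work.MP_308fa9_nt.Gen.Euler
import Pool.Agent.Work.MP_308fa9_nt.Gen.RelThm

set_option autoImplicit false

/-!
Final assembly: from the monic case to the general case.
-/

namespace Stoll308.Irr

open Polynomial Finset Filter Stoll308.Gen Stoll308.MeanSum

/-- The Euler product of the primes with a root. -/
noncomputable def VV (f : ℤ[X]) (X : ℕ) : ℝ := ∏ p ∈ rootPrimes f X, (1 + 1 / (p : ℝ))

lemma VV_pos (f : ℤ[X]) (X : ℕ) : 0 < VV f X := prod_pos fun p _ => by positivity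

lemma rootPrimes_prime {f : ℤ[X]} {X p : ℕ} (h : p ∈ rootPrimes f X) : p.Prime := by
  unfold rootPrimes at h
  rw [mem_filter] at h
  exact h.2.1

lemma logSum_nonneg (P : ℤ → Prop) (X : ℕ) : 0 ≤ logSum P X :=
  sum_nonneg fun _ _ => by positivity

lemma logSum_mono (P : ℤ → Prop) {X Y : ℕ} (h : X ≤ Y) : logSum P X ≤ logSum P Y := by
  classical
  unfold logSum
  apply sum_le_sum_of_subset_of_nonneg
  · intro t ht
    rw [mem_filter, mem_Icc] at ht ⊢
    have : (X : ℤ) ≤ Y := by exact_mod_cast h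
    exact ⟨⟨by linarith [ht.1.1], by linarith [ht.1.2]⟩, ht.2⟩
  · intro _ _ _
    positivity

/-- The product does not change much from `X / a` to `a X`. -/
lemma VV_le (f : ℤ[X]) (a : ℕ) (ha : 1 ≤ a) : ∃ K : ℝ, 0 < K ∧ ∃ X₀ : ℕ, ∀ X : ℕ, X₀ ≤ X →
    VV f (a * X) ≤ K * VV f (X / a) := by
  obtain ⟨C, hC, hM⟩ := mertens_real
  refine ⟨Real.exp (Real.log 3 + 2 * C), Real.exp_pos _, 3 * a + (4 * a) ^ 3, fun X hX => ?_⟩
  have haR : (1 : ℝ) ≤ a := by exact_mod_cast ha
  set Y := X / a with hY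
  have hYX : Y ≤ a * X := (Nat.div_le_self X a).trans (Nat.le_mul_of_pos_left X (by omega))
  have hY3 : 3 ≤ Y := by
    rw [hY, Nat.le_div_iff_mul_le (by omega)]
    exact le_trans (Nat.le_add_right _ _) hX
  have hY3R : (3 : ℝ) ≤ Y := by exact_mod_cast hY3
  have hXR : ((4 * a : ℕ) : ℝ) ^ 3 ≤ X := by
    exact_mod_cast le_trans (Nat.le_add_left _ _) hX
  have hX0 : (0 : ℝ) < X := lt_of_lt_of_le (by positivity) hXR
  have hYge : (X : ℝ) / (2 * a) ≤ Y := by
    have h1 : X < a * (Y + 1) := Nat.lt_mul_div_succ X (by omega)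
    have h2 : (X : ℝ) < a * (Y + 1) := by exact_mod_cast h1
    rw [div_le_iff₀ (by positivity)]
    nlinarith
  -- logs
  have hlogaX : Real.log ((a * X : ℕ) : ℝ) ≤ 3 * Real.log Y := by
    have h1 : Real.log Y ^ 1 = Real.log Y := pow_one _
    have h2 : 3 * Real.log (Y : ℝ) = Real.log ((Y : ℝ) ^ 3) := by
      rw [Real.log_pow]; norm_num
    rw [h2]
    apply Real.log_le_log
    · push_cast; positivity
    · push_cast
      have h3 : ((X : ℝ) / (2 * a)) ^ 3 ≤ (Y : ℝ) ^ 3 := pow_le_pow_left₀ (by positivity) hYge 3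
      refine le_trans ?_ h3
      rw [div_pow, le_div_iff₀ (by positivity)]
      have h4 : (a : ℝ) * X * (2 * a) ^ 3 = (8 * a ^ 4) * X := by ring
      rw [h4]
      have h5 : (8 * (a : ℝ) ^ 4) ≤ X ^ 2 := by
        have h6 : (1 : ℝ) ≤ X := le_trans (by
          have : (1 : ℝ) ≤ ((4 * a : ℕ) : ℝ) := by exact_mod_cast (by omega : 1 ≤ 4 * a)
          exact one_le_pow₀ this) hXR
        have h7 : (64 * (a : ℝ) ^ 3) ≤ X := by
          have : (((4 * a : ℕ) : ℝ)) ^ 3 = 64 * (a : ℝ) ^ 3 := by push_cast; ring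
          rw [← this]; exact hXR
        have h8 : (a : ℝ) ≤ X := by
          have : (a : ℝ) ≤ a ^ 3 := le_self_pow₀ haR (by norm_num)
          nlinarith [pow_pos (by linarith : (0:ℝ) < a) 3]
        calc 8 * (a : ℝ) ^ 4 ≤ (64 * (a : ℝ) ^ 3) * a := by
              nlinarith [pow_pos (by linarith : (0 : ℝ) < a) 4]
          _ ≤ (X : ℝ) * X := mul_le_mul h7 h8 (by positivity) hX0.le
          _ = (X : ℝ) ^ 2 := by ring
      calc 8 * (a : ℝ) ^ 4 * X ≤ (X : ℝ) ^ 2 * X := mul_le_mul_of_nonneg_right h5 hX0.le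
        _ = (X : ℝ) ^ 3 := by ring
  have hlogY : 0 < Real.log Y := Real.log_pos (by linarith)
  have hlogaX0 : 0 < Real.log ((a * X : ℕ) : ℝ) := by
    apply Real.log_pos
    have : (3 : ℝ) ≤ ((a * X : ℕ) : ℝ) := by exact_mod_cast hY3.trans hYX
    linarith
  have hll : Real.log (Real.log ((a * X : ℕ) : ℝ)) ≤ Real.log 3 + Real.log (Real.log Y) := by
    rw [← Real.log_mul (by norm_num) hlogY.ne']
    exact Real.log_le_log hlogaX0 hlogaX
  -- the primes in between
  have hsub : rootPrimes f Y ⊆ rootPrimes f (a * X) := by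
    intro p hp
    unfold rootPrimes at hp ⊢
    rw [mem_filter, mem_Icc] at hp ⊢
    exact ⟨⟨hp.1.1, hp.1.2.trans hYX⟩, hp.2⟩
  have hsplit : VV f (a * X) = (∏ p ∈ rootPrimes f (a * X) \ rootPrimes f Y, (1 + 1 / (p : ℝ))) *
      VV f Y := by
    unfold VV
    rw [prod_sdiff hsub]
  rw [hsplit]
  apply mul_le_mul_of_nonneg_right _ (VV_pos f Y).le
  refine (prod_le_exp _ (fun _ => 1) fun _ _ => zero_le_one).trans ?_
  rw [Real.exp_le_exp]
  have h1 : ∑ p ∈ rootPrimes f (a * X) \ rootPrimes f Y, 1 / (p : ℝ) ≤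
      ∑ p ∈ PR (a * X) \ PR Y, 1 / (p : ℝ) := by
    apply sum_le_sum_of_subset_of_nonneg
    · intro p hp
      rw [Finset.mem_sdiff] at hp ⊢
      unfold rootPrimes at hp
      rw [mem_filter, mem_Icc, mem_filter, mem_Icc] at hp
      rw [mem_PR, mem_PR]
      refine ⟨⟨hp.1.2.1, hp.1.1.2⟩, fun h => hp.2 ⟨⟨hp.1.1.1, h.2⟩, hp.1.2⟩⟩
    · intro _ _ _
      positivity
  have hsub2 : PR Y ⊆ PR (a * X) := by
    intro p hp
    rw [mem_PR] at hp ⊢
    exact ⟨hp.1, hp.2.trans hYX⟩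
  have h2 := sum_sdiff (f := fun p : ℕ => 1 / (p : ℝ)) hsub2
  have h3 := (abs_le.1 (hM ((a * X : ℕ) : ℝ) (by exact_mod_cast hY3.trans hYX))).2
  have h4 := (abs_le.1 (hM (Y : ℝ) hY3R)).1
  rw [Nat.floor_natCast] at h3 h4
  linarith

/-- The product tends to infinity. -/
lemma VV_tendsto (f : ℤ[X]) (hn : 1 ≤ f.natDegree) (hS : SplitMert f) :
    Tendsto (VV f) atTop atTop := by
  obtain ⟨κ, B, hκ, h⟩ := hS
  have h1 : Tendsto (fun X : ℕ => Real.exp (κ * (Real.log (Real.log X) - Real.log (Real.log 3)) -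
      B - 1)) atTop atTop := by
    apply Real.tendsto_exp_atTop.comp
    apply tendsto_atTop_add_const_right
    apply tendsto_atTop_add_const_right
    apply Tendsto.const_mul_atTop hκ
    apply tendsto_atTop_add_const_right
    exact Real.tendsto_log_atTop.comp (Real.tendsto_log_atTop.comp tendsto_natCast_atTop_atTop)
  refine tendsto_atTop_mono' _ ?_ h1
  filter_upwards [eventually_ge_atTop 3] with X hX
  have hX3 : (3 : ℝ) ≤ X := by exact_mod_cast hX
  unfold VV
  refine le_trans (Real.exp_le_exp.2 ?_) (prod_ge_exp _ fun p hp => rootPrimes_prime hp)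
  have h2 := h 3 X le_rfl hX3
  have h3 : ∑ p ∈ (Icc 1 ⌊(X : ℝ)⌋₊).filter (fun p : ℕ => p.Prime ∧ (3 : ℝ) < (p : ℝ) ∧
        (R f p).card = f.natDegree), 1 / (p : ℝ) ≤ ∑ p ∈ rootPrimes f X, 1 / (p : ℝ) := by
    apply sum_le_sum_of_subset_of_nonneg
    · intro p hp
      unfold rootPrimes
      rw [mem_filter, Nat.floor_natCast] at hp
      rw [mem_filter]
      refine ⟨hp.1, hp.2.1, card_pos.1 ?_⟩
      rw [hp.2.2.2]; omega
    · intro _ _ _
      positivity
  linarith

/-- The general case from the monic one. -/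
theorem main_of_monic (F : ℤ[X]) (hirr : Irreducible (F.map (Int.castRingHom ℚ)))
    (hev : Even F.natDegree) (hn : 1 ≤ F.natDegree)
    (hS : SplitMert (mon F))
    (hU : ∃ c C : ℝ, 0 < c ∧ ∃ X₀ : ℕ, ∀ X : ℕ, X₀ ≤ X →
      logSum (Gen.Sel (mon F)) X ≤ C * Real.log X ^ (-c) * VV (mon F) X)
    (hL : ∃ c : ℝ, 0 < c ∧ ∃ X₀ : ℕ, ∀ X : ℕ, X₀ ≤ X →
      c * VV (mon F) X ≤ logSum (Gen.ELS (mon F)) X) :
    Tendsto (logSum (ELS F)) atTop atTop ∧
    (∃ c C : ℝ, 0 < c ∧ ∃ X₀ : ℕ, ∀ X : ℕ, X₀ ≤ X →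
      logSum (FakeSel F) X ≤ C * Real.log X ^ (-c) * logSum (ELS F) X) := by
  have hc0 : F.leadingCoeff ≠ 0 := by
    rw [Ne, leadingCoeff_eq_zero]
    rintro rfl
    simp at hn
  set a := F.leadingCoeff.natAbs with ha
  have ha1 : 1 ≤ a := Int.natAbs_pos.2 hc0
  have haR : (1 : ℝ) ≤ a := by exact_mod_cast ha1
  -- comparison of sums
  have hsel : ∀ X, logSum (FakeSel F) X ≤ a * logSum (Gen.Sel (mon F)) (a * X) := by
    intro X
    apply logSum_le hc0
    intro t ht hP
    obtain ⟨-, m, hm, h1⟩ := sf_spec (mul_ne_zero ht.ne_zero hc0)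
    refine fakeSel_mon hn hev (m := (m : ℚ)) (by exact_mod_cast hm) ?_ hP
    conv_lhs => rw [h1]
    push_cast; ring
  have hels : ∀ X, logSum (Gen.ELS (mon F)) X ≤ a * logSum (ELS F) (a * X) := by
    intro X
    apply logSum_le hc0
    intro t ht hP
    obtain ⟨-, m, hm, h1⟩ := sf_spec (mul_ne_zero ht.ne_zero hc0)
    have hmq : (m : ℚ) ≠ 0 := by exact_mod_cast hm
    have hcq : (F.leadingCoeff : ℚ) ≠ 0 := by exact_mod_cast hc0
    refine els_of_mon hn hev (t' := t) (m := (F.leadingCoeff : ℚ) / m) (div_ne_zero hcq hmq) ?_ hP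
    have h2 : (t : ℚ) * F.leadingCoeff = (sf (t * F.leadingCoeff) : ℤ) * (m : ℚ) ^ 2 := by
      exact_mod_cast h1
    push_cast
    rw [div_pow, mul_div_assoc', eq_div_iff (pow_ne_zero 2 hmq)]
    linear_combination (-(F.leadingCoeff : ℚ)) * h2
  obtain ⟨cL, hcL, X₁, hL⟩ := hL
  obtain ⟨cU, CU, hcU, X₂, hU⟩ := hU
  obtain ⟨K, hK, X₃, hV⟩ := VV_le (mon F) a ha1
  have hlow : ∀ X : ℕ, X₁ * a ≤ X → cL / a * VV (mon F) (X / a) ≤ logSum (ELS F) X := by
    intro X hX
    have h1 : X₁ ≤ X / a := by rwa [Nat.le_div_iff_mul_le (by omega)]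
    have h2 := (hL _ h1).trans (hels (X / a))
    have h3 : logSum (ELS F) (a * (X / a)) ≤ logSum (ELS F) X :=
      logSum_mono _ (Nat.mul_div_le X a)
    have h4 : cL * VV (mon F) (X / a) ≤ a * logSum (ELS F) X :=
      h2.trans (mul_le_mul_of_nonneg_left h3 (by positivity))
    rw [div_mul_eq_mul_div, div_le_iff₀ (by positivity), mul_comm (logSum (ELS F) X)]
    exact h4
  constructor
  · -- divergence
    have hnm : 1 ≤ (mon F).natDegree := by
      rw [natDegree_integralNormalization]; exact hn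
    have h1 : Tendsto (fun X : ℕ => cL / a * VV (mon F) (X / a)) atTop atTop := by
      apply Tendsto.const_mul_atTop (by positivity)
      exact (VV_tendsto (mon F) hnm hS).comp (Nat.tendsto_div_const_atTop (by omega))
    refine tendsto_atTop_mono' _ ?_ h1
    filter_upwards [eventually_ge_atTop (X₁ * a)] with X hX
    exact hlow X hX
  · refine ⟨cU, a * |CU| * K / (cL / a), hcU, max (max (X₁ * a) X₂) (max X₃ 3), fun X hX => ?_⟩
    have hX1 : X₁ * a ≤ X := le_trans (le_trans (le_max_left _ _) (le_max_left _ _)) hX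
    have hX2 : X₂ ≤ X := le_trans (le_trans (le_max_right _ _) (le_max_left _ _)) hX
    have hX3 : X₃ ≤ X := le_trans (le_trans (le_max_left _ _) (le_max_right _ _)) hX
    have hX4 : 3 ≤ X := le_trans (le_trans (le_max_right _ _) (le_max_right _ _)) hX
    have hX4R : (3 : ℝ) ≤ X := by exact_mod_cast hX4
    have haX : X ≤ a * X := Nat.le_mul_of_pos_left X (by omega)
    have hlogX : 0 < Real.log X := Real.log_pos (by linarith)
    have hlogaX : Real.log X ≤ Real.log ((a * X : ℕ) : ℝ) :=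
      Real.log_le_log (by linarith) (by exact_mod_cast haX)
    have hpow : Real.log ((a * X : ℕ) : ℝ) ^ (-cU) ≤ Real.log X ^ (-cU) :=
      Real.rpow_le_rpow_of_nonpos hlogX hlogaX (by linarith)
    have hpow0 : 0 ≤ Real.log ((a * X : ℕ) : ℝ) ^ (-cU) :=
      Real.rpow_nonneg (hlogX.le.trans hlogaX) _
    have hpow1 : 0 ≤ Real.log X ^ (-cU) := Real.rpow_nonneg hlogX.le _
    have h1 := hU (a * X) (hX2.trans haX)
    have h2 := hV X hX3
    have h3 := hlow X hX1
    have hcLa : 0 < cL / a := by positivity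
    calc logSum (FakeSel F) X ≤ a * logSum (Gen.Sel (mon F)) (a * X) := hsel X
      _ ≤ a * (CU * Real.log ((a * X : ℕ) : ℝ) ^ (-cU) * VV (mon F) (a * X)) :=
          mul_le_mul_of_nonneg_left h1 (by positivity)
      _ ≤ a * (|CU| * Real.log X ^ (-cU) * (K * VV (mon F) (X / a))) := by
          apply mul_le_mul_of_nonneg_left _ (by positivity)
          apply mul_le_mul _ h2 (VV_pos _ _).le (by positivity)
          exact mul_le_mul (le_abs_self _) hpow hpow0 (abs_nonneg _)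
      _ = (a * |CU| * K / (cL / a)) * Real.log X ^ (-cU) * (cL / a * VV (mon F) (X / a)) := by
          field_simp
      _ ≤ (a * |CU| * K / (cL / a)) * Real.log X ^ (-cU) * logSum (ELS F) X := by
          apply mul_le_mul_of_nonneg_left h3
          positivity

/-- A rational point gives an element of the fake Selmer set. -/
theorem fakeSel_of_point (F : ℤ[X]) (hirr : Irreducible (F.map (Int.castRingHom ℚ)))
    (hn : 2 ≤ F.natDegree) (t : ℤ) (hinf : ¬ IsSquare ((t : ℚ) * (F.leadingCoeff : ℚ)))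
    (h : HasPoint F t ℚ) : FakeSel F t := by
  rcases h with ⟨x, y, hxy⟩ | h
  swap
  · exact absurd h hinf
  have hroot : ∀ z : ℚ, (F.map (Int.castRingHom ℚ)).eval z ≠ 0 := by
    intro z hz
    have h1 := degree_eq_one_of_irreducible_of_root hirr hz
    have h2 : (F.map (Int.castRingHom ℚ)).natDegree = F.natDegree :=
      natDegree_map_eq_of_injective Int.cast_injective F
    have h3 : (F.map (Int.castRingHom ℚ)).natDegree = 1 := natDegree_eq_of_degree_eq_some h1
    rw [h2] at h3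
    omega
  have hy : y ≠ 0 := by
    rintro rfl
    apply hroot x
    rw [← hxy]; ring
  have hloc : ∀ (K : Type) [Field K] [CharZero K] [Algebra ℚ K], LocalImage F t (C x - X) K := by
    intro K _ _ _
    have hcast : ∀ q : ℚ, algebraMap ℚ K q = (q : K) := fun q => by simp
    refine ⟨(x : K), (y : K), 1, 1, by exact_mod_cast hy, one_ne_zero, ?_, ?_⟩
    · have h1 := congrArg (algebraMap ℚ K) hxy
      rw [← eval_map_apply, Stoll308.Gen.map_cast_map, hcast, hcast] at h1
      rw [← h1]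
      push_cast
      rfl
    · rw [Polynomial.map_sub, map_C, map_X, hcast, C_1, one_mul, one_pow, mul_one, sub_self]
      exact dvd_zero _
  refine ⟨C x - X, ?_, fun p _ => hloc ℚ_[p], hloc ℝ⟩
  apply IsCoprime.symm
  rw [hirr.coprime_iff_not_dvd]
  intro hd
  have h1 : (C x - X : ℚ[X]) = -(X - C x) := by ring
  rw [h1, dvd_neg] at hd
  have h2 : (F.map (Int.castRingHom ℚ)).natDegree = F.natDegree :=
    natDegree_map_eq_of_injective Int.cast_injective F
  have h3 := natDegree_le_of_dvd hd (X_sub_C_ne_zero x)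
  rw [h2, natDegree_X_sub_C] at h3
  omega

end Stoll308.Irr
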