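import Pool.Agent.Work.MP_308fa9_nt.Gen.Final

set_option autoImplicit false

/-!
Final assembly with natural density: from the monic case to the general case.
-/

namespace Stoll308.Irr

open Polynomial Finset Filter Stoll308.Gen Stoll308.MeanSum

lemma cnt_mono (P : ℤ → Prop) {X Y : ℕ} (h : X ≤ Y) : cnt P X ≤ cnt P Y := by
  classical
  unfold cnt
  apply card_le_card
  intro t ht
  rw [mem_filter, mem_Icc] at ht ⊢
  have : (X : ℤ) ≤ Y := by exact_mod_cast h
  exact ⟨⟨by linarith [ht.1.1], by linarith [ht.1.2]⟩, ht.2⟩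

/-- Comparison of counts under `t ↦ sf (t c)`. -/
lemma cnt_le {P P' : ℤ → Prop} {c : ℤ} (hc : c ≠ 0)
    (h : ∀ t : ℤ, Squarefree t → P t → P' (sf (t * c))) (X : ℕ) :
    cnt P X ≤ cnt P' (c.natAbs * X) := by
  classical
  have hca : 0 < c.natAbs := Int.natAbs_pos.2 hc
  unfold cnt
  have hspec : ∀ t : ℤ, Squarefree t → Squarefree (sf (t * c)) ∧ ∃ m : ℤ, m ≠ 0 ∧
      t * c = sf (t * c) * m ^ 2 := fun t ht => sf_spec (mul_ne_zero ht.ne_zero hc)
  have hle : ∀ t : ℤ, Squarefree t → |sf (t * c)| ≤ c.natAbs * |t| := by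
    intro t ht
    obtain ⟨-, m, hm, h1⟩ := hspec t ht
    have h2 : |t * c| = |sf (t * c)| * m ^ 2 := by
      conv_lhs => rw [h1]
      rw [abs_mul, abs_of_nonneg (sq_nonneg m)]
    have h3 : 1 ≤ m ^ 2 := by
      have : 0 < m ^ 2 := by positivity
      omega
    have h4 : |t * c| = c.natAbs * |t| := by
      rw [abs_mul, Int.natCast_natAbs]; ring
    rw [← h4, h2]
    nlinarith [abs_nonneg (sf (t * c))]
  apply card_le_card_of_injOn (fun t => sf (t * c))
  · intro t ht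
    rw [mem_coe, mem_filter, mem_Icc] at ht
    rw [mem_coe, mem_filter, mem_Icc]
    have h1 := hle t ht.2.1
    have h2 : |t| ≤ (X : ℤ) := abs_le.2 ht.1
    have h3 : |sf (t * c)| ≤ ((c.natAbs * X : ℕ) : ℤ) := by
      rw [Nat.cast_mul]
      exact h1.trans (mul_le_mul_of_nonneg_left h2 (Int.natCast_nonneg _))
    exact ⟨abs_le.1 h3, (hspec t ht.2.1).1, h t ht.2.1 ht.2.2⟩
  · intro t ht t' ht' heq
    rw [mem_coe, mem_filter] at ht ht'
    obtain ⟨-, m, hm, h1⟩ := hspec t ht.2.1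
    obtain ⟨-, m', hm', h1'⟩ := hspec t' ht'.2.1
    apply sqfree_unique ht.2.1 ht'.2.1 (u := m') (v := m) hm'
    apply mul_right_cancel₀ hc
    simp only at heq
    rw [heq] at h1
    linear_combination m' ^ 2 * h1 - m ^ 2 * h1'

/-- The general case from the monic one, natural density. -/
theorem card_of_monic (F : ℤ[X])
    (hev : Even F.natDegree) (hn : 1 ≤ F.natDegree)
    (hU : ∃ c C : ℝ, 0 < c ∧ ∃ X₀ : ℕ, ∀ X : ℕ, X₀ ≤ X →
      (cnt (Gen.Sel (mon F)) X : ℝ) ≤ C * X * Real.log X ^ (-1 - c) * VV (mon F) X)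
    (hL : ∃ c : ℝ, 0 < c ∧ ∃ X₀ : ℕ, ∀ X : ℕ, X₀ ≤ X →
      c * X / Real.log X * VV (mon F) X ≤ (cnt (Gen.ELS (mon F)) X : ℝ)) :
    (∃ c : ℝ, 0 < c ∧ ∃ X₀ : ℕ, ∀ X : ℕ, X₀ ≤ X →
      c * X / Real.log X ≤ (cnt (ELS F) X : ℝ)) ∧
    (∃ c C : ℝ, 0 < c ∧ ∃ X₀ : ℕ, ∀ X : ℕ, X₀ ≤ X →
      (cnt (FakeSel F) X : ℝ) ≤ C * Real.log X ^ (-c) * cnt (ELS F) X) := by
  have hc0 : F.leadingCoeff ≠ 0 := by
    rw [Ne, leadingCoeff_eq_zero]
    rintro rfl
    simp at hn
  set a := F.leadingCoeff.natAbs with ha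
  have ha1 : 1 ≤ a := Int.natAbs_pos.2 hc0
  have haR : (1 : ℝ) ≤ a := by exact_mod_cast ha1
  -- comparison of counts
  have hsel : ∀ X, cnt (FakeSel F) X ≤ cnt (Gen.Sel (mon F)) (a * X) := by
    intro X
    apply cnt_le hc0
    intro t ht hP
    obtain ⟨-, m, hm, h1⟩ := sf_spec (mul_ne_zero ht.ne_zero hc0)
    refine fakeSel_mon hn hev (m := (m : ℚ)) (by exact_mod_cast hm) ?_ hP
    conv_lhs => rw [h1]
    push_cast; ring
  have hels : ∀ X, cnt (Gen.ELS (mon F)) X ≤ cnt (ELS F) (a * X) := by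
    intro X
    apply cnt_le hc0
    intro t ht hP
    obtain ⟨-, m, hm, h1⟩ := sf_spec (mul_ne_zero ht.ne_zero hc0)
    have hmq : (m : ℚ) ≠ 0 := by exact_mod_cast hm
    have hcq : (F.leadingCoeff : ℚ) ≠ 0 := by exact_mod_cast hc0
    refine els_of_mon hn hev (t' := t) (m := (F.leadingCoeff : ℚ) / m) (div_ne_zero hcq hmq) ?_ hP
    have h2 : (t : ℚ) * F.leadingCoeff = (sf (t * F.leadingCoeff) : ℤ) * (m : ℚ) ^ 2 := by
      exact_mod_cast h1
    push_cast
    rw [div_pow, mul_div_assoc', eq_div_iff (pow_ne_zero 2 hmq)]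
    linear_combination (-(F.leadingCoeff : ℚ)) * h2
  obtain ⟨cL, hcL, X₁, hL⟩ := hL
  obtain ⟨cU, CU, hcU, X₂, hU⟩ := hU
  obtain ⟨K, hK, X₃, hV⟩ := VV_le (mon F) a ha1
  have hlow : ∀ X : ℕ, max (X₁ * a) (3 * a) ≤ X →
      cL / (2 * a) * X / Real.log X * VV (mon F) (X / a) ≤ (cnt (ELS F) X : ℝ) := by
    intro X hX
    have h1 : X₁ ≤ X / a := by
      rw [Nat.le_div_iff_mul_le (by omega)]
      exact le_trans (le_max_left _ _) hX
    have h3a : 3 ≤ X / a := by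
      rw [Nat.le_div_iff_mul_le (by omega)]
      exact le_trans (le_max_right _ _) hX
    have h2 : cnt (Gen.ELS (mon F)) (X / a) ≤ cnt (ELS F) X :=
      (hels (X / a)).trans (cnt_mono _ (Nat.mul_div_le X a))
    refine le_trans ?_ ((hL _ h1).trans (by exact_mod_cast h2))
    apply mul_le_mul_of_nonneg_right _ (VV_pos _ _).le
    have h3R : (3 : ℝ) ≤ ((X / a : ℕ) : ℝ) := by exact_mod_cast h3a
    have hXa : X / a ≤ X := Nat.div_le_self _ _
    have hXaR : ((X / a : ℕ) : ℝ) ≤ X := by exact_mod_cast hXa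
    have hlog1 : 0 < Real.log ((X / a : ℕ) : ℝ) := Real.log_pos (by linarith)
    have hlog2 : Real.log ((X / a : ℕ) : ℝ) ≤ Real.log X := Real.log_le_log (by linarith) hXaR
    apply div_le_div₀ (by positivity) _ hlog1 hlog2
    have h4 : X < a * (X / a + 1) := Nat.lt_mul_div_succ X (by omega)
    have h5 : (X : ℝ) < a * (((X / a : ℕ) : ℝ) + 1) := by exact_mod_cast h4
    have h6 : (X : ℝ) ≤ 2 * a * ((X / a : ℕ) : ℝ) := by nlinarith
    rw [div_mul_eq_mul_div, div_le_iff₀ (by positivity)]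
    nlinarith
  have hVV1 : ∀ X, 1 ≤ VV (mon F) X := by
    intro X
    unfold VV
    have h0 : ∀ p ∈ rootPrimes (mon F) X, (1 : ℝ) ≤ 1 + 1 / (p : ℝ) := by
      intro p _
      have : (0 : ℝ) ≤ 1 / (p : ℝ) := by positivity
      linarith
    calc (1 : ℝ) = ∏ _p ∈ rootPrimes (mon F) X, (1 : ℝ) := by simp
      _ ≤ _ := prod_le_prod (fun _ _ => zero_le_one) h0
  constructor
  · refine ⟨cL / (2 * a), by positivity, max (X₁ * a) (3 * a), fun X hX => ?_⟩
    refine le_trans ?_ (hlow X hX)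
    have hX3 : 3 ≤ X := by
      have h1 : 3 * a ≤ X := le_trans (le_max_right _ _) hX
      nlinarith
    have hX3R : (3 : ℝ) ≤ X := by exact_mod_cast hX3
    have hlogX : 0 < Real.log X := Real.log_pos (by linarith)
    exact le_mul_of_one_le_right (by positivity) (hVV1 _)
  · refine ⟨cU, a * |CU| * K / (cL / (2 * a)), hcU,
      max (max (max (X₁ * a) (3 * a)) X₂) (max X₃ 3), fun X hX => ?_⟩
    have hX1 : max (X₁ * a) (3 * a) ≤ X := le_trans (le_trans (le_max_left _ _) (le_max_left _ _)) hX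
    have hX2 : X₂ ≤ X := le_trans (le_trans (le_max_right _ _) (le_max_left _ _)) hX
    have hX3 : X₃ ≤ X := le_trans (le_trans (le_max_left _ _) (le_max_right _ _)) hX
    have hX4 : 3 ≤ X := le_trans (le_trans (le_max_right _ _) (le_max_right _ _)) hX
    have hX4R : (3 : ℝ) ≤ X := by exact_mod_cast hX4
    have haX : X ≤ a * X := Nat.le_mul_of_pos_left X (by omega)
    have hlogX : 0 < Real.log X := Real.log_pos (by linarith)
    have hlogaX : Real.log X ≤ Real.log ((a * X : ℕ) : ℝ) :=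
      Real.log_le_log (by linarith) (by exact_mod_cast haX)
    have hpow : Real.log ((a * X : ℕ) : ℝ) ^ (-1 - cU) ≤ Real.log X ^ (-1 - cU) :=
      Real.rpow_le_rpow_of_nonpos hlogX hlogaX (by linarith)
    have hpow0 : 0 ≤ Real.log ((a * X : ℕ) : ℝ) ^ (-1 - cU) :=
      Real.rpow_nonneg (hlogX.le.trans hlogaX) _
    have hpow1 : 0 ≤ Real.log X ^ (-1 - cU) := Real.rpow_nonneg hlogX.le _
    have hsplit : Real.log X ^ (-1 - cU) = Real.log X ^ (-cU) / Real.log X := by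
      rw [show -1 - cU = -cU - 1 by ring, Real.rpow_sub_one hlogX.ne']
    have h1 := hU (a * X) (hX2.trans haX)
    have h2 := hV X hX3
    have h3 := hlow X hX1
    have hcLa : 0 < cL / (2 * a) := by positivity
    have hpow2 : 0 ≤ Real.log X ^ (-cU) := Real.rpow_nonneg hlogX.le _
    calc (cnt (FakeSel F) X : ℝ) ≤ cnt (Gen.Sel (mon F)) (a * X) := by exact_mod_cast hsel X
      _ ≤ CU * ((a * X : ℕ) : ℝ) * Real.log ((a * X : ℕ) : ℝ) ^ (-1 - cU) * VV (mon F) (a * X) := h1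
      _ ≤ |CU| * ((a * X : ℕ) : ℝ) * Real.log X ^ (-1 - cU) * (K * VV (mon F) (X / a)) := by
          apply mul_le_mul _ h2 (VV_pos _ _).le (by positivity)
          apply mul_le_mul _ hpow hpow0 (by positivity)
          exact mul_le_mul_of_nonneg_right (le_abs_self _) (by positivity)
      _ = (a * |CU| * K / (cL / (2 * a))) * Real.log X ^ (-cU) *
            (cL / (2 * a) * X / Real.log X * VV (mon F) (X / a)) := by
          rw [hsplit]
          push_cast
          field_simp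
      _ ≤ (a * |CU| * K / (cL / (2 * a))) * Real.log X ^ (-cU) * cnt (ELS F) X := by
          apply mul_le_mul_of_nonneg_left h3
          positivity

lemma cnt_or_le (P Q : ℤ → Prop) (X : ℕ) :
    cnt (fun t => P t ∨ Q t) X ≤ cnt P X + cnt (fun t => ¬ P t ∧ Q t) X := by
  classical
  unfold cnt
  have h : (Icc (-(X : ℤ)) X).filter (fun t => Squarefree t ∧ (P t ∨ Q t)) ⊆
      (Icc (-(X : ℤ)) X).filter (fun t => Squarefree t ∧ P t) ∪
        (Icc (-(X : ℤ)) X).filter (fun t => Squarefree t ∧ (¬ P t ∧ Q t)) := by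
    intro t ht
    rw [mem_filter] at ht
    rw [mem_union, mem_filter, mem_filter]
    by_cases hP : P t
    · exact Or.inl ⟨ht.1, ht.2.1, hP⟩
    · exact Or.inr ⟨ht.1, ht.2.1, hP, ht.2.2.resolve_left hP⟩
  convert! (card_le_card h).trans (card_union_le _ _)

/-- At most one squarefree `t` has the property that `t c` is a square. -/
lemma cnt_square_le (P : ℤ → Prop) (c : ℤ) (hc : c ≠ 0)
    (h : ∀ t, P t → IsSquare ((t : ℚ) * (c : ℚ))) (X : ℕ) : cnt P X ≤ 1 := by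
  classical
  unfold cnt
  rw [card_le_one]
  intro s hs t ht
  rw [mem_filter] at hs ht
  obtain ⟨a, ha⟩ := h s hs.2.2
  obtain ⟨b, hb⟩ := h t ht.2.2
  have hcq : (c : ℚ) ≠ 0 := by exact_mod_cast hc
  have hsq : IsSquare ((s * t : ℤ) : ℚ) := by
    refine ⟨a * b / c, ?_⟩
    have h1 : (s : ℚ) * c * (t * c) = a * b * (a * b) := by rw [ha, hb]; ring
    push_cast
    field_simp
    linear_combination h1
  obtain ⟨k, hk⟩ := Rat.isSquare_intCast_iff.1 hsq
  apply sqfree_unique hs.2.1 ht.2.1 (u := t) (v := k) ht.2.1.ne_zero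
  have h2 : s * t = k * k := hk
  calc s * t ^ 2 = (s * t) * t := by ring
    _ = (k * k) * t := by rw [h2]
    _ = t * k ^ 2 := by ring

/-- Rational points are taken care of by the fake Selmer set. -/
theorem card_or_point (F : ℤ[X]) (hirr : Irreducible (F.map (Int.castRingHom ℚ)))
    (hn : 2 ≤ F.natDegree)
    (h1 : ∃ c : ℝ, 0 < c ∧ ∃ X₀ : ℕ, ∀ X : ℕ, X₀ ≤ X →
      c * X / Real.log X ≤ (cnt (ELS F) X : ℝ))
    (h2 : ∃ c C : ℝ, 0 < c ∧ ∃ X₀ : ℕ, ∀ X : ℕ, X₀ ≤ X →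
      (cnt (FakeSel F) X : ℝ) ≤ C * Real.log X ^ (-c) * cnt (ELS F) X) :
    ∃ c C : ℝ, 0 < c ∧ ∃ X₀ : ℕ, ∀ X : ℕ, X₀ ≤ X →
      (cnt (fun t => FakeSel F t ∨ HasPoint F t ℚ) X : ℝ) ≤
        C * Real.log X ^ (-c) * cnt (ELS F) X := by
  obtain ⟨c₁, hc₁, X₁, h1⟩ := h1
  obtain ⟨c, C, hc, X₂, h2⟩ := h2
  have hc0 : F.leadingCoeff ≠ 0 := by
    rw [Ne, leadingCoeff_eq_zero]
    rintro rfl
    simp at hn
  have hlog : ∀ᶠ X : ℕ in atTop, Real.log X ^ (c + 1) ≤ c₁ * X := by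
    have h3 := (isLittleO_log_rpow_rpow_atTop (c + 1) (by norm_num : (0 : ℝ) < 1)).def hc₁
    have h4 := tendsto_natCast_atTop_atTop (R := ℝ) |>.eventually h3
    filter_upwards [h4, eventually_ge_atTop 1] with X hX hX1
    rw [Real.rpow_one, Real.norm_eq_abs, Real.norm_eq_abs, Nat.abs_cast] at hX
    exact (le_abs_self _).trans hX
  obtain ⟨X₃, h3⟩ := eventually_atTop.1 hlog
  refine ⟨c, C + 1, hc, max (max X₁ X₂) (max X₃ 3), fun X hX => ?_⟩
  have hX1 : X₁ ≤ X := le_trans (le_trans (le_max_left _ _) (le_max_left _ _)) hX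
  have hX2 : X₂ ≤ X := le_trans (le_trans (le_max_right _ _) (le_max_left _ _)) hX
  have hX3 : X₃ ≤ X := le_trans (le_trans (le_max_left _ _) (le_max_right _ _)) hX
  have hX4 : 3 ≤ X := le_trans (le_trans (le_max_right _ _) (le_max_right _ _)) hX
  have hX4R : (3 : ℝ) ≤ X := by exact_mod_cast hX4
  have hlogX : 0 < Real.log X := Real.log_pos (by linarith)
  have e1 := h1 X hX1
  have e2 := h2 X hX2
  have e3 := h3 X hX3
  have e4 : (cnt (fun t => ¬ FakeSel F t ∧ HasPoint F t ℚ) X : ℝ) ≤ 1 := by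
    have := cnt_square_le (fun t => ¬ FakeSel F t ∧ HasPoint F t ℚ) F.leadingCoeff hc0
      (fun t ht => by
        by_contra hcon
        exact ht.1 (fakeSel_of_point F hirr hn t hcon ht.2)) X
    exact_mod_cast this
  have e5 : (cnt (fun t => FakeSel F t ∨ HasPoint F t ℚ) X : ℝ) ≤ cnt (FakeSel F) X + 1 := by
    have h5 := cnt_or_le (FakeSel F) (fun t => HasPoint F t ℚ) X
    have h6 : (cnt (fun t => FakeSel F t ∨ HasPoint F t ℚ) X : ℝ) ≤
        cnt (FakeSel F) X + cnt (fun t => ¬ FakeSel F t ∧ HasPoint F t ℚ) X := by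
      exact_mod_cast h5
    linarith
  have hp0 : 0 < Real.log X ^ (-c) := Real.rpow_pos_of_pos hlogX _
  have e6 : 1 ≤ Real.log X ^ (-c) * cnt (ELS F) X := by
    have h7 : Real.log X ^ (-c) * (c₁ * X / Real.log X) = c₁ * X / Real.log X ^ (c + 1) := by
      rw [Real.rpow_neg hlogX.le, Real.rpow_add_one hlogX.ne']
      field_simp
    calc (1 : ℝ) ≤ c₁ * X / Real.log X ^ (c + 1) := by
          rw [le_div_iff₀ (Real.rpow_pos_of_pos hlogX _), one_mul]
          exact e3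
      _ = Real.log X ^ (-c) * (c₁ * X / Real.log X) := h7.symm
      _ ≤ _ := mul_le_mul_of_nonneg_left e1 hp0.le
  calc (cnt (fun t => FakeSel F t ∨ HasPoint F t ℚ) X : ℝ) ≤ cnt (FakeSel F) X + 1 := e5
    _ ≤ C * Real.log X ^ (-c) * cnt (ELS F) X + Real.log X ^ (-c) * cnt (ELS F) X :=
        add_le_add e2 e6
    _ = _ := by ring

end Stoll308.Irr
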