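import Pool.Agent.Work.MP_308fa9_nt.Gen.NonTriv

set_option autoImplicit false

/-!
Hensel lifts of the roots of `f` modulo `p`, units of `ℤ_p` and squares.
-/

namespace Stoll308.Gen

open Polynomial Finset NumberTheorySymbols

variable {p : ℕ} [hp : Fact p.Prime]

/-- `f` over `ℤ_p`. -/
noncomputable abbrev fz (f : ℤ[X]) (p : ℕ) [Fact p.Prime] : ℤ_[p][X] :=
  f.map (Int.castRingHom ℤ_[p])

/-- `f` over `ℚ_p`. -/
noncomputable abbrev fq (f : ℤ[X]) (p : ℕ) [Fact p.Prime] : ℚ_[p][X] :=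
  f.map (Int.castRingHom ℚ_[p])

/-- The reduction `ℤ_p → 𝔽_p`. -/
noncomputable abbrev rd (p : ℕ) [Fact p.Prime] : ℤ_[p] →+* ZMod p := PadicInt.toZMod

lemma fz_map (f : ℤ[X]) : (fz f p).map (rd p) = fp f p := map_cast_map f _

lemma fz_map' (f : ℤ[X]) : (fz f p).map (algebraMap ℤ_[p] ℚ_[p]) = fq f p := map_cast_map f _

lemma rd_eq_zero_iff {x : ℤ_[p]} : rd p x = 0 ↔ ‖x‖ < 1 := by
  rw [← RingHom.mem_ker, PadicInt.ker_toZMod, IsLocalRing.mem_maximalIdeal, PadicInt.mem_nonunits]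

lemma rd_eq_zero_iff_dvd {x : ℤ_[p]} : rd p x = 0 ↔ (p : ℤ_[p]) ∣ x := by
  rw [rd_eq_zero_iff, PadicInt.norm_lt_one_iff_dvd]

lemma rd_ne_zero_iff {x : ℤ_[p]} : rd p x ≠ 0 ↔ IsUnit x := by
  rw [Ne, rd_eq_zero_iff, PadicInt.isUnit_iff, not_lt]
  exact ⟨fun h => le_antisymm (PadicInt.norm_le_one x) h, fun h => h.ge⟩

lemma rd_intCast (m : ℤ) : rd p (m : ℤ_[p]) = (m : ZMod p) := by simp

/-- The `α` is a root of `f` lifting `a`. -/
def Lift (f : ℤ[X]) (p : ℕ) [Fact p.Prime] (a : ℕ) (α : ℤ_[p]) : Prop :=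
  (fz f p).eval α = 0 ∧ rd p α = (a : ZMod p)

lemma deriv_ne_zero_of_sep {f : ℤ[X]} (hsep : (fp f p).Separable) {a : ZMod p}
    (ha : (fp f p).eval a = 0) : (derivative (fp f p)).eval a ≠ 0 := by
  intro h
  obtain ⟨u, v, huv⟩ := hsep
  have := congrArg (eval a) huv
  rw [eval_add, eval_mul, eval_mul, ha, h] at this
  simp at this

lemma exists_lift {f : ℤ[X]} (hsep : (fp f p).Separable) {a : ℕ} (ha : a ∈ R f p) :
    ∃ α : ℤ_[p], Lift f p a α := by
  have h0 : rd p ((fz f p).eval (a : ℤ_[p])) = 0 := by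
    rw [← eval_map_apply, fz_map]
    simpa using (mem_R.1 ha).2
  have h1 : rd p ((derivative (fz f p)).eval (a : ℤ_[p])) ≠ 0 := by
    rw [← eval_map_apply, ← derivative_map, fz_map]
    have := deriv_ne_zero_of_sep hsep (mem_R.1 ha).2
    simpa using this
  have h2 : ‖(derivative (fz f p)).eval (a : ℤ_[p])‖ = 1 :=
    PadicInt.isUnit_iff.1 (rd_ne_zero_iff.1 h1)
  obtain ⟨z, hz, hz', -⟩ := hensels_lemma (p := p) (R := ℤ_[p]) (F := fz f p) (a := (a : ℤ_[p]))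
    (by
      rw [coe_aeval_eq_eval, h2]
      simpa using rd_eq_zero_iff.1 h0)
  rw [coe_aeval_eq_eval] at hz hz'
  refine ⟨z, hz, ?_⟩
  rw [h2] at hz'
  have := rd_eq_zero_iff.2 hz'
  rw [map_sub, sub_eq_zero] at this
  simpa using this

lemma root_mem_R {f : ℤ[X]} {α : ℤ_[p]} (h : (fz f p).eval α = 0) : (rd p α).val ∈ R f p := by
  rw [mem_R]
  refine ⟨ZMod.val_lt _, ?_⟩
  rw [ZMod.natCast_zmod_val, ← fz_map, eval_map_apply, h, map_zero]

/-- Splitting off a root. -/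
lemma exists_factor {f : ℤ[X]} (hf : f.Monic) {α : ℤ_[p]} (h : (fz f p).eval α = 0) :
    ∃ k : ℤ_[p][X], k.Monic ∧ fz f p = (X - C α) * k := by
  have hm : (fz f p).Monic := hf.map _
  obtain ⟨k, hk⟩ := dvd_iff_isRoot.2 h
  exact ⟨k, (monic_X_sub_C α).of_mul_monic_left (hk ▸ hm), hk⟩

lemma factor_coprime {f : ℤ[X]} (hsep : (fp f p).Separable) {α : ℤ_[p]} {k : ℤ_[p][X]}
    (hk : fz f p = (X - C α) * k) : IsCoprime (X - C (rd p α)) (k.map (rd p)) := by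
  have h1 : fp f p = (X - C (rd p α)) * k.map (rd p) := by
    rw [← fz_map, hk, Polynomial.map_mul, Polynomial.map_sub, map_X, map_C]
  rw [h1] at hsep
  exact hsep.isCoprime

lemma factor_eval_unit {f : ℤ[X]} (hsep : (fp f p).Separable) {α : ℤ_[p]} {k : ℤ_[p][X]}
    (hk : fz f p = (X - C α) * k) {x : ℤ_[p]} (hx : rd p x = rd p α) : IsUnit (k.eval x) := by
  rw [← rd_ne_zero_iff, ← eval_map_apply, hx]
  intro h
  obtain ⟨u, v, huv⟩ := factor_coprime hsep hk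
  have := congrArg (eval (rd p α)) huv
  rw [eval_add, eval_mul, eval_mul, h] at this
  simp at this

lemma lift_unique {f : ℤ[X]} (hf : f.Monic) (hsep : (fp f p).Separable) {α β : ℤ_[p]}
    (hα : (fz f p).eval α = 0) (hβ : (fz f p).eval β = 0) (h : rd p α = rd p β) : α = β := by
  obtain ⟨k, -, hk⟩ := exists_factor hf hα
  have h1 := factor_eval_unit hsep hk h.symm
  rw [hk, eval_mul, eval_sub, eval_X, eval_C] at hβ
  rcases mul_eq_zero.1 hβ with h2 | h2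
  · exact (sub_eq_zero.1 h2).symm
  · rw [h2] at h1
    exact absurd h1 not_isUnit_zero

lemma Lift.unique {f : ℤ[X]} (hf : f.Monic) (hsep : (fp f p).Separable) {a : ℕ} {α β : ℤ_[p]}
    (hα : Lift f p a α) (hβ : Lift f p a β) : α = β :=
  lift_unique hf hsep hα.1 hβ.1 (hα.2.trans hβ.2.symm)

/-- A unit which is a square modulo `p` is a square. -/
lemma isSquare_of_rd (hp2 : p ≠ 2) {u : ℤ_[p]} (hu : IsUnit u) (h : IsSquare (rd p u)) :
    IsSquare u := by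
  obtain ⟨s, hs⟩ := h
  have hu0 := rd_ne_zero_iff.2 hu
  have hs0 : s ≠ 0 := by
    rintro rfl
    exact hu0 (by simpa using hs)
  set a : ℤ_[p] := ((s.val : ℕ) : ℤ_[p]) with ha
  have hra : rd p a = s := by
    rw [ha]; simp
  have h2 : ‖(2 : ℤ_[p])‖ = 1 := by
    rw [← PadicInt.isUnit_iff, ← rd_ne_zero_iff]
    have : rd p (2 : ℤ_[p]) = ((2 : ℕ) : ZMod p) := by
      rw [show (2 : ℤ_[p]) = ((2 : ℕ) : ℤ_[p]) by norm_num, map_natCast]
    rw [this, Ne, ZMod.natCast_eq_zero_iff]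
    intro h
    have := (Nat.prime_dvd_prime_iff_eq hp.out Nat.prime_two).1 h
    exact hp2 this
  have ha1 : ‖a‖ = 1 := by
    rw [← PadicInt.isUnit_iff, ← rd_ne_zero_iff, hra]
    exact hs0
  obtain ⟨z, hz, -⟩ := hensels_lemma (p := p) (R := ℤ_[p]) (F := X ^ 2 - C u) (a := a)
    (by
      rw [coe_aeval_eq_eval]
      simp only [eval_sub, eval_pow, eval_X, eval_C, derivative_sub, derivative_X_pow,
        derivative_C, sub_zero, eval_mul, Nat.cast_ofNat, Nat.add_one_sub_one, pow_one, map_ofNat,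
        eval_ofNat]
      rw [norm_mul, h2, ha1, one_mul, one_pow, ← rd_eq_zero_iff, map_sub, map_pow, hra, hs]
      ring)
  rw [coe_aeval_eq_eval] at hz
  simp only [eval_sub, eval_pow, eval_X, eval_C] at hz
  exact ⟨z, by rw [← sq]; exact (sub_eq_zero.1 hz).symm⟩

/-- A unit is a square in `ℚ_p` iff its reduction is a square. -/
lemma isSquare_coe_iff (hp2 : p ≠ 2) {u : ℤ_[p]} (hu : IsUnit u) :
    IsSquare (u : ℚ_[p]) ↔ IsSquare (rd p u) := by
  constructor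
  · rintro ⟨s, hs⟩
    have h1 : ‖s‖ = 1 := by
      have h2 : ‖s‖ * ‖s‖ = 1 := by
        rw [← norm_mul, ← hs, ← PadicInt.norm_def, PadicInt.isUnit_iff.1 hu]
      nlinarith [norm_nonneg s]
    obtain ⟨s', rfl⟩ : ∃ s' : ℤ_[p], (s' : ℚ_[p]) = s := ⟨⟨s, h1.le⟩, rfl⟩
    refine ⟨rd p s', ?_⟩
    rw [← map_mul]
    congr 1
    apply PadicInt.ext
    rw [PadicInt.coe_mul]
    exact hs
  · intro h
    obtain ⟨s, hs⟩ := isSquare_of_rd hp2 hu h
    exact ⟨(s : ℚ_[p]), by rw [hs, PadicInt.coe_mul]⟩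

end Stoll308.Gen
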