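import Pool.Agent.Work.MP_308fa9_nt.Gen.Thue

set_option autoImplicit false

/-!
The cofactor `κ` of the norm of a Thue element, and injectivity.
-/

namespace Stoll308.Gen

open Polynomial Finset NumberTheorySymbols

/-- The bound `C₀` is good for `f`. -/
structure GoodBound (f : ℤ[X]) (C₀ : ℕ) : Prop where
  monic : f.Monic
  irr : Irreducible f
  deg : 1 ≤ f.natDegree
  two : 2 ≤ C₀
  sep : ∀ p : ℕ, p.Prime → C₀ < p → (fp f p).Separable
  res : resConst f ≤ C₀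

/-- The cofactor of the norm of a Thue element. -/
noncomputable def kap (f : ℤ[X]) (T : Finset ℕ) (ρ : ℕ → ℕ) : ℤ :=
  Nm f (thue f T ρ) / ((∏ p ∈ T, p : ℕ) : ℤ)

lemma kap_congr (f : ℤ[X]) (T : Finset ℕ) (ρ ρ' : ℕ → ℕ) (h : ∀ p ∈ T, ρ p = ρ' p) :
    kap f T ρ = kap f T ρ' := by
  unfold kap
  rw [thue_congr f T ρ ρ' h]

section

variable {f : ℤ[X]} {C₀ : ℕ} (hG : GoodBound f C₀) {T : Finset ℕ} {ρ : ℕ → ℕ}
  (hV : Valid f C₀ T ρ)

include hG

lemma GoodBound.ne_two {p : ℕ} (hp : C₀ < p) : p ≠ 2 := by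
  have := hG.two
  omega

include hV

lemma thue_spec' : ThueP f T ρ (thue f T ρ) :=
  thue_spec f hG.deg T ρ fun p hp => (hV p hp).1

lemma prod_dvd_Nm : ((∏ p ∈ T, p : ℕ) : ℤ) ∣ Nm f (thue f T ρ) := by
  push_cast
  apply Finset.prod_dvd_of_coprime
  · intro p hp q hq hpq
    have h1 := (Nat.coprime_primes (hV p hp).1 (hV q hq).1).2 hpq
    exact Nat.isCoprime_iff_coprime.2 h1
  · intro p hp
    have : Fact p.Prime := ⟨(hV p hp).1⟩
    exact dvd_Nm hG.monic (hV p hp).2.2 _ ((thue_spec' hG hV).2.2 p hp)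

omit hG in
lemma prod_pos' : 0 < ∏ p ∈ T, p := prod_pos fun p hp => (hV p hp).1.pos

lemma kap_mul : Nm f (thue f T ρ) = kap f T ρ * ((∏ p ∈ T, p : ℕ) : ℤ) := by
  unfold kap
  rw [Int.ediv_mul_cancel (prod_dvd_Nm hG hV)]

lemma kap_ne : kap f T ρ ≠ 0 := by
  intro h
  have h1 := kap_mul hG hV
  rw [h, zero_mul] at h1
  exact Nm_ne_zero hG.monic hG.irr _ (thue_spec' hG hV).1 h1

lemma kap_le : |kap f T ρ| ≤ (C₀ : ℤ) := by
  set n := f.natDegree with hn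
  set N := ∏ p ∈ T, p with hN
  have hN0 : 0 < N := prod_pos' hV
  have hspec := thue_spec' hG hV
  obtain ⟨i₀, -, hi₀⟩ := exists_max_image (univ : Finset (Fin n)) (fun i => |thue f T ρ i|)
    ⟨⟨0, hG.deg⟩, mem_univ _⟩
  have h1 := abs_Nm_le f hG.monic (thue f T ρ) (|(thue f T ρ i₀ : ℝ)|) (abs_nonneg _)
    (fun i => by exact_mod_cast hi₀ i (mem_univ i))
  have h2 : |(thue f T ρ i₀ : ℝ)| ^ n ≤ N := by
    have := hspec.2.1 i₀
    exact_mod_cast this
  have h3 : 0 ≤ resConst f := by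
    unfold resConst
    apply Multiset.prod_nonneg
    intro a ha
    rw [Multiset.mem_map] at ha
    obtain ⟨w, -, rfl⟩ := ha
    positivity
  have h4 : |((Nm f (thue f T ρ) : ℤ) : ℝ)| ≤ N * C₀ :=
    h1.trans (mul_le_mul h2 hG.res h3 (Nat.cast_nonneg _))
  rw [kap_mul hG hV] at h4
  push_cast at h4
  rw [abs_mul] at h4
  have h5 : |(((N : ℕ) : ℝ))| = N := abs_of_nonneg (Nat.cast_nonneg _)
  have h6 : |(kap f T ρ : ℝ)| * N ≤ N * C₀ := by
    rw [hN] at h5 h4 ⊢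
    push_cast at h5 h4 ⊢
    rw [h5] at h4
    exact h4
  have h7 : (0 : ℝ) < N := by exact_mod_cast hN0
  have h8 : |(kap f T ρ : ℝ)| ≤ C₀ := by
    rw [mul_comm (N : ℝ)] at h6
    exact le_of_mul_le_mul_right h6 h7
  exact_mod_cast h8

lemma not_dvd_kap {p : ℕ} (hpC : C₀ < p) : ¬ (p : ℤ) ∣ kap f T ρ := by
  intro h
  have h1 := Int.le_of_dvd (abs_pos.2 (kap_ne hG hV)) ((dvd_abs _ _).2 h)
  have h2 := kap_le hG hV
  omega

lemma dvd_Nm_thue_iff {p : ℕ} (hp : p.Prime) (hpC : C₀ < p) :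
    (p : ℤ) ∣ Nm f (thue f T ρ) ↔ p ∈ T := by
  have hp' : Prime (p : ℤ) := Nat.prime_iff_prime_int.1 hp
  rw [kap_mul hG hV, hp'.dvd_mul]
  constructor
  · rintro (h | h)
    · exact absurd h (not_dvd_kap hG hV hpC)
    · rw [Int.natCast_dvd_natCast, hp.prime.dvd_finsetProd_iff] at h
      obtain ⟨q, hq, hpq⟩ := h
      rwa [(Nat.prime_dvd_prime_iff_eq hp (hV q hq).1).1 hpq]
  · intro h
    right
    rw [Int.natCast_dvd_natCast]
    exact dvd_prod_of_mem _ h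

lemma not_sq_dvd_Nm_thue {p : ℕ} (hpT : p ∈ T) : ¬ ((p : ℤ) ^ 2) ∣ Nm f (thue f T ρ) := by
  classical
  have hp := (hV p hpT).1
  have hp' : Prime (p : ℤ) := Nat.prime_iff_prime_int.1 hp
  rw [kap_mul hG hV, ← mul_prod_erase T _ hpT]
  push_cast
  intro h
  have h1 : (p : ℤ) ∣ kap f T ρ * ∏ q ∈ T.erase p, (q : ℤ) := by
    rw [sq, mul_left_comm] at h
    exact Int.dvd_of_mul_dvd_mul_left (by exact_mod_cast hp.ne_zero) h
  rcases hp'.dvd_mul.1 h1 with h2 | h2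
  · exact not_dvd_kap hG hV (hV p hpT).2.1 h2
  · rw [← Nat.cast_prod, Int.natCast_dvd_natCast, hp.prime.dvd_finsetProd_iff] at h2
    obtain ⟨q, hq, hpq⟩ := h2
    have := (Nat.prime_dvd_prime_iff_eq hp (hV q (mem_of_mem_erase hq)).1).1 hpq
    exact ne_of_mem_erase hq this.symm

/-- Injectivity of the Thue elements. -/
lemma thue_inj {T' : Finset ℕ} {ρ' : ℕ → ℕ} (hV' : Valid f C₀ T' ρ')
    (h : thue f T ρ = thue f T' ρ') : T = T' ∧ ∀ p ∈ T, ρ p = ρ' p := by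
  have hTT : T = T' := by
    ext p
    constructor
    · intro hp
      rw [← dvd_Nm_thue_iff hG hV' (hV p hp).1 (hV p hp).2.1, ← h,
        dvd_Nm_thue_iff hG hV (hV p hp).1 (hV p hp).2.1]
      exact hp
    · intro hp
      rw [← dvd_Nm_thue_iff hG hV (hV' p hp).1 (hV' p hp).2.1, h,
        dvd_Nm_thue_iff hG hV' (hV' p hp).1 (hV' p hp).2.1]
      exact hp
  subst hTT
  refine ⟨rfl, fun p hp => ?_⟩
  by_contra hne
  have : Fact p.Prime := ⟨(hV p hp).1⟩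
  apply not_sq_dvd_Nm_thue hG hV hp
  refine sq_dvd_Nm hG.monic (hG.sep p (hV p hp).1 (hV p hp).2.1) (hV p hp).2.2 (hV' p hp).2.2 hne _
    ((thue_spec' hG hV).2.2 p hp) ?_
  rw [h]
  exact (thue_spec' hG hV').2.2 p hp

/-- A Thue element is coprime to `f` modulo the primes not in `T`. -/
lemma thue_coprime {p : ℕ} (hp : p.Prime) (hpC : C₀ < p) (hpT : p ∉ T) :
    IsCoprime (poly (fun i => (thue f T ρ i : ZMod p))) (fp f p) := by
  have : Fact p.Prime := ⟨hp⟩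
  have hm : (fp f p).Monic := hG.monic.map _
  apply IsCoprime.symm
  rw [← isUnit_resultant_iff_isCoprime hm, ← Nm_eq_res hG.monic, ← Nm_cast, isUnit_iff_ne_zero, Ne,
    ZMod.intCast_zmod_eq_zero_iff_dvd, dvd_Nm_thue_iff hG hV hp hpC]
  exact hpT

/-- At the primes of `T` a Thue element is `p` times a unit at the root, and coprime to the
cofactor. -/
lemma thue_local {p : ℕ} [Fact p.Prime] (hpT : p ∈ T) {α : ℤ_[p]} (hα : Lift f p (ρ p) α)
    {k : ℤ_[p][X]} (hkm : k.Monic) (hk : fz f p = (X - C α) * k) :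
    (∃ v : ℤ_[p], IsUnit v ∧ (poly (fun i => (thue f T ρ i : ℤ_[p]))).eval α = p * v) ∧
      IsCoprime (poly (fun i => (thue f T ρ i : ZMod p))) (k.map (rd p)) := by
  have h1 := Nm_padic (p := p) hG.monic (thue f T ρ)
  rw [hk, res_mul_left _ _ _ (monic_X_sub_C α) hkm, res_X_sub_C] at h1
  have h2 := rd_eq_zero_iff_dvd.1 ((dvd_ev_padic (thue f T ρ) hα.2).2
    ((thue_spec' hG hV).2.2 p hpT))
  obtain ⟨v, hv⟩ := h2
  have hns : ¬ ((p : ℤ_[p]) ^ 2) ∣ ((Nm f (thue f T ρ) : ℤ) : ℤ_[p]) := by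
    intro h
    apply not_sq_dvd_Nm_thue hG hV hpT
    have h5 := (PadicInt.pow_p_dvd_int_iff 2 (Nm f (thue f T ρ))).1 h
    exact_mod_cast h5
  rw [h1, hv] at hns
  have hvr : IsUnit (v * resultant k (poly (fun i => (thue f T ρ i : ℤ_[p])))) := by
    rw [← rd_ne_zero_iff, Ne, rd_eq_zero_iff_dvd]
    intro h
    apply hns
    obtain ⟨w, hw⟩ := h
    exact ⟨w, by rw [mul_assoc, hw]; ring⟩
  rw [IsUnit.mul_iff] at hvr
  refine ⟨⟨v, hvr.1, hv⟩, ?_⟩
  apply IsCoprime.symm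
  have hkm' : (k.map (rd p)).Monic := hkm.map _
  rw [← isUnit_resultant_iff_isCoprime hkm']
  have h3 : resultant (k.map (rd p)) (poly (fun i => (thue f T ρ i : ZMod p))) =
      rd p (resultant k (poly (fun i => (thue f T ρ i : ℤ_[p])))) := by
    have h4 : poly (fun i => (thue f T ρ i : ZMod p)) =
        (poly (fun i => (thue f T ρ i : ℤ_[p]))).map (rd p) := by
      rw [poly_map]
      simp
    rw [h4]
    have h5 := resultant_map_map k (poly (fun i => (thue f T ρ i : ℤ_[p]))) k.natDegree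
      (poly (fun i => (thue f T ρ i : ℤ_[p]))).natDegree (rd p)
    rw [← h5, ← hkm.natDegree_map (rd p), res_pad _ _ hkm' _ natDegree_map_le]
  rw [h3]
  exact hvr.2.map _

end

end Stoll308.Gen
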