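import Pool.Agent.Work.MP_308fa9_nt.Gen.Hensel

set_option autoImplicit false

/-!
Thue elements: small elements of `ℤ[θ]` vanishing at prescribed roots modulo prescribed primes.
-/

namespace Stoll308.Gen

open Polynomial Finset NumberTheorySymbols

/-- The small elements. -/
def ThueP (f : ℤ[X]) (T : Finset ℕ) (ρ : ℕ → ℕ) (g : Fin f.natDegree → ℤ) : Prop :=
  g ≠ 0 ∧ (∀ i, |g i| ^ f.natDegree ≤ ((∏ p ∈ T, p : ℕ) : ℤ)) ∧
    ∀ p ∈ T, (p : ℤ) ∣ ev g (ρ p : ℤ)

lemma ThueP_congr (f : ℤ[X]) (T : Finset ℕ) (ρ ρ' : ℕ → ℕ) (h : ∀ p ∈ T, ρ p = ρ' p) :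
    ThueP f T ρ = ThueP f T ρ' := by
  funext g
  unfold ThueP
  apply propext
  refine and_congr_right fun _ => and_congr_right fun _ => ?_
  refine forall₂_congr fun p hp => ?_
  rw [h p hp]

/-- A chosen Thue element. -/
noncomputable def thue (f : ℤ[X]) (T : Finset ℕ) (ρ : ℕ → ℕ) : Fin f.natDegree → ℤ :=
  Classical.epsilon (ThueP f T ρ)

lemma thue_congr (f : ℤ[X]) (T : Finset ℕ) (ρ ρ' : ℕ → ℕ) (h : ∀ p ∈ T, ρ p = ρ' p) :
    thue f T ρ = thue f T ρ' := by
  unfold thue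
  rw [ThueP_congr f T ρ ρ' h]

lemma exists_thue (f : ℤ[X]) (hn : 1 ≤ f.natDegree) (T : Finset ℕ) (ρ : ℕ → ℕ)
    (hT : ∀ p ∈ T, p.Prime) : ∃ g, ThueP f T ρ g := by
  classical
  set n := f.natDegree with hnn
  set N := ∏ p ∈ T, p with hN
  -- the size of the box
  obtain ⟨m, hm1, hm2⟩ : ∃ m : ℕ, m ^ n ≤ N ∧ N < (m + 1) ^ n := by
    have hex : ∃ k : ℕ, N < (k + 1) ^ n := by
      refine ⟨N, ?_⟩
      calc N < N + 1 := Nat.lt_succ_self _
        _ ≤ (N + 1) ^ n := Nat.le_self_pow (by omega) _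
    refine ⟨Nat.find hex, ?_, Nat.find_spec hex⟩
    rcases Nat.eq_zero_or_pos (Nat.find hex) with h0 | h0
    · rw [h0, zero_pow (by omega)]; exact Nat.zero_le _
    · have h1 := Nat.find_min hex (m := Nat.find hex - 1) (by omega)
      rw [not_lt, Nat.sub_add_cancel h0] at h1
      exact h1
  have hfin : ∀ p : T, NeZero (p : ℕ) := fun p => ⟨(hT p p.2).ne_zero⟩
  have hcard : Fintype.card (∀ p : T, ZMod (p : ℕ)) < Fintype.card (Fin n → Fin (m + 1)) := by
    rw [Fintype.card_pi, Fintype.card_fun]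
    simp only [ZMod.card, Fintype.card_fin]
    have : ∏ p : T, (p : ℕ) = N := by
      rw [hN]
      exact prod_coe_sort T (fun p => p)
    rw [this]
    exact hm2
  obtain ⟨G, G', hne, heq⟩ := Fintype.exists_ne_map_eq_of_card_lt
    (fun (G : Fin n → Fin (m + 1)) (p : T) => ∑ i, ((G i : ℕ) : ZMod (p : ℕ)) *
      ((ρ p : ℕ) : ZMod (p : ℕ)) ^ (i : ℕ)) hcard
  refine ⟨fun i => ((G i : ℕ) : ℤ) - ((G' i : ℕ) : ℤ), ?_, ?_, ?_⟩
  · intro h
    apply hne
    funext i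
    have h1 := congrFun h i
    simp only [Pi.zero_apply] at h1
    apply Fin.ext
    omega
  · intro i
    have h1 : |((G i : ℕ) : ℤ) - ((G' i : ℕ) : ℤ)| ≤ m := by
      have h2 := (G i).2
      have h3 := (G' i).2
      rw [abs_le]
      constructor <;> omega
    calc |((G i : ℕ) : ℤ) - ((G' i : ℕ) : ℤ)| ^ n ≤ (m : ℤ) ^ n :=
          pow_le_pow_left₀ (abs_nonneg _) h1 n
      _ ≤ (N : ℤ) := by exact_mod_cast hm1
  · intro p hp
    rw [← ZMod.intCast_zmod_eq_zero_iff_dvd]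
    have h1 := congrFun heq ⟨p, hp⟩
    simp only at h1
    unfold ev
    push_cast
    rw [sum_congr rfl fun i _ => sub_mul _ _ _, sum_sub_distrib, sub_eq_zero]
    exact h1

lemma thue_spec (f : ℤ[X]) (hn : 1 ≤ f.natDegree) (T : Finset ℕ) (ρ : ℕ → ℕ)
    (hT : ∀ p ∈ T, p.Prime) : ThueP f T ρ (thue f T ρ) :=
  Classical.epsilon_spec (exists_thue f hn T ρ hT)

/-- The resultant of `f` and an integral polynomial with small coefficients. -/
noncomputable def resConst (f : ℤ[X]) : ℝ :=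
  ((f.map (Int.castRingHom ℂ)).roots.map fun z => ∑ i : Fin f.natDegree, ‖z‖ ^ (i : ℕ)).prod

lemma abs_Nm_le (f : ℤ[X]) (hf : f.Monic) (g : Fin f.natDegree → ℤ) (M : ℝ) (hM : 0 ≤ M)
    (hg : ∀ i, |(g i : ℝ)| ≤ M) : |((Nm f g : ℤ) : ℝ)| ≤ M ^ f.natDegree * resConst f := by
  have hm : (f.map (Int.castRingHom ℂ)).Monic := hf.map _
  have h1 : (((Nm f g : ℤ) : ℂ)) = ((f.map (Int.castRingHom ℂ)).roots.map
      (poly (fun i => (g i : ℂ))).eval).prod := by
    rw [Nm_cast]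
    unfold Nm
    have h := resultant_eq_prod_eval (f.map (Int.castRingHom ℂ)) (poly (fun i => (g i : ℂ)))
      f.natDegree (poly_natDegree_le _) (IsAlgClosed.splits _)
    rw [hf.natDegree_map, hm.leadingCoeff, one_pow, one_mul] at h
    rw [← h]
  have h2 : |((Nm f g : ℤ) : ℝ)| = ‖((Nm f g : ℤ) : ℂ)‖ := by
    rw [Complex.norm_intCast]
  have hcard : Multiset.card (f.map (Int.castRingHom ℂ)).roots = f.natDegree := by
    rw [← (IsAlgClosed.splits (f.map (Int.castRingHom ℂ))).natDegree_eq_card_roots,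
      hf.natDegree_map]
  rw [h2, h1]
  have h3 : ∀ s : Multiset ℂ, ‖(s.map (poly (fun i => (g i : ℂ))).eval).prod‖ ≤
      M ^ (Multiset.card s) * (s.map fun z => ∑ i : Fin f.natDegree, ‖z‖ ^ (i : ℕ)).prod := by
    intro s
    induction s using Multiset.induction with
    | empty => simp
    | cons z s ih =>
      rw [Multiset.map_cons, Multiset.prod_cons, Multiset.map_cons, Multiset.prod_cons,
        Multiset.card_cons, norm_mul, pow_succ]
      have h4 : ‖(poly (fun i => (g i : ℂ))).eval z‖ ≤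
          M * ∑ i : Fin f.natDegree, ‖z‖ ^ (i : ℕ) := by
        rw [poly_eval]
        unfold ev
        refine (norm_sum_le _ _).trans ?_
        rw [mul_sum]
        refine sum_le_sum fun i _ => ?_
        rw [norm_mul, norm_pow, Complex.norm_intCast]
        exact mul_le_mul_of_nonneg_right (hg i) (by positivity)
      have h5 : (0 : ℝ) ≤ (s.map fun z => ∑ i : Fin f.natDegree, ‖z‖ ^ (i : ℕ)).prod := by
        apply Multiset.prod_nonneg
        intro a ha
        rw [Multiset.mem_map] at ha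
        obtain ⟨w, -, rfl⟩ := ha
        positivity
      calc _ ≤ (M * ∑ i : Fin f.natDegree, ‖z‖ ^ (i : ℕ)) * (M ^ (Multiset.card s) *
            (s.map fun z => ∑ i : Fin f.natDegree, ‖z‖ ^ (i : ℕ)).prod) :=
            mul_le_mul h4 ih (norm_nonneg _) (by positivity)
        _ = _ := by ring
  have h6 := h3 (f.map (Int.castRingHom ℂ)).roots
  rw [hcard] at h6
  exact h6

section irr

variable {f : ℤ[X]}

lemma Nm_eq_res (hf : f.Monic) {A : Type*} [CommRing A] [Nontrivial A]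
    (g : Fin f.natDegree → A) :
    Nm f g = resultant (f.map (Int.castRingHom A)) (poly g) := by
  rw [← res_pad (f.map (Int.castRingHom A)) (poly g) (hf.map _) f.natDegree
    (poly_natDegree_le _)]
  unfold Nm
  congr 1
  exact (hf.natDegree_map _).symm

lemma irr_rat (hf : f.Monic) (hirr : Irreducible f) : Irreducible (f.map (Int.castRingHom ℚ)) := by
  have h := (hf.irreducible_iff_irreducible_map_fraction_map (K := ℚ)).1 hirr
  simpa using h

lemma Nm_ne_zero (hf : f.Monic) (hirr : Irreducible f) (g : Fin f.natDegree → ℤ) (hg : g ≠ 0) :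
    Nm f g ≠ 0 := by
  have hm : (f.map (Int.castRingHom ℚ)).Monic := hf.map _
  have hirr' := irr_rat hf hirr
  intro h
  have h1 : ((Nm f g : ℤ) : ℚ) = 0 := by rw [h]; simp
  rw [Nm_cast, Nm_eq_res hf] at h1
  apply resultant_ne_zero (f.map (Int.castRingHom ℚ)) (poly (fun i => (g i : ℚ))) _ h1
  rw [hirr'.coprime_iff_not_dvd]
  intro hd
  have h2 := eq_zero_of_dvd_of_degree_lt hd (by
    rw [degree_eq_natDegree hm.ne_zero, hf.natDegree_map]; exact poly_degree_lt _)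
  apply hg
  funext i
  have h3 := poly_coeff (fun i => (g i : ℚ)) i
  rw [h2, coeff_zero] at h3
  have h4 : ((g i : ℤ) : ℚ) = 0 := h3.symm
  simpa using h4

/-- A common root modulo `p` makes the norm divisible by `p`. -/
lemma dvd_Nm (hf : f.Monic) {p : ℕ} [Fact p.Prime] {a : ℕ} (ha : a ∈ R f p)
    (g : Fin f.natDegree → ℤ) (hg : (p : ℤ) ∣ ev g (a : ℤ)) : (p : ℤ) ∣ Nm f g := by
  have hm : (fp f p).Monic := hf.map _
  rw [← ZMod.intCast_zmod_eq_zero_iff_dvd, Nm_cast, Nm_eq_res hf]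
  by_contra h
  have h1 := (isUnit_resultant_iff_isCoprime hm).1 (isUnit_iff_ne_zero.2 h)
  obtain ⟨u, v, huv⟩ := h1
  have h2 := congrArg (eval (a : ZMod p)) huv
  have h3 : (poly (fun i => (g i : ZMod p))).eval (a : ZMod p) = 0 := by
    rw [poly_eval]
    have := (ZMod.intCast_zmod_eq_zero_iff_dvd (ev g (a : ℤ)) p).2 hg
    rw [ev_cast] at this
    simpa using this
  rw [eval_add, eval_mul, eval_mul, (mem_R.1 ha).2, h3] at h2
  simp at h2

lemma Nm_padic (hf : f.Monic) {p : ℕ} [Fact p.Prime] (g : Fin f.natDegree → ℤ) :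
    ((Nm f g : ℤ) : ℤ_[p]) = resultant (fz f p) (poly (fun i => (g i : ℤ_[p]))) := by
  rw [Nm_cast, Nm_eq_res hf]

lemma dvd_ev_padic {p : ℕ} [Fact p.Prime] {n : ℕ} (g : Fin n → ℤ) {a : ℕ} {α : ℤ_[p]}
    (h : rd p α = a) : rd p ((poly (fun i => (g i : ℤ_[p]))).eval α) = 0 ↔
      (p : ℤ) ∣ ev g (a : ℤ) := by
  rw [poly_eval, ev_map, h, ← ZMod.intCast_zmod_eq_zero_iff_dvd, ev_cast]
  simp

/-- Two common roots modulo `p` make the norm divisible by `p²`. -/
lemma sq_dvd_Nm (hf : f.Monic) {p : ℕ} [Fact p.Prime] (hsep : (fp f p).Separable) {a b : ℕ}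
    (ha : a ∈ R f p) (hb : b ∈ R f p) (hab : a ≠ b) (g : Fin f.natDegree → ℤ)
    (hga : (p : ℤ) ∣ ev g (a : ℤ)) (hgb : (p : ℤ) ∣ ev g (b : ℤ)) : ((p : ℤ) ^ 2) ∣ Nm f g := by
  obtain ⟨α, hα⟩ := exists_lift hsep ha
  obtain ⟨β, hβ⟩ := exists_lift hsep hb
  obtain ⟨k, hkm, hk⟩ := exists_factor hf hα.1
  have hne : α ≠ β := by
    rintro rfl
    exact hab (cast_inj_of_lt (mem_R.1 ha).1 (mem_R.1 hb).1 (hα.2.symm.trans hβ.2))
  have hkβ : k.eval β = 0 := by
    have h1 := hβ.1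
    rw [hk, eval_mul, eval_sub, eval_X, eval_C] at h1
    rcases mul_eq_zero.1 h1 with h2 | h2
    · exact absurd (sub_eq_zero.1 h2).symm hne
    · exact h2
  obtain ⟨l, hl⟩ := dvd_iff_isRoot.2 hkβ
  have hlm : l.Monic := (monic_X_sub_C β).of_mul_monic_left (hl ▸ hkm)
  have h1 := Nm_padic (p := p) hf g
  rw [hk, res_mul_left _ _ _ (monic_X_sub_C α) hkm, hl, res_mul_left _ _ _ (monic_X_sub_C β) hlm,
    res_X_sub_C, res_X_sub_C] at h1
  have h2 := rd_eq_zero_iff_dvd.1 ((dvd_ev_padic g hα.2).2 hga)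
  have h3 := rd_eq_zero_iff_dvd.1 ((dvd_ev_padic g hβ.2).2 hgb)
  have h4 : ((p : ℤ_[p]) ^ 2) ∣ ((Nm f g : ℤ) : ℤ_[p]) := by
    rw [h1, sq, ← mul_assoc]
    exact Dvd.dvd.mul_right (mul_dvd_mul h2 h3) _
  have h5 := (PadicInt.pow_p_dvd_int_iff 2 (Nm f g)).1 h4
  exact_mod_cast h5

end irr

end Stoll308.Gen
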