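import Pool.Agent.Work.MP_308fa9_nt.Gen.Defs
import Pool.Agent.Work.MP_308fa9_nt.Gen.IrrDefs
import Pool.Agent.Work.MP_308fa9_nt.Gen.Thue

set_option autoImplicit false

/-!
Reduction to a monic polynomial.
-/

namespace Stoll308.Irr

open Polynomial Finset Stoll308.Gen

open Classical in
/-- The sum of `1/|t|` over the squarefree integers `t`, `|t| ≤ X`, with the property `P`. -/
noncomputable def logSum (P : ℤ → Prop) (X : ℕ) : ℝ :=
  ∑ t ∈ (Icc (-(X : ℤ)) X).filter (fun t => Squarefree t ∧ P t), 1 / |(t : ℝ)|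

section squarefree

lemma nat_sqfree_dvd {a b k : ℕ} (ha : Squarefree a) (h : a * b = k ^ 2) : a ∣ b := by
  have hak : a ∣ k := by
    rw [← ha.dvd_pow_iff_dvd two_ne_zero, ← h]
    exact dvd_mul_right _ _
  obtain ⟨m, rfl⟩ := hak
  rcases Nat.eq_zero_or_pos a with h0 | h0
  · subst h0
    exact absurd ha not_squarefree_zero
  · have h1 : b = a * m ^ 2 := by
      have : a * b = a * (a * m ^ 2) := by rw [h]; ring
      exact Nat.eq_of_mul_eq_mul_left h0 this
    rw [h1]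
    exact dvd_mul_right _ _

lemma sqfree_unique {s t u v : ℤ} (hs : Squarefree s) (ht : Squarefree t) (hu : u ≠ 0)
    (h : s * u ^ 2 = t * v ^ 2) : s = t := by
  have hsq : IsSquare (s * t) := by
    have h1 : IsSquare ((s * t : ℤ) : ℚ) := by
      refine ⟨(t : ℚ) * v / u, ?_⟩
      have hu' : (u : ℚ) ≠ 0 := by exact_mod_cast hu
      have h2 : (s : ℚ) * u ^ 2 = t * v ^ 2 := by exact_mod_cast h
      push_cast
      field_simp
      linear_combination (t : ℚ) * h2
    exact Rat.isSquare_intCast_iff.1 h1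
  obtain ⟨k, hk⟩ := hsq
  have hnat : s.natAbs * t.natAbs = k.natAbs ^ 2 := by
    rw [← Int.natAbs_mul, hk, Int.natAbs_mul, sq]
  have hs' : Squarefree s.natAbs := Int.squarefree_natAbs.2 hs
  have ht' : Squarefree t.natAbs := Int.squarefree_natAbs.2 ht
  have h1 := nat_sqfree_dvd hs' hnat
  have h2 := nat_sqfree_dvd ht' (by rw [mul_comm]; exact hnat)
  have h3 := Nat.dvd_antisymm h1 h2
  rcases Int.natAbs_eq_natAbs_iff.1 h3 with h4 | h4
  · exact h4
  · exfalso
    have ht0 : t ≠ 0 := ht.ne_zero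
    have : (0 : ℤ) ≤ s * t := by rw [hk]; exact mul_self_nonneg k
    rw [h4] at this
    have h5 : 0 < t * t := mul_self_pos.2 ht0
    linarith

lemma exists_sqfree_part {z : ℤ} (hz : z ≠ 0) : ∃ s m : ℤ, Squarefree s ∧ m ≠ 0 ∧
    z = s * m ^ 2 := by
  obtain ⟨a, b, ha, hb, hab, hsf⟩ := Nat.sq_mul_squarefree_of_pos (Int.natAbs_pos.2 hz)
  refine ⟨z.sign * a, b, ?_, by exact_mod_cast hb.ne', ?_⟩
  · rw [← Int.squarefree_natAbs, Int.natAbs_mul, Int.natAbs_sign_of_ne_zero hz, one_mul,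
      Int.natAbs_natCast]
    exact hsf
  · have h1 := Int.sign_mul_natAbs z
    rw [← hab] at h1
    rw [← h1]
    have h2 : (z.sign * ((b ^ 2 * a : ℕ) : ℤ)).sign = z.sign := by rw [h1]
    rw [h2]
    push_cast
    ring

/-- The squarefree part. -/
noncomputable def sf (z : ℤ) : ℤ :=
  haveI := Classical.propDecidable (z = 0)
  if h : z = 0 then 0 else (exists_sqfree_part h).choose

lemma sf_spec {z : ℤ} (hz : z ≠ 0) : Squarefree (sf z) ∧ ∃ m : ℤ, m ≠ 0 ∧ z = sf z * m ^ 2 := by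
  unfold sf
  rw [dif_neg hz]
  obtain ⟨m, h1, h2, h3⟩ := (exists_sqfree_part hz).choose_spec
  exact ⟨h1, m, h2, h3⟩

end squarefree

section transfer

variable {F : ℤ[X]}

/-- The monic polynomial `c^(n-1) F(x/c)`. -/
noncomputable abbrev mon (F : ℤ[X]) : ℤ[X] := F.integralNormalization

lemma mon_comp (hn : 1 ≤ F.natDegree) :
    (mon F).comp (C F.leadingCoeff * X) = C (F.leadingCoeff ^ (F.natDegree - 1)) * F := by
  ext i
  rw [comp_C_mul_X_coeff, coeff_C_mul,
    integralNormalization_coeff_mul_leadingCoeff_pow i hn, mul_comm]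

variable {K : Type*} [Field K] [CharZero K]

lemma lc_ne (hn : 1 ≤ F.natDegree) : (F.leadingCoeff : K) ≠ 0 := by
  have : F.leadingCoeff ≠ 0 := by
    rw [Ne, leadingCoeff_eq_zero]
    rintro rfl
    simp at hn
  exact_mod_cast this

omit [CharZero K] in
lemma mon_map_comp (hn : 1 ≤ F.natDegree) :
    ((mon F).map (Int.castRingHom K)).comp (C (F.leadingCoeff : K) * X) =
      C ((F.leadingCoeff : K) ^ (F.natDegree - 1)) * F.map (Int.castRingHom K) := by
  have h := congrArg (Polynomial.map (Int.castRingHom K)) (mon_comp hn)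
  rw [Polynomial.map_comp, Polynomial.map_mul, Polynomial.map_mul, map_C, map_C, map_X] at h
  simpa using h

lemma comp_comp_inv (hn : 1 ≤ F.natDegree) (q : K[X]) :
    (q.comp (C (F.leadingCoeff : K) * X)).comp (C (F.leadingCoeff : K)⁻¹ * X) = q := by
  rw [comp_assoc]
  have : (C (F.leadingCoeff : K) * X : K[X]).comp (C (F.leadingCoeff : K)⁻¹ * X) = X := by
    rw [mul_comp, C_comp, X_comp, ← mul_assoc, ← C_mul, mul_inv_cancel₀ (lc_ne hn), C_1, one_mul]
  rw [this, comp_X]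

lemma map_comp_inv (hn : 1 ≤ F.natDegree) :
    (F.map (Int.castRingHom K)).comp (C (F.leadingCoeff : K)⁻¹ * X) =
      C ((F.leadingCoeff : K) ^ (F.natDegree - 1))⁻¹ * (mon F).map (Int.castRingHom K) := by
  have h := congrArg (fun q => q.comp (C (F.leadingCoeff : K)⁻¹ * X)) (mon_map_comp (K := K) hn)
  simp only [comp_comp_inv hn] at h
  rw [mul_comp, C_comp] at h
  rw [h, ← mul_assoc, ← C_mul, inv_mul_cancel₀ (pow_ne_zero _ (lc_ne hn)), C_1, one_mul]

lemma mon_irreducible (hirr : Irreducible (F.map (Int.castRingHom ℚ))) (hn : 1 ≤ F.natDegree) :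
    Irreducible (mon F) := by
  have hF0 : F ≠ 0 := by
    rintro rfl
    simp at hn
  have hm : (mon F).Monic := monic_integralNormalization hF0
  rw [hm.irreducible_iff_irreducible_map_fraction_map (K := ℚ)]
  have h2 : algebraMap ℤ ℚ = Int.castRingHom ℚ := rfl
  rw [h2]
  have h1 := map_comp_inv (F := F) (K := ℚ) hn
  have hu : IsUnit (C ((F.leadingCoeff : ℚ) ^ (F.natDegree - 1))⁻¹ : ℚ[X]) := by
    rw [Polynomial.isUnit_C, isUnit_iff_ne_zero]
    exact inv_ne_zero (pow_ne_zero _ (lc_ne hn))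
  have h3 : Irreducible ((F.map (Int.castRingHom ℚ)).comp (C (F.leadingCoeff : ℚ)⁻¹ * X)) := by
    have hc := lc_ne (K := ℚ) hn
    let e : ℚ[X] ≃+* ℚ[X] := RingEquiv.ofRingHom
      (compRingHom (C (F.leadingCoeff : ℚ)⁻¹ * X)) (compRingHom (C (F.leadingCoeff : ℚ) * X))
      (by
        apply RingHom.ext
        intro q
        exact comp_comp_inv hn q)
      (by
        apply RingHom.ext
        intro q
        change (q.comp (C (F.leadingCoeff : ℚ)⁻¹ * X)).comp (C (F.leadingCoeff : ℚ) * X) = q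
        rw [comp_assoc]
        have : (C (F.leadingCoeff : ℚ)⁻¹ * X : ℚ[X]).comp (C (F.leadingCoeff : ℚ) * X) = X := by
          rw [mul_comp, C_comp, X_comp, ← mul_assoc, ← C_mul, inv_mul_cancel₀ hc, C_1, one_mul]
        rw [this, comp_X])
    exact (MulEquiv.irreducible_iff e.toMulEquiv).2 hirr
  rw [h1] at h3
  exact (irreducible_isUnit_mul hu).1 h3

omit [CharZero K] in
/-- The point transfer. -/
lemma eval_mon (hn : 1 ≤ F.natDegree) (x : K) :
    ((mon F).map (Int.castRingHom K)).eval ((F.leadingCoeff : K) * x) =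
      (F.leadingCoeff : K) ^ (F.natDegree - 1) * (F.map (Int.castRingHom K)).eval x := by
  have h := congrArg (eval x) (mon_map_comp (F := F) (K := K) hn)
  rw [eval_comp, eval_mul, eval_C, eval_X, eval_mul, eval_C] at h
  exact h

lemma point_iff (hn : 1 ≤ F.natDegree) (hev : Even F.natDegree) {t t' : ℤ} {m : K}
    (ht : (t : K) * F.leadingCoeff = t' * m ^ 2) (x y : K) :
    (t : K) * y ^ 2 = (F.map (Int.castRingHom K)).eval x ↔
      (t' : K) * (m * (F.leadingCoeff : K) ^ (F.natDegree / 2 - 1) * y) ^ 2 =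
        ((mon F).map (Int.castRingHom K)).eval ((F.leadingCoeff : K) * x) := by
  have hc := lc_ne (K := K) hn
  rw [eval_mon hn]
  obtain ⟨k, hk⟩ := hev
  have hk1 : 1 ≤ k := by omega
  have h1 : F.natDegree / 2 - 1 = k - 1 := by omega
  have h2 : F.natDegree - 1 = 2 * (k - 1) + 1 := by omega
  rw [h1, h2]
  have h3 : (t' : K) * (m * (F.leadingCoeff : K) ^ (k - 1) * y) ^ 2 =
      (F.leadingCoeff : K) ^ (2 * (k - 1) + 1) * (t * y ^ 2) := by
    calc (t' : K) * (m * (F.leadingCoeff : K) ^ (k - 1) * y) ^ 2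
        = (t' * m ^ 2) * (F.leadingCoeff : K) ^ (2 * (k - 1)) * y ^ 2 := by ring
      _ = (t * F.leadingCoeff) * (F.leadingCoeff : K) ^ (2 * (k - 1)) * y ^ 2 := by rw [ht]
      _ = _ := by ring
  rw [h3]
  exact (mul_right_inj' (pow_ne_zero _ hc)).symm

lemma hasPoint_of_mon (hn : 1 ≤ F.natDegree) (hev : Even F.natDegree) {t t' : ℤ} {m : K}
    (hm : m ≠ 0) (ht : (t : K) * F.leadingCoeff = t' * m ^ 2)
    (h : Gen.HasPoint (mon F) t' K) : HasPoint F t K := by
  have hc := lc_ne (K := K) hn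
  rcases h with ⟨x, y, hxy⟩ | h
  · left
    refine ⟨x / F.leadingCoeff, y / (m * (F.leadingCoeff : K) ^ (F.natDegree / 2 - 1)), ?_⟩
    rw [point_iff hn hev ht]
    rw [mul_div_cancel₀ _ (mul_ne_zero hm (pow_ne_zero _ hc)), mul_div_cancel₀ _ hc]
    exact hxy
  · right
    obtain ⟨z, hz⟩ := h
    exact ⟨z * m, by rw [ht, hz]; ring⟩

lemma localImage_mon [Algebra ℚ K] (hn : 1 ≤ F.natDegree) (hev : Even F.natDegree) {t t' : ℤ}
    {m : K} (hm : m ≠ 0) (ht : (t : K) * F.leadingCoeff = t' * m ^ 2) {δ : ℚ[X]}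
    (h : LocalImage F t δ K) :
    Gen.LocalImage (mon F) t' (δ.comp (C (F.leadingCoeff : ℚ)⁻¹ * X)) K := by
  have hc := lc_ne (K := K) hn
  obtain ⟨x, y, c, s, hy, hc0, hxy, hdvd⟩ := h
  refine ⟨(F.leadingCoeff : K) * x, m * (F.leadingCoeff : K) ^ (F.natDegree / 2 - 1) * y,
    F.leadingCoeff * c, s.comp (C (F.leadingCoeff : K)⁻¹ * X),
    mul_ne_zero (mul_ne_zero hm (pow_ne_zero _ hc)) hy, mul_ne_zero hc hc0,
    (point_iff hn hev ht x y).1 hxy, ?_⟩
  have h1 := map_dvd (compRingHom (C (F.leadingCoeff : K)⁻¹ * X)) hdvd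
  simp only [coe_compRingHom_apply] at h1
  rw [map_comp_inv hn] at h1
  have h2 : (mon F).map (Int.castRingHom K) ∣
      C ((F.leadingCoeff : K) ^ (F.natDegree - 1))⁻¹ * (mon F).map (Int.castRingHom K) :=
    dvd_mul_left _ _
  have h3 := (h2.trans h1).mul_left (C (F.leadingCoeff : K))
  have h4 : (δ.comp (C (F.leadingCoeff : ℚ)⁻¹ * X)).map (algebraMap ℚ K) =
      (δ.map (algebraMap ℚ K)).comp (C (F.leadingCoeff : K)⁻¹ * X) := by
    rw [Polynomial.map_comp, Polynomial.map_mul, map_C, map_X]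
    simp
  rw [h4]
  have h5 : (C ((F.leadingCoeff : K) * x) - X) - C ((F.leadingCoeff : K) * c) *
      (δ.map (algebraMap ℚ K)).comp (C (F.leadingCoeff : K)⁻¹ * X) *
        s.comp (C (F.leadingCoeff : K)⁻¹ * X) ^ 2 = C (F.leadingCoeff : K) *
      (C x - X - C c * δ.map (algebraMap ℚ K) * s ^ 2).comp (C (F.leadingCoeff : K)⁻¹ * X) := by
    have h6 : C (F.leadingCoeff : K) * (C (F.leadingCoeff : K)⁻¹ * X) = (X : K[X]) := by
      rw [← mul_assoc, ← C_mul, mul_inv_cancel₀ hc, C_1, one_mul]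
    rw [sub_comp, sub_comp, mul_comp, mul_comp, C_comp, C_comp, X_comp, pow_comp, C_mul, C_mul]
    linear_combination h6
  rw [h5]
  exact h3

end transfer

section global

variable {F : ℤ[X]}

/-- `t c = t' m²` over any field of characteristic zero. -/
lemma cast_rel {K : Type*} [Field K] [CharZero K] {a b : ℤ} {m : ℚ}
    (h : (a : ℚ) = b * m ^ 2) : (a : K) = b * (m : K) ^ 2 := by
  have := congrArg (Rat.cast : ℚ → K) h
  push_cast at this
  exact this

lemma fakeSel_mon (hn : 1 ≤ F.natDegree) (hev : Even F.natDegree) {t t' : ℤ} {m : ℚ}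
    (hm : m ≠ 0) (ht : ((t * F.leadingCoeff : ℤ) : ℚ) = t' * m ^ 2) (h : FakeSel F t) :
    Gen.Sel (mon F) t' := by
  have ht' : ∀ (K : Type) [Field K] [CharZero K], (t : K) * F.leadingCoeff = t' * (m : K) ^ 2 := by
    intro K _ _
    have := cast_rel (K := K) ht
    push_cast at this
    exact this
  obtain ⟨δ, hδ, hp, hr⟩ := h
  refine ⟨δ.comp (C (F.leadingCoeff : ℚ)⁻¹ * X), ?_, fun p _ => ?_, ?_⟩
  · have h1 := IsCoprime.map hδ (compRingHom (C (F.leadingCoeff : ℚ)⁻¹ * X))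
    simp only [coe_compRingHom_apply] at h1
    rw [map_comp_inv hn] at h1
    exact h1.of_isCoprime_of_dvd_right (dvd_mul_left _ _)
  · exact localImage_mon hn hev (by exact_mod_cast hm) (ht' ℚ_[p]) (hp p)
  · exact localImage_mon hn hev (by exact_mod_cast hm) (ht' ℝ) hr

lemma els_of_mon (hn : 1 ≤ F.natDegree) (hev : Even F.natDegree) {t t' : ℤ} {m : ℚ}
    (hm : m ≠ 0) (ht : ((t * F.leadingCoeff : ℤ) : ℚ) = t' * m ^ 2) (h : Gen.ELS (mon F) t') :
    ELS F t := by
  have ht' : ∀ (K : Type) [Field K] [CharZero K], (t : K) * F.leadingCoeff = t' * (m : K) ^ 2 := by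
    intro K _ _
    have := cast_rel (K := K) ht
    push_cast at this
    exact this
  refine ⟨fun p _ => ?_, ?_⟩
  · exact hasPoint_of_mon hn hev (m := (m : ℚ_[p])) (by exact_mod_cast hm) (ht' ℚ_[p]) (h.1 p)
  · exact hasPoint_of_mon hn hev (m := (m : ℝ)) (by exact_mod_cast hm) (ht' ℝ) h.2

end global

section sums

/-- Comparison of sums under `t ↦ sf (t c)`. -/
lemma logSum_le {P P' : ℤ → Prop} {c : ℤ} (hc : c ≠ 0)
    (h : ∀ t : ℤ, Squarefree t → P t → P' (sf (t * c))) (X : ℕ) :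
    logSum P X ≤ c.natAbs * logSum P' (c.natAbs * X) := by
  classical
  have hca : 0 < c.natAbs := Int.natAbs_pos.2 hc
  unfold logSum
  rw [mul_sum]
  have hspec : ∀ t : ℤ, Squarefree t → Squarefree (sf (t * c)) ∧ ∃ m : ℤ, m ≠ 0 ∧
      t * c = sf (t * c) * m ^ 2 := fun t ht => sf_spec (mul_ne_zero ht.ne_zero hc)
  have hle : ∀ t : ℤ, Squarefree t → |sf (t * c)| ≤ c.natAbs * |t| := by
    intro t ht
    obtain ⟨-, m, hm, h1⟩ := hspec t ht
    have h2 : |t * c| = |sf (t * c)| * m ^ 2 := by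
      conv_lhs => rw [h1]
      rw [abs_mul, abs_of_nonneg (sq_nonneg m)]
    have h3 : 1 ≤ m ^ 2 := by
      have : 0 < m ^ 2 := by positivity
      omega
    have h4 : |t * c| = c.natAbs * |t| := by
      rw [abs_mul, Int.natCast_natAbs]; ring
    rw [← h4, h2]
    nlinarith [abs_nonneg (sf (t * c))]
  have hle' : ∀ t : ℤ, Squarefree t → 1 / |(t : ℝ)| ≤ (c.natAbs : ℝ) * (1 / |((sf (t * c) : ℤ) : ℝ)|) := by
    intro t ht
    have h1 := hle t ht
    have h2 : (0 : ℝ) < |(t : ℝ)| := abs_pos.2 (by exact_mod_cast ht.ne_zero)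
    have h3 : (0 : ℝ) < |((sf (t * c) : ℤ) : ℝ)| :=
      abs_pos.2 (by exact_mod_cast (hspec t ht).1.ne_zero)
    have h4 : |((sf (t * c) : ℤ) : ℝ)| ≤ c.natAbs * |(t : ℝ)| := by
      have h5 : ((|sf (t * c)| : ℤ) : ℝ) ≤ (((c.natAbs : ℤ) * |t| : ℤ) : ℝ) := Int.cast_le.2 h1
      rwa [Int.cast_mul, Int.cast_natCast, Int.cast_abs, Int.cast_abs] at h5
    rw [mul_one_div, div_le_div_iff₀ h2 h3, one_mul]
    exact h4
  have hinj : ∀ t : ℤ, Squarefree t → ∀ t' : ℤ, Squarefree t' → sf (t * c) = sf (t' * c) →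
      t = t' := by
    intro t ht t' ht' heq
    obtain ⟨-, m, hm, h1⟩ := hspec t ht
    obtain ⟨-, m', hm', h1'⟩ := hspec t' ht'
    apply sqfree_unique ht ht' (u := m') (v := m) hm'
    apply mul_right_cancel₀ hc
    rw [heq] at h1
    linear_combination m' ^ 2 * h1 - m ^ 2 * h1'
  calc ∑ t ∈ (Icc (-(X : ℤ)) X).filter (fun t => Squarefree t ∧ P t), 1 / |(t : ℝ)|
      ≤ ∑ t ∈ (Icc (-(X : ℤ)) X).filter (fun t => Squarefree t ∧ P t),
          (c.natAbs : ℝ) * (1 / |((sf (t * c) : ℤ) : ℝ)|) :=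
        sum_le_sum fun t ht => hle' t (mem_filter.1 ht).2.1
    _ = ∑ s ∈ ((Icc (-(X : ℤ)) X).filter (fun t => Squarefree t ∧ P t)).image
          (fun t => sf (t * c)), (c.natAbs : ℝ) * (1 / |(s : ℝ)|) := by
        rw [sum_image]
        intro t ht t' ht' heq
        exact hinj t (mem_filter.1 ht).2.1 t' (mem_filter.1 ht').2.1 heq
    _ ≤ _ := by
        apply sum_le_sum_of_subset_of_nonneg
        · intro s hs
          rw [mem_image] at hs
          obtain ⟨t, ht, rfl⟩ := hs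
          rw [mem_filter, mem_Icc] at ht
          rw [mem_filter, mem_Icc]
          have h1 := hle t ht.2.1
          have h2 : |t| ≤ (X : ℤ) := abs_le.2 ht.1
          have h3 : |sf (t * c)| ≤ ((c.natAbs * X : ℕ) : ℤ) := by
            rw [Nat.cast_mul]
            exact h1.trans (mul_le_mul_of_nonneg_left h2 (Int.natCast_nonneg _))
          exact ⟨abs_le.1 h3, (hspec t ht.2.1).1, h t ht.2.1 ht.2.2⟩
        · intro s _ _
          positivity

end sums

end Stoll308.Irr
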