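import Pool.Agent.Work.MP_308fa9_nt.Gen.Comp

set_option autoImplicit false

/-!
The class of `x - θ` for a point `(x, y)` of `t y² = f(x)` over `ℚ_p`, `p` a good prime.
-/

namespace Stoll308.Gen

open Polynomial Finset NumberTheorySymbols

variable {p : ℕ} [hp : Fact p.Prime] {f : ℤ[X]}

lemma p_ne_zero_q : (p : ℚ_[p]) ≠ 0 := by exact_mod_cast hp.out.ne_zero

lemma exists_unit_mul (x : ℚ_[p]) (hx : x ≠ 0) :
    ∃ u : ℤ_[p], IsUnit u ∧ x = (p : ℚ_[p]) ^ x.valuation * u := by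
  have hp0 : (0 : ℝ) < p := by exact_mod_cast hp.out.pos
  have h1 : ‖x * (p : ℚ_[p]) ^ (-x.valuation)‖ = 1 := by
    rw [norm_mul, Padic.norm_p_zpow, Padic.norm_eq_zpow_neg_valuation hx, neg_neg, ← zpow_add₀ hp0.ne']
    simp
  refine ⟨(PadicInt.mkUnits h1 : ℤ_[p]), Units.isUnit _, ?_⟩
  rw [PadicInt.mkUnits_eq, mul_left_comm, ← zpow_add₀ p_ne_zero_q]
  simp

lemma valuation_unit {u : ℤ_[p]} (hu : IsUnit u) : (u : ℚ_[p]).valuation = 0 := by
  have h1 := PadicInt.isUnit_iff.1 hu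
  have hu0 : (u : ℚ_[p]) ≠ 0 := by
    rw [PadicInt.coe_ne_zero]
    rintro rfl
    exact not_isUnit_zero hu
  have h2 := Padic.norm_eq_zpow_neg_valuation hu0
  rw [← PadicInt.norm_def, h1] at h2
  have hp1 : (1 : ℝ) < p := by exact_mod_cast hp.out.one_lt
  have h3 : (p : ℝ) ^ (0 : ℤ) = (p : ℝ) ^ (-(u : ℚ_[p]).valuation) := by simpa using h2
  have h4 := zpow_right_injective₀ (by linarith) hp1.ne' h3
  omega

lemma unit_ne_zero {u : ℤ_[p]} (hu : IsUnit u) : (u : ℚ_[p]) ≠ 0 := by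
  rw [PadicInt.coe_ne_zero]
  rintro rfl
  exact not_isUnit_zero hu

lemma valuation_unit_mul {u : ℤ_[p]} (hu : IsUnit u) (m : ℤ) :
    ((p : ℚ_[p]) ^ m * u).valuation = m := by
  rw [Padic.valuation_mul (zpow_ne_zero _ p_ne_zero_q) (unit_ne_zero hu), valuation_unit hu]
  simp

lemma mem_int_of_valuation {x : ℚ_[p]} (hx : 0 ≤ x.valuation) : ∃ x₀ : ℤ_[p], (x₀ : ℚ_[p]) = x := by
  by_cases h0 : x = 0
  · exact ⟨0, by rw [h0]; rfl⟩
  obtain ⟨u, hu, h⟩ := exists_unit_mul x h0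
  obtain ⟨m, hm⟩ := Int.eq_ofNat_of_zero_le hx
  refine ⟨(p : ℤ_[p]) ^ m * u, ?_⟩
  rw [h, hm]
  push_cast
  rw [zpow_natCast]

lemma fq_eval_coe (x₀ : ℤ_[p]) : (fq f p).eval (x₀ : ℚ_[p]) = (((fz f p).eval x₀ : ℤ_[p]) : ℚ_[p]) := by
  rw [← fz_map']
  exact eval_map_apply (algebraMap ℤ_[p] ℚ_[p]) x₀

lemma mkz_apply (q : ℤ_[p][X]) : mkz f p q = mkq f p (q.map (algebraMap ℤ_[p] ℚ_[p])) := rfl

lemma mkz_X_sub (x₀ : ℤ_[p]) : mkq f p (C (x₀ : ℚ_[p]) - X) = mkz f p (C x₀ - X) := by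
  rw [mkz_apply, Polynomial.map_sub, map_C, map_X]
  rfl

/-- The point is not integral. -/
lemma caseA (hf : f.Monic) {x : ℚ_[p]} (hx : x.valuation < 0) :
    ((fq f p).eval x).valuation = x.valuation * f.natDegree ∧
    ∃ u, UU f p u ∧ mkq f p (C x - X) = mkq f p (C ((p : ℚ_[p]) ^ x.valuation)) * u := by
  have hx0 : x ≠ 0 := by
    rintro rfl
    simp at hx
  obtain ⟨x₀, hx₀, hxx⟩ := exists_unit_mul x hx0
  set m : ℕ := (-x.valuation).toNat with hm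
  have hmv : x.valuation = -(m : ℤ) := by omega
  have hm1 : 1 ≤ m := by omega
  have hpr : rd p ((p : ℤ_[p]) ^ m) = 0 := by
    rw [map_pow, map_natCast, CharP.cast_eq_zero, zero_pow (by omega)]
  have hxx' : (p : ℚ_[p]) ^ m * x = x₀ := by
    rw [hxx, hmv, ← mul_assoc, ← zpow_natCast, ← zpow_add₀ p_ne_zero_q]
    simp
  constructor
  · -- the valuation of `f(x)`
    have h1 := scaleRoots_eval₂_mul (p := fz f p) (algebraMap ℤ_[p] ℚ_[p]) x ((p : ℤ_[p]) ^ m)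
    rw [eval₂_eq_eval_map, eval₂_eq_eval_map, fz_map', hf.natDegree_map] at h1
    have h2 : algebraMap ℤ_[p] ℚ_[p] ((p : ℤ_[p]) ^ m) = (p : ℚ_[p]) ^ m := by
      simp
    rw [h2, hxx'] at h1
    have h3 : (((fz f p).scaleRoots ((p : ℤ_[p]) ^ m)).map (algebraMap ℤ_[p] ℚ_[p])).eval
        (x₀ : ℚ_[p]) = ((((fz f p).scaleRoots ((p : ℤ_[p]) ^ m)).eval x₀ : ℤ_[p]) : ℚ_[p]) :=
      eval_map_apply (algebraMap ℤ_[p] ℚ_[p]) x₀
    rw [h3] at h1
    have h4 : IsUnit (((fz f p).scaleRoots ((p : ℤ_[p]) ^ m)).eval x₀) := by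
      rw [← rd_ne_zero_iff, ← eval_map_apply, map_scaleRoots, hpr, scaleRoots_zero, fz_map]
      · rw [eval_smul, eval_pow, eval_X, (hf.map (Int.castRingHom (ZMod p))).leadingCoeff, one_smul]
        exact pow_ne_zero _ (rd_ne_zero_iff.2 hx₀)
      · rw [(hf.map (Int.castRingHom ℤ_[p])).leadingCoeff, map_one]
        exact one_ne_zero
    have h5 : (fq f p).eval x = (p : ℚ_[p]) ^ (-(m : ℤ) * f.natDegree) *
        ((((fz f p).scaleRoots ((p : ℤ_[p]) ^ m)).eval x₀ : ℤ_[p]) : ℚ_[p]) := by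
      rw [h1, ← mul_assoc, ← pow_mul, ← zpow_natCast, ← zpow_add₀ p_ne_zero_q]
      have : (-(m : ℤ) * f.natDegree + ((m * f.natDegree : ℕ) : ℤ)) = 0 := by
        push_cast; ring
      rw [this, zpow_zero, one_mul]
    rw [h5, valuation_unit_mul h4, hmv]
  · refine ⟨mkz f p (C x₀ - C ((p : ℤ_[p]) ^ m) * X), ⟨_, ?_, rfl⟩, ?_⟩
    · rw [Polynomial.map_sub, Polynomial.map_mul, map_C, map_C, hpr, C_0, zero_mul, sub_zero]
      have : IsUnit (Polynomial.C (rd p x₀) : (ZMod p)[X]) :=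
        Polynomial.isUnit_C.2 (isUnit_iff_ne_zero.2 (rd_ne_zero_iff.2 hx₀))
      obtain ⟨w, hw⟩ := this.exists_left_inv
      exact ⟨w, 0, by rw [hw]; ring⟩
    · rw [mkz_apply, ← map_mul]
      congr 1
      rw [Polynomial.map_sub, Polynomial.map_mul, map_C, map_C, map_X, mul_sub, ← mul_assoc,
        ← C_mul, ← C_mul]
      have h6 : (p : ℚ_[p]) ^ x.valuation * algebraMap ℤ_[p] ℚ_[p] x₀ = x := hxx.symm
      have h7 : (p : ℚ_[p]) ^ x.valuation * algebraMap ℤ_[p] ℚ_[p] ((p : ℤ_[p]) ^ m) = 1 := by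
        rw [map_pow, map_natCast, hmv, ← zpow_natCast, ← zpow_add₀ p_ne_zero_q]
        simp
      rw [h6, h7, C_1, one_mul]

/-- The point is integral and does not reduce to a Weierstrass point. -/
lemma caseB (hf : f.Monic) {x₀ : ℤ_[p]} (hx : IsUnit ((fz f p).eval x₀)) :
    UU f p (mkq f p (C (x₀ : ℚ_[p]) - X)) := by
  rw [mkz_X_sub]
  refine ⟨_, ?_, rfl⟩
  have hm : (fp f p).Monic := hf.map _
  rw [Polynomial.map_sub, map_C, map_X]
  apply IsCoprime.symm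
  have h1 : IsUnit (resultant (fp f p) (X - C (rd p x₀))) := by
    have h2 := resultant_X_sub_C_right (fp f p) (fp f p).natDegree (rd p x₀) le_rfl
    rw [res_pad (fp f p) _ hm 1 (natDegree_X_sub_C_le _)] at h2
    rw [h2]
    apply IsUnit.mul
    · exact isUnit_one.neg.pow _
    · rw [isUnit_iff_ne_zero, ← fz_map, eval_map_apply]
      exact rd_ne_zero_iff.2 hx
  have h3 := (isUnit_resultant_iff_isCoprime hm).1 h1
  have h4 : C (rd p x₀) - X = -(X - C (rd p x₀)) := by ring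
  rw [h4]
  exact h3.neg_right

/-- The point is integral and reduces to a Weierstrass point. -/
lemma caseC (hsep : (fp f p).Separable) {x₀ : ℤ_[p]}
    (hx : ¬ IsUnit ((fz f p).eval x₀)) (hx0 : (fz f p).eval x₀ ≠ 0) :
    ∃ α : ℤ_[p], (fz f p).eval α = 0 ∧ rd p x₀ = rd p α ∧ ∀ (k : ℤ_[p][X]) (κ : ℤ_[p]), k.Monic →
      fz f p = (X - C α) * k → κ * k.eval α = 1 →
        ∃ (m : ℕ) (v : ℤ_[p]), 1 ≤ m ∧ IsUnit v ∧ x₀ - α = p ^ m * v ∧
          ((fq f p).eval (x₀ : ℚ_[p])).valuation = m ∧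
          ∃ u, UU f p u ∧ mkq f p (C (x₀ : ℚ_[p]) - X) = PP f k κ ((p : ℚ_[p]) ^ m) * u := by
  have h0 : (fp f p).eval (rd p x₀) = 0 := by
    rw [← fz_map, eval_map_apply]
    by_contra h
    exact hx (rd_ne_zero_iff.1 h)
  have ha : (rd p x₀).val ∈ R f p := by
    rw [mem_R, ZMod.natCast_zmod_val]
    exact ⟨ZMod.val_lt _, h0⟩
  obtain ⟨α, hα0, hα⟩ := exists_lift hsep ha
  rw [ZMod.natCast_zmod_val] at hα
  refine ⟨α, hα0, hα.symm, fun k κ hkm hk hκ => ?_⟩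
  have hne : x₀ - α ≠ 0 := by
    intro h
    rw [sub_eq_zero] at h
    exact hx0 (h ▸ hα0)
  have hneq : ((x₀ - α : ℤ_[p]) : ℚ_[p]) ≠ 0 := PadicInt.coe_ne_zero.2 hne
  obtain ⟨v, hv, hxv⟩ := exists_unit_mul _ hneq
  obtain ⟨m, hm⟩ := Int.eq_ofNat_of_zero_le (PadicInt.valuation_coe_nonneg (x := x₀ - α))
  rw [hm, zpow_natCast] at hxv
  have hxv' : x₀ - α = p ^ m * v := by
    apply PadicInt.ext
    rw [hxv]
    push_cast
    rfl
  have hm1 : 1 ≤ m := by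
    rcases Nat.eq_zero_or_pos m with h | h
    · exfalso
      rw [h, pow_zero, one_mul] at hxv'
      have h1 : rd p (x₀ - α) = 0 := by rw [map_sub, hα, sub_self]
      rw [hxv'] at h1
      exact rd_ne_zero_iff.2 hv h1
    · exact h
  have hkx : IsUnit (k.eval x₀) := factor_eval_unit hsep hk hα.symm
  refine ⟨m, v, hm1, hv, hxv', ?_, ?_⟩
  · rw [fq_eval_coe, hk, eval_mul, eval_sub, eval_X, eval_C, hxv', mul_assoc]
    push_cast
    have h2 : ((v : ℚ_[p]) * ((k.eval x₀ : ℤ_[p]) : ℚ_[p])) = ((v * k.eval x₀ : ℤ_[p]) : ℚ_[p]) := by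
      push_cast; rfl
    rw [h2, ← zpow_natCast, valuation_unit_mul (hv.mul hkx)]
  · refine ⟨_, ⟨_, PP_coprime hk hκ (C x₀ - X) hv ?_, rfl⟩, ?_⟩
    · -- coprime to `k`
      have hkm' : (k.map (rd p)).Monic := hkm.map _
      rw [Polynomial.map_sub, map_C, map_X]
      apply IsCoprime.symm
      have h1 : IsUnit (resultant (k.map (rd p)) (X - C (rd p x₀))) := by
        have h2 := resultant_X_sub_C_right (k.map (rd p)) (k.map (rd p)).natDegree (rd p x₀) le_rfl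
        rw [res_pad (k.map (rd p)) _ hkm' 1 (natDegree_X_sub_C_le _)] at h2
        rw [h2]
        apply IsUnit.mul
        · exact isUnit_one.neg.pow _
        · rw [isUnit_iff_ne_zero, eval_map_apply]
          exact rd_ne_zero_iff.2 hkx
      have h3 := (isUnit_resultant_iff_isCoprime hkm').1 h1
      have h4 : C (rd p x₀) - X = -(X - C (rd p x₀)) := by ring
      rw [h4]
      exact h3.neg_right
    · rw [mkz_X_sub, PP_decomp hk hκ (C x₀ - X) (q := (p : ℤ_[p]) ^ m) (v := v) (by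
        rw [eval_sub, eval_C, eval_X, hxv'])]
      push_cast
      rfl

end Stoll308.Gen
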