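import Pool.Agent.Work.MP_308fa9_nt.Gen.LocalAn

set_option autoImplicit false

/-!
Consequences of `LocalImage` at a good prime.
-/

namespace Stoll308.Gen

open Polynomial Finset NumberTheorySymbols

variable {p : ℕ} [hp : Fact p.Prime] {f : ℤ[X]}

/-- `δ` over `ℚ_p`. -/
noncomputable abbrev dq (δ : ℚ[X]) (p : ℕ) [Fact p.Prime] : ℚ_[p][X] :=
  δ.map (algebraMap ℚ ℚ_[p])

lemma valuation_t_dvd {t : ℤ} (ht : Squarefree t) (hpt : (p : ℤ) ∣ t) :
    (t : ℚ_[p]) ≠ 0 ∧ (t : ℚ_[p]).valuation = 1 := by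
  obtain ⟨s, hs⟩ := hpt
  have ht0 : t ≠ 0 := ht.ne_zero
  have hps : ¬ (p : ℤ) ∣ s := by
    intro h
    obtain ⟨r, hr⟩ := h
    have h1 := ht (p : ℤ) ⟨r, by rw [hs, hr]; ring⟩
    rw [Int.isUnit_iff] at h1
    have := hp.out.two_le
    omega
  have hsu : IsUnit (s : ℤ_[p]) := by
    rw [← rd_ne_zero_iff, rd_intCast, Ne, ZMod.intCast_zmod_eq_zero_iff_dvd]
    exact hps
  refine ⟨by exact_mod_cast ht0, ?_⟩
  have h2 : (t : ℚ_[p]) = (p : ℚ_[p]) ^ (1 : ℤ) * ((s : ℤ_[p]) : ℚ_[p]) := by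
    rw [hs]
    push_cast
    simp
  rw [h2, valuation_unit_mul hsu]

lemma valuation_t_not_dvd {t : ℤ} (hpt : ¬ (p : ℤ) ∣ t) :
    (t : ℚ_[p]) ≠ 0 ∧ (t : ℚ_[p]).valuation = 0 := by
  have hsu : IsUnit (t : ℤ_[p]) := by
    rw [← rd_ne_zero_iff, rd_intCast, Ne, ZMod.intCast_zmod_eq_zero_iff_dvd]
    exact hpt
  have h2 : (t : ℚ_[p]) = ((t : ℤ_[p]) : ℚ_[p]) := by push_cast; rfl
  rw [h2]
  exact ⟨unit_ne_zero hsu, valuation_unit hsu⟩

lemma deriv_eval {α : ℤ_[p]} {k : ℤ_[p][X]} (hk : fz f p = (X - C α) * k) :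
    (derivative (fz f p)).eval α = k.eval α := by
  rw [hk, derivative_mul]
  simp

/-- Congruent units have a square product. -/
lemma isSquare_mul_of_rd_eq (hp2 : p ≠ 2) {u v : ℤ_[p]} (hu : IsUnit u) (h : rd p u = rd p v) :
    IsSquare ((u : ℚ_[p]) * v) := by
  have hv : IsUnit v := by
    rw [← rd_ne_zero_iff, ← h]
    exact rd_ne_zero_iff.2 hu
  have h1 := (isSquare_coe_iff hp2 (hu.mul hv)).2 ⟨rd p u, by rw [map_mul, h]⟩
  rw [PadicInt.coe_mul] at h1
  exact h1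

lemma mkq_C_mul (a b : ℚ_[p]) : mkq f p (C (a * b)) = mkq f p (C a) * mkq f p (C b) := by
  rw [C_mul, map_mul]

/-- Dividing by a unit constant. -/
lemma exists_const {c : ℚ_[p]} (hc : c ≠ 0) : ∃ d : ℤ_[p], IsUnit d ∧
    (p : ℚ_[p]) ^ c.valuation = d * c := by
  obtain ⟨u, hu, h⟩ := exists_unit_mul c hc
  obtain ⟨d, hd⟩ := hu.exists_left_inv
  refine ⟨d, IsUnit.of_mul_eq_one u hd, ?_⟩
  have h1 : (d : ℚ_[p]) * u = 1 := by
    rw [← PadicInt.coe_mul, hd]; rfl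
  calc (p : ℚ_[p]) ^ c.valuation = (p : ℚ_[p]) ^ c.valuation * (d * u) := by rw [h1, mul_one]
    _ = d * ((p : ℚ_[p]) ^ c.valuation * u) := by ring
    _ = d * c := by rw [← h]

lemma localImage_eq {δ : ℚ[X]} {x c : ℚ_[p]} {s : ℚ_[p][X]}
    (h : f.map (Int.castRingHom ℚ_[p]) ∣ (C x - X) - C c * δ.map (algebraMap ℚ ℚ_[p]) * s ^ 2) :
    mkq f p (C x - X) = mkq f p (C c) * mkq f p (dq δ p) * mkq f p s ^ 2 := by
  rw [← map_pow, ← map_mul, ← map_mul]
  exact AdjoinRoot.mk_eq_mk.2 h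

/-- The key computation: if `x - θ = P u` then `p^e δ w² = P' u'`. -/
lemma transfer {δ : ℚ[X]} {x c : ℚ_[p]} {s : ℚ_[p][X]} (hc : c ≠ 0)
    (h : mkq f p (C x - X) = mkq f p (C c) * mkq f p (dq δ p) * mkq f p s ^ 2)
    {P Q u : AdjoinRoot (fq f p)} {j : ℤ} (v : AdjoinRoot (fq f p)) (hu : UU f p u)
    (hP : mkq f p (C x - X) = mkq f p (C ((p : ℚ_[p]) ^ j)) * P * u) (hQ : P * v ^ 2 = Q) :
    ∃ (e : ℤ) (w : AdjoinRoot (fq f p)), ∃ u', UU f p u' ∧
      mkq f p (C ((p : ℚ_[p]) ^ e)) * mkq f p (dq δ p) * w ^ 2 = Q * u' := by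
  obtain ⟨d, hd, hdc⟩ := exists_const hc
  refine ⟨c.valuation - j, mkq f p s * v, mkz f p (C d) * u, (UU.C hd).mul hu, ?_⟩
  have h1 : mkq f p (C ((p : ℚ_[p]) ^ (c.valuation - j))) =
      mkq f p (C ((p : ℚ_[p]) ^ (-j))) * mkz f p (C d) * mkq f p (C c) := by
    rw [mkz_apply, map_C, ← map_mul, ← map_mul, ← C_mul, ← C_mul]
    congr 2
    rw [sub_eq_add_neg, zpow_add₀ p_ne_zero_q, hdc]
    change _ = _ * (d : ℚ_[p]) * c
    ring
  have h2 : mkq f p (C ((p : ℚ_[p]) ^ (-j))) * mkq f p (C ((p : ℚ_[p]) ^ j)) = 1 := by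
    rw [← map_mul, ← C_mul, ← zpow_add₀ p_ne_zero_q]
    simp
  rw [h1, ← hQ]
  rw [hP] at h
  linear_combination (-(mkq f p (C ((p : ℚ_[p]) ^ (-j)))) * mkz f p (C d) * v ^ 2) * h +
    (mkz f p (C d) * v ^ 2 * P * u) * h2

/-- At a good prime not dividing `t`. -/
theorem local_not_dvd (hf : f.Monic)
    (hsep : (fp f p).Separable) {t : ℤ} (hpt : ¬ (p : ℤ) ∣ t) {δ : ℚ[X]}
    (h : LocalImage f t δ ℚ_[p]) :
    ∃ (e : ℤ) (w : AdjoinRoot (fq f p)),
      UU f p (mkq f p (C ((p : ℚ_[p]) ^ e)) * mkq f p (dq δ p) * w ^ 2) := by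
  obtain ⟨x, y, c, s, hy, hc, hxy, hdvd⟩ := h
  have heq := localImage_eq hdvd
  obtain ⟨ht0, htv⟩ := valuation_t_not_dvd (p := p) hpt
  have hval : (t : ℚ_[p]).valuation + 2 * y.valuation = ((fq f p).eval x).valuation := by
    rw [← hxy, Padic.valuation_mul ht0 (pow_ne_zero 2 hy), Padic.valuation_pow]
    push_cast; ring
  have hfx : (fq f p).eval x ≠ 0 := by
    rw [← hxy]
    exact mul_ne_zero ht0 (pow_ne_zero 2 hy)
  suffices hs : ∃ (e : ℤ) (w : AdjoinRoot (fq f p)), ∃ u', UU f p u' ∧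
      mkq f p (C ((p : ℚ_[p]) ^ e)) * mkq f p (dq δ p) * w ^ 2 = 1 * u' by
    obtain ⟨e, w, u', hu', h'⟩ := hs
    exact ⟨e, w, by rw [h', one_mul]; exact hu'⟩
  by_cases hx : x.valuation < 0
  · obtain ⟨-, u, hu, hu'⟩ := caseA (p := p) hf hx
    refine transfer hc heq (P := 1) (Q := 1) 1 hu (j := x.valuation) ?_ (by ring)
    rw [hu', mul_one]
  · obtain ⟨x₀, rfl⟩ := mem_int_of_valuation (not_lt.1 hx)
    by_cases hux : IsUnit ((fz f p).eval x₀)
    · refine transfer hc heq (P := 1) (Q := 1) 1 (caseB hf hux) (j := 0) ?_ (by ring)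
      rw [zpow_zero, C_1, map_one, one_mul, one_mul]
    · obtain ⟨α, hα, hxα, hk⟩ := caseC hsep hux (by
        intro h0
        apply hfx
        rw [fq_eval_coe, h0]; rfl)
      obtain ⟨k, hkm, hfk⟩ := exists_factor hf hα
      obtain ⟨κ, hκ⟩ := (factor_eval_unit hsep hfk (x := α) rfl).exists_left_inv
      obtain ⟨m, v, hm1, hv, hxv, hval', u, hu, hu'⟩ := hk k κ hkm hfk hκ
      rw [hval', htv] at hval
      obtain ⟨l, hl⟩ : ∃ l : ℕ, m = 2 * l := by
        have : Even m := by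
          rw [← Int.even_coe_nat]
          exact ⟨y.valuation, by omega⟩
        obtain ⟨l, hl⟩ := this
        exact ⟨l, by omega⟩
      refine transfer hc heq (P := PP f k κ ((p : ℚ_[p]) ^ m)) (Q := 1)
        (PP f k κ ((p : ℚ_[p]) ^ (-(l : ℤ)))) hu (j := 0) ?_ ?_
      · rw [hu', zpow_zero, C_1, map_one, one_mul]
      · rw [sq, PP_mul hfk hκ, PP_mul hfk hκ, ← zpow_natCast, ← zpow_add₀ p_ne_zero_q,
          ← zpow_add₀ p_ne_zero_q, hl]
        push_cast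
        rw [show (2 * (l : ℤ) + (-l + -l)) = 0 by ring, zpow_zero, PP_one]

/-- At a good prime dividing `t`. -/
theorem local_dvd (hf : f.Monic) (hev : Even f.natDegree) (hp2 : p ≠ 2)
    (hsep : (fp f p).Separable) {t : ℤ} (ht : Squarefree t) (hpt : (p : ℤ) ∣ t) {δ : ℚ[X]}
    (h : LocalImage f t δ ℚ_[p]) :
    ∃ α : ℤ_[p], (fz f p).eval α = 0 ∧
      (∀ β : ℤ_[p], (fz f p).eval β = 0 → β ≠ α →
        (dq δ p).eval (α : ℚ_[p]) ≠ 0 ∧ (dq δ p).eval (β : ℚ_[p]) ≠ 0 ∧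
        IsSquare ((dq δ p).eval (β : ℚ_[p]) * (dq δ p).eval (α : ℚ_[p]) * t *
          ((((derivative (fz f p)).eval α * (α - β) : ℤ_[p]) : ℚ_[p])))) ∧
      ∀ (k : ℤ_[p][X]) (κ : ℤ_[p]), k.Monic → fz f p = (X - C α) * k → κ * k.eval α = 1 →
        ∃ (e : ℤ) (w : AdjoinRoot (fq f p)), ∃ u, UU f p u ∧
          mkq f p (C ((p : ℚ_[p]) ^ e)) * mkq f p (dq δ p) * w ^ 2 = PP f k κ (p : ℚ_[p]) * u := by
  obtain ⟨x, y, c, s, hy, hc, hxy, hdvd⟩ := h
  have heq := localImage_eq hdvd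
  obtain ⟨ht0, htv⟩ := valuation_t_dvd (p := p) ht hpt
  have hval : (t : ℚ_[p]).valuation + 2 * y.valuation = ((fq f p).eval x).valuation := by
    rw [← hxy, Padic.valuation_mul ht0 (pow_ne_zero 2 hy), Padic.valuation_pow]
    push_cast; ring
  have hfx : (fq f p).eval x ≠ 0 := by
    rw [← hxy]
    exact mul_ne_zero ht0 (pow_ne_zero 2 hy)
  rw [htv] at hval
  by_cases hx : x.valuation < 0
  · exfalso
    obtain ⟨hA, -⟩ := caseA (p := p) hf hx
    rw [hA] at hval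
    obtain ⟨l, hl⟩ := hev
    rw [hl] at hval
    push_cast at hval
    have : (1 : ℤ) = 2 * (x.valuation * l - y.valuation) := by linarith
    omega
  · obtain ⟨x₀, rfl⟩ := mem_int_of_valuation (not_lt.1 hx)
    by_cases hux : IsUnit ((fz f p).eval x₀)
    · exfalso
      rw [fq_eval_coe, valuation_unit hux] at hval
      omega
    · obtain ⟨α, hα, hxα, hk⟩ := caseC hsep hux (by
        intro h0
        apply hfx
        rw [fq_eval_coe, h0]; rfl)
      refine ⟨α, hα, ?_, ?_⟩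
      · -- the relation
        intro β hβ hβα
        obtain ⟨k, hkm, hfk⟩ := exists_factor hf hα
        obtain ⟨κ, hκ⟩ := (factor_eval_unit hsep hfk (x := α) rfl).exists_left_inv
        obtain ⟨m, v, hm1, hv, hxv, -, -⟩ := hk k κ hkm hfk hκ
        have hevα : (x₀ : ℚ_[p]) - α = c * (dq δ p).eval (α : ℚ_[p]) * s.eval (α : ℚ_[p]) ^ 2 := by
          obtain ⟨q, hq⟩ := hdvd
          have h1 := congrArg (eval (α : ℚ_[p])) hq
          have h2 : (fq f p).eval (α : ℚ_[p]) = 0 := by rw [fq_eval_coe, hα]; rfl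
          simp only [eval_sub, eval_mul, eval_C, eval_X, eval_pow] at h1
          have h3 : (Polynomial.map (Int.castRingHom ℚ_[p]) f).eval (α : ℚ_[p]) = 0 := h2
          rw [h3, zero_mul, sub_eq_zero] at h1
          exact h1
        have hevβ : (x₀ : ℚ_[p]) - β = c * (dq δ p).eval (β : ℚ_[p]) * s.eval (β : ℚ_[p]) ^ 2 := by
          obtain ⟨q, hq⟩ := hdvd
          have h1 := congrArg (eval (β : ℚ_[p])) hq
          have h2 : (fq f p).eval (β : ℚ_[p]) = 0 := by rw [fq_eval_coe, hβ]; rfl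
          simp only [eval_sub, eval_mul, eval_C, eval_X, eval_pow] at h1
          have h3 : (Polynomial.map (Int.castRingHom ℚ_[p]) f).eval (β : ℚ_[p]) = 0 := h2
          rw [h3, zero_mul, sub_eq_zero] at h1
          exact h1
        have hrd : rd p β ≠ rd p α := fun h => hβα (lift_unique hf hsep hβ hα h)
        have hu1 : IsUnit (α - β) := by
          rw [← rd_ne_zero_iff, map_sub, sub_ne_zero]
          exact hrd.symm
        have hu2 : IsUnit (x₀ - β) := by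
          rw [← rd_ne_zero_iff, map_sub, sub_ne_zero, hxα]
          exact hrd.symm
        have hxα0 : (x₀ : ℚ_[p]) - α ≠ 0 := by
          rw [← PadicInt.coe_sub, PadicInt.coe_ne_zero, hxv]
          refine mul_ne_zero (pow_ne_zero _ ?_) ?_
          · exact_mod_cast hp.out.ne_zero
          · rintro rfl
            exact not_isUnit_zero hv
        have hxβ0 : (x₀ : ℚ_[p]) - β ≠ 0 := by
          rw [← PadicInt.coe_sub]
          exact unit_ne_zero hu2
        rw [hevα] at hxα0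
        rw [hevβ] at hxβ0
        have hdα : (dq δ p).eval (α : ℚ_[p]) ≠ 0 := right_ne_zero_of_mul (left_ne_zero_of_mul hxα0)
        have hdβ : (dq δ p).eval (β : ℚ_[p]) ≠ 0 := right_ne_zero_of_mul (left_ne_zero_of_mul hxβ0)
        have hsα : s.eval (α : ℚ_[p]) ≠ 0 := by
          have := right_ne_zero_of_mul hxα0
          exact fun h => this (by rw [h]; ring)
        have hsβ : s.eval (β : ℚ_[p]) ≠ 0 := by
          have := right_ne_zero_of_mul hxβ0
          exact fun h => this (by rw [h]; ring)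
        refine ⟨hdα, hdβ, ?_⟩
        -- the two squares
        have hkx := factor_eval_unit hsep hfk (x := x₀) hxα
        have hs1 : IsSquare (((k.eval x₀ : ℤ_[p]) : ℚ_[p]) * ((k.eval α : ℤ_[p]) : ℚ_[p])) := by
          apply isSquare_mul_of_rd_eq hp2 hkx
          rw [← eval_map_apply, ← eval_map_apply, hxα]
        have hs2 : IsSquare (((x₀ - β : ℤ_[p]) : ℚ_[p]) * ((α - β : ℤ_[p]) : ℚ_[p])) := by
          apply isSquare_mul_of_rd_eq hp2 hu2
          rw [map_sub, map_sub, hxα]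
        obtain ⟨r1, hr1⟩ := hs1
        obtain ⟨r2, hr2⟩ := hs2
        have hty : (t : ℚ_[p]) * y ^ 2 = ((x₀ : ℚ_[p]) - α) * ((k.eval x₀ : ℤ_[p]) : ℚ_[p]) := by
          have h1 : (t : ℚ_[p]) * y ^ 2 = (fq f p).eval (x₀ : ℚ_[p]) := hxy
          rw [h1, fq_eval_coe, hfk, eval_mul, eval_sub, eval_X, eval_C]
          push_cast
          rfl
        rw [deriv_eval hfk]
        refine ⟨((x₀ : ℚ_[p]) - α) * r1 * r2 / (y * c * s.eval (α : ℚ_[p]) * s.eval (β : ℚ_[p])), ?_⟩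
        push_cast at hr2 ⊢
        rw [div_mul_div_comm, eq_div_iff (by
          apply mul_ne_zero <;>
          exact mul_ne_zero (mul_ne_zero (mul_ne_zero hy hc) hsα) hsβ)]
        set A := (dq δ p).eval (α : ℚ_[p])
        set B := (dq δ p).eval (β : ℚ_[p])
        set sα := s.eval (α : ℚ_[p])
        set sβ := s.eval (β : ℚ_[p])
        set kx : ℚ_[p] := ((k.eval x₀ : ℤ_[p]) : ℚ_[p])
        set kα : ℚ_[p] := ((k.eval α : ℤ_[p]) : ℚ_[p])
        calc B * A * t * (kα * (α - β)) * (y * c * sα * sβ * (y * c * sα * sβ))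
            = (c * A * sα ^ 2) * (c * B * sβ ^ 2) * (t * y ^ 2) * kα * (α - β) := by ring
          _ = (x₀ - α) * (x₀ - β) * ((x₀ - α) * kx) * kα * (α - β) := by
              rw [← hevα, ← hevβ, hty]
          _ = (x₀ - α) ^ 2 * (kx * kα) * ((x₀ - β) * (α - β)) := by ring
          _ = (x₀ - α) * r1 * r2 * ((x₀ - α) * r1 * r2) := by
              rw [hr1, hr2]; ring
      · intro k κ hkm hfk hκ
        obtain ⟨m, v, hm1, hv, hxv, hval', u, hu, hu'⟩ := hk k κ hkm hfk hκ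
        rw [hval'] at hval
        obtain ⟨l, hl⟩ : ∃ l : ℕ, m = 2 * l + 1 := by
          have : Odd (m : ℤ) := ⟨y.valuation, by omega⟩
          rw [Int.odd_coe_nat] at this
          exact this
        refine transfer hc heq (P := PP f k κ ((p : ℚ_[p]) ^ m)) (Q := PP f k κ (p : ℚ_[p]))
          (PP f k κ ((p : ℚ_[p]) ^ (-(l : ℤ)))) hu (j := 0) ?_ ?_
        · rw [hu', zpow_zero, C_1, map_one, one_mul]
        · rw [sq, PP_mul hfk hκ, PP_mul hfk hκ, ← zpow_natCast, ← zpow_add₀ p_ne_zero_q,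
            ← zpow_add₀ p_ne_zero_q, hl]
          push_cast
          rw [show (2 * (l : ℤ) + 1 + (-l + -l)) = 1 by ring, zpow_one]

end Stoll308.Gen
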