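import Pool.Agent.Work.MP_308fa9_nt.Gen.LowDefs

set_option autoImplicit false

/-!
Degree one primes of a number field in short multiplicative intervals: the average of the
logarithm of the norm over a box.
-/

namespace Stoll308.Low

open Finset NumberField Module

variable (K : Type*) [Field K] [NumberField K]

/-- the image of an integral vector under an embedding -/
noncomputable def em (σ : K →ₐ[ℚ] ℂ) (a : ι K → ℤ) : ℂ := σ (al K a : K)

lemma em_eq (σ : K →ₐ[ℚ] ℂ) (a : ι K → ℤ) :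
    em K σ a = ∑ i, (a i : ℂ) * σ (RingOfIntegers.basis K i : K) := by
  unfold em al
  rw [RingOfIntegers.coe_eq_algebraMap, map_sum (algebraMap (𝓞 K) K), map_sum]
  refine sum_congr rfl fun i _ => ?_
  rw [zsmul_eq_mul, map_mul, map_mul, map_intCast, map_intCast]

lemma card_emb : Fintype.card (K →ₐ[ℚ] ℂ) = dg K := by
  rw [AlgHom.card]
  exact Module.finrank_eq_card_basis (integralBasis K)

lemma nonempty_emb : Nonempty (K →ₐ[ℚ] ℂ) := ⟨IsAlgClosed.lift⟩

lemma na_eq (a : ι K → ℤ) : (Na K a : ℝ) = ∏ σ : K →ₐ[ℚ] ℂ, ‖em K σ a‖ := by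
  unfold Na em
  rw [Ideal.absNorm_span_singleton, Nat.cast_natAbs, ← norm_prod,
    ← Algebra.norm_eq_prod_embeddings ℚ ℂ (al K a : K), ← Algebra.coe_norm_int (al K a),
    eq_ratCast, Rat.cast_intCast, Int.cast_abs, Complex.norm_intCast]

lemma dg_pos : 0 < dg K := by
  rw [← card_emb]
  have := nonempty_emb K
  exact Fintype.card_pos

lemma exists_idx : Nonempty (ι K) := Fintype.card_pos_iff.1 (dg_pos K)

lemma basis_ne (σ : K →ₐ[ℚ] ℂ) (i : ι K) : σ (RingOfIntegers.basis K i : K) ≠ 0 := by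
  intro h
  have h1 := (map_eq_zero σ).1 h
  have h2 : RingOfIntegers.basis K i = 0 := by
    exact_mod_cast h1
  exact (RingOfIntegers.basis K).ne_zero i h2

lemma mem_box {B : ℕ} {a : ι K → ℤ} : a ∈ box K B ↔ ∀ i, |a i| ≤ B := by
  unfold box
  rw [Fintype.mem_piFinset]
  simp only [mem_Icc, abs_le]

lemma card_box (B : ℕ) : (box K B).card = (2 * B + 1) ^ dg K := by
  unfold box
  rw [Fintype.card_piFinset, prod_const, Int.card_Icc, card_univ]
  congr 1
  omega

/-- **L1** -/
theorem Na_le : ∃ C : ℕ, 1 ≤ C ∧ ∀ B : ℕ, ∀ a ∈ box K B, Na K a ≤ C * B ^ dg K := by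
  set M : ℝ := ∑ σ : K →ₐ[ℚ] ℂ, ∑ i, ‖σ (RingOfIntegers.basis K i : K)‖ with hM
  have hM0 : 0 ≤ M := sum_nonneg fun σ _ => sum_nonneg fun i _ => norm_nonneg _
  refine ⟨⌈M ^ dg K⌉₊ + 1, by omega, fun B a ha => ?_⟩
  rw [mem_box] at ha
  have h1 : ∀ σ : K →ₐ[ℚ] ℂ, ‖em K σ a‖ ≤ M * B := by
    intro σ
    rw [em_eq]
    refine (norm_sum_le _ _).trans ?_
    calc ∑ i, ‖(a i : ℂ) * σ (RingOfIntegers.basis K i : K)‖
        ≤ ∑ i, (B : ℝ) * ‖σ (RingOfIntegers.basis K i : K)‖ := by
          refine sum_le_sum fun i _ => ?_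
          rw [norm_mul]
          apply mul_le_mul_of_nonneg_right _ (norm_nonneg _)
          rw [Complex.norm_intCast]
          have := ha i
          have h2 : ((|a i| : ℤ) : ℝ) ≤ ((B : ℤ) : ℝ) := Int.cast_le.2 this
          rwa [Int.cast_abs, Int.cast_natCast] at h2
      _ = (∑ i, ‖σ (RingOfIntegers.basis K i : K)‖) * B := by rw [← mul_sum, mul_comm]
      _ ≤ M * B := by
          apply mul_le_mul_of_nonneg_right _ (Nat.cast_nonneg B)
          exact single_le_sum (f := fun σ : K →ₐ[ℚ] ℂ => ∑ i, ‖σ (RingOfIntegers.basis K i : K)‖)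
            (fun σ _ => sum_nonneg fun i _ => norm_nonneg _) (mem_univ σ)
  have h2 : (Na K a : ℝ) ≤ (M * B) ^ dg K := by
    rw [na_eq]
    calc ∏ σ : K →ₐ[ℚ] ℂ, ‖em K σ a‖ ≤ ∏ _σ : K →ₐ[ℚ] ℂ, (M * B) :=
          prod_le_prod (fun σ _ => norm_nonneg _) fun σ _ => h1 σ
      _ = _ := by rw [prod_const, card_univ, card_emb]
  have h3 : (Na K a : ℝ) ≤ ((⌈M ^ dg K⌉₊ + 1 : ℕ) : ℝ) * (B : ℝ) ^ dg K := by
    refine h2.trans ?_
    rw [mul_pow]
    apply mul_le_mul_of_nonneg_right _ (by positivity)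
    push_cast
    linarith [Nat.le_ceil (M ^ dg K)]
  exact_mod_cast h3

lemma Na_pos {a : ι K → ℤ} (ha : a ≠ 0) : 1 ≤ Na K a := by
  unfold Na
  rw [Nat.one_le_iff_ne_zero, Ideal.absNorm_ne_zero_iff_mem_nonZeroDivisors,
    mem_nonZeroDivisors_iff_ne_zero, Ne, Ideal.zero_eq_bot, Ideal.span_singleton_eq_bot]
  intro h
  apply ha
  unfold al at h
  have := Fintype.linearIndependent_iff.1 (RingOfIntegers.basis K).linearIndependent a h
  exact funext this

section count

variable {K}

/-- the values of one coordinate -/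
lemma card_line {i₀ : ι K} (σ : K →ₐ[ℚ] ℂ) (c : ι K → ℤ) {ρ : ℝ} (S : Finset (ι K → ℤ))
    (hS : ∀ a ∈ S, ‖em K σ a‖ ≤ ρ * ‖σ (RingOfIntegers.basis K i₀ : K)‖ ∧
      Function.update a i₀ 0 = c) : S.card ≤ ⌊2 * ρ⌋₊ + 1 := by
  classical
  rcases S.eq_empty_or_nonempty with rfl | hne
  · simp
  · obtain ⟨m, hm, hmin⟩ := S.exists_min_image (fun a => a i₀) hne
    have hw : 0 < ‖σ (RingOfIntegers.basis K i₀ : K)‖ := norm_pos_iff.2 (basis_ne K σ i₀)
    have hoff : ∀ a ∈ S, ∀ i, i ≠ i₀ → a i = c i := by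
      intro a ha i hi
      rw [← (hS a ha).2, Function.update_of_ne hi]
    have hdiff : ∀ a ∈ S, em K σ a - em K σ m =
        ((a i₀ - m i₀ : ℤ) : ℂ) * σ (RingOfIntegers.basis K i₀ : K) := by
      intro a ha
      rw [em_eq, em_eq, ← sum_sub_distrib, sum_eq_single i₀]
      · push_cast
        ring
      · intro i _ hi
        rw [hoff a ha i hi, hoff m hm i hi, sub_self]
      · intro h
        exact absurd (mem_univ _) h
    have hle : ∀ a ∈ S, (a i₀ - m i₀).toNat ≤ ⌊2 * ρ⌋₊ := by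
      intro a ha
      apply Nat.le_floor
      have h1 : ‖em K σ a - em K σ m‖ ≤ 2 * ρ * ‖σ (RingOfIntegers.basis K i₀ : K)‖ := by
        refine (norm_sub_le _ _).trans ?_
        linarith [(hS a ha).1, (hS m hm).1]
      rw [hdiff a ha, norm_mul] at h1
      have h2 := le_of_mul_le_mul_right h1 hw
      rw [Complex.norm_intCast] at h2
      have h3 : 0 ≤ a i₀ - m i₀ := sub_nonneg.2 (hmin a ha)
      have h4 : (((a i₀ - m i₀).toNat : ℕ) : ℝ) = |((a i₀ - m i₀ : ℤ) : ℝ)| := by
        rw [abs_of_nonneg (by exact_mod_cast h3)]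
        have h5 : (((a i₀ - m i₀).toNat : ℕ) : ℤ) = a i₀ - m i₀ := Int.toNat_of_nonneg h3
        rw [← Int.cast_natCast, h5]
      rw [h4]
      exact h2
    have hcard : S.card ≤ (range (⌊2 * ρ⌋₊ + 1)).card := by
      apply card_le_card_of_injOn (fun a => (a i₀ - m i₀).toNat)
      · intro a ha
        rw [mem_coe, mem_range]
        exact Nat.lt_succ_of_le (hle a ha)
      · intro a ha b hb hab
        rw [mem_coe] at ha hb
        simp only at hab
        have h1 : 0 ≤ a i₀ - m i₀ := sub_nonneg.2 (hmin a ha)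
        have h2 : 0 ≤ b i₀ - m i₀ := sub_nonneg.2 (hmin b hb)
        have h3 : a i₀ = b i₀ := by omega
        funext i
        by_cases hi : i = i₀
        · rw [hi, h3]
        · rw [hoff a ha i hi, hoff b hb i hi]
    rwa [card_range] at hcard

lemma card_em_le (σ : K →ₐ[ℚ] ℂ) (i₀ : ι K) (B : ℕ) {r : ℝ} (hr : 0 ≤ r) :
    (((box K B).filter fun a => ‖em K σ a‖ ≤ r).card : ℝ) ≤
      (2 * r / ‖σ (RingOfIntegers.basis K i₀ : K)‖ + 1) * (2 * B + 1) ^ (dg K - 1) := by
  classical
  have hw : 0 < ‖σ (RingOfIntegers.basis K i₀ : K)‖ := norm_pos_iff.2 (basis_ne K σ i₀)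
  set ρ : ℝ := r / ‖σ (RingOfIntegers.basis K i₀ : K)‖ with hρ
  have hρ0 : 0 ≤ ρ := by positivity
  set S := (box K B).filter fun a => ‖em K σ a‖ ≤ r with hSdef
  have h1 : S.card ≤ (⌊2 * ρ⌋₊ + 1) * (S.image fun a => Function.update a i₀ 0).card := by
    apply card_le_mul_card_image
    intro c _
    apply card_line (i₀ := i₀) σ c
    intro a ha
    rw [mem_filter, hSdef, mem_filter] at ha
    refine ⟨?_, ha.2⟩
    rw [hρ, div_mul_cancel₀ _ hw.ne']
    exact ha.1.2
  have h2 : (S.image fun a => Function.update a i₀ 0).card ≤ (2 * B + 1) ^ (dg K - 1) := by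
    have hsub : (S.image fun a => Function.update a i₀ 0) ⊆
        Fintype.piFinset (Function.update (fun _ => Icc (-(B : ℤ)) B) i₀ {0}) := by
      intro x hx
      rw [mem_image] at hx
      obtain ⟨a, ha, rfl⟩ := hx
      rw [hSdef, mem_filter] at ha
      rw [Fintype.mem_piFinset]
      intro i
      by_cases hi : i = i₀
      · subst hi
        simp
      · rw [Function.update_of_ne hi, Function.update_of_ne hi]
        exact (Fintype.mem_piFinset.1 ha.1) i
    refine (card_le_card hsub).trans ?_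
    rw [Fintype.card_piFinset]
    have h3 : ∀ i, (Function.update (fun _ => Icc (-(B : ℤ)) B) i₀ {0} i).card =
        Function.update (fun _ => 2 * B + 1) i₀ 1 i := by
      intro i
      by_cases hi : i = i₀
      · subst hi
        simp
      · rw [Function.update_of_ne hi, Function.update_of_ne hi, Int.card_Icc]
        omega
    rw [prod_congr rfl fun i _ => h3 i, prod_update_of_mem (mem_univ _), one_mul, prod_const,
      card_sdiff, card_univ]
    simp
  have h3 : (S.card : ℝ) ≤ ((⌊2 * ρ⌋₊ : ℕ) + 1) * (2 * B + 1) ^ (dg K - 1) := by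
    have := h1.trans (Nat.mul_le_mul_left _ h2)
    exact_mod_cast this
  refine h3.trans ?_
  apply mul_le_mul_of_nonneg_right _ (by positivity)
  have := Nat.floor_le (show (0 : ℝ) ≤ 2 * ρ by positivity)
  rw [mul_div_assoc, ← hρ]
  linarith

end count

/-- the number of vectors of small norm -/
lemma card_small : ∃ C : ℝ, 0 < C ∧ ∀ (B : ℕ) (r : ℝ), 0 ≤ r →
    (((box K B).filter fun a => (Na K a : ℝ) ≤ r ^ dg K).card : ℝ) ≤
      (C * r + C) * (2 * B + 1) ^ (dg K - 1) := by
  classical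
  obtain ⟨i₀⟩ := exists_idx K
  set C₁ : ℝ := ∑ σ : K →ₐ[ℚ] ℂ, (2 / ‖σ (RingOfIntegers.basis K i₀ : K)‖ + 1) with hC₁
  have hpos : ∀ σ : K →ₐ[ℚ] ℂ, 0 < ‖σ (RingOfIntegers.basis K i₀ : K)‖ := fun σ =>
    norm_pos_iff.2 (basis_ne K σ i₀)
  have hC0 : 0 < C₁ := by
    apply sum_pos
    · intro σ _
      have := hpos σ
      positivity
    · have := nonempty_emb K
      exact univ_nonempty
  refine ⟨C₁, hC0, fun B r hr => ?_⟩
  have hsub : ((box K B).filter fun a => (Na K a : ℝ) ≤ r ^ dg K) ⊆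
      (univ : Finset (K →ₐ[ℚ] ℂ)).biUnion fun σ => (box K B).filter fun a => ‖em K σ a‖ ≤ r := by
    intro a ha
    rw [mem_filter] at ha
    rw [mem_biUnion]
    by_contra hcon
    push Not at hcon
    have h1 : ∀ σ : K →ₐ[ℚ] ℂ, r < ‖em K σ a‖ := by
      intro σ
      by_contra h
      exact hcon σ (mem_univ _) (mem_filter.2 ⟨ha.1, not_lt.1 h⟩)
    have h2 : r ^ dg K < (Na K a : ℝ) := by
      rw [na_eq, ← card_emb, ← card_univ, ← prod_const]
      rcases hr.eq_or_lt with h0 | h0
      · rw [← h0]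
        rw [prod_const, card_univ, card_emb, zero_pow (dg_pos K).ne']
        exact prod_pos fun σ _ => by rw [h0]; exact h1 σ
      · apply prod_lt_prod (fun _ _ => h0) (fun σ _ => (h1 σ).le)
        have := nonempty_emb K
        obtain ⟨σ⟩ := this
        exact ⟨σ, mem_univ _, h1 σ⟩
    exact absurd ha.2 (not_le.2 h2)
  calc (((box K B).filter fun a => (Na K a : ℝ) ≤ r ^ dg K).card : ℝ)
      ≤ ∑ σ : K →ₐ[ℚ] ℂ, (((box K B).filter fun a => ‖em K σ a‖ ≤ r).card : ℝ) := by
        have := (card_le_card hsub).trans card_biUnion_le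
        exact_mod_cast this
    _ ≤ ∑ σ : K →ₐ[ℚ] ℂ, (2 * r / ‖σ (RingOfIntegers.basis K i₀ : K)‖ + 1) *
          (2 * B + 1) ^ (dg K - 1) := sum_le_sum fun σ _ => card_em_le σ i₀ B hr
    _ ≤ ∑ σ : K →ₐ[ℚ] ℂ, ((2 / ‖σ (RingOfIntegers.basis K i₀ : K)‖ + 1) * r +
          (2 / ‖σ (RingOfIntegers.basis K i₀ : K)‖ + 1)) * (2 * B + 1) ^ (dg K - 1) := by
        refine sum_le_sum fun σ _ => ?_
        apply mul_le_mul_of_nonneg_right _ (by positivity)
        have := hpos σ
        have h1 : 2 * r / ‖σ (RingOfIntegers.basis K i₀ : K)‖ =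
          2 / ‖σ (RingOfIntegers.basis K i₀ : K)‖ * r := by ring
        rw [h1]
        have h2 : 0 ≤ 2 / ‖σ (RingOfIntegers.basis K i₀ : K)‖ := by positivity
        nlinarith
    _ = _ := by rw [← sum_mul, sum_add_distrib, ← sum_mul]

/-- **L2** -/
theorem sum_log_ge : ∃ C : ℝ, ∀ B : ℕ, 1 ≤ B →
    ((2 * B + 1 : ℝ) ^ dg K) * (dg K * Real.log B - C) ≤
      ∑ a ∈ (box K B).filter (fun a => a ≠ 0), Real.log (Na K a) := by
  classical
  obtain ⟨C, hC, hcard⟩ := card_small K
  set n := dg K with hn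
  have hn1 : 1 ≤ n := dg_pos K
  have hl2 : 0 < Real.log 2 := Real.log_pos one_lt_two
  refine ⟨n + n * Real.log 2 * (2 * C + 2 * C), fun B hB => ?_⟩
  have hBR : (1 : ℝ) ≤ B := by exact_mod_cast hB
  set J := Nat.log 2 B with hJ
  have hJ1 : 2 ^ J ≤ B := Nat.pow_log_le_self 2 (by omega)
  have hJ2 : B < 2 ^ (J + 1) := Nat.lt_pow_succ_log_self one_lt_two B
  set Bx := (box K B).filter (fun a => a ≠ 0) with hBx
  -- pointwise
  have hpt : ∀ a ∈ Bx, n * Real.log B - n * Real.log 2 *
      ((range (J + 1)).filter fun j : ℕ => (Na K a : ℝ) ≤ ((B : ℝ) / 2 ^ j) ^ n).card ≤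
        Real.log (Na K a) := by
    intro a ha
    rw [hBx, mem_filter] at ha
    have hN1 : (1 : ℝ) ≤ Na K a := by exact_mod_cast Na_pos K ha.2
    set k := ((range (J + 1)).filter fun j : ℕ => (Na K a : ℝ) ≤ ((B : ℝ) / 2 ^ j) ^ n).card
      with hk
    have hkJ : k ≤ J + 1 := by
      have := card_filter_le (range (J + 1)) (fun j : ℕ => (Na K a : ℝ) ≤ ((B : ℝ) / 2 ^ j) ^ n)
      rwa [card_range] at this
    have hlt : ((B : ℝ) / 2 ^ k) ^ n < (Na K a : ℝ) := by
      rcases hkJ.lt_or_eq with h | h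
      · by_contra hcon
        push Not at hcon
        -- then `0, …, k` are all in the set
        have hsub : range (k + 1) ⊆
            (range (J + 1)).filter fun j : ℕ => (Na K a : ℝ) ≤ ((B : ℝ) / 2 ^ j) ^ n := by
          intro j hj
          rw [mem_range] at hj
          rw [mem_filter, mem_range]
          refine ⟨by omega, hcon.trans ?_⟩
          apply pow_le_pow_left₀ (by positivity)
          apply div_le_div_of_nonneg_left (by positivity) (by positivity)
          exact pow_le_pow_right₀ one_le_two (by omega)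
        have := card_le_card hsub
        rw [card_range] at this
        omega
      · rw [h]
        refine lt_of_lt_of_le ?_ hN1
        apply pow_lt_one₀ (by positivity) _ (by omega)
        rw [div_lt_one (by positivity)]
        exact_mod_cast hJ2
    have hpos : 0 < ((B : ℝ) / 2 ^ k) ^ n := by positivity
    have h1 := Real.log_le_log hpos hlt.le
    rw [Real.log_pow, Real.log_div (by positivity) (by positivity), Real.log_pow] at h1
    linarith
  -- the sum of the cardinalities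
  have hsum : ∑ a ∈ Bx, (((range (J + 1)).filter fun j : ℕ =>
      (Na K a : ℝ) ≤ ((B : ℝ) / 2 ^ j) ^ n).card : ℝ) ≤
        (2 * C + 2 * C) * (2 * B + 1) ^ n := by
    have h1 : ∑ a ∈ Bx, (((range (J + 1)).filter fun j : ℕ =>
        (Na K a : ℝ) ≤ ((B : ℝ) / 2 ^ j) ^ n).card : ℝ) =
          ∑ j ∈ range (J + 1), ((Bx.filter fun a =>
            (Na K a : ℝ) ≤ ((B : ℝ) / 2 ^ j) ^ n).card : ℝ) := by
      simp only [card_filter, Nat.cast_sum]
      rw [sum_comm]
    rw [h1]
    calc ∑ j ∈ range (J + 1), ((Bx.filter fun a =>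
            (Na K a : ℝ) ≤ ((B : ℝ) / 2 ^ j) ^ n).card : ℝ)
        ≤ ∑ j ∈ range (J + 1), (C * ((B : ℝ) / 2 ^ j) + C) * (2 * B + 1) ^ (n - 1) := by
          refine sum_le_sum fun j _ => ?_
          refine le_trans ?_ (hcard B ((B : ℝ) / 2 ^ j) (by positivity))
          have : Bx.filter (fun a => (Na K a : ℝ) ≤ ((B : ℝ) / 2 ^ j) ^ n) ⊆
              (box K B).filter fun a => (Na K a : ℝ) ≤ ((B : ℝ) / 2 ^ j) ^ n :=
            filter_subset_filter _ (filter_subset _ _)
          exact_mod_cast card_le_card this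
      _ = (C * B * ∑ j ∈ range (J + 1), (1 / 2 : ℝ) ^ j + C * (J + 1)) *
            (2 * B + 1) ^ (n - 1) := by
          rw [← sum_mul, sum_add_distrib, mul_sum, sum_const, card_range, nsmul_eq_mul]
          congr 2
          · refine sum_congr rfl fun j _ => ?_
            rw [one_div, inv_pow]
            ring
          · push_cast; ring
      _ ≤ (C * B * 2 + C * (B + 1)) * (2 * B + 1) ^ (n - 1) := by
          apply mul_le_mul_of_nonneg_right _ (by positivity)
          have hg : ∑ j ∈ range (J + 1), (1 / 2 : ℝ) ^ j ≤ 2 := by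
            have := geom_sum_eq (show (1 / 2 : ℝ) ≠ 1 by norm_num) (J + 1)
            rw [this]
            have h3 : (0 : ℝ) < (1 / 2) ^ (J + 1) := by positivity
            rw [div_le_iff_of_neg (by norm_num)]
            linarith
          have hJB : (J : ℝ) ≤ B := by
            have h3 : J < 2 ^ J := Nat.lt_two_pow_self
            have h4 : J ≤ B := by omega
            exact_mod_cast h4
          have h5 : C * B * ∑ j ∈ range (J + 1), (1 / 2 : ℝ) ^ j ≤ C * B * 2 :=
            mul_le_mul_of_nonneg_left hg (by positivity)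
          have h6 : C * ((J : ℝ) + 1) ≤ C * (B + 1) :=
            mul_le_mul_of_nonneg_left (by linarith) hC.le
          linarith
      _ ≤ ((2 * C + 2 * C) * (2 * B + 1)) * (2 * B + 1) ^ (n - 1) := by
          apply mul_le_mul_of_nonneg_right _ (by positivity)
          nlinarith
      _ = _ := by
          rw [mul_assoc]
          congr 1
          conv_rhs => rw [← Nat.sub_add_cancel hn1, pow_succ]
          ring
  have hcardBx : (Bx.card : ℝ) = (2 * B + 1) ^ n - 1 := by
    have h0 : (0 : ι K → ℤ) ∈ box K B := by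
      rw [mem_box]
      intro i
      simp
    have h1 : Bx = (box K B).erase 0 := by
      ext a
      rw [hBx, mem_filter, mem_erase, and_comm]
    rw [h1, card_erase_of_mem h0, card_box, Nat.cast_sub (Nat.one_le_pow _ _ (by omega))]
    push_cast
    rfl
  have hlogB : Real.log B ≤ B := (Real.log_le_sub_one_of_pos (by linarith)).trans (by linarith)
  have hlogB0 : 0 ≤ Real.log B := Real.log_nonneg hBR
  have hge : (B : ℝ) ≤ (2 * B + 1) ^ n := by
    calc (B : ℝ) ≤ (2 * B + 1) ^ 1 := by rw [pow_one]; linarith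
      _ ≤ _ := pow_le_pow_right₀ (by linarith) hn1
  calc ((2 * B + 1 : ℝ) ^ n) * (n * Real.log B - (n + n * Real.log 2 * (2 * C + 2 * C)))
      ≤ ((2 * B + 1) ^ n - 1) * (n * Real.log B) -
          n * Real.log 2 * ((2 * C + 2 * C) * (2 * B + 1) ^ n) := by
        have h1 : (n : ℝ) * Real.log B ≤ n * (2 * B + 1) ^ n :=
          mul_le_mul_of_nonneg_left (hlogB.trans hge) (by positivity)
        nlinarith
    _ ≤ ∑ a ∈ Bx, (n * Real.log B - n * Real.log 2 *
          ((range (J + 1)).filter fun j : ℕ => (Na K a : ℝ) ≤ ((B : ℝ) / 2 ^ j) ^ n).card) := by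
        rw [sum_sub_distrib, sum_const, nsmul_eq_mul, hcardBx, ← mul_sum]
        have : n * Real.log 2 * ∑ a ∈ Bx, (((range (J + 1)).filter fun j : ℕ =>
            (Na K a : ℝ) ≤ ((B : ℝ) / 2 ^ j) ^ n).card : ℝ) ≤
          n * Real.log 2 * ((2 * C + 2 * C) * (2 * B + 1) ^ n) :=
          mul_le_mul_of_nonneg_left hsum (by positivity)
        linarith
    _ ≤ _ := sum_le_sum hpt

end Stoll308.Low
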