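import Pool.Agent.Work.MP_308fa9_nt.Gen.LowB3

set_option autoImplicit false

/-!
Degree one primes of a number field in short multiplicative intervals: the number of the elements
of an ideal in a box.
-/

namespace Stoll308.Low

open Finset NumberField Module

variable (K : Type*) [Field K] [NumberField K]

lemma repr_al (a : ι K → ℤ) (i : ι K) : (RingOfIntegers.basis K).repr (al K a) i = a i := by
  unfold al
  rw [Basis.repr_sum_self]

lemma al_repr (x : 𝓞 K) : al K (fun i => (RingOfIntegers.basis K).repr x i) = x :=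
  (RingOfIntegers.basis K).sum_repr x

lemma al_inj {a b : ι K → ℤ} (h : al K a = al K b) : a = b := by
  funext i
  rw [← repr_al K a i, ← repr_al K b i, h]

lemma finite_quot {I : Ideal (𝓞 K)} (hI : I ≠ ⊥) : Finite (𝓞 K ⧸ I) := by
  have : Ideal.absNorm I ≠ 0 := by
    rwa [Ne, Ideal.absNorm_eq_zero_iff]
  rw [Ideal.absNorm_apply, Submodule.cardQuot_apply] at this
  exact Nat.finite_of_card_ne_zero this

lemma absNorm_pos {I : Ideal (𝓞 K)} (hI : I ≠ ⊥) : 1 ≤ Ideal.absNorm I := by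
  have : Ideal.absNorm I ≠ 0 := by
    rwa [Ne, Ideal.absNorm_eq_zero_iff]
  omega

/-- A small nonzero element of an ideal. -/
lemma exists_small {I : Ideal (𝓞 K)} (hI : I ≠ ⊥) (M : ℕ) (hM : Ideal.absNorm I < (M + 1) ^ dg K) :
    ∃ b : ι K → ℤ, b ≠ 0 ∧ (∀ i, |b i| ≤ M) ∧ al K b ∈ I := by
  classical
  have := finite_quot K hI
  have : Fintype (𝓞 K ⧸ I) := Fintype.ofFinite _
  set S : Finset (ι K → ℤ) := Fintype.piFinset fun _ => Icc (0 : ℤ) M with hS
  have hcard : (univ : Finset (𝓞 K ⧸ I)).card < S.card := by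
    rw [hS, Fintype.card_piFinset, prod_const, Int.card_Icc, card_univ, card_univ]
    rw [Ideal.absNorm_apply, Submodule.cardQuot_apply, Nat.card_eq_fintype_card] at hM
    have : ((M : ℤ) + 1 - 0).toNat = M + 1 := by omega
    rw [this]
    exact hM
  obtain ⟨a, ha, b, hb, hab, h⟩ := exists_ne_map_eq_of_card_lt_of_maps_to hcard
    (f := fun a => Ideal.Quotient.mk I (al K a)) fun _ _ => mem_univ _
  rw [hS, Fintype.mem_piFinset] at ha hb
  refine ⟨a - b, sub_ne_zero.2 hab, fun i => ?_, ?_⟩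
  · have h1 := mem_Icc.1 (ha i)
    have h2 := mem_Icc.1 (hb i)
    rw [Pi.sub_apply, abs_le]
    omega
  · rw [al_sub, ← Ideal.Quotient.mk_eq_mk_iff_sub_mem]
    exact h

/-- **L4** -/
theorem cover : ∃ C : ℝ, 1 ≤ C ∧ ∀ I : Ideal (𝓞 K), I ≠ ⊥ → ∀ g : 𝓞 K, ∃ e : ι K → ℤ,
    (∀ i, |(e i : ℝ)| ≤ C * (Ideal.absNorm I : ℝ) ^ (1 / (dg K : ℝ))) ∧ g - al K e ∈ I := by
  classical
  set w := RingOfIntegers.basis K with hw
  set C₁ : ℝ := ∑ i, ∑ k, ∑ j, |((w.repr (w k * w i) j : ℤ) : ℝ)| with hC₁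
  have hC₁0 : 0 ≤ C₁ := sum_nonneg fun _ _ => sum_nonneg fun _ _ => sum_nonneg fun _ _ =>
    abs_nonneg _
  refine ⟨max 1 C₁, le_max_left _ _, fun I hI g => ?_⟩
  set N : ℝ := (Ideal.absNorm I : ℝ) with hN
  have hN1 : 1 ≤ N := by
    rw [hN]
    exact_mod_cast absNorm_pos K hI
  have hn0 : dg K ≠ 0 := (dg_pos K).ne'
  set Y : ℝ := N ^ (1 / (dg K : ℝ)) with hY
  have hY0 : 0 ≤ Y := by positivity
  have hYn : Y ^ dg K = N := by
    rw [hY, one_div]
    exact Real.rpow_inv_natCast_pow (by positivity) hn0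
  set M : ℕ := ⌊Y⌋₊ with hM
  have hMY : (M : ℝ) ≤ Y := Nat.floor_le hY0
  have hMN : Ideal.absNorm I < (M + 1) ^ dg K := by
    have h1 : Y < M + 1 := Nat.lt_floor_add_one Y
    have h2 : N < ((M : ℝ) + 1) ^ dg K := by
      rw [← hYn]
      exact pow_lt_pow_left₀ h1 hY0 hn0
    rw [hN] at h2
    exact_mod_cast h2
  obtain ⟨b, hb0, hbM, hbI⟩ := exists_small K hI M hMN
  set β : 𝓞 K := al K b with hβ
  obtain ⟨φ, hφ⟩ : ∃ φ : 𝓞 K →+* K, φ = algebraMap (𝓞 K) K := ⟨_, rfl⟩
  have hβ0 : φ β ≠ 0 := by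
    intro h
    apply hb0
    have h1 : β = 0 := by
      rw [hφ] at h
      exact (FaithfulSMul.algebraMap_eq_zero_iff (𝓞 K) K).1 h
    apply al_inj K
    rw [← hβ, h1]
    unfold al
    simp
  have hωφ : ∀ i, integralBasis K i = φ (w i) := fun i => by
    rw [hφ, integralBasis_apply]
  -- the coordinates of g / β
  set x : ι K → ℚ := fun i => (integralBasis K).repr (φ g / φ β) i with hx
  set d : ι K → ℤ := fun i => ⌊x i⌋ with hd
  set δ : 𝓞 K := al K d with hδ
  refine ⟨fun j => w.repr (g - β * δ) j, fun j => ?_, ?_⟩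
  · -- the coordinates
    have e1 : φ g = ∑ i, x i • (φ β * φ (w i)) := by
      have h1 := (integralBasis K).sum_repr (φ g / φ β)
      have h2 : φ g = φ β * (φ g / φ β) := by
        field_simp
      rw [h2]
      conv_lhs => rw [← h1]
      rw [mul_sum]
      refine sum_congr rfl fun i _ => ?_
      rw [hωφ, mul_smul_comm]
    have e2 : φ (β * δ) = ∑ i, ((d i : ℤ) : ℚ) • (φ β * φ (w i)) := by
      rw [hδ]
      unfold al
      rw [map_mul, map_sum, mul_sum]
      refine sum_congr rfl fun i _ => ?_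
      rw [zsmul_eq_mul, map_mul, map_intCast, Rat.smul_def]
      push_cast
      ring
    have e3 : φ (g - β * δ) = ∑ i, (Int.fract (x i)) • (φ β * φ (w i)) := by
      rw [map_sub, e1, e2, ← sum_sub_distrib]
      refine sum_congr rfl fun i _ => ?_
      rw [← sub_smul]
      rfl
    have e4 : ∀ i, (integralBasis K).repr (φ β * φ (w i)) j =
        ∑ k, (b k : ℚ) * ((w.repr (w k * w i) j : ℤ) : ℚ) := by
      intro i
      have h1 : φ β * φ (w i) = algebraMap (𝓞 K) K (β * w i) := by rw [map_mul, hφ]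
      rw [h1, integralBasis_repr_apply]
      have h2 : β * w i = ∑ k, b k • (w k * w i) := by
        rw [hβ]
        unfold al
        rw [sum_mul]
        exact sum_congr rfl fun k _ => by rw [smul_mul_assoc]
      rw [← hw, h2, map_sum, Finsupp.finsetSum_apply]
      simp only [map_smul, Finsupp.smul_apply, smul_eq_mul]
      push_cast
      rfl
    have e5 : ((w.repr (g - β * δ) j : ℤ) : ℚ) =
        ∑ i, Int.fract (x i) * ∑ k, (b k : ℚ) * ((w.repr (w k * w i) j : ℤ) : ℚ) := by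
      have h1 := integralBasis_repr_apply K (g - β * δ) j
      rw [← hw, ← hφ, e3, eq_intCast] at h1
      rw [← h1, map_sum, Finsupp.finsetSum_apply]
      refine sum_congr rfl fun i _ => ?_
      rw [map_smul, Finsupp.smul_apply, smul_eq_mul, e4]
    have e6 : ((w.repr (g - β * δ) j : ℤ) : ℝ) =
        ∑ i, ((Int.fract (x i) : ℚ) : ℝ) * ∑ k, (b k : ℝ) * ((w.repr (w k * w i) j : ℤ) : ℝ) := by
      have := congrArg (fun q : ℚ => (q : ℝ)) e5
      push_cast at this ⊢
      exact this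
    simp only
    rw [e6]
    have hfr : ∀ i, |((Int.fract (x i) : ℚ) : ℝ)| ≤ 1 := by
      intro i
      have h0 : (0 : ℝ) ≤ ((Int.fract (x i) : ℚ) : ℝ) := by exact_mod_cast Int.fract_nonneg (x i)
      rw [abs_of_nonneg h0]
      exact_mod_cast (Int.fract_lt_one (x i)).le
    have hbY : ∀ k, |(b k : ℝ)| ≤ Y := by
      intro k
      refine le_trans ?_ hMY
      have h1 := hbM k
      have h2 : ((|b k| : ℤ) : ℝ) ≤ ((M : ℤ) : ℝ) := Int.cast_le.2 h1
      rw [Int.cast_abs, Int.cast_natCast] at h2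
      exact h2
    calc |∑ i, ((Int.fract (x i) : ℚ) : ℝ) * ∑ k, (b k : ℝ) * ((w.repr (w k * w i) j : ℤ) : ℝ)|
        ≤ ∑ i, |((Int.fract (x i) : ℚ) : ℝ) *
            ∑ k, (b k : ℝ) * ((w.repr (w k * w i) j : ℤ) : ℝ)| := abs_sum_le_sum_abs _ _
      _ ≤ ∑ i, ∑ k, Y * |((w.repr (w k * w i) j : ℤ) : ℝ)| := by
          refine sum_le_sum fun i _ => ?_
          rw [abs_mul]
          calc |((Int.fract (x i) : ℚ) : ℝ)| *
                |∑ k, (b k : ℝ) * ((w.repr (w k * w i) j : ℤ) : ℝ)| ≤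
                1 * |∑ k, (b k : ℝ) * ((w.repr (w k * w i) j : ℤ) : ℝ)| :=
                mul_le_mul_of_nonneg_right (hfr i) (abs_nonneg _)
            _ = |∑ k, (b k : ℝ) * ((w.repr (w k * w i) j : ℤ) : ℝ)| := one_mul _
            _ ≤ ∑ k, |(b k : ℝ) * ((w.repr (w k * w i) j : ℤ) : ℝ)| := abs_sum_le_sum_abs _ _
            _ ≤ ∑ k, Y * |((w.repr (w k * w i) j : ℤ) : ℝ)| := by
                refine sum_le_sum fun k _ => ?_
                rw [abs_mul]
                exact mul_le_mul_of_nonneg_right (hbY k) (abs_nonneg _)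
      _ ≤ ∑ i, ∑ k, Y * ∑ j, |((w.repr (w k * w i) j : ℤ) : ℝ)| := by
          refine sum_le_sum fun i _ => sum_le_sum fun k _ => ?_
          refine mul_le_mul_of_nonneg_left ?_ hY0
          exact single_le_sum (f := fun j => |((w.repr (w k * w i) j : ℤ) : ℝ)|)
            (fun _ _ => abs_nonneg _) (mem_univ j)
      _ = C₁ * Y := by
          rw [hC₁, sum_mul]
          refine sum_congr rfl fun i _ => ?_
          rw [sum_mul]
          exact sum_congr rfl fun k _ => mul_comm _ _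
      _ ≤ max 1 C₁ * Y := mul_le_mul_of_nonneg_right (le_max_right _ _) hY0
  · have h1 : al K (fun j => w.repr (g - β * δ) j) = g - β * δ := al_repr K _
    rw [h1]
    have h2 : g - (g - β * δ) = β * δ := by ring
    rw [h2]
    exact I.mul_mem_right δ hbI

/-- **L4**, integral form -/
theorem cover_nat : ∃ C₃ : ℕ, 1 ≤ C₃ ∧ ∀ I : Ideal (𝓞 K), I ≠ ⊥ → ∀ m : ℕ,
    Ideal.absNorm I ≤ m ^ dg K → ∀ g : 𝓞 K, ∃ e : ι K → ℤ,
      (∀ i, |e i| ≤ ((C₃ * m : ℕ) : ℤ)) ∧ g - al K e ∈ I := by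
  obtain ⟨C, hC, h⟩ := cover K
  refine ⟨⌈C⌉₊, Nat.one_le_ceil_iff.2 (by linarith), fun I hI m hm g => ?_⟩
  obtain ⟨e, he, heI⟩ := h I hI g
  refine ⟨e, fun i => ?_, heI⟩
  have hn0 : dg K ≠ 0 := (dg_pos K).ne'
  have h1 : (Ideal.absNorm I : ℝ) ^ (1 / (dg K : ℝ)) ≤ m := by
    have h2 : (Ideal.absNorm I : ℝ) ≤ (m : ℝ) ^ dg K := by exact_mod_cast hm
    calc (Ideal.absNorm I : ℝ) ^ (1 / (dg K : ℝ)) ≤ ((m : ℝ) ^ dg K) ^ (1 / (dg K : ℝ)) :=
          Real.rpow_le_rpow (Nat.cast_nonneg _) h2 (by positivity)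
      _ = m := by
          rw [one_div]
          exact Real.pow_rpow_inv_natCast (Nat.cast_nonneg m) hn0
  have h2 : |(e i : ℝ)| ≤ ⌈C⌉₊ * m := by
    refine (he i).trans ?_
    exact mul_le_mul (Nat.le_ceil C) h1 (by positivity) (Nat.cast_nonneg _)
  have h3 : ((|e i| : ℤ) : ℝ) ≤ (((⌈C⌉₊ * m : ℕ) : ℤ) : ℝ) := by
    push_cast
    exact h2
  exact Int.cast_le.1 h3

section count

variable {I : Ideal (𝓞 K)} (hI : I ≠ ⊥) (D B : ℕ)
  (hD : ∀ g : 𝓞 K, ∃ e : ι K → ℤ, (∀ i, |e i| ≤ D) ∧ g - al K e ∈ I)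

include hI hD

/-- **L5**, upper bound -/
theorem cnt_le : Ideal.absNorm I * cnt K I B ≤ (2 * (B + D) + 1) ^ dg K := by
  classical
  have := finite_quot K hI
  have : Fintype (𝓞 K ⧸ I) := Fintype.ofFinite _
  have hs : ∀ q : 𝓞 K ⧸ I, ∃ e : ι K → ℤ, (∀ i, |e i| ≤ D) ∧ Ideal.Quotient.mk I (al K e) = q := by
    intro q
    obtain ⟨g, rfl⟩ := Ideal.Quotient.mk_surjective q
    obtain ⟨e, he, h⟩ := hD g
    exact ⟨e, he, ((Ideal.Quotient.mk_eq_mk_iff_sub_mem _ _).2 h).symm⟩
  choose s hs1 hs2 using hs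
  have h1 : ((univ : Finset (𝓞 K ⧸ I)) ×ˢ ((box K B).filter fun a => al K a ∈ I)).card ≤
      (box K (B + D)).card := by
    refine card_le_card_of_injOn (fun x => s x.1 + x.2) ?_ ?_
    · rintro ⟨q, a⟩ hx
      rw [mem_coe, mem_product, mem_filter] at hx
      rw [mem_coe, mem_box]
      intro i
      have h2 := (mem_box K).1 hx.2.1 i
      have h3 := hs1 q i
      simp only [Pi.add_apply]
      refine (abs_add_le _ _).trans ?_
      push_cast
      linarith
    · rintro ⟨q, a⟩ hx ⟨q', a'⟩ hy h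
      rw [mem_coe, mem_product, mem_filter] at hx hy
      simp only at h hx hy
      have h2 := congrArg (fun v => Ideal.Quotient.mk I (al K v)) h
      simp only [al_add, map_add, hs2] at h2
      rw [Ideal.Quotient.eq_zero_iff_mem.2 hx.2.2, Ideal.Quotient.eq_zero_iff_mem.2 hy.2.2,
        add_zero, add_zero] at h2
      subst h2
      rw [add_left_cancel h]
  rw [card_product, card_box, card_univ] at h1
  rw [Ideal.absNorm_apply, Submodule.cardQuot_apply, Nat.card_eq_fintype_card]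
  unfold cnt
  convert h1

/-- **L5**, lower bound -/
theorem cnt_ge (hDB : D ≤ B) : (2 * (B - D) + 1) ^ dg K ≤ Ideal.absNorm I * cnt K I B := by
  classical
  have := finite_quot K hI
  have : Fintype (𝓞 K ⧸ I) := Fintype.ofFinite _
  have hs : ∀ q : 𝓞 K ⧸ I, ∃ e : ι K → ℤ, (∀ i, |e i| ≤ D) ∧ Ideal.Quotient.mk I (al K e) = q := by
    intro q
    obtain ⟨g, rfl⟩ := Ideal.Quotient.mk_surjective q
    obtain ⟨e, he, h⟩ := hD g
    exact ⟨e, he, ((Ideal.Quotient.mk_eq_mk_iff_sub_mem _ _).2 h).symm⟩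
  choose s hs1 hs2 using hs
  have h1 : (box K (B - D)).card ≤
      ((univ : Finset (𝓞 K ⧸ I)) ×ˢ ((box K B).filter fun a => al K a ∈ I)).card := by
    refine card_le_card_of_injOn (fun x => (Ideal.Quotient.mk I (al K x),
      x - s (Ideal.Quotient.mk I (al K x)))) ?_ ?_
    · intro x hx
      rw [mem_coe, mem_box] at hx
      rw [mem_coe, mem_product, mem_filter]
      refine ⟨mem_univ _, ?_, ?_⟩
      · rw [mem_box]
        intro i
        have h2 := hx i
        have h3 := hs1 (Ideal.Quotient.mk I (al K x)) i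
        simp only [Pi.sub_apply]
        refine (abs_sub _ _).trans ?_
        push_cast [hDB] at h2
        linarith
      · simp only
        rw [al_sub, ← Ideal.Quotient.mk_eq_mk_iff_sub_mem, hs2]
    · intro x _ y _ h
      simp only [Prod.mk.injEq] at h
      have h2 := h.2
      rw [h.1] at h2
      exact sub_left_injective h2
  rw [card_product, card_box, card_univ] at h1
  rw [Ideal.absNorm_apply, Submodule.cardQuot_apply, Nat.card_eq_fintype_card]
  unfold cnt
  convert h1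

end count

end Stoll308.Low
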