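import Pool.Agent.Work.MP_308fa9_nt.Gen.LowA

set_option autoImplicit false

/-!
Degree one primes of a number field in short multiplicative intervals: the number of nonzero
elements of an ideal in a box is at most a constant times the volume over the norm.
-/

namespace Stoll308.Low

open Finset NumberField Module

variable (K : Type*) [Field K] [NumberField K]

lemma al_sub (a b : ι K → ℤ) : al K (a - b) = al K a - al K b := by
  unfold al
  rw [← sum_sub_distrib]
  exact sum_congr rfl fun i _ => by rw [Pi.sub_apply, sub_smul]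

lemma al_add (a b : ι K → ℤ) : al K (a + b) = al K a + al K b := by
  unfold al
  rw [← sum_add_distrib]
  exact sum_congr rfl fun i _ => by rw [Pi.add_apply, add_smul]

lemma absNorm_le_Na {I : Ideal (𝓞 K)} {a : ι K → ℤ} (ha : a ≠ 0) (h : al K a ∈ I) :
    Ideal.absNorm I ≤ Na K a := by
  unfold Na
  refine Nat.le_of_dvd (Na_pos K ha) ?_
  exact Ideal.absNorm_dvd_absNorm_of_le ((Ideal.span_singleton_le_iff_mem I).2 h)

theorem cnt0_le : ∃ C : ℝ, 0 < C ∧ ∀ I : Ideal (𝓞 K), I ≠ ⊥ → ∀ B : ℕ,
    (cnt0 K I B : ℝ) ≤ C * (2 * B + 1 : ℝ) ^ dg K / Ideal.absNorm I := by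
  classical
  obtain ⟨C0, hC0, hC⟩ := Na_le K
  refine ⟨2 ^ dg K * C0, by positivity, fun I hI B => ?_⟩
  set N := Ideal.absNorm I with hN
  have hNpos : 0 < N := by
    rw [hN]
    exact Nat.pos_of_ne_zero (Ideal.absNorm_ne_zero_iff I |>.2 (by
      exact I.finiteQuotientOfFreeOfNeBot hI))
  set n := dg K with hn
  have hnpos : 0 < n := dg_pos K
  -- the largest `s` with `C0 * s ^ n < N`
  have hex : ∃ s : ℕ, N ≤ C0 * (s + 1) ^ n := by
    refine ⟨N, ?_⟩
    calc N ≤ N + 1 := by omega
      _ ≤ (N + 1) ^ n := Nat.le_self_pow hnpos.ne' _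
      _ ≤ C0 * (N + 1) ^ n := Nat.le_mul_of_pos_left _ hC0
  set s := Nat.find hex with hs
  have hs1 : N ≤ C0 * (s + 1) ^ n := Nat.find_spec hex
  have hs2 : C0 * s ^ n < N := by
    rcases Nat.eq_zero_or_pos s with h0 | h0
    · rw [h0, zero_pow hnpos.ne', mul_zero]
      exact hNpos
    · have h1 : s - 1 < Nat.find hex := by omega
      have h2 := Nat.find_min hex h1
      rw [show s - 1 + 1 = s by omega] at h2
      exact not_le.1 h2
  have hkey : ∀ a : ι K → ℤ, al K a ∈ I → a ∈ box K s → a = 0 := by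
    intro a h1 h2
    by_contra h3
    have h4 := absNorm_le_Na K h3 h1
    have h5 := hC s a h2
    rw [← hN] at h4
    omega
  rcases Nat.lt_or_ge s B with hB | hB
  swap
  · have h0 : cnt0 K I B = 0 := by
      unfold cnt0
      rw [card_eq_zero, filter_eq_empty_iff]
      rintro a ha ⟨h1, h2⟩
      refine h1 (hkey a h2 ?_)
      rw [mem_box] at ha ⊢
      exact fun i => (ha i).trans (by exact_mod_cast hB)
    rw [h0, Nat.cast_zero]
    positivity
  -- the cells
  set q : ℕ := B / (s + 1) with hq
  have hq1 : 1 ≤ q := by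
    rw [hq, Nat.one_le_div_iff (by omega)]
    omega
  have hcard : cnt0 K I B ≤ (2 * (q + 1)) ^ n := by
    have hc : (Fintype.piFinset fun _ : ι K => Icc (-((q : ℤ) + 1)) q).card
        = (2 * (q + 1)) ^ n := by
      rw [Fintype.card_piFinset, prod_const, Int.card_Icc, card_univ]
      congr 1
      omega
    rw [← hc]
    unfold cnt0
    refine card_le_card_of_injOn (fun a i => a i / ((s : ℤ) + 1)) ?_ ?_
    · intro a ha
      simp only [coe_filter, Set.mem_ofPred_eq] at ha
      have h1 := (mem_box K).1 ha.1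
      simp only [mem_coe, Fintype.mem_piFinset, mem_Icc]
      intro i
      have h2 := abs_le.1 (h1 i)
      have hq2 : (q : ℤ) = (B : ℤ) / ((s : ℤ) + 1) := by
        rw [hq]
        push_cast
        rfl
      have hs0 : (0 : ℤ) < (s : ℤ) + 1 := by positivity
      constructor
      · rw [Int.le_ediv_iff_mul_le hs0]
        have h3 : (B : ℤ) < ((q : ℤ) + 1) * ((s : ℤ) + 1) := by
          rw [hq2]
          exact Int.lt_ediv_add_one_mul_self _ hs0
        nlinarith [h2.1, h3]
      · rw [hq2]
        exact Int.ediv_le_ediv hs0 h2.2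
    · intro a ha b hb hab
      simp only [coe_filter, Set.mem_ofPred_eq] at ha hb
      have hs0 : (0 : ℤ) < (s : ℤ) + 1 := by positivity
      have h1 : a - b = 0 := by
        refine hkey _ ?_ ?_
        · rw [al_sub]
          exact I.sub_mem ha.2.2 hb.2.2
        · rw [mem_box]
          intro i
          have h2 := congrFun hab i
          simp only at h2
          have h3 := Int.emod_add_mul_ediv (a i) ((s : ℤ) + 1)
          have h4 := Int.emod_add_mul_ediv (b i) ((s : ℤ) + 1)
          have h5 := Int.emod_nonneg (a i) hs0.ne'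
          have h6 := Int.emod_nonneg (b i) hs0.ne'
          have h7 := Int.emod_lt_of_pos (a i) hs0
          have h8 := Int.emod_lt_of_pos (b i) hs0
          rw [h2] at h3
          rw [Pi.sub_apply, abs_le]
          constructor <;> linarith
      exact sub_eq_zero.1 h1
  have hN' : (0 : ℝ) < N := by exact_mod_cast hNpos
  rw [le_div_iff₀ hN']
  have h1 : (2 * (q + 1)) * (s + 1) ≤ 2 * (2 * B + 1) := by
    have h2 : q * (s + 1) ≤ B := Nat.div_mul_le_self _ _
    nlinarith
  have h2 : cnt0 K I B * N ≤ 2 ^ n * C0 * (2 * B + 1) ^ n := by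
    calc cnt0 K I B * N ≤ (2 * (q + 1)) ^ n * (C0 * (s + 1) ^ n) := Nat.mul_le_mul hcard hs1
      _ = C0 * ((2 * (q + 1)) * (s + 1)) ^ n := by
        rw [mul_pow (2 * (q + 1)) (s + 1) n]
        ring
      _ ≤ C0 * (2 * (2 * B + 1)) ^ n := Nat.mul_le_mul_left _ (Nat.pow_le_pow_left h1 n)
      _ = 2 ^ n * C0 * (2 * B + 1) ^ n := by
        rw [mul_pow]
        ring
  exact_mod_cast h2

end Stoll308.Low
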