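import Pool.Agent.Work.MP_308fa9_nt.Gen.LowDefs

set_option autoImplicit false

/-!
Decomposition of the logarithm of the norm over the prime powers.
-/

namespace Stoll308.Low

open Finset NumberField Module UniqueFactorizationMonoid

variable (K : Type*) [Field K] [NumberField K]

open Classical in
/-- The nonzero prime ideals of norm at most `x`. -/
noncomputable def Pr (x : ℕ) : Finset (Ideal (𝓞 K)) :=
  (Ideal.finite_setOfPred_absNorm_le x).toFinset.filter fun P => P.IsPrime ∧ P ≠ ⊥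

variable {K}

open Classical in
/-- The indicator of `I ≤ Q`. -/
noncomputable def hit (I Q : Ideal (𝓞 K)) : ℝ := if I ≤ Q then 1 else 0

lemma mem_Pr {x : ℕ} {P : Ideal (𝓞 K)} :
    P ∈ Pr K x ↔ Ideal.absNorm P ≤ x ∧ P.IsPrime ∧ P ≠ ⊥ := by
  classical
  unfold Pr
  rw [mem_filter, Set.Finite.mem_toFinset]
  rfl

lemma two_le_absNorm {P : Ideal (𝓞 K)} (h : P.IsPrime) (h0 : P ≠ ⊥) : 2 ≤ Ideal.absNorm P := by
  have h1 : Ideal.absNorm P ≠ 1 := by
    rw [Ne, Ideal.absNorm_eq_one_iff]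
    exact h.ne_top
  have h2 : Ideal.absNorm P ≠ 0 := by
    rw [Ne, Ideal.absNorm_eq_zero_iff]
    exact h0
  omega

lemma al_eq_zero {a : ι K → ℤ} : al K a = 0 ↔ a = 0 := by
  constructor
  · intro h
    have := Fintype.linearIndependent_iff.1 (RingOfIntegers.basis K).linearIndependent a h
    exact funext this
  · rintro rfl
    simp [al]

lemma Na_pos' {a : ι K → ℤ} (h : a ≠ 0) : 0 < Na K a := by
  unfold Na
  rw [Nat.pos_iff_ne_zero, Ne, Ideal.absNorm_eq_zero_iff, Ideal.span_singleton_eq_bot]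
  exact fun h0 => h (al_eq_zero.1 h0)

/-- The logarithm of the norm of an ideal. -/
lemma log_absNorm {I : Ideal (𝓞 K)} (hI : I ≠ ⊥) {x : ℕ} (hx : Ideal.absNorm I ≤ x) :
    Real.log (Ideal.absNorm I) = ∑ P ∈ Pr K x, ∑ k ∈ Icc 1 x,
      hit I (P ^ k) * Real.log (Ideal.absNorm P) := by
  classical
  have hprod : (normalizedFactors I).prod = I := Ideal.prod_normalizedFactors_eq_self hI
  have hpr : ∀ P ∈ normalizedFactors I, P.IsPrime ∧ P ≠ ⊥ := by
    intro P hP
    have h1 := prime_of_normalized_factor P hP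
    exact ⟨Ideal.isPrime_of_prime h1, h1.ne_zero⟩
  have hcnt : ∀ P : Ideal (𝓞 K), P.IsPrime → P ≠ ⊥ → ∀ k : ℕ,
      (I ≤ P ^ k ↔ k ≤ (normalizedFactors I).count P) := by
    intro P hP hP0 k
    rw [← Ideal.dvd_iff_le]
    have hPp : Prime P := Ideal.prime_of_isPrime hP0 hP
    have h2 := dvd_iff_normalizedFactors_le_normalizedFactors (pow_ne_zero k hPp.ne_zero) hI
    rw [h2, normalizedFactors_pow, normalizedFactors_irreducible hPp.irreducible,
      normalize_eq, Multiset.nsmul_singleton, Multiset.le_count_iff_replicate_le]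
  have hI0 : 0 < Ideal.absNorm I := by
    rw [Nat.pos_iff_ne_zero, Ne, Ideal.absNorm_eq_zero_iff]
    exact hI
  have hle : ∀ P : Ideal (𝓞 K), P.IsPrime → P ≠ ⊥ → (normalizedFactors I).count P ≤ x := by
    intro P hP hP0
    have h1 := (hcnt P hP hP0 _).2 le_rfl
    have h2 := Ideal.absNorm_dvd_absNorm_of_le h1
    rw [map_pow] at h2
    have h3 := Nat.le_of_dvd hI0 h2
    calc (normalizedFactors I).count P ≤ 2 ^ (normalizedFactors I).count P :=
          (Nat.lt_two_pow_self).le
      _ ≤ Ideal.absNorm P ^ (normalizedFactors I).count P :=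
          Nat.pow_le_pow_left (two_le_absNorm hP hP0) _
      _ ≤ _ := h3.trans hx
  have h1 : Real.log (Ideal.absNorm I) =
      ∑ P ∈ (normalizedFactors I).toFinset,
        ((normalizedFactors I).count P : ℝ) * Real.log (Ideal.absNorm P) := by
    conv_lhs => rw [← hprod]
    rw [map_multiset_prod, prod_multiset_map_count]
    push_cast
    rw [Real.log_prod]
    · exact sum_congr rfl fun P _ => Real.log_pow _ _
    · intro P hP
      have h2 := hpr P (Multiset.mem_toFinset.1 hP)
      have h3 := two_le_absNorm h2.1 h2.2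
      have : (0 : ℝ) < Ideal.absNorm P := by exact_mod_cast (by omega : 0 < Ideal.absNorm P)
      exact pow_ne_zero _ this.ne'
  have h2 : ∀ P : Ideal (𝓞 K), P.IsPrime → P ≠ ⊥ →
      ∑ k ∈ Icc 1 x, hit I (P ^ k) * Real.log (Ideal.absNorm P) =
        ((normalizedFactors I).count P : ℝ) * Real.log (Ideal.absNorm P) := by
    intro P hP hP0
    rw [← sum_mul]
    congr 1
    unfold hit
    rw [sum_boole]
    congr 1
    have h3 : (Icc 1 x).filter (fun k => I ≤ P ^ k) = Icc 1 ((normalizedFactors I).count P) := by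
      ext k
      rw [mem_filter, mem_Icc, mem_Icc, hcnt P hP hP0]
      have := hle P hP hP0
      constructor
      · rintro ⟨⟨h4, _⟩, h5⟩; exact ⟨h4, h5⟩
      · rintro ⟨h4, h5⟩; exact ⟨⟨h4, h5.trans this⟩, h5⟩
    rw [h3, Nat.card_Icc]
    omega
  rw [h1]
  symm
  rw [sum_congr rfl fun P hP => h2 P (mem_Pr.1 hP).2.1 (mem_Pr.1 hP).2.2]
  symm
  apply sum_subset
  · intro P hP
    have h3 := hpr P (Multiset.mem_toFinset.1 hP)
    refine mem_Pr.2 ⟨?_, h3⟩
    have h4 := dvd_of_mem_normalizedFactors (Multiset.mem_toFinset.1 hP)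
    have h5 := Ideal.absNorm_dvd_absNorm_of_le (Ideal.dvd_iff_le.1 h4)
    exact (Nat.le_of_dvd hI0 h5).trans hx
  · intro P _ hP
    rw [Multiset.mem_toFinset] at hP
    rw [Multiset.count_eq_zero_of_notMem hP]
    simp

/-- The sum of the logarithms of the norms over a box. -/
lemma sum_log_eq {B x : ℕ} (hx : ∀ a ∈ box K B, Na K a ≤ x) :
    ∑ a ∈ (box K B).filter (fun a => a ≠ 0), Real.log (Na K a) =
      ∑ P ∈ Pr K x, ∑ k ∈ Icc 1 x, (cnt0 K (P ^ k) B : ℝ) * Real.log (Ideal.absNorm P) := by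
  classical
  have h1 : ∀ a ∈ (box K B).filter (fun a => a ≠ 0), Real.log (Na K a) =
      ∑ P ∈ Pr K x, ∑ k ∈ Icc 1 x,
        hit (Ideal.span {al K a}) (P ^ k) * Real.log (Ideal.absNorm P) := by
    intro a ha
    rw [mem_filter] at ha
    apply log_absNorm _ (hx a ha.1)
    rw [Ne, Ideal.span_singleton_eq_bot]
    exact fun h0 => ha.2 (al_eq_zero.1 h0)
  rw [sum_congr rfl h1, sum_comm]
  refine sum_congr rfl fun P _ => ?_
  rw [sum_comm]
  refine sum_congr rfl fun k _ => ?_
  rw [← sum_mul]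
  congr 1
  unfold hit cnt0
  rw [sum_boole, filter_filter]
  congr 2
  ext a
  rw [mem_filter, mem_filter, Ideal.span_singleton_le_iff_mem]

end Stoll308.Low
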