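import Pool.Agent.Work.MP_308fa9_nt.Gen.LowC
import Pool.Agent.Work.MP_308fa9_nt.ChebA
import Pool.Agent.Work.MP_308fa9_nt.Mert

set_option autoImplicit false

/-!
Sums over prime powers of a number field compared with sums of the von Mangoldt function.
-/

namespace Stoll308.Low

open Finset NumberField Module ArithmeticFunction

variable (K : Type*) [Field K] [NumberField K]

lemma dg_eq : dg K = Module.finrank ℤ (𝓞 K) :=
  (Module.finrank_eq_card_chooseBasisIndex ℤ (𝓞 K)).symm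

lemma dg_pos' : 1 ≤ dg K := by
  rw [dg_eq, RingOfIntegers.rank]
  exact Module.finrank_pos

variable {K}

lemma exists_prime {P : Ideal (𝓞 K)} (hP : P.IsPrime) (hP0 : P ≠ ⊥) :
    ∃ p f : ℕ, p.Prime ∧ 1 ≤ f ∧ f ≤ dg K ∧ Ideal.absNorm P = p ^ f ∧ (p : 𝓞 K) ∈ P := by
  have h2 := two_le_absNorm hP hP0
  obtain ⟨p, hp, hmem⟩ : ∃ p : ℕ, p.Prime ∧ (p : 𝓞 K) ∈ P := by
    have h3 : ((Ideal.absNorm P : ℕ) : 𝓞 K) ∈ P := Ideal.absNorm_mem P
    have h4 : ∀ m : ℕ, m ≠ 0 → (m : 𝓞 K) ∈ P → ∃ p : ℕ, p.Prime ∧ (p : 𝓞 K) ∈ P := by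
      intro m
      induction m using Nat.recOnMul with
      | zero => intro h; exact absurd rfl h
      | one =>
        intro _ h
        exact absurd (P.eq_top_iff_one.2 (by simpa using h)) hP.ne_top
      | prime q hq => intro _ h; exact ⟨q, hq, h⟩
      | mul a b iha ihb =>
        intro h0 h
        rw [Nat.cast_mul] at h
        rcases hP.mem_or_mem h with h5 | h5
        · exact iha (fun h6 => h0 (by rw [h6, zero_mul])) h5
        · exact ihb (fun h6 => h0 (by rw [h6, mul_zero])) h5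
    exact h4 _ (by omega) h3
  have h1 : Ideal.absNorm P ∣ Ideal.absNorm (Ideal.span {(p : 𝓞 K)}) :=
    Ideal.absNorm_dvd_absNorm_of_le (by rw [Ideal.span_singleton_le_iff_mem]; exact hmem)
  rw [Ideal.absNorm_span_natCast] at h1
  obtain ⟨f, hf, hf2⟩ := (Nat.dvd_prime_pow hp).1 h1
  refine ⟨p, f, hp, ?_, ?_, hf2, hmem⟩
  · rcases Nat.eq_zero_or_pos f with h0 | h0
    · rw [h0, pow_zero] at hf2; omega
    · exact h0
  · rw [dg_eq]; exact hf

/-- The sum over prime powers in terms of the von Mangoldt function. -/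
lemma sum_pp_le (φ : ℕ → ℝ) (hφ : ∀ q, 0 ≤ φ q) (x y : ℕ) (hy : ∀ q, y < q → φ q = 0)
    (A : ℕ → Prop) (hA : ∀ P : Ideal (𝓞 K), P.IsPrime → P ≠ ⊥ → ∀ k, 1 ≤ k →
      A (Ideal.absNorm P ^ k)) [DecidablePred A] :
    ∑ P ∈ Pr K x, ∑ k ∈ Icc 1 x, Real.log (Ideal.absNorm P) * φ (Ideal.absNorm P ^ k) ≤
      (dg K : ℝ) ^ 2 * ∑ q ∈ (Ioc 0 y).filter A, vonMangoldt q * φ q := by
  classical
  set S := (Pr K x ×ˢ Icc 1 x).filter fun z => Ideal.absNorm z.1 ^ z.2 ≤ y with hS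
  have h1 : ∑ P ∈ Pr K x, ∑ k ∈ Icc 1 x, Real.log (Ideal.absNorm P) * φ (Ideal.absNorm P ^ k) =
      ∑ z ∈ S, Real.log (Ideal.absNorm z.1) * φ (Ideal.absNorm z.1 ^ z.2) := by
    rw [← sum_product', hS, sum_filter]
    refine sum_congr rfl fun z _ => ?_
    split_ifs with h
    · rfl
    · rw [hy _ (not_le.1 h), mul_zero]
  have hmap : ∀ z ∈ S, Ideal.absNorm z.1 ^ z.2 ∈ (Ioc 0 y).filter A := by
    intro z hz
    rw [hS, mem_filter, mem_product, mem_Pr, mem_Icc] at hz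
    rw [mem_filter, mem_Ioc]
    have h2 := two_le_absNorm hz.1.1.2.1 hz.1.1.2.2
    exact ⟨⟨pow_pos (by omega) _, hz.2⟩, hA _ hz.1.1.2.1 hz.1.1.2.2 _ hz.1.2.1⟩
  rw [h1, ← sum_fiberwise_of_maps_to hmap, mul_sum]
  refine sum_le_sum fun q hq => ?_
  have hfib : ∀ z ∈ S.filter (fun z => Ideal.absNorm z.1 ^ z.2 = q),
      Real.log (Ideal.absNorm z.1) * φ (Ideal.absNorm z.1 ^ z.2) ≤
        (dg K : ℝ) * vonMangoldt q * φ q := by
    intro z hz
    rw [mem_filter, hS, mem_filter, mem_product, mem_Pr, mem_Icc] at hz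
    obtain ⟨p, f, hp, hf1, hf2, hf3, -⟩ := exists_prime hz.1.1.1.2.1 hz.1.1.1.2.2
    have h3 : q = p ^ (f * z.2) := by rw [← hz.2, hf3, pow_mul]
    have h4 : vonMangoldt q = Real.log p := by
      rw [h3, vonMangoldt_apply_pow, vonMangoldt_apply_prime hp]
      have : 1 ≤ z.2 := hz.1.1.2.1
      positivity
    rw [hz.2, h4, hf3]
    apply mul_le_mul_of_nonneg_right _ (hφ q)
    push_cast
    rw [Real.log_pow]
    apply mul_le_mul_of_nonneg_right _ (Real.log_natCast_nonneg p)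
    exact_mod_cast hf2
  have hcard : ((S.filter (fun z => Ideal.absNorm z.1 ^ z.2 = q)).card : ℝ) ≤ dg K := by
    rcases (S.filter (fun z => Ideal.absNorm z.1 ^ z.2 = q)).eq_empty_or_nonempty with h0 | ⟨w, hw⟩
    · rw [h0]; simp
    · rw [mem_filter, hS, mem_filter, mem_product, mem_Pr, mem_Icc] at hw
      obtain ⟨p, f, hp, hf1, hf2, hf3, -⟩ := exists_prime hw.1.1.1.2.1 hw.1.1.1.2.2
      have hwq : q = p ^ (f * w.2) := by rw [← hw.2, hf3, pow_mul]
      have hw0 : f * w.2 ≠ 0 := by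
        have : 1 ≤ w.2 := hw.1.1.2.1
        positivity
      have h5 : (S.filter (fun z => Ideal.absNorm z.1 ^ z.2 = q)).card ≤
          (Cheb.SP K p).card := by
        apply card_le_card_of_injOn Prod.fst
        · intro z hz
          rw [mem_coe, mem_filter, hS, mem_filter, mem_product, mem_Pr, mem_Icc] at hz
          rw [mem_coe, Cheb.mem_SP K hp]
          refine ⟨hz.1.1.1.2.1, ?_⟩
          obtain ⟨p', f', hp', hf1', hf2', hf3', hmem'⟩ := exists_prime hz.1.1.1.2.1 hz.1.1.1.2.2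
          have h6 : q = p' ^ (f' * z.2) := by rw [← hz.2, hf3', pow_mul]
          have h7 : p' = p := by
            have h8 : p' ∣ p ^ (f * w.2) := by
              rw [← hwq, h6]
              apply dvd_pow_self
              have : 1 ≤ z.2 := hz.1.1.2.1
              positivity
            exact (Nat.prime_dvd_prime_iff_eq hp' hp).1 (hp'.dvd_of_dvd_pow h8)
          rw [← h7]
          exact hmem'
        · intro z hz z' hz' heq
          rw [mem_coe, mem_filter, hS, mem_filter, mem_product, mem_Pr, mem_Icc] at hz hz'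
          have h2 := two_le_absNorm hz.1.1.1.2.1 hz.1.1.1.2.2
          have h3 : Ideal.absNorm z.1 ^ z.2 = Ideal.absNorm z.1 ^ z'.2 := by
            rw [hz.2, heq, hz'.2]
          exact Prod.ext heq (Nat.pow_right_injective h2 h3)
      calc ((S.filter (fun z => Ideal.absNorm z.1 ^ z.2 = q)).card : ℝ) ≤ (Cheb.SP K p).card := by
            exact_mod_cast h5
        _ ≤ dg K := by
            rw [dg_eq]
            exact_mod_cast Cheb.card_SP K hp
  calc ∑ z ∈ S.filter (fun z => Ideal.absNorm z.1 ^ z.2 = q),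
        Real.log (Ideal.absNorm z.1) * φ (Ideal.absNorm z.1 ^ z.2)
      ≤ ((S.filter (fun z => Ideal.absNorm z.1 ^ z.2 = q)).card : ℝ) *
          ((dg K : ℝ) * vonMangoldt q * φ q) := by
        rw [← nsmul_eq_mul]
        exact sum_le_card_nsmul _ _ _ hfib
    _ ≤ (dg K : ℝ) * ((dg K : ℝ) * vonMangoldt q * φ q) := by
        apply mul_le_mul_of_nonneg_right hcard
        have := vonMangoldt_nonneg (n := q)
        have := hφ q
        positivity
    _ = _ := by ring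

/-- Partial summation against a decreasing weight. -/
lemma sum_antitone_le (a : ℕ → ℝ) (C : ℝ) (hC : ∀ m : ℕ, ∑ q ∈ Ioc 0 m, a q ≤ C * m)
    (w : ℕ → ℝ) (hw : ∀ m, 1 ≤ m → w (m + 1) ≤ w m) (hw0 : ∀ m, 0 ≤ w m) (y : ℕ) :
    ∑ q ∈ Ioc 0 y, a q * w q ≤ C * ∑ q ∈ Ioc 0 y, w q := by
  have key : ∀ y : ℕ, (∑ q ∈ Ioc 0 y, (C - a q)) * w y ≤ ∑ q ∈ Ioc 0 y, (C - a q) * w q := by
    intro y
    induction y with
    | zero => simp
    | succ y ih =>
      rw [sum_Ioc_succ_top (by omega), sum_Ioc_succ_top (by omega), add_mul]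
      refine add_le_add ?_ le_rfl
      rcases Nat.eq_zero_or_pos y with h0 | h0
      · subst h0; simp
      · refine le_trans ?_ ih
        apply mul_le_mul_of_nonneg_left (hw y h0)
        rw [sum_sub_distrib]
        have := hC y
        simp only [sum_const, Nat.card_Ioc, nsmul_eq_mul, Nat.sub_zero]
        linarith
  have h1 : 0 ≤ (∑ q ∈ Ioc 0 y, (C - a q)) * w y := by
    apply mul_nonneg _ (hw0 y)
    rw [sum_sub_distrib]
    have := hC y
    simp only [sum_const, Nat.card_Ioc, nsmul_eq_mul, Nat.sub_zero]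
    linarith
  have h2 := h1.trans (key y)
  have h3 : ∑ q ∈ Ioc 0 y, (C - a q) * w q = C * ∑ q ∈ Ioc 0 y, w q - ∑ q ∈ Ioc 0 y, a q * w q := by
    rw [mul_sum, ← sum_sub_distrib]
    exact sum_congr rfl fun q _ => by ring
  linarith

lemma sum_rpow_le (s : ℝ) (hs : 0 < s) (hs1 : s ≤ 1) (y : ℕ) :
    ∑ q ∈ Ioc 0 y, (q : ℝ) ^ (s - 1) ≤ (y : ℝ) ^ s / s := by
  induction y with
  | zero => simp; positivity
  | succ y ih =>
    rw [sum_Ioc_succ_top (by omega)]
    have hy0 : (0 : ℝ) < ((y + 1 : ℕ) : ℝ) := by positivity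
    have h1 : ((y : ℝ)) ^ s ≤ ((y + 1 : ℕ) : ℝ) ^ s - s * ((y + 1 : ℕ) : ℝ) ^ (s - 1) := by
      have h2 := rpow_one_add_le_one_add_mul_self (s := -(1 / ((y + 1 : ℕ) : ℝ))) (p := s)
        (by
          have : 1 / ((y + 1 : ℕ) : ℝ) ≤ 1 := by
            rw [div_le_one hy0]; push_cast; linarith [Nat.cast_nonneg (α := ℝ) y]
          linarith) hs.le hs1
      have h3 : (1 + -(1 / ((y + 1 : ℕ) : ℝ))) = (y : ℝ) / ((y + 1 : ℕ) : ℝ) := by
        push_cast; field_simp; ring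
      rw [h3, Real.div_rpow (Nat.cast_nonneg _) hy0.le, div_le_iff₀ (Real.rpow_pos_of_pos hy0 _)] at h2
      refine h2.trans (le_of_eq ?_)
      rw [Real.rpow_sub_one hy0.ne']
      field_simp
      ring
    have h4 : ((y + 1 : ℕ) : ℝ) ^ (s - 1) ≤ (((y + 1 : ℕ) : ℝ) ^ s - (y : ℝ) ^ s) / s := by
      rw [le_div_iff₀ hs]; linarith
    calc _ ≤ (y : ℝ) ^ s / s + (((y + 1 : ℕ) : ℝ) ^ s - (y : ℝ) ^ s) / s := add_le_add ih h4
      _ = _ := by ring

lemma vonMangoldt_le (m : ℕ) : ∑ q ∈ Ioc 0 m, vonMangoldt q ≤ (Real.log 4 + 4) * m := by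
  have := Chebyshev.psi_le_const_mul_self (Nat.cast_nonneg (α := ℝ) m)
  rwa [Chebyshev.psi, Nat.floor_natCast] at this

lemma vonMangoldt_rpow_le (s : ℝ) (hs : 0 < s) (hs1 : s ≤ 1) (y : ℕ) :
    ∑ q ∈ Ioc 0 y, vonMangoldt q * (q : ℝ) ^ (s - 1) ≤ (Real.log 4 + 4) * ((y : ℝ) ^ s / s) := by
  have h4 : 0 ≤ Real.log 4 := Real.log_nonneg (by norm_num)
  refine (sum_antitone_le _ _ vonMangoldt_le (fun q => (q : ℝ) ^ (s - 1)) ?_ ?_ y).trans
    (mul_le_mul_of_nonneg_left (sum_rpow_le s hs hs1 y) (by positivity))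
  · intro m hm
    have hm0 : (0 : ℝ) < m := by exact_mod_cast hm
    apply Real.rpow_le_rpow_of_nonpos hm0 _ (by linarith)
    push_cast; linarith
  · intro m; positivity

end Stoll308.Low
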