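import Mathlib

set_option autoImplicit false

/-!
Degree one primes of a number field in short multiplicative intervals: definitions.
-/

namespace Stoll308.Low

open Finset NumberField Module

variable (K : Type*) [Field K] [NumberField K]

/-- The index type of an integral basis. -/
abbrev ι := Module.Free.ChooseBasisIndex ℤ (𝓞 K)

/-- The degree of `K`. -/
noncomputable abbrev dg : ℕ := Fintype.card (ι K)

/-- The algebraic integer with coordinates `a`. -/
noncomputable def al (a : ι K → ℤ) : 𝓞 K := ∑ i, a i • RingOfIntegers.basis K i

/-- The box of integral vectors with entries at most `B` in absolute value. -/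
noncomputable def box (B : ℕ) : Finset (ι K → ℤ) := Fintype.piFinset fun _ => Icc (-(B : ℤ)) B

/-- The absolute value of the norm. -/
noncomputable def Na (a : ι K → ℤ) : ℕ := Ideal.absNorm (Ideal.span {al K a})

open Classical in
/-- The number of vectors of the box in the ideal `I`. -/
noncomputable def cnt (I : Ideal (𝓞 K)) (B : ℕ) : ℕ := ((box K B).filter fun a => al K a ∈ I).card

open Classical in
/-- The number of nonzero vectors of the box in the ideal `I`. -/
noncomputable def cnt0 (I : Ideal (𝓞 K)) (B : ℕ) : ℕ :=
  ((box K B).filter fun a => a ≠ 0 ∧ al K a ∈ I).card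

end Stoll308.Low
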