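import Pool.Agent.Work.MP_308fa9_nt.Gen.LowD

set_option autoImplicit false

/-!
Degree one primes of a number field in short multiplicative intervals: the argument, given the
counting lemmas.
-/

namespace Stoll308.Low

open Finset NumberField Module ArithmeticFunction

variable {K : Type*} [Field K] [NumberField K]

lemma pow_diff (n : ℕ) {u : ℝ} (h0 : 0 ≤ u) (h1 : u ≤ 1) :
    (1 + u) ^ n - (1 - u) ^ n ≤ 2 ^ (n + 1) * u := by
  have h2 : (1 + u) ^ n ≤ 1 + (2 ^ n - 1) * u := by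
    induction n with
    | zero => simp
    | succ n ih =>
      have hp : (1 : ℝ) ≤ 2 ^ n := one_le_pow₀ (by norm_num)
      have hu2 : u ^ 2 ≤ u := by nlinarith
      calc (1 + u) ^ (n + 1) = (1 + u) ^ n * (1 + u) := pow_succ _ _
        _ ≤ (1 + (2 ^ n - 1) * u) * (1 + u) := mul_le_mul_of_nonneg_right ih (by linarith)
        _ = 1 + 2 ^ n * u + (2 ^ n - 1) * u ^ 2 := by ring
        _ ≤ 1 + 2 ^ n * u + (2 ^ n - 1) * u := by
            have := mul_le_mul_of_nonneg_left hu2 (by linarith : (0 : ℝ) ≤ 2 ^ n - 1)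
            linarith
        _ = 1 + (2 ^ (n + 1) - 1) * u := by ring
  have h3 : 1 + (n : ℝ) * (-u) ≤ (1 + -u) ^ n := one_add_mul_le_pow (by linarith) n
  have h4 : (n : ℝ) ≤ 2 ^ n := by exact_mod_cast (Nat.lt_two_pow_self (n := n)).le
  rw [← sub_eq_add_neg] at h3
  have h5 : (2 : ℝ) ^ (n + 1) = 2 ^ n + 2 ^ n := by ring
  nlinarith

lemma cnt0_le_cnt (I : Ideal (𝓞 K)) (B : ℕ) : cnt0 K I B ≤ cnt K I B := by
  classical
  unfold cnt0 cnt
  apply card_le_card
  intro a ha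
  rw [mem_filter] at ha ⊢
  exact ⟨ha.1, ha.2.2⟩

lemma cnt_le_cnt0 (I : Ideal (𝓞 K)) (B : ℕ) : cnt K I B ≤ cnt0 K I B + 1 := by
  classical
  unfold cnt0 cnt
  have h : (box K B).filter (fun a => al K a ∈ I) ⊆
      (box K B).filter (fun a => a ≠ 0 ∧ al K a ∈ I) ∪ {0} := by
    intro a ha
    rw [mem_filter] at ha
    rw [mem_union, mem_filter, mem_singleton]
    by_cases h0 : a = 0
    · exact Or.inr h0
    · exact Or.inl ⟨ha.1, h0, ha.2⟩
  calc _ ≤ _ := card_le_card h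
    _ ≤ _ := card_union_le _ _
    _ = _ := by rw [card_singleton]

/-- Covering: every class modulo `I` has a representative in the box of size `D`. -/
def Cov (I : Ideal (𝓞 K)) (D : ℕ) : Prop :=
  ∀ g : 𝓞 K, ∃ e : ι K → ℤ, (∀ i, |e i| ≤ (D : ℤ)) ∧ g - al K e ∈ I

lemma absNorm_pos' {I : Ideal (𝓞 K)} (hI : I ≠ ⊥) : 0 < Ideal.absNorm I := by
  rw [Nat.pos_iff_ne_zero, Ne, Ideal.absNorm_eq_zero_iff]
  exact hI

/-- The comparison of the densities in two boxes. -/
lemma diff_le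
    (h5 : ∀ (I : Ideal (𝓞 K)) (D B : ℕ), I ≠ ⊥ → Cov I D →
      Ideal.absNorm I * cnt K I B ≤ (2 * (B + D) + 1) ^ dg K)
    (h6 : ∀ (I : Ideal (𝓞 K)) (D B : ℕ), I ≠ ⊥ → Cov I D → D ≤ B →
      (2 * (B - D) + 1) ^ dg K ≤ Ideal.absNorm I * cnt K I B)
    {I : Ideal (𝓞 K)} (hI : I ≠ ⊥) {b B D : ℕ} (hb : 1 ≤ b) (hbB : b ≤ B) (hD : Cov I D)
    (hDb : D ≤ b) :
    (cnt0 K I B : ℝ) / (2 * B + 1) ^ dg K - (cnt0 K I b : ℝ) / (2 * b + 1) ^ dg K ≤
      2 ^ (dg K + 1) * ((D : ℝ) / b) / Ideal.absNorm I + 1 / (b : ℝ) ^ dg K := by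
  set n := dg K
  set q := Ideal.absNorm I
  have hq : 0 < q := absNorm_pos' hI
  have hqR : (0 : ℝ) < q := by exact_mod_cast hq
  have hbR : (1 : ℝ) ≤ b := by exact_mod_cast hb
  have hBR : (b : ℝ) ≤ B := by exact_mod_cast hbB
  have hDR : (D : ℝ) ≤ b := by exact_mod_cast hDb
  have hD0 : (0 : ℝ) ≤ D := Nat.cast_nonneg _
  set u : ℝ := 2 * D / (2 * b + 1) with hu
  have hu0 : 0 ≤ u := by positivity
  have hu1 : u ≤ 1 := by
    rw [hu, div_le_one (by positivity)]; linarith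
  have hub : u ≤ D / b := by
    rw [hu, div_le_div_iff₀ (by positivity) (by positivity)]; nlinarith
  -- upper bound
  have e1 : (cnt0 K I B : ℝ) / (2 * B + 1) ^ n ≤ (1 + u) ^ n / q := by
    have h1 : (q : ℝ) * cnt0 K I B ≤ (2 * (B + D) + 1) ^ n := by
      have h2 := (Nat.mul_le_mul_left q (cnt0_le_cnt I B)).trans (h5 I D B hI hD)
      exact_mod_cast h2
    rw [div_le_div_iff₀ (by positivity) hqR]
    have h3 : (2 * ((B : ℝ) + D) + 1) ≤ (1 + u) * (2 * B + 1) := by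
      have h4 : 2 * (D : ℝ) = u * (2 * b + 1) := by
        rw [hu]; field_simp
      nlinarith
    calc (cnt0 K I B : ℝ) * q = q * cnt0 K I B := mul_comm _ _
      _ ≤ (2 * ((B : ℝ) + D) + 1) ^ n := h1
      _ ≤ ((1 + u) * (2 * B + 1)) ^ n := pow_le_pow_left₀ (by positivity) h3 n
      _ = _ := mul_pow _ _ _
  -- lower bound
  have e2 : (1 - u) ^ n / q - 1 / (b : ℝ) ^ n ≤ (cnt0 K I b : ℝ) / (2 * b + 1) ^ n := by
    have h1 : ((2 * ((b : ℝ) - D) + 1)) ^ n ≤ q * (cnt0 K I b + 1) := by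
      have h2 := (h6 I D b hI hD hDb).trans (Nat.mul_le_mul_left q (cnt_le_cnt0 I b))
      have h3 : (((2 * (b - D) + 1) ^ n : ℕ) : ℝ) ≤ ((q * (cnt0 K I b + 1) : ℕ) : ℝ) := by
        exact_mod_cast h2
      push_cast [Nat.cast_sub hDb] at h3
      exact h3
    have h3 : (2 * ((b : ℝ) - D) + 1) = (1 - u) * (2 * b + 1) := by
      have h4 : 2 * (D : ℝ) = u * (2 * b + 1) := by
        rw [hu]; field_simp
      linear_combination (-1 : ℝ) * h4
    rw [h3, mul_pow] at h1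
    have hpos : (0 : ℝ) < (2 * b + 1) ^ n := by positivity
    have h5' : (1 - u) ^ n / q ≤ (cnt0 K I b + 1) / (2 * b + 1) ^ n := by
      rw [div_le_div_iff₀ hqR hpos]
      linarith
    have h6' : 1 / (2 * (b : ℝ) + 1) ^ n ≤ 1 / (b : ℝ) ^ n := by
      apply one_div_le_one_div_of_le (by positivity)
      exact pow_le_pow_left₀ (by positivity) (by linarith) n
    rw [add_div] at h5'
    linarith
  have e3 := pow_diff n hu0 hu1
  have e4 : ((1 + u) ^ n - (1 - u) ^ n) / q ≤ 2 ^ (n + 1) * ((D : ℝ) / b) / q := by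
    apply div_le_div_of_nonneg_right _ hqR.le
    refine e3.trans ?_
    exact mul_le_mul_of_nonneg_left hub (by positivity)
  rw [sub_div] at e4
  linarith

lemma card_box' (B : ℕ) : (box K B).card = (2 * B + 1) ^ dg K := by
  unfold box
  rw [Fintype.card_piFinset, prod_const, card_univ, Int.card_Icc]
  congr 1
  omega

lemma Na_le_of_mem_pow {P : Ideal (𝓞 K)} {k : ℕ} {a : ι K → ℤ} (ha : a ≠ 0)
    (h : al K a ∈ P ^ k) : Ideal.absNorm P ^ k ≤ Na K a := by
  have h1 : Ideal.absNorm (P ^ k) ∣ Na K a := by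
    unfold Na
    apply Ideal.absNorm_dvd_absNorm_of_le
    rw [Ideal.span_singleton_le_iff_mem]
    exact h
  rw [map_pow] at h1
  exact Nat.le_of_dvd (Na_pos' ha) h1

/-- The integers which are norms of prime ideal powers. -/
def PPn (K : Type*) [Field K] [NumberField K] (q : ℕ) : Prop :=
  ∃ (P : Ideal (𝓞 K)) (k : ℕ), P.IsPrime ∧ P ≠ ⊥ ∧ 1 ≤ k ∧ Ideal.absNorm P ^ k = q

/-- The main inequality. -/
lemma main_ineq
    {C₀ : ℕ} (hC₀ : 1 ≤ C₀) (h1 : ∀ B : ℕ, ∀ a ∈ box K B, Na K a ≤ C₀ * B ^ dg K)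
    {C₁ : ℝ} (h2 : ∀ B : ℕ, 1 ≤ B → ((2 * B + 1 : ℝ) ^ dg K) * (dg K * Real.log B - C₁) ≤
      ∑ a ∈ (box K B).filter (fun a => a ≠ 0), Real.log (Na K a))
    {C₂ : ℝ} (hC₂ : 0 < C₂) (h3 : ∀ I : Ideal (𝓞 K), I ≠ ⊥ → ∀ B : ℕ,
      (cnt0 K I B : ℝ) ≤ C₂ * (2 * B + 1 : ℝ) ^ dg K / Ideal.absNorm I)
    {C₃ : ℕ} (hC₃ : 1 ≤ C₃) (h4 : ∀ (I : Ideal (𝓞 K)), I ≠ ⊥ → ∀ m : ℕ,
      Ideal.absNorm I ≤ m ^ dg K → Cov I (C₃ * m))
    (h5 : ∀ (I : Ideal (𝓞 K)) (D B : ℕ), I ≠ ⊥ → Cov I D →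
      Ideal.absNorm I * cnt K I B ≤ (2 * (B + D) + 1) ^ dg K)
    (h6 : ∀ (I : Ideal (𝓞 K)) (D B : ℕ), I ≠ ⊥ → Cov I D → D ≤ B →
      (2 * (B - D) + 1) ^ dg K ≤ Ideal.absNorm I * cnt K I B)
    [DecidablePred (PPn K)] {b J : ℕ} (hb : 1 ≤ b) (hJ : 1 ≤ J) :
    dg K * Real.log J - C₁ - Real.log C₀ -
        (dg K : ℝ) ^ 2 * (2 ^ (dg K + 1) * (Real.log 4 + 4) * dg K + (Real.log 4 + 4)) ≤
      (dg K : ℝ) ^ 2 * (C₂ * ∑ q ∈ ((Ioc 0 (C₀ * (J * b) ^ dg K)).filter (PPn K)).filter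
        (fun q => (b / (2 * C₃)) ^ dg K < q), vonMangoldt q / q) := by
  classical
  set n := dg K with hn
  have hn1 : 1 ≤ n := dg_pos' K
  have hnR : (1 : ℝ) ≤ n := by exact_mod_cast hn1
  set B := J * b with hB
  set x := C₀ * B ^ n with hx
  set m := b / (2 * C₃) with hm
  set y := m ^ n with hy
  set s : ℝ := 1 / n with hs
  have hs0 : 0 < s := by positivity
  have hs1 : s ≤ 1 := by rw [hs, div_le_one (by linarith)]; exact hnR
  have hlog4 : 0 ≤ Real.log 4 := Real.log_nonneg (by norm_num)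
  have hbB : b ≤ B := Nat.le_mul_of_pos_left b (by omega)
  have hB1 : 1 ≤ B := hb.trans hbB
  have hbR : (1 : ℝ) ≤ b := by exact_mod_cast hb
  have hBR : (1 : ℝ) ≤ B := by exact_mod_cast hB1
  have hC₃R : (1 : ℝ) ≤ C₃ := by exact_mod_cast hC₃
  have hmb : m ≤ b := Nat.div_le_self _ _
  have h2m : 2 * C₃ * m ≤ b := by rw [hm]; exact Nat.mul_div_le b (2 * C₃)
  have hyx : y ≤ x := by
    calc y = m ^ n := rfl
      _ ≤ B ^ n := Nat.pow_le_pow_left (hmb.trans hbB) n
      _ ≤ C₀ * B ^ n := Nat.le_mul_of_pos_left _ (by omega)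
  have hxB : ∀ a ∈ box K B, Na K a ≤ x := h1 B
  have hxb : ∀ a ∈ box K b, Na K a ≤ x := fun a ha =>
    (h1 b a ha).trans (Nat.mul_le_mul_left _ (Nat.pow_le_pow_left hbB n))
  have hSB := sum_log_eq hxB
  have hSb := sum_log_eq hxb
  -- the upper bound for the small box
  have hup : ∑ a ∈ (box K b).filter (fun a => a ≠ 0), Real.log (Na K a) ≤
      (2 * (b : ℝ) + 1) ^ n * (Real.log C₀ + n * Real.log b) := by
    have hterm : ∀ a ∈ (box K b).filter (fun a => a ≠ 0),
        Real.log (Na K a) ≤ Real.log C₀ + n * Real.log b := by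
      intro a ha
      rw [mem_filter] at ha
      have h7 : (Na K a : ℝ) ≤ C₀ * (b : ℝ) ^ n := by exact_mod_cast h1 b a ha.1
      have h8 : (0 : ℝ) < Na K a := by exact_mod_cast Na_pos' ha.2
      have h9 : (0 : ℝ) < C₀ := by exact_mod_cast (by omega : 0 < C₀)
      calc Real.log (Na K a) ≤ Real.log (C₀ * (b : ℝ) ^ n) := Real.log_le_log h8 h7
        _ = _ := by rw [Real.log_mul h9.ne' (by positivity), Real.log_pow]
    refine (sum_le_card_nsmul _ _ _ hterm).trans ?_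
    rw [nsmul_eq_mul]
    apply mul_le_mul_of_nonneg_right
    · have h7 := card_le_card (filter_subset (fun a => a ≠ 0) (box K b))
      rw [card_box'] at h7
      exact_mod_cast h7
    · have h9 : (1 : ℝ) ≤ C₀ := by exact_mod_cast hC₀
      have := Real.log_nonneg h9
      have := Real.log_nonneg hbR
      positivity
  have hlow := h2 B hB1
  have hpB : (0 : ℝ) < (2 * (B : ℝ) + 1) ^ n := by positivity
  have hpb : (0 : ℝ) < (2 * (b : ℝ) + 1) ^ n := by positivity
  -- the weight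
  set φ₁ : ℕ → ℝ := fun q => 2 ^ (n + 2) * C₃ / b * (q : ℝ) ^ (s - 1) + 1 / (b : ℝ) ^ n with hφ₁
  set φ : ℕ → ℝ := fun q => if q ≤ y then φ₁ q else if q ≤ x then C₂ / q else 0 with hφ
  have hφ₁0 : ∀ q, 0 ≤ φ₁ q := fun q => by positivity
  have hφ0 : ∀ q, 0 ≤ φ q := by
    intro q
    simp only [hφ]
    split_ifs
    · exact hφ₁0 q
    · positivity
    · exact le_rfl
  have hφx : ∀ q, x < q → φ q = 0 := by
    intro q hq
    simp only [hφ]
    rw [if_neg (by omega), if_neg (by omega)]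
  -- the comparison for one prime power
  have hcmp : ∀ P ∈ Pr K x, ∀ k ∈ Icc 1 x,
      (cnt0 K (P ^ k) B : ℝ) / (2 * B + 1) ^ n - (cnt0 K (P ^ k) b : ℝ) / (2 * b + 1) ^ n ≤
        φ (Ideal.absNorm P ^ k) := by
    intro P hP k hk
    obtain ⟨-, hPp, hP0⟩ := mem_Pr.1 hP
    rw [mem_Icc] at hk
    have hI : P ^ k ≠ ⊥ := pow_ne_zero k hP0
    have hNI : Ideal.absNorm (P ^ k) = Ideal.absNorm P ^ k := map_pow _ _ _
    set q := Ideal.absNorm P ^ k with hq
    have hq1 : 1 ≤ q := Nat.one_le_pow _ _ (by have := two_le_absNorm hPp hP0; omega)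
    have hqR : (1 : ℝ) ≤ q := by exact_mod_cast hq1
    have hcb : (0 : ℝ) ≤ (cnt0 K (P ^ k) b : ℝ) / (2 * b + 1) ^ n := by positivity
    by_cases hqy : q ≤ y
    · simp only [hφ]
      rw [if_pos hqy]
      set mq := ⌈(q : ℝ) ^ s⌉₊ with hmq
      have hqs1 : 1 ≤ (q : ℝ) ^ s := Real.one_le_rpow hqR hs0.le
      have h7 : q ≤ mq ^ n := by
        have h8 : (q : ℝ) ^ s ≤ mq := Nat.le_ceil _
        have h9 : ((q : ℝ) ^ s) ^ n = q := by
          rw [← Real.rpow_natCast, ← Real.rpow_mul (by linarith), hs,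
            one_div_mul_cancel (by linarith), Real.rpow_one]
        have h10 : ((q : ℝ) ^ s) ^ n ≤ (mq : ℝ) ^ n := pow_le_pow_left₀ (by positivity) h8 n
        rw [h9] at h10
        exact_mod_cast h10
      have h8 : mq ≤ m := by
        apply Nat.ceil_le.2
        have h9 : (q : ℝ) ≤ (m : ℝ) ^ n := by exact_mod_cast hqy
        calc (q : ℝ) ^ s ≤ ((m : ℝ) ^ n) ^ s := Real.rpow_le_rpow (by linarith) h9 hs0.le
          _ = m := by
            rw [← Real.rpow_natCast, ← Real.rpow_mul (Nat.cast_nonneg _), hs,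
              mul_one_div_cancel (by linarith), Real.rpow_one]
      have h9 : C₃ * mq ≤ b := by
        calc C₃ * mq ≤ C₃ * m := Nat.mul_le_mul_left _ h8
          _ ≤ 2 * C₃ * m := by nlinarith
          _ ≤ b := h2m
      have h10 := diff_le h5 h6 hI hb hbB (h4 _ hI mq (by rw [hNI]; exact h7)) h9
      rw [hNI] at h10
      refine h10.trans ?_
      simp only [hφ₁]
      apply add_le_add _ le_rfl
      have h11 : (mq : ℝ) ≤ 2 * (q : ℝ) ^ s := by
        have := (Nat.ceil_lt_add_one (by positivity : 0 ≤ (q : ℝ) ^ s)).le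
        linarith
      rw [Real.rpow_sub_one (by linarith)]
      push_cast
      rw [div_le_iff₀ (by linarith)]
      have h12 : (2 : ℝ) ^ (n + 2) = 2 * 2 ^ (n + 1) := by ring
      rw [h12]
      calc (2 : ℝ) ^ (n + 1) * (C₃ * mq / b) ≤ 2 ^ (n + 1) * (C₃ * (2 * (q : ℝ) ^ s) / b) := by
            gcongr
        _ = _ := by
            have : (q : ℝ) ≠ 0 := by linarith
            have : (b : ℝ) ≠ 0 := by linarith
            field_simp
    · by_cases hqx : q ≤ x
      · simp only [hφ]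
        rw [if_neg hqy, if_pos hqx]
        have h7 := h3 _ hI B
        rw [hNI] at h7
        have h8 : (cnt0 K (P ^ k) B : ℝ) / (2 * B + 1) ^ n ≤ C₂ / q := by
          rw [div_le_div_iff₀ hpB (by linarith)]
          rw [le_div_iff₀ (by linarith)] at h7
          exact h7
        linarith
      · simp only [hφ]
        rw [if_neg hqy, if_neg hqx]
        have h7 : cnt0 K (P ^ k) B = 0 := by
          unfold cnt0
          rw [card_eq_zero, filter_eq_empty_iff]
          rintro a ha ⟨ha0, ham⟩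
          exact hqx ((Na_le_of_mem_pow ha0 ham).trans (hxB a ha))
        rw [h7]
        simp only [Nat.cast_zero, zero_div]
        linarith
  -- the sum
  have hmain : (n * Real.log B - C₁) - (Real.log C₀ + n * Real.log b) ≤
      ∑ P ∈ Pr K x, ∑ k ∈ Icc 1 x, Real.log (Ideal.absNorm P) * φ (Ideal.absNorm P ^ k) := by
    have e1 : n * Real.log B - C₁ ≤ (∑ P ∈ Pr K x, ∑ k ∈ Icc 1 x,
        (cnt0 K (P ^ k) B : ℝ) * Real.log (Ideal.absNorm P)) / (2 * B + 1) ^ n := by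
      rw [← hSB, le_div_iff₀ hpB, mul_comm]
      exact hlow
    have e2 : (∑ P ∈ Pr K x, ∑ k ∈ Icc 1 x,
        (cnt0 K (P ^ k) b : ℝ) * Real.log (Ideal.absNorm P)) / (2 * b + 1) ^ n ≤
          Real.log C₀ + n * Real.log b := by
      rw [← hSb, div_le_iff₀ hpb, mul_comm]
      exact hup
    calc (n * Real.log B - C₁) - (Real.log C₀ + n * Real.log b)
        ≤ (∑ P ∈ Pr K x, ∑ k ∈ Icc 1 x,
            (cnt0 K (P ^ k) B : ℝ) * Real.log (Ideal.absNorm P)) / (2 * B + 1) ^ n -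
          (∑ P ∈ Pr K x, ∑ k ∈ Icc 1 x,
            (cnt0 K (P ^ k) b : ℝ) * Real.log (Ideal.absNorm P)) / (2 * b + 1) ^ n := by
          linarith
      _ = ∑ P ∈ Pr K x, ∑ k ∈ Icc 1 x, Real.log (Ideal.absNorm P) *
            ((cnt0 K (P ^ k) B : ℝ) / (2 * B + 1) ^ n -
              (cnt0 K (P ^ k) b : ℝ) / (2 * b + 1) ^ n) := by
          rw [sum_div, sum_div, ← sum_sub_distrib]
          refine sum_congr rfl fun P _ => ?_
          rw [sum_div, sum_div, ← sum_sub_distrib]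
          refine sum_congr rfl fun k _ => ?_
          ring
      _ ≤ _ := by
          refine sum_le_sum fun P hP => sum_le_sum fun k hk => ?_
          exact mul_le_mul_of_nonneg_left (hcmp P hP k hk) (Real.log_natCast_nonneg _)
  have hpp := sum_pp_le (K := K) φ hφ0 x x hφx (PPn K)
    (fun P hP hP0 k hk => ⟨P, k, hP, hP0, hk, rfl⟩)
  -- splitting
  have hsplit : ∑ q ∈ (Ioc 0 x).filter (PPn K), vonMangoldt q * φ q ≤
      ∑ q ∈ Ioc 0 y, vonMangoldt q * φ₁ q +
        C₂ * ∑ q ∈ ((Ioc 0 x).filter (PPn K)).filter (fun q => y < q), vonMangoldt q / q := by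
    rw [← sum_filter_add_sum_filter_not ((Ioc 0 x).filter (PPn K)) (fun q => q ≤ y)]
    apply add_le_add
    · calc ∑ q ∈ ((Ioc 0 x).filter (PPn K)).filter (fun q => q ≤ y), vonMangoldt q * φ q
          = ∑ q ∈ ((Ioc 0 x).filter (PPn K)).filter (fun q => q ≤ y), vonMangoldt q * φ₁ q := by
            refine sum_congr rfl fun q hq => ?_
            simp only [hφ]
            rw [if_pos (mem_filter.1 hq).2]
        _ ≤ _ := by
            apply sum_le_sum_of_subset_of_nonneg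
            · intro q hq
              rw [mem_filter, mem_filter, mem_Ioc] at hq
              rw [mem_Ioc]
              exact ⟨hq.1.1.1, hq.2⟩
            · intro q _ _
              exact mul_nonneg vonMangoldt_nonneg (hφ₁0 q)
    · rw [mul_sum]
      have h7 : ((Ioc 0 x).filter (PPn K)).filter (fun q => ¬ q ≤ y) =
          ((Ioc 0 x).filter (PPn K)).filter (fun q => y < q) := by
        apply filter_congr
        intro q _
        exact not_le
      rw [h7]
      refine sum_le_sum fun q hq => ?_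
      rw [mem_filter, mem_filter, mem_Ioc] at hq
      simp only [hφ]
      rw [if_neg (not_le.2 hq.2), if_pos hq.1.1.2]
      apply le_of_eq
      ring
  -- the small part
  have hsmall : ∑ q ∈ Ioc 0 y, vonMangoldt q * φ₁ q ≤
      2 ^ (n + 1) * (Real.log 4 + 4) * n + (Real.log 4 + 4) := by
    have e1 : ∑ q ∈ Ioc 0 y, vonMangoldt q * φ₁ q =
        2 ^ (n + 2) * C₃ / b * ∑ q ∈ Ioc 0 y, vonMangoldt q * (q : ℝ) ^ (s - 1) +
          1 / (b : ℝ) ^ n * ∑ q ∈ Ioc 0 y, vonMangoldt q := by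
      rw [mul_sum, mul_sum, ← sum_add_distrib]
      refine sum_congr rfl fun q _ => ?_
      simp only [hφ₁]
      ring
    rw [e1]
    have e2 := vonMangoldt_rpow_le s hs0 hs1 y
    have e3 := vonMangoldt_le y
    have e4 : (y : ℝ) ^ s = m := by
      rw [hy]
      push_cast
      rw [← Real.rpow_natCast, ← Real.rpow_mul (Nat.cast_nonneg _), hs,
        mul_one_div_cancel (by linarith), Real.rpow_one]
    have e5 : (2 : ℝ) * C₃ * m ≤ b := by exact_mod_cast h2m
    have e6 : (y : ℝ) ≤ (b : ℝ) ^ n := by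
      rw [hy]
      push_cast
      exact pow_le_pow_left₀ (Nat.cast_nonneg _) (by exact_mod_cast hmb) n
    apply add_le_add
    · calc 2 ^ (n + 2) * C₃ / b * ∑ q ∈ Ioc 0 y, vonMangoldt q * (q : ℝ) ^ (s - 1)
          ≤ 2 ^ (n + 2) * C₃ / b * ((Real.log 4 + 4) * ((y : ℝ) ^ s / s)) :=
            mul_le_mul_of_nonneg_left e2 (by positivity)
        _ = (2 ^ (n + 1) * (Real.log 4 + 4) * n) * (2 * C₃ * m / b) := by
            rw [e4, hs]
            field_simp
            ring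
        _ ≤ (2 ^ (n + 1) * (Real.log 4 + 4) * n) * 1 := by
            apply mul_le_mul_of_nonneg_left _ (by positivity)
            rw [div_le_one (by linarith)]
            exact e5
        _ = _ := mul_one _
    · calc 1 / (b : ℝ) ^ n * ∑ q ∈ Ioc 0 y, vonMangoldt q
          ≤ 1 / (b : ℝ) ^ n * ((Real.log 4 + 4) * y) := mul_le_mul_of_nonneg_left e3 (by positivity)
        _ = (Real.log 4 + 4) * (y / (b : ℝ) ^ n) := by ring
        _ ≤ (Real.log 4 + 4) * 1 := by
            apply mul_le_mul_of_nonneg_left _ (by positivity)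
            rw [div_le_one (by positivity)]
            exact e6
        _ = _ := mul_one _
  have hlogB : Real.log B = Real.log J + Real.log b := by
    rw [hB]
    push_cast
    have hJ0 : (J : ℝ) ≠ 0 := by exact_mod_cast (by omega : J ≠ 0)
    rw [Real.log_mul hJ0 (by linarith)]
  have hn2 : (0 : ℝ) ≤ (n : ℝ) ^ 2 := by positivity
  have hfin := (hmain.trans hpp).trans (mul_le_mul_of_nonneg_left
    (hsplit.trans (add_le_add hsmall le_rfl)) hn2)
  rw [hlogB] at hfin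
  rw [mul_add] at hfin
  linarith

end Stoll308.Low
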