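import Pool.Agent.Work.MP_308fa9_nt.Gen.LowE

set_option autoImplicit false

/-!
Degree one primes of a number field in `(X/M, X]`, given the counting lemmas.
-/

namespace Stoll308.Low

open Finset NumberField Module ArithmeticFunction

variable {K : Type*} [Field K] [NumberField K]

lemma aK_ne_zero_of_PPn {q : ℕ} (hq : q.Prime) (h : PPn K q) : Cheb.aK K q ≠ 0 := by
  obtain ⟨P, k, hP, hP0, hk, hPk⟩ := h
  have h2 := two_le_absNorm hP hP0
  have hk1 : k = 1 := by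
    rw [← hPk] at hq
    exact (Nat.Prime.eq_one_of_pow hq)
  rw [hk1, pow_one] at hPk
  unfold Cheb.aK
  have hfin : Finite {I : Ideal (𝓞 K) // Ideal.absNorm I = q} := by
    have := Ideal.finite_setOf_absNorm_eq (S := 𝓞 K) q
    exact this
  have hne : Nonempty {I : Ideal (𝓞 K) // Ideal.absNorm I = q} := ⟨⟨P, hPk⟩⟩
  exact (Nat.card_pos).ne'

/-- The primes of degree one in `(X/M, X]`. -/
theorem primes_of_counts
    (h1 : ∃ C₀ : ℕ, 1 ≤ C₀ ∧ ∀ B : ℕ, ∀ a ∈ box K B, Na K a ≤ C₀ * B ^ dg K)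
    (h2 : ∃ C₁ : ℝ, ∀ B : ℕ, 1 ≤ B → ((2 * B + 1 : ℝ) ^ dg K) * (dg K * Real.log B - C₁) ≤
      ∑ a ∈ (box K B).filter (fun a => a ≠ 0), Real.log (Na K a))
    (h3 : ∃ C₂ : ℝ, 0 < C₂ ∧ ∀ I : Ideal (𝓞 K), I ≠ ⊥ → ∀ B : ℕ,
      (cnt0 K I B : ℝ) ≤ C₂ * (2 * B + 1 : ℝ) ^ dg K / Ideal.absNorm I)
    (h4 : ∃ C₃ : ℕ, 1 ≤ C₃ ∧ ∀ (I : Ideal (𝓞 K)), I ≠ ⊥ → ∀ m : ℕ,
      Ideal.absNorm I ≤ m ^ dg K → Cov I (C₃ * m))
    (h5 : ∀ (I : Ideal (𝓞 K)) (D B : ℕ), I ≠ ⊥ → Cov I D →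
      Ideal.absNorm I * cnt K I B ≤ (2 * (B + D) + 1) ^ dg K)
    (h6 : ∀ (I : Ideal (𝓞 K)) (D B : ℕ), I ≠ ⊥ → Cov I D → D ≤ B →
      (2 * (B - D) + 1) ^ dg K ≤ Ideal.absNorm I * cnt K I B) :
    ∃ M : ℕ, 1 ≤ M ∧ ∃ X₀ : ℕ, ∀ X : ℕ, X₀ ≤ X →
      (X : ℝ) / (M * Real.log X) ≤
        (((Ioc (X / M) X).filter (fun p => p.Prime ∧ Cheb.aK K p ≠ 0)).card : ℝ) := by
  classical
  obtain ⟨C₀, hC₀, h1⟩ := h1
  obtain ⟨C₁, h2⟩ := h2
  obtain ⟨C₂, hC₂, h3⟩ := h3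
  obtain ⟨C₃, hC₃, h4⟩ := h4
  obtain ⟨C₆, hC₆, h7⟩ := AP.prime_powers
  set n := dg K with hn
  have hn1 : 1 ≤ n := dg_pos' K
  have hnR : (1 : ℝ) ≤ n := by exact_mod_cast hn1
  set T : ℝ := C₁ + Real.log C₀ +
    (n : ℝ) ^ 2 * (2 ^ (n + 1) * (Real.log 4 + 4) * n + (Real.log 4 + 4)) +
      (n : ℝ) ^ 2 * (C₂ * (C₆ + 1)) with hT
  obtain ⟨J, hJ1, hJ⟩ : ∃ J : ℕ, 1 ≤ J ∧ T ≤ Real.log J := by
    obtain ⟨J, hJ⟩ := exists_nat_ge (Real.exp T)
    have hJ0 : (0 : ℝ) < J := lt_of_lt_of_le (Real.exp_pos _) hJ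
    refine ⟨J, by exact_mod_cast hJ0, ?_⟩
    rw [Real.le_log_iff_exp_le hJ0]
    exact hJ
  have hJR : (1 : ℝ) ≤ J := by exact_mod_cast hJ1
  have hJn : T ≤ n * Real.log J := by
    have := Real.log_nonneg hJR
    nlinarith
  -- the sum over primes
  have hsum : ∀ b : ℕ, 1 ≤ b → 1 ≤ ∑ q ∈ (Ioc ((b / (2 * C₃)) ^ n) (C₀ * (J * b) ^ n)).filter
      (fun p => p.Prime ∧ Cheb.aK K p ≠ 0), Real.log q / q := by
    intro b hb
    have e1 := main_ineq hC₀ h1 h2 hC₂ h3 hC₃ h4 h5 h6 hb hJ1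
    rw [← hn] at e1
    set S := ((Ioc 0 (C₀ * (J * b) ^ n)).filter (PPn K)).filter
      (fun q => (b / (2 * C₃)) ^ n < q) with hS
    have e2 : C₆ + 1 ≤ ∑ q ∈ S, vonMangoldt q / q := by
      have e3 : (n : ℝ) ^ 2 * (C₂ * (C₆ + 1)) ≤ (n : ℝ) ^ 2 * (C₂ * ∑ q ∈ S, vonMangoldt q / q) := by
        linarith
      have e4 : (0 : ℝ) < (n : ℝ) ^ 2 := by positivity
      have e5 := le_of_mul_le_mul_left e3 e4
      exact le_of_mul_le_mul_left e5 hC₂
    rw [← sum_filter_add_sum_filter_not S Nat.Prime] at e2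
    have e3 : ∑ q ∈ S.filter (fun q => ¬ q.Prime), vonMangoldt q / q ≤ C₆ := by
      refine le_trans ?_ (h7 (C₀ * (J * b) ^ n))
      apply sum_le_sum_of_subset_of_nonneg
      · intro q hq
        rw [hS, mem_filter, mem_filter, mem_filter] at hq
        rw [mem_filter]
        exact ⟨hq.1.1.1, hq.2⟩
      · intro q _ _
        have := vonMangoldt_nonneg (n := q)
        positivity
    have e4 : ∑ q ∈ S.filter Nat.Prime, vonMangoldt q / q ≤
        ∑ q ∈ (Ioc ((b / (2 * C₃)) ^ n) (C₀ * (J * b) ^ n)).filter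
          (fun p => p.Prime ∧ Cheb.aK K p ≠ 0), Real.log q / q := by
      calc ∑ q ∈ S.filter Nat.Prime, vonMangoldt q / q
          = ∑ q ∈ S.filter Nat.Prime, Real.log q / q := by
            refine sum_congr rfl fun q hq => ?_
            rw [vonMangoldt_apply_prime (mem_filter.1 hq).2]
        _ ≤ _ := by
            apply sum_le_sum_of_subset_of_nonneg
            · intro q hq
              rw [hS, mem_filter, mem_filter, mem_filter, mem_Ioc] at hq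
              rw [mem_filter, mem_Ioc]
              exact ⟨⟨hq.1.2, hq.1.1.1.2⟩, hq.2, aK_ne_zero_of_PPn hq.2 hq.1.1.2⟩
            · intro q _ _
              have := Real.log_natCast_nonneg q
              positivity
    linarith
  -- the choice of b
  set M := C₀ * (8 * J * C₃) ^ n with hM
  have hM1 : 1 ≤ M := Nat.one_le_iff_ne_zero.2 (by positivity)
  refine ⟨M, hM1, max (C₀ * (J * (2 * C₃)) ^ n) 3, fun X hX => ?_⟩
  have hX1 : C₀ * (J * (2 * C₃)) ^ n ≤ X := le_trans (le_max_left _ _) hX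
  have hX3 : 3 ≤ X := le_trans (le_max_right _ _) hX
  have hX3R : (3 : ℝ) ≤ X := by exact_mod_cast hX3
  have hex : ∃ c : ℕ, X < C₀ * (J * c) ^ n := by
    refine ⟨X + 1, ?_⟩
    calc X < X + 1 := Nat.lt_succ_self _
      _ ≤ (X + 1) ^ n := Nat.le_self_pow (by omega) _
      _ ≤ (J * (X + 1)) ^ n := Nat.pow_le_pow_left (Nat.le_mul_of_pos_left _ (by omega)) _
      _ ≤ _ := Nat.le_mul_of_pos_left _ (by omega)
  set c := Nat.find hex with hc
  have hc1 : X < C₀ * (J * c) ^ n := Nat.find_spec hex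
  have hc2 : 2 * C₃ < c := by
    by_contra hcon
    rw [not_lt] at hcon
    have h8 : C₀ * (J * c) ^ n ≤ C₀ * (J * (2 * C₃)) ^ n :=
      Nat.mul_le_mul_left _ (Nat.pow_le_pow_left (Nat.mul_le_mul_left _ hcon) _)
    omega
  obtain ⟨b, hbc⟩ : ∃ b : ℕ, c = b + 1 := ⟨c - 1, by omega⟩
  have hb2 : 2 * C₃ ≤ b := by omega
  have hb1 : 1 ≤ b := by omega
  have hbX : C₀ * (J * b) ^ n ≤ X := by
    have h8 := Nat.find_min hex (m := b) (by omega)
    omega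
  set m := b / (2 * C₃) with hm
  have hm1 : 1 ≤ m := (Nat.one_le_div_iff (by omega)).2 hb2
  have hbm : b ≤ 4 * C₃ * m := by
    have h8 : b < 2 * C₃ * (m + 1) := Nat.lt_mul_div_succ b (by omega)
    have h9 : 2 * C₃ * (m + 1) ≤ 4 * C₃ * m := by nlinarith
    omega
  have hXM : X < M * m ^ n := by
    calc X < C₀ * (J * c) ^ n := hc1
      _ ≤ C₀ * (8 * J * C₃ * m) ^ n := by
          apply Nat.mul_le_mul_left
          apply Nat.pow_le_pow_left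
          calc J * c ≤ J * (2 * b) := Nat.mul_le_mul_left _ (by omega)
            _ ≤ J * (2 * (4 * C₃ * m)) := by gcongr
            _ = 8 * J * C₃ * m := by ring
      _ = M * m ^ n := by rw [hM, mul_pow (8 * J * C₃)]; ring
  have hsub : (Ioc (m ^ n) (C₀ * (J * b) ^ n)).filter (fun p => p.Prime ∧ Cheb.aK K p ≠ 0) ⊆
      (Ioc (X / M) X).filter (fun p => p.Prime ∧ Cheb.aK K p ≠ 0) := by
    apply filter_subset_filter
    apply Ioc_subset_Ioc _ hbX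
    exact (Nat.div_lt_of_lt_mul hXM).le
  have hlogX : 0 < Real.log X := Real.log_pos (by linarith)
  have hy0 : (0 : ℝ) < (m : ℝ) ^ n := by
    have : (0 : ℝ) < m := by exact_mod_cast hm1
    positivity
  have hcount : 1 ≤ (((Ioc (m ^ n) (C₀ * (J * b) ^ n)).filter
      (fun p => p.Prime ∧ Cheb.aK K p ≠ 0)).card : ℝ) * (Real.log X / (m : ℝ) ^ n) := by
    refine (hsum b hb1).trans ?_
    rw [← nsmul_eq_mul]
    apply sum_le_card_nsmul
    intro q hq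
    rw [mem_filter, mem_Ioc] at hq
    have hq1 : (m : ℝ) ^ n < q := by exact_mod_cast hq.1.1
    have hqX : (q : ℝ) ≤ X := by exact_mod_cast hq.1.2.trans hbX
    have hq0 : (0 : ℝ) < q := hy0.trans hq1
    exact div_le_div₀ hlogX.le (Real.log_le_log hq0 hqX) hy0 hq1.le
  have hcard : (((Ioc (m ^ n) (C₀ * (J * b) ^ n)).filter
      (fun p => p.Prime ∧ Cheb.aK K p ≠ 0)).card : ℝ) ≤
      (((Ioc (X / M) X).filter (fun p => p.Prime ∧ Cheb.aK K p ≠ 0)).card : ℝ) := by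
    exact_mod_cast card_le_card hsub
  refine le_trans ?_ hcard
  have hMR : (0 : ℝ) < M := by exact_mod_cast hM1
  rw [div_le_iff₀ (by positivity)]
  have hXMR : (X : ℝ) ≤ M * (m : ℝ) ^ n := by exact_mod_cast hXM.le
  have h8 : (m : ℝ) ^ n ≤ (((Ioc (m ^ n) (C₀ * (J * b) ^ n)).filter
      (fun p => p.Prime ∧ Cheb.aK K p ≠ 0)).card : ℝ) * Real.log X := by
    rw [mul_div_assoc', le_div_iff₀ hy0, one_mul] at hcount
    exact hcount
  calc (X : ℝ) ≤ M * (m : ℝ) ^ n := hXMR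
    _ ≤ M * ((((Ioc (m ^ n) (C₀ * (J * b) ^ n)).filter
      (fun p => p.Prime ∧ Cheb.aK K p ≠ 0)).card : ℝ) * Real.log X) :=
        mul_le_mul_of_nonneg_left h8 hMR.le
    _ = _ := by ring

end Stoll308.Low
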