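import Pool.Agent.Work.MP_308fa9_nt.Gen.LowF
import Pool.Agent.Work.MP_308fa9_nt.Gen.LowB
import Pool.Agent.Work.MP_308fa9_nt.Gen.ElsT
import Pool.Agent.Work.MP_308fa9_nt.ChebE

set_option autoImplicit false

/-!
Primes with a root of `f` in `(y/M, y]`, and the lower bound for the number of everywhere locally
soluble twists.
-/

namespace Stoll308.Low

open Finset NumberField Module Polynomial

section field

variable (K : Type*) [Field K] [NumberField K]

theorem cov' : ∃ C₃ : ℕ, 1 ≤ C₃ ∧ ∀ (I : Ideal (𝓞 K)), I ≠ ⊥ → ∀ m : ℕ,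
      Ideal.absNorm I ≤ m ^ dg K → Cov I (C₃ * m) := by
  obtain ⟨C, hC, h⟩ := cover K
  refine ⟨⌈C⌉₊, Nat.ceil_pos.2 (by linarith), fun I hI m hm g => ?_⟩
  obtain ⟨e, he, hmem⟩ := h I hI g
  refine ⟨e, fun i => ?_, hmem⟩
  have h1 := he i
  have hn : (1 : ℝ) ≤ dg K := by exact_mod_cast dg_pos K
  have h2 : (Ideal.absNorm I : ℝ) ^ (1 / (dg K : ℝ)) ≤ m := by
    have h3 : (Ideal.absNorm I : ℝ) ≤ (m : ℝ) ^ dg K := by exact_mod_cast hm
    calc (Ideal.absNorm I : ℝ) ^ (1 / (dg K : ℝ)) ≤ ((m : ℝ) ^ dg K) ^ (1 / (dg K : ℝ)) :=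
          Real.rpow_le_rpow (Nat.cast_nonneg _) h3 (by positivity)
      _ = m := by
        rw [← Real.rpow_natCast, ← Real.rpow_mul (Nat.cast_nonneg _),
          mul_one_div_cancel (by linarith), Real.rpow_one]
  have h4 : |(e i : ℝ)| ≤ (⌈C⌉₊ : ℝ) * m := by
    refine h1.trans ?_
    exact mul_le_mul (Nat.le_ceil C) h2 (by positivity) (Nat.cast_nonneg _)
  have h5 : ((|e i| : ℤ) : ℝ) ≤ (((⌈C⌉₊ * m : ℕ) : ℤ) : ℝ) := by
    push_cast
    exact h4
  exact_mod_cast h5

/-- The primes of degree one in `(X/M, X]`. -/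
theorem primes_lower : ∃ M : ℕ, 1 ≤ M ∧ ∃ X₀ : ℕ, ∀ X : ℕ, X₀ ≤ X →
      (X : ℝ) / (M * Real.log X) ≤
        (((Ioc (X / M) X).filter (fun p => p.Prime ∧ Cheb.aK K p ≠ 0)).card : ℝ) := by
  apply primes_of_counts (Na_le K) (sum_log_ge K) (cnt0_le K) (cov' K)
  · intro I D B hI hD
    exact cnt_le K hI D B hD
  · intro I D B hI hD hDB
    exact cnt_ge K hI D B hD hDB

end field

end Stoll308.Low

namespace Stoll308.Gen

open Finset NumberField Module Polynomial AP

/-- There are many primes modulo which `f` has a root. -/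
theorem many_root (f : ℤ[X]) (hf : f.Monic) (hsep : (f.map (Int.castRingHom ℚ)).Separable)
    (h1 : 1 ≤ f.natDegree) : Many fun p => (R f p).Nonempty := by
  classical
  obtain ⟨L, _, _, _, s, hs, hcard⟩ := Cheb.exists_factor f hf hsep
  obtain ⟨θ, hθs⟩ : s.Nonempty := card_pos.1 (by omega)
  have hθ : (f.map (Int.castRingHom (𝓞 L))).eval θ = 0 := by
    rw [hs, eval_prod]
    apply prod_eq_zero (mem_univ (⟨θ, hθs⟩ : s))
    simp
  have hroot : ∀ p : ℕ, p.Prime → Cheb.aK L p ≠ 0 → (R f p).Nonempty := by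
    intro p hp ha
    haveI : Fact p.Prime := ⟨hp⟩
    rw [Cheb.aK_eq_homs] at ha
    obtain ⟨⟨φ⟩, -⟩ := Nat.card_ne_zero.1 ha
    have h2 : (f.map (Int.castRingHom (ZMod p))).eval (φ θ) = 0 := by
      have h3 := congrArg φ hθ
      rw [map_zero, ← eval_map_apply, map_cast_map] at h3
      exact h3
    refine ⟨(φ θ).val, ?_⟩
    rw [mem_R]
    refine ⟨ZMod.val_lt _, ?_⟩
    rw [ZMod.natCast_zmod_val]
    exact h2
  obtain ⟨M, hM1, X₀, hX₀⟩ := Low.primes_lower L
  refine many_of f ⟨max (max M X₀) 2, by positivity, fun y hy => ?_⟩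
  have hyM : M < y := lt_of_le_of_lt (le_trans (le_max_left _ _) (le_max_left _ _)) hy
  have hyX : X₀ ≤ y := (lt_of_le_of_lt (le_trans (le_max_right _ _) (le_max_left _ _)) hy).le
  have hy2 : 2 < y := lt_of_le_of_lt (le_max_right _ _) hy
  have hlog : 0 < Real.log y := Real.log_pos (by exact_mod_cast (by omega : 1 < y))
  have hMR : (0 : ℝ) < M := by exact_mod_cast hM1
  have hMM : (M : ℝ) ≤ ((max (max M X₀) 2 : ℕ) : ℝ) := by
    exact_mod_cast le_trans (le_max_left _ _) (le_max_left _ _)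
  calc (y : ℝ) / (((max (max M X₀) 2 : ℕ) : ℝ) * Real.log y) ≤ y / (M * Real.log y) := by
        apply div_le_div_of_nonneg_left (Nat.cast_nonneg _) (by positivity)
        exact mul_le_mul_of_nonneg_right hMM hlog.le
    _ ≤ _ := hX₀ y hyX
    _ ≤ _ := by
        apply Nat.cast_le.2
        apply card_le_card
        intro p hp
        rw [mem_filter, mem_Ioc] at hp ⊢
        refine ⟨⟨?_, hp.1.2⟩, hp.2.1, hroot p hp.2.1 hp.2.2⟩
        refine lt_of_le_of_lt ?_ hp.1.1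
        exact Nat.div_le_div_left (le_trans (le_max_left _ _) (le_max_left _ _)) (by omega)

open Classical in
/-- **Lower bound for the number of the everywhere locally soluble twists.** -/
theorem els_lower_nat (f : ℤ[X]) (hf : f.Monic) (hsep : (f.map (Int.castRingHom ℚ)).Separable)
    (hev : Even f.natDegree) (h2 : 2 ≤ f.natDegree) :
    ∃ c : ℝ, 0 < c ∧ ∃ X₀ : ℕ, ∀ X : ℕ, X₀ ≤ X →
      c * X / Real.log X * ∏ p ∈ rootPrimes f X, (1 + 1 / (p : ℝ)) ≤
        (((Icc (-(X : ℤ)) X).filter (fun t => Squarefree t ∧ ELS f t)).card : ℝ) :=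
  els_lower_nat_of f hf hsep hev h2 (many_root f hf hsep (by omega))

end Stoll308.Gen
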