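import Mathlib

set_option autoImplicit false

/-!
Finiteness: the elements of a number field with even valuations outside a finite set of primes are
in finitely many square classes, up to squares (Minkowski's theorem).
-/

namespace Stoll308.Gen

open Finset NumberField NumberField.InfinitePlace NumberField.mixedEmbedding MeasureTheory
open scoped nonZeroDivisors NNReal ENNReal

/-- Every ideal is `b c²` with `b` the product of the primes of odd multiplicity. -/
lemma exists_decomp {R : Type*} [CommRing R] [IsDedekindDomain R] {I M : Ideal R} (hI : I ≠ 0)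
    (h : ∀ q : Ideal R, Prime q → Odd ((UniqueFactorizationMonoid.normalizedFactors I).count q) →
      q ∣ M) : ∃ b c : Ideal R, I = b * c ^ 2 ∧ b ∣ M := by
  classical
  set s := UniqueFactorizationMonoid.normalizedFactors I with hs
  refine ⟨∏ q ∈ s.toFinset, q ^ (s.count q % 2), ∏ q ∈ s.toFinset, q ^ (s.count q / 2), ?_, ?_⟩
  · rw [← prod_pow, ← prod_mul_distrib]
    have h1 : I = s.prod := (Ideal.prod_normalizedFactors_eq_self hI).symm
    conv_lhs => rw [h1, prod_multiset_count]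
    refine prod_congr rfl fun q _ => ?_
    rw [← pow_mul, ← pow_add]
    congr 1
    omega
  · have h2 : ∏ q ∈ s.toFinset, q ^ (s.count q % 2) =
        ∏ q ∈ s.toFinset.filter (fun q => Odd (s.count q)), q := by
      rw [prod_filter]
      refine prod_congr rfl fun q _ => ?_
      split_ifs with h3
      · rw [Nat.odd_iff.1 h3, pow_one]
      · rw [Nat.not_odd_iff.1 h3, pow_zero]
    rw [h2]
    apply Finset.prod_primes_dvd
    · intro q hq
      rw [mem_filter, Multiset.mem_toFinset] at hq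
      exact UniqueFactorizationMonoid.prime_of_normalized_factor q hq.1
    · intro q hq
      rw [mem_filter, Multiset.mem_toFinset] at hq
      exact h q (UniqueFactorizationMonoid.prime_of_normalized_factor q hq.1) hq.2

variable (K : Type*) [Field K] [NumberField K]

theorem exists_square_reps (Bd : ℝ) : ∃ S : Set K, S.Finite ∧ ∀ x : 𝓞 K, x ≠ 0 →
    ∀ b c : Ideal (𝓞 K), Ideal.span {x} = b * c ^ 2 → (Ideal.absNorm b : ℝ) ≤ Bd →
      ∃ ε ∈ S, ∃ γ : K, γ ≠ 0 ∧ (x : K) = ε * γ ^ 2 := by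
  classical
  set V : ℝ≥0∞ := volume (ZSpan.fundamentalDomain (latticeBasis K)) *
    (2 : ℝ≥0∞) ^ (Module.finrank ℝ (mixedSpace K)) with hV
  have hVtop : V ≠ ⊤ := by
    have h1 := minkowskiBound_lt_top K (1 : (FractionalIdeal (𝓞 K)⁰ K)ˣ)
    unfold minkowskiBound at h1
    rw [volume_fundamentalDomain_fractionalIdealLatticeBasis] at h1
    simp only [Units.val_one, map_one, Rat.cast_one, ENNReal.ofReal_one, one_mul] at h1
    exact h1.ne
  set v : ℝ := V.toReal with hv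
  have hv0 : 0 ≤ v := ENNReal.toReal_nonneg
  have hVv : V = ENNReal.ofReal v := (ENNReal.ofReal_toReal hVtop).symm
  set t : ℝ≥0 := Real.toNNReal (v * Real.sqrt Bd + 1) with ht
  have ht' : (t : ℝ) = v * Real.sqrt Bd + 1 := by
    rw [ht, Real.coe_toNNReal _ (by positivity)]
  have ht1 : (1 : ℝ) ≤ t := by
    rw [ht']
    have : 0 ≤ v * Real.sqrt Bd := by positivity
    linarith
  refine ⟨{z : K | IsIntegral ℤ z ∧ ∀ φ : K →+* ℂ, ‖φ z‖ ≤ (t : ℝ) ^ 2},
    Embeddings.finite_of_norm_le K ℂ _, ?_⟩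
  intro x hx b c hbc hb
  have hxK : (x : K) ≠ 0 := RingOfIntegers.coe_ne_zero_iff.2 hx
  have hspan : Ideal.span {x} ≠ 0 := by
    rw [Ideal.zero_eq_bot, Ne, Ideal.span_singleton_eq_bot]
    exact hx
  have hc0 : c ≠ 0 := by
    rintro rfl
    apply hspan
    rw [hbc]
    simp
  have hb0 : b ≠ 0 := by
    rintro rfl
    apply hspan
    rw [hbc]
    simp
  have hcF : (c : FractionalIdeal (𝓞 K)⁰ K) ≠ 0 := by
    rw [Ne, FractionalIdeal.coeIdeal_eq_zero]
    exact hc0
  set J : (FractionalIdeal (𝓞 K)⁰ K)ˣ := (Units.mk0 (c : FractionalIdeal (𝓞 K)⁰ K) hcF)⁻¹ with hJ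
  have hNc : (0 : ℝ) < Ideal.absNorm c := by
    have : Ideal.absNorm c ≠ 0 := by
      rw [Ne, Ideal.absNorm_eq_zero_iff]
      exact hc0
    exact_mod_cast Nat.pos_of_ne_zero this
  have hNb : (0 : ℝ) < Ideal.absNorm b := by
    have : Ideal.absNorm b ≠ 0 := by
      rw [Ne, Ideal.absNorm_eq_zero_iff]
      exact hb0
    exact_mod_cast Nat.pos_of_ne_zero this
  have hJN : ((FractionalIdeal.absNorm (J : FractionalIdeal (𝓞 K)⁰ K) : ℚ) : ℝ) =
      (Ideal.absNorm c : ℝ)⁻¹ := by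
    have h1 : (J : FractionalIdeal (𝓞 K)⁰ K) = (c : FractionalIdeal (𝓞 K)⁰ K)⁻¹ := by
      rw [hJ]; simp
    rw [h1, map_inv₀, FractionalIdeal.coeIdeal_absNorm]
    simp
  -- the box
  have hwx : ∀ w : InfinitePlace K, 0 < w (x : K) := fun w => (pos_iff (w := w)).2 hxK
  set r : InfinitePlace K → ℝ≥0 := fun w => Real.toNNReal (Real.sqrt (w (x : K))) with hr
  have hrr : ∀ w, (r w : ℝ) = Real.sqrt (w (x : K)) := fun w =>
    Real.coe_toNNReal _ (Real.sqrt_nonneg _)
  have hr0 : ∀ w, 0 < r w := fun w => by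
    rw [← NNReal.coe_pos, hrr]
    exact Real.sqrt_pos.2 (hwx w)
  have hrsq : ∀ w, (r w : ℝ) ^ 2 = w (x : K) := fun w => by
    rw [hrr, Real.sq_sqrt (hwx w).le]
  set F : InfinitePlace K → ℝ≥0 := fun w => t / r w with hF
  have hprodr : (∏ w, (r w : ℝ) ^ (mult w)) = Real.sqrt (Ideal.absNorm b) * Ideal.absNorm c := by
    have h1 : (∏ w, (r w : ℝ) ^ (mult w)) ^ 2 = (Ideal.absNorm b) * (Ideal.absNorm c : ℝ) ^ 2 := by
      rw [← prod_pow]
      have h2 : ∏ w : InfinitePlace K, (((r w : ℝ) ^ (mult w)) ^ 2) =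
          ∏ w : InfinitePlace K, w (x : K) ^ mult w := by
        refine prod_congr rfl fun w _ => ?_
        rw [← hrsq w]
        ring
      rw [h2, prod_eq_abs_norm]
      have h3 := Ideal.absNorm_span_singleton (S := 𝓞 K) x
      rw [hbc, map_mul, map_pow] at h3
      have h4 : |(Algebra.norm ℚ (x : K))| = (((Algebra.norm ℤ x).natAbs : ℕ) : ℚ) := by
        rw [← Algebra.coe_norm_int, Nat.cast_natAbs, Int.cast_abs]
      rw [h4, ← h3]
      push_cast
      ring
    have h5 : 0 ≤ ∏ w, (r w : ℝ) ^ (mult w) := by positivity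
    rw [← Real.sqrt_sq h5, h1, Real.sqrt_mul (Nat.cast_nonneg _), Real.sqrt_sq hNc.le]
  have hprodF : (∏ w, (F w : ℝ) ^ (mult w)) =
      (t : ℝ) ^ (Module.finrank ℚ K) / (Real.sqrt (Ideal.absNorm b) * Ideal.absNorm c) := by
    rw [← hprodr]
    have h1 : ∀ w, (F w : ℝ) ^ (mult w) = (t : ℝ) ^ (mult w) / (r w : ℝ) ^ (mult w) := fun w => by
      rw [hF]
      simp only [NNReal.coe_div, div_pow]
    rw [prod_congr rfl fun w _ => h1 w, prod_div_distrib, prod_pow_eq_pow_sum, sum_mult_eq]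
  have hmain : minkowskiBound K J < volume (convexBodyLT K F) := by
    unfold minkowskiBound
    rw [volume_fundamentalDomain_fractionalIdealLatticeBasis, convexBodyLT_volume, mul_assoc, ← hV,
      hJN, hVv, ← ENNReal.ofReal_mul (by positivity)]
    have h1 : ENNReal.ofReal (∏ w, (F w : ℝ) ^ (mult w)) ≤
        (convexBodyLTFactor K : ℝ≥0∞) * ((∏ w, (F w) ^ (mult w) : ℝ≥0) : ℝ≥0∞) := by
      have h2 : ENNReal.ofReal (∏ w, (F w : ℝ) ^ (mult w)) =
          ((∏ w, (F w) ^ (mult w) : ℝ≥0) : ℝ≥0∞) := by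
        have h3 : (∏ w, (F w : ℝ) ^ (mult w)) = ((∏ w, (F w) ^ (mult w) : ℝ≥0) : ℝ) := by
          push_cast; rfl
        rw [h3, ENNReal.ofReal_coe_nnreal]
      rw [h2]
      have h4 : (1 : ℝ≥0∞) ≤ (convexBodyLTFactor K : ℝ≥0∞) := by
        exact_mod_cast one_le_convexBodyLTFactor K
      calc ((∏ w, (F w) ^ (mult w) : ℝ≥0) : ℝ≥0∞) = 1 * ((∏ w, (F w) ^ (mult w) : ℝ≥0) : ℝ≥0∞) := by
            rw [one_mul]
        _ ≤ _ := by gcongr
    refine lt_of_lt_of_le ?_ h1
    rw [hprodF]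
    have hn : Module.finrank ℚ K ≠ 0 := Module.finrank_pos.ne'
    have hsb : 0 < Real.sqrt (Ideal.absNorm b) := Real.sqrt_pos.2 hNb
    have h5 : v * Real.sqrt (Ideal.absNorm b) < (t : ℝ) ^ (Module.finrank ℚ K) := by
      calc v * Real.sqrt (Ideal.absNorm b) ≤ v * Real.sqrt Bd :=
            mul_le_mul_of_nonneg_left (Real.sqrt_le_sqrt hb) hv0
        _ < (t : ℝ) := by rw [ht']; linarith
        _ ≤ (t : ℝ) ^ (Module.finrank ℚ K) := le_self_pow₀ ht1 hn
    rw [ENNReal.ofReal_lt_ofReal_iff (by positivity)]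
    rw [lt_div_iff₀ (by positivity)]
    calc (Ideal.absNorm c : ℝ)⁻¹ * v * (Real.sqrt (Ideal.absNorm b) * Ideal.absNorm c)
        = v * Real.sqrt (Ideal.absNorm b) := by field_simp
      _ < _ := h5
  obtain ⟨γ, hγJ, hγ0, hγ⟩ := exists_ne_zero_mem_ideal_lt K J hmain
  -- the representative
  refine ⟨(x : K) * γ ^ 2, ⟨?_, ?_⟩, γ⁻¹, inv_ne_zero hγ0, ?_⟩
  · -- integrality
    have h1 : (J : FractionalIdeal (𝓞 K)⁰ K) = (c : FractionalIdeal (𝓞 K)⁰ K)⁻¹ := by
      rw [hJ]; simp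
    rw [h1] at hγJ
    have h2 : (x : K) ∈ (c : FractionalIdeal (𝓞 K)⁰ K) ^ 2 := by
      have h3 : x ∈ c ^ 2 := by
        have h4 : Ideal.span {x} ≤ c ^ 2 := by
          rw [hbc]
          exact Ideal.mul_le_right
        exact h4 (Ideal.mem_span_singleton_self x)
      rw [← FractionalIdeal.coeIdeal_pow, FractionalIdeal.mem_coeIdeal]
      exact ⟨x, h3, rfl⟩
    have h5 : γ ^ 2 ∈ ((c : FractionalIdeal (𝓞 K)⁰ K)⁻¹) ^ 2 := by
      rw [sq, sq]
      exact FractionalIdeal.mul_mem_mul hγJ hγJ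
    have h6 := FractionalIdeal.mul_mem_mul h2 h5
    rw [← mul_pow, mul_inv_cancel₀ hcF, one_pow, FractionalIdeal.mem_one_iff] at h6
    obtain ⟨y, hy⟩ := h6
    rw [← hy]
    exact RingOfIntegers.isIntegral_coe y
  · intro φ
    have h1 := hγ (InfinitePlace.mk φ)
    have h2 : ‖φ ((x : K) * γ ^ 2)‖ = InfinitePlace.mk φ (x : K) * (InfinitePlace.mk φ γ) ^ 2 := by
      rw [map_mul, map_pow, norm_mul, norm_pow]
      rfl
    rw [h2, ← hrsq]
    have h3 : (F (InfinitePlace.mk φ) : ℝ) = t / r (InfinitePlace.mk φ) := by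
      rw [hF]; simp
    rw [h3, lt_div_iff₀ (by exact_mod_cast hr0 _)] at h1
    have h4 : 0 ≤ InfinitePlace.mk φ γ := apply_nonneg _ _
    calc (r (InfinitePlace.mk φ) : ℝ) ^ 2 * InfinitePlace.mk φ γ ^ 2
        = (InfinitePlace.mk φ γ * r (InfinitePlace.mk φ)) ^ 2 := by ring
      _ ≤ (t : ℝ) ^ 2 := pow_le_pow_left₀ (by positivity) h1.le 2
  · field_simp

end Stoll308.Gen
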