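import Pool.Agent.Work.MP_308fa9_nt.Gen.NatMain

set_option autoImplicit false

/-!
The number of twists with nonempty fake `2`-Selmer set: the error terms and the explicit bound.
-/

namespace Stoll308.Gen

open Finset Polynomial NumberTheorySymbols

variable (f : ℤ[X]) (D : RelData f)

/-- The bound for the error terms. -/
noncomputable def Er (C₀ N : ℕ) (n : ℕ) (z₁ z₃ Dm : ℝ) : ℝ :=
  2 * 3 ^ n * Real.sqrt (Pn C₀ N n ^ 2 * ((1 / z₁) * Pn C₀ N ((n : ℝ) ^ 2)) +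
    2 * n * (Dm * Pn C₀ N n) ^ 2 * z₃ ^ (-(n : ℝ)⁻¹))

/-- The sum over the data of the large primes of the nontrivial part. -/
lemma sum_hh_nat (hf : f.Monic) (hdeg : f.natDegree ≠ 0) (hN : NonTriv f D.C₀) (N : ℕ)
    (hN0 : 0 < N) {z₁ z₂ z₃ Dm : ℝ} (hz1 : 0 < z₁) (hz3 : 0 < z₃) (hz23 : z₂ ≤ z₃) (hDm : 0 ≤ Dm)
    (S₁ S₂ : Finset ℕ) (hS₁ : S₁ = (PX D.C₀ N).filter (fun p : ℕ => (p : ℝ) ≤ z₃))
    (hS₂ : S₂ = (PX D.C₀ N).filter (fun p : ℕ => ¬ (p : ℝ) ≤ z₃))
    (s : ℤ) (e : Fin D.m) (k : ℤ) :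
    ∑ r₂ ∈ VV f S₂ N, (N : ℝ) / 2 ^ jj S₂ r₂ *
      |hh f S₁ (UU' D.C₀ N z₁ z₂) Dm (om S₁ N (jj S₂ r₂)) (cf f D S₁ s e k)
        (D.g (supp S₂ r₂) (rt r₂))| ≤
    (Nat.log 2 N + 1) * (2 * N * Er D.C₀ N f.natDegree z₁ z₃ Dm) := by
  classical
  have hS2sub : S₂ ⊆ PX D.C₀ N := by rw [hS₂]; exact filter_subset _ _
  have hS1sub : S₁ ⊆ PX D.C₀ N := by rw [hS₁]; exact filter_subset _ _
  have hU : UU' D.C₀ N z₁ z₂ ⊆ S₁ := by
    intro p hp
    unfold UU' at hp
    rw [mem_filter] at hp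
    rw [hS₁, mem_filter]
    exact ⟨hp.1, hp.2.2.trans hz23⟩
  have hPX : ∀ p ∈ PX D.C₀ N, p.Prime ∧ D.C₀ < p := by
    intro p hp
    unfold PX at hp
    exact (mem_filter.1 hp).2
  have hP0 : ∀ n : ℝ, 0 ≤ n → 0 ≤ Pn D.C₀ N n := fun n hn => by
    unfold Pn
    exact prod_nonneg fun p _ => by positivity
  have hPsub : ∀ (S : Finset ℕ) (n : ℝ), S ⊆ PX D.C₀ N → 0 ≤ n →
      ∏ p ∈ S, (1 + n / (p : ℝ)) ≤ Pn D.C₀ N n := by
    intro S n hS hn
    unfold Pn
    rw [← prod_sdiff hS]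
    have h1 : (1 : ℝ) ≤ ∏ p ∈ PX D.C₀ N \ S, (1 + n / (p : ℝ)) := by
      have h0 := prod_le_prod (s := PX D.C₀ N \ S) (f := fun _ => (1 : ℝ))
        (g := fun p : ℕ => 1 + n / (p : ℝ)) (fun _ _ => zero_le_one) fun p _ => by
          have : 0 ≤ n / (p : ℝ) := by positivity
          linarith
      rwa [prod_const_one] at h0
    exact le_mul_of_one_le_left (prod_nonneg fun p _ => by positivity) h1
  have hpos : ∀ r : ℕ → ℕ, 0 < ∏ p ∈ supp S₂ r, p := fun r =>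
    prod_pos fun p hp => (hPX p (hS2sub (mem_filter.1 hp).1)).1.pos
  rw [← sum_fiberwise_of_maps_to (s := VV f S₂ N) (t := range (Nat.log 2 N + 1))
    (g := fun r => jj S₂ r)]
  · refine (sum_le_sum (g := fun _ => 2 * N * Er D.C₀ N f.natDegree z₁ z₃ Dm)
      fun j _ => ?_).trans ?_
    · have hmem : ∀ r ∈ (VV f S₂ N).filter (fun r => jj S₂ r = j), r ∈ Dat f S₂ := fun r hr =>
        (mem_filter.1 (mem_filter.1 hr).1).1
      have h := cauchy_piece (n := f.natDegree) ((VV f S₂ N).filter (fun r => jj S₂ r = j))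
        (fun r => D.g (supp S₂ r) (rt r)) (fun r => ∏ p ∈ supp S₂ r, p) hdeg ?_ ?_ j ?_ ?_
        (z := z₃) hz3 ?_ (hh f S₁ (UU' D.C₀ N z₁ z₂) Dm (om S₁ N j) (cf f D S₁ s e k))
        (α := Pn D.C₀ N f.natDegree ^ 2 * ((1 / z₁) * Pn D.C₀ N ((f.natDegree : ℝ) ^ 2)))
        (β := 2 * f.natDegree * (Dm * Pn D.C₀ N f.natDegree) ^ 2) ?_ ?_ ?_
      · have h2 : ∑ r₂ ∈ (VV f S₂ N).filter (fun r => jj S₂ r = j), (N : ℝ) / 2 ^ jj S₂ r₂ *
            |hh f S₁ (UU' D.C₀ N z₁ z₂) Dm (om S₁ N (jj S₂ r₂)) (cf f D S₁ s e k)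
              (D.g (supp S₂ r₂) (rt r₂))| ≤
            2 * N * ∑ r₂ ∈ (VV f S₂ N).filter (fun r => jj S₂ r = j),
              |hh f S₁ (UU' D.C₀ N z₁ z₂) Dm (om S₁ N j) (cf f D S₁ s e k)
              (D.g (supp S₂ r₂) (rt r₂))| / ((∏ p ∈ supp S₂ r₂, p : ℕ) : ℝ) := by
          rw [mul_sum]
          refine sum_le_sum fun r hr => ?_
          rw [(mem_filter.1 hr).2]
          have h3 : ∏ p ∈ supp S₂ r, p < 2 ^ (j + 1) := by
            rw [← (mem_filter.1 hr).2]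
            exact Nat.lt_pow_succ_log_self (by norm_num) _
          have h4 : ((∏ p ∈ supp S₂ r, p : ℕ) : ℝ) ≤ 2 * 2 ^ j := by
            have : ((∏ p ∈ supp S₂ r, p : ℕ) : ℝ) < ((2 ^ (j + 1) : ℕ) : ℝ) := Nat.cast_lt.2 h3
            rw [Nat.cast_pow, pow_succ] at this
            push_cast at this ⊢
            linarith
          have h5 : (0 : ℝ) < ((∏ p ∈ supp S₂ r, p : ℕ) : ℝ) := Nat.cast_pos.2 (hpos r)
          have h6 : (N : ℝ) / 2 ^ j ≤ 2 * N / ((∏ p ∈ supp S₂ r, p : ℕ) : ℝ) := by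
            rw [div_le_div_iff₀ (by positivity) h5]
            have hN' : (0 : ℝ) ≤ N := Nat.cast_nonneg _
            calc (N : ℝ) * ((∏ p ∈ supp S₂ r, p : ℕ) : ℝ) ≤ N * (2 * 2 ^ j) :=
                  mul_le_mul_of_nonneg_left h4 hN'
              _ = _ := by ring
          calc _ ≤ 2 * N / ((∏ p ∈ supp S₂ r, p : ℕ) : ℝ) *
                |hh f S₁ (UU' D.C₀ N z₁ z₂) Dm (om S₁ N j) (cf f D S₁ s e k)
                (D.g (supp S₂ r) (rt r))| := mul_le_mul_of_nonneg_right h6 (abs_nonneg _)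
            _ = _ := by ring
        refine h2.trans ?_
        refine mul_le_mul_of_nonneg_left ?_ (by positivity)
        exact h
      · intro r hr r' hr' h
        simp only at h
        have hr1 := hmem r hr
        have hr1' := hmem r' hr'
        obtain ⟨e1, e2⟩ := D.g_inj _ _ _ _ (valid_of_mem f D hS2sub hr1)
          (valid_of_mem f D hS2sub hr1') h
        exact dat_ext f hr1 hr1' e1 e2
      · intro r hr i
        exact D.g_le _ _ (valid_of_mem f D hS2sub (hmem r hr)) i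
      · intro r hr
        rw [← (mem_filter.1 hr).2]
        exact Nat.pow_log_le_self 2 (hpos r).ne'
      · intro r hr
        rw [← (mem_filter.1 hr).2]
        exact Nat.lt_pow_succ_log_self (by norm_num) _
      · intro r hr
        obtain ⟨p, hp⟩ := (mem_filter.1 (mem_filter.1 hr).1).2.1
        have h1 : z₃ < p := by
          have := (mem_filter.1 hp).1
          rw [hS₂, mem_filter] at this
          exact not_le.1 this.2
        have h2 : p ≤ ∏ p ∈ supp S₂ r, p :=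
          Nat.le_of_dvd (hpos r) (dvd_prod_of_mem (fun p => p) hp)
        have h3 : (p : ℝ) ≤ ((∏ p ∈ supp S₂ r, p : ℕ) : ℝ) := Nat.cast_le.2 h2
        linarith
      · have := hP0 ((f.natDegree : ℝ) ^ 2) (by positivity)
        have := hP0 f.natDegree (by positivity)
        positivity
      · positivity
      · intro B
        have hsq := hh_sq f hf hN hU (fun p hp => hPX p (hS1sub hp)) hz1
          (fun p hp => by
            unfold UU' at hp
            exact (mem_filter.1 hp).2.1) hDm (ω := om S₁ N j)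
          (fun r => om_le (fun p hp => (hPX p (hS1sub hp)).1) hN0 j r)
          (c := cf f D S₁ s e k) (fun r p a => cf_le f D _ _ _ _ _ _ _) B
        refine hsq.trans ?_
        have hA := hPsub S₁ f.natDegree hS1sub (by positivity)
        have hA0 : 0 ≤ ∏ p ∈ S₁, (1 + (f.natDegree : ℝ) / (p : ℝ)) :=
          prod_nonneg fun p _ => by positivity
        have hB := hPsub (UU' D.C₀ N z₁ z₂) ((f.natDegree : ℝ) ^ 2) (filter_subset _ _)
          (by positivity)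
        have hB0 : 0 ≤ ∏ p ∈ UU' D.C₀ N z₁ z₂, (1 + (f.natDegree : ℝ) ^ 2 / (p : ℝ)) :=
          prod_nonneg fun p _ => by positivity
        refine add_le_add ?_ ?_
        · refine mul_le_mul_of_nonneg_left ?_ (by positivity)
          refine mul_le_mul (pow_le_pow_left₀ hA0 hA 2) ?_ (by positivity) (by positivity)
          exact mul_le_mul_of_nonneg_left hB (by positivity)
        · have h1 : (Dm * ∏ p ∈ S₁, (1 + (f.natDegree : ℝ) / (p : ℝ))) ^ 2 ≤
              (Dm * Pn D.C₀ N f.natDegree) ^ 2 :=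
            pow_le_pow_left₀ (by positivity) (mul_le_mul_of_nonneg_left hA hDm) 2
          calc 2 * ((f.natDegree : ℝ) * (2 * B + 1 : ℝ) ^ (f.natDegree - 1)) *
                (Dm * ∏ p ∈ S₁, (1 + (f.natDegree : ℝ) / (p : ℝ))) ^ 2 ≤
                2 * ((f.natDegree : ℝ) * (2 * B + 1 : ℝ) ^ (f.natDegree - 1)) *
                (Dm * Pn D.C₀ N f.natDegree) ^ 2 := mul_le_mul_of_nonneg_left h1 (by positivity)
            _ = _ := by ring
    · rw [sum_const, card_range, nsmul_eq_mul]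
      push_cast
      exact le_rfl
  · intro r hr
    rw [mem_range]
    exact Nat.lt_succ_of_le (Nat.log_mono_right (mem_filter.1 hr).2.2)

/-- The explicit bound. -/
theorem sel_bound_nat (hf : f.Monic) (hdeg : f.natDegree ≠ 0) (hN : NonTriv f D.C₀) (N : ℕ)
    (hN0 : 0 < N) {z₁ z₂ z₃ Dm : ℝ} (hz1 : 0 < z₁) (hz3 : 0 < z₃) (hz23 : z₂ ≤ z₃)
    (hDm : 0 ≤ Dm) :
    ((Tset f N).card : ℝ) ≤
      (2 * P0 D.C₀ + 1) * ∑ n ∈ Icc 1 N, HT.hf (Ha f z₃) n +
      (2 * P0 D.C₀ + 1) *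
        (N * ∑ T ∈ (UU' D.C₀ N z₁ z₂).powerset.filter (fun T : Finset ℕ => Dm < ∏ p ∈ T, (p : ℝ)),
          ∏ p ∈ T, 1 / (p : ℝ)) +
      (2 * P0 D.C₀ + 1) * (D.m * (∑ n ∈ Icc 1 (2 * N), HT.hf (Hm f z₁ z₂) n +
        (2 * D.C₀ + 1) * ((Nat.log 2 N + 1) * (2 * N * Er D.C₀ N f.natDegree z₁ z₃ Dm)))) := by
  classical
  set S₁ : Finset ℕ := (PX D.C₀ N).filter (fun p : ℕ => (p : ℝ) ≤ z₃) with hS₁
  set S₂ : Finset ℕ := (PX D.C₀ N).filter (fun p : ℕ => ¬ (p : ℝ) ≤ z₃) with hS₂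
  set U : Finset ℕ := UU' D.C₀ N z₁ z₂ with hUdef
  set E : ℝ := (Nat.log 2 N + 1) * (2 * N * Er D.C₀ N f.natDegree z₁ z₃ Dm) with hE
  have hS2sub : S₂ ⊆ PX D.C₀ N := filter_subset _ _
  have hPX : ∀ p ∈ PX D.C₀ N, p.Prime := by
    intro p hp
    unfold PX at hp
    exact (mem_filter.1 hp).2.1
  have hU : U ⊆ S₁ := by
    intro p hp
    rw [hUdef] at hp
    unfold UU' at hp
    rw [mem_filter] at hp
    rw [hS₁, mem_filter]
    exact ⟨hp.1, hp.2.2.trans hz23⟩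
  -- the three classes
  set A : Finset ℤ := (Tset f N).filter fun t => ∀ p ∈ bigPrimes D.C₀ t, (p : ℝ) ≤ z₃ with hA
  set A' : Finset ℤ := (Tset f N).filter fun t => ¬ ∀ p ∈ bigPrimes D.C₀ t, (p : ℝ) ≤ z₃ with hA'
  set Bc : Finset ℤ := A'.filter fun t => Dm < ∏ p ∈ bigPrimes D.C₀ t ∩ U, (p : ℝ) with hBc
  set Cc : Finset ℤ := A'.filter fun t => ¬ Dm < ∏ p ∈ bigPrimes D.C₀ t ∩ U, (p : ℝ) with hCc
  have e1 : ((Tset f N).card : ℝ) = A.card + Bc.card + Cc.card := by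
    have h1 : A.card + A'.card = (Tset f N).card := card_filter_add_card_filter_not _
    have h2 : Bc.card + Cc.card = A'.card := card_filter_add_card_filter_not _
    rw [← h1, ← h2]
    push_cast
    ring
  rw [e1]
  refine add_le_add (add_le_add ?_ ?_) ?_
  · exact nclass_a f D N z₃ A (filter_subset _ _) fun t ht => (mem_filter.1 ht).2
  · exact nclass_b f D N U (fun p hp => hPX p (mem_filter.1 (hU hp)).1) Dm Bc
      ((filter_subset _ _).trans (filter_subset _ _)) fun t ht => (mem_filter.1 ht).2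
  · refine (nclass_c f D N hN0 z₃ U Dm Cc ((filter_subset _ _).trans (filter_subset _ _)) S₁ S₂ hS₁
      hS₂ hU (fun t ht => (mem_filter.1 ht).2) fun t ht => ?_).trans ?_
    · have := (mem_filter.1 (mem_filter.1 ht).1).2
      push Not at this
      obtain ⟨p, hp, hp'⟩ := this
      exact ⟨p, hp, not_le.2 hp'⟩
    · have hone : ∀ (s : ℤ) (e : Fin D.m), ∑ r₂ ∈ VV f S₂ N, (N : ℝ) / 2 ^ jj S₂ r₂ *
          ∑ r ∈ DatS f S₁ U Dm, om S₁ N (jj S₂ r₂) r *
            cond f U (cf f D S₁ s e (D.κ (supp S₂ r₂) (rt r₂))) r (D.g (supp S₂ r₂) (rt r₂)) ≤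
          ∑ n ∈ Icc 1 (2 * N), HT.hf (Hm f z₁ z₂) n + (2 * D.C₀ + 1) * E := by
        intro s e
        have hstep : ∀ r₂ ∈ VV f S₂ N, (N : ℝ) / 2 ^ jj S₂ r₂ *
            ∑ r ∈ DatS f S₁ U Dm, om S₁ N (jj S₂ r₂) r *
              cond f U (cf f D S₁ s e (D.κ (supp S₂ r₂) (rt r₂))) r (D.g (supp S₂ r₂) (rt r₂)) ≤
            ∑ r ∈ DatS f S₁ U Dm,
              (if (∏ p ∈ supp S₁ r, p) * 2 ^ jj S₂ r₂ ≤ N then Gen.hf f U r else 0) +
            ∑ k ∈ Icc (-(D.C₀ : ℤ)) D.C₀, (N : ℝ) / 2 ^ jj S₂ r₂ *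
              |hh f S₁ U Dm (om S₁ N (jj S₂ r₂)) (cf f D S₁ s e k)
                (D.g (supp S₂ r₂) (rt r₂))| := by
          intro r₂ hr₂
          rw [sum_cond, mul_add]
          refine add_le_add ?_ ?_
          · unfold Mn
            rw [mul_sum]
            refine le_of_eq (sum_congr rfl fun r _ => ?_)
            rw [← mul_assoc, om_mul hN0]
            split_ifs
            · rw [one_mul]
            · rw [zero_mul]
          · rw [← mul_sum]
            refine mul_le_mul_of_nonneg_left ?_ (by positivity)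
            refine (le_abs_self _).trans ?_
            refine single_le_sum (f := fun k => |hh f S₁ U Dm (om S₁ N (jj S₂ r₂))
              (cf f D S₁ s e k) (D.g (supp S₂ r₂) (rt r₂))|) (fun k _ => abs_nonneg _) ?_
            rw [mem_Icc, ← abs_le]
            exact D.κ_le _ _ (valid_of_mem f D hS2sub (mem_filter.1 hr₂).1)
        refine (sum_le_sum hstep).trans ?_
        rw [sum_add_distrib]
        refine add_le_add ?_ ?_
        · exact main_nat f D N hz23 Dm S₁ S₂ U hS₁ hS₂ hUdef hU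
        · rw [sum_comm]
          have h1 : ∀ k ∈ Icc (-(D.C₀ : ℤ)) D.C₀, ∑ r₂ ∈ VV f S₂ N, (N : ℝ) / 2 ^ jj S₂ r₂ *
              |hh f S₁ U Dm (om S₁ N (jj S₂ r₂)) (cf f D S₁ s e k)
                (D.g (supp S₂ r₂) (rt r₂))| ≤ E := fun k _ =>
            sum_hh_nat f D hf hdeg hN N hN0 hz1 hz3 hz23 hDm S₁ S₂ hS₁ hS₂ s e k
          refine (sum_le_sum h1).trans ?_
          rw [sum_const, nsmul_eq_mul, Int.card_Icc]
          have : ((D.C₀ : ℤ) + 1 - -(D.C₀ : ℤ)).toNat = 2 * D.C₀ + 1 := by omega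
          rw [this]
          push_cast
          exact le_rfl
      refine (sum_le_sum fun s _ => sum_le_sum fun e _ => hone s e).trans ?_
      rw [sum_const, sum_const, card_univ, Fintype.card_fin, nsmul_eq_mul, nsmul_eq_mul, card_sp]

end Stoll308.Gen
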