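import Pool.Agent.Work.MP_308fa9_nt.Gen.SelMain
import Pool.Agent.Work.MP_308fa9_nt.HT

set_option autoImplicit false

/-!
The number of twists with nonempty fake `2`-Selmer set: an explicit upper bound.
-/

namespace Stoll308.Gen

open Finset Polynomial NumberTheorySymbols

/-! ### Sums over data grouped by the support -/

lemma sum_Dat_fib (f : ℤ[X]) {S T : Finset ℕ} (hT : T ⊆ S) (v : ℕ → ℕ → ℝ) :
    ∑ r ∈ (Dat f S).filter (fun r => supp S r = T), ∏ p ∈ T, v p (rt r p) =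
      ∏ p ∈ T, ∑ a ∈ R f p, v p a := by
  classical
  have h := sum_Dat f S (fun p x => if x = 0 then (if p ∈ T then 0 else (1 : ℝ)) else
    (if p ∈ T then v p (x - 1) else 0))
  have e1 : ∑ r ∈ (Dat f S).filter (fun r => supp S r = T), ∏ p ∈ T, v p (rt r p) =
      ∑ r ∈ Dat f S, ∏ p ∈ S, (if r p = 0 then (if p ∈ T then 0 else (1 : ℝ)) else
        (if p ∈ T then v p (r p - 1) else 0)) := by
    rw [sum_filter]
    refine sum_congr rfl fun r _ => ?_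
    by_cases hr : supp S r = T
    · rw [if_pos hr]
      have e2 : ∏ p ∈ T, v p (rt r p) = ∏ p ∈ S, (if p ∈ T then v p (rt r p) else 1) := by
        rw [prod_ite_mem, inter_eq_right.2 hT]
      rw [e2]
      refine prod_congr rfl fun p hp => ?_
      by_cases h0 : r p = 0
      · have : p ∉ T := by
          rw [← hr]
          exact fun h => (mem_filter.1 h).2 h0
        rw [if_neg this, if_pos h0, if_neg this]
      · have : p ∈ T := by
          rw [← hr]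
          exact mem_filter.2 ⟨hp, h0⟩
        rw [if_pos this, if_neg h0, if_pos this]
        rfl
    · rw [if_neg hr]
      symm
      have : ∃ p ∈ S, ¬ (r p ≠ 0 ↔ p ∈ T) := by
        by_contra hcon
        push Not at hcon
        apply hr
        ext p
        unfold supp
        rw [mem_filter]
        constructor
        · rintro ⟨h1, h2⟩
          exact (hcon p h1).1 h2
        · intro hp
          exact ⟨hT hp, (hcon p (hT hp)).2 hp⟩
      obtain ⟨p, hp, hpn⟩ := this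
      refine prod_eq_zero hp ?_
      by_cases h0 : r p = 0
      · have : p ∈ T := by
          by_contra hpT
          exact hpn ⟨fun h => absurd h0 h, fun h => absurd h hpT⟩
        rw [if_pos h0, if_pos this]
      · have : p ∉ T := fun hpT => hpn ⟨fun _ => hpT, fun _ => h0⟩
        rw [if_neg h0, if_neg this]
  rw [e1, h]
  have e3 : ∏ p ∈ T, ∑ a ∈ R f p, v p a =
      ∏ p ∈ S, (if p ∈ T then ∑ a ∈ R f p, v p a else 1) := by
    rw [prod_ite_mem, inter_eq_right.2 hT]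
  rw [e3]
  refine prod_congr rfl fun p _ => ?_
  simp only [Nat.add_eq_zero_iff, one_ne_zero, and_false, if_false, if_true, Nat.add_sub_cancel]
  by_cases hp : p ∈ T
  · simp only [hp, if_true, zero_add]
  · simp only [hp, if_false, sum_const_zero, add_zero]

lemma sum_Dat_supp (f : ℤ[X]) (S : Finset ℕ) (F : Finset ℕ → ℝ) (v : ℕ → ℕ → ℝ) :
    ∑ r ∈ Dat f S, F (supp S r) * ∏ p ∈ supp S r, v p (rt r p) =
      ∑ T ∈ S.powerset, F T * ∏ p ∈ T, ∑ a ∈ R f p, v p a := by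
  classical
  rw [← sum_fiberwise_of_maps_to (s := Dat f S) (t := S.powerset) (g := fun r => supp S r)]
  · refine sum_congr rfl fun T hT => ?_
    rw [← sum_Dat_fib f (mem_powerset.1 hT) v, mul_sum]
    refine sum_congr rfl fun r hr => ?_
    rw [(mem_filter.1 hr).2]
  · intro r _
    exact mem_powerset.2 (filter_subset _ _)

/-! ### The classes -/

/-- The indicator of the primes at most `z` with a root. -/
noncomputable def Ha (f : ℤ[X]) (z : ℝ) (p : ℕ) : ℝ :=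
  open Classical in
  if (R f p).Nonempty ∧ (p : ℝ) ≤ z then 1 else 0

lemma prod_big_le {C₀ N : ℕ} {t : ℤ} (ht : t ∈ Icc (-(N : ℤ)) N) (hsq : Squarefree t) :
    ∏ p ∈ bigPrimes C₀ t, p ≤ N := by
  have h6 : (∏ p ∈ bigPrimes C₀ t, p) ≤ t.natAbs := by
    rw [natAbs_eq C₀ hsq]
    refine Nat.le_mul_of_pos_right _ ?_
    exact prod_pos fun _ hp => (Nat.prime_of_mem_primeFactors (mem_filter.1 hp).1).pos
  rw [mem_Icc] at ht
  omega

lemma prime_of_big {C₀ : ℕ} {t : ℤ} {p : ℕ} (hp : p ∈ bigPrimes C₀ t) : p.Prime :=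
  Nat.prime_of_mem_primeFactors (mem_filter.1 hp).1

lemma primeFactors_big (C₀ : ℕ) (t : ℤ) :
    (∏ p ∈ bigPrimes C₀ t, p).primeFactors = bigPrimes C₀ t :=
  Nat.primeFactors_prod fun _ hp => Nat.prime_of_mem_primeFactors (mem_filter.1 hp).1

lemma squarefree_prod_primes {T : Finset ℕ} (hT : ∀ p ∈ T, p.Prime) : Squarefree (∏ p ∈ T, p) := by
  classical
  induction T using Finset.induction_on with
  | empty => simp
  | insert a s ha ih =>
    rw [prod_insert ha]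
    have h1 : ∀ p ∈ s, p.Prime := fun p hp => hT p (mem_insert_of_mem hp)
    rw [Nat.squarefree_mul]
    · exact ⟨(hT a (mem_insert_self _ _)).prime.squarefree, ih h1⟩
    · refine Nat.Coprime.prod_right fun p hp => ?_
      refine (Nat.coprime_primes (hT a (mem_insert_self _ _)) (h1 p hp)).2 ?_
      rintro rfl
      exact ha hp

/-- Class (a). -/
theorem nclass_a (f : ℤ[X]) (D : RelData f) (N : ℕ) (z₃ : ℝ) (A : Finset ℤ)
    (hA : A ⊆ Tset f N) (hA2 : ∀ t ∈ A, ∀ p ∈ bigPrimes D.C₀ t, (p : ℝ) ≤ z₃) :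
    (A.card : ℝ) ≤ (2 * P0 D.C₀ + 1) * ∑ n ∈ Icc 1 N, HT.hf (Ha f z₃) n := by
  classical
  have hH0 : ∀ p, p.Prime → 0 ≤ Ha f z₃ p := by
    intro p _
    unfold Ha
    split_ifs <;> norm_num
  have h := sum_le_of_inj A (Icc (-(P0 D.C₀ : ℤ)) (P0 D.C₀) ×ˢ Icc 1 N)
    (fun t => (sp D.C₀ t, ∏ p ∈ bigPrimes D.C₀ t, p)) ?_ ?_ (fun _ => (1 : ℝ))
    (fun y => HT.hf (Ha f z₃) y.2) ?_ ?_
  · rw [sum_const, nsmul_eq_mul, mul_one] at h
    refine h.trans (le_of_eq ?_)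
    rw [sum_product]
    simp only
    rw [sum_const, nsmul_eq_mul, card_sp]
  · intro t ht
    obtain ⟨h1, h2, h3⟩ := mem_Tset.1 (hA ht)
    simp only [mem_product]
    refine ⟨sp_mem D.C₀ h2, ?_⟩
    rw [mem_Icc]
    exact ⟨prod_big_pos _ _, prod_big_le h1 h2⟩
  · intro t ht t' ht' htt
    simp only [Prod.mk.injEq] at htt
    refine sp_inj D.C₀ (mem_Tset.1 (hA ht)).2.1 (mem_Tset.1 (hA ht')).2.1 htt.1 ?_
    rw [← primeFactors_big D.C₀ t, ← primeFactors_big D.C₀ t', htt.2]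
  · intro t ht
    obtain ⟨h1, h2, h3⟩ := mem_Tset.1 (hA ht)
    obtain ⟨ρ, hρ, _⟩ := D.rel t h2 h3
    simp only
    unfold HT.hf
    rw [if_pos (squarefree_prod_primes fun p hp => prime_of_big hp), primeFactors_big]
    refine le_of_eq (Eq.symm (prod_eq_one fun p hp => ?_))
    unfold Ha
    rw [if_pos ⟨⟨ρ p, (hρ p hp).2.2⟩, hA2 t ht p hp⟩]
  · intro y _
    exact HT.hf_nonneg hH0 _

/-- Class (b). -/
theorem nclass_b (f : ℤ[X]) (D : RelData f) (N : ℕ) (U : Finset ℕ) (hU : ∀ p ∈ U, p.Prime)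
    (Dm : ℝ) (A : Finset ℤ)
    (hA : A ⊆ Tset f N) (hA2 : ∀ t ∈ A, Dm < ∏ p ∈ bigPrimes D.C₀ t ∩ U, (p : ℝ)) :
    (A.card : ℝ) ≤ (2 * P0 D.C₀ + 1) *
      (N * ∑ T ∈ U.powerset.filter (fun T : Finset ℕ => Dm < ∏ p ∈ T, (p : ℝ)),
        ∏ p ∈ T, 1 / (p : ℝ)) := by
  classical
  obtain ⟨G, hG⟩ : ∃ G : Finset ℕ → ℕ → ℝ, ∀ T n, G T n =
    if (∏ p ∈ T, p) * n ≤ N then (1 : ℝ) else 0 := ⟨_, fun _ _ => rfl⟩
  have h := sum_le_of_inj A (Icc (-(P0 D.C₀ : ℤ)) (P0 D.C₀) ×ˢ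
    (U.powerset.filter (fun T : Finset ℕ => Dm < ∏ p ∈ T, (p : ℝ)) ×ˢ Icc 1 N))
    (fun t => (sp D.C₀ t, bigPrimes D.C₀ t ∩ U, ∏ p ∈ bigPrimes D.C₀ t \ U, p)) ?_ ?_
    (fun _ => (1 : ℝ))
    (fun y : ℤ × Finset ℕ × ℕ => G y.2.1 y.2.2) ?_ ?_
  · rw [sum_const, nsmul_eq_mul, mul_one] at h
    refine h.trans ?_
    rw [sum_product]
    simp only
    rw [sum_const, nsmul_eq_mul, card_sp, sum_product]
    refine mul_le_mul_of_nonneg_left ?_ (by positivity)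
    rw [mul_sum]
    refine sum_le_sum fun T hT => ?_
    simp only
    have hTU := mem_powerset.1 (mem_filter.1 hT).1
    have hpos : 0 < ∏ p ∈ T, p := prod_pos fun p hp => (hU p (hTU hp)).pos
    rw [sum_congr rfl fun n _ => hG T n, ← sum_filter, sum_const, nsmul_eq_mul, mul_one]
    have e1 : ∏ p ∈ T, 1 / (p : ℝ) = 1 / ((∏ p ∈ T, p : ℕ) : ℝ) := by
      push_cast
      rw [prod_div_distrib, prod_const_one]
    rw [e1, mul_one_div]
    have h2 : ((Icc 1 N).filter (fun n => (∏ p ∈ T, p) * n ≤ N)).card ≤ N / ∏ p ∈ T, p := by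
      have : (Icc 1 N).filter (fun n => (∏ p ∈ T, p) * n ≤ N) ⊆ Icc 1 (N / ∏ p ∈ T, p) := by
        intro n hn
        rw [mem_filter, mem_Icc] at hn
        rw [mem_Icc]
        refine ⟨hn.1.1, ?_⟩
        rw [Nat.le_div_iff_mul_le hpos, mul_comm]
        exact hn.2
      refine (card_le_card this).trans ?_
      rw [Nat.card_Icc, Nat.add_sub_cancel]
    exact (Nat.cast_le.2 h2).trans Nat.cast_div_le
  · intro t ht
    obtain ⟨h1, h2, h3⟩ := mem_Tset.1 (hA ht)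
    simp only [mem_product, mem_powerset, mem_filter]
    refine ⟨sp_mem D.C₀ h2, ⟨inter_subset_right, hA2 t ht⟩, ?_⟩
    rw [mem_Icc]
    constructor
    · exact prod_pos fun p hp =>
        (Nat.prime_of_mem_primeFactors (mem_filter.1 (mem_sdiff.1 hp).1).1).pos
    · refine le_trans ?_ (prod_big_le (C₀ := D.C₀) h1 h2)
      refine prod_le_prod_of_subset_of_one_le' sdiff_subset fun p hp _ => ?_
      exact (Nat.prime_of_mem_primeFactors (mem_filter.1 hp).1).one_lt.le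
  · intro t ht t' ht' htt
    simp only [Prod.mk.injEq] at htt
    refine sp_inj D.C₀ (mem_Tset.1 (hA ht)).2.1 (mem_Tset.1 (hA ht')).2.1 htt.1 ?_
    have e1 := sdiff_union_inter (bigPrimes D.C₀ t) U
    have e2 := sdiff_union_inter (bigPrimes D.C₀ t') U
    have hpf : ∀ t : ℤ, (∏ p ∈ bigPrimes D.C₀ t \ U, p).primeFactors = bigPrimes D.C₀ t \ U :=
      fun t => Nat.primeFactors_prod fun p hp => prime_of_big (mem_sdiff.1 hp).1
    have e3 : bigPrimes D.C₀ t \ U = bigPrimes D.C₀ t' \ U := by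
      rw [← hpf t, ← hpf t', htt.2.2]
    rw [← e1, ← e2, htt.2.1, e3]
  · intro t ht
    obtain ⟨h1, h2, h3⟩ := mem_Tset.1 (hA ht)
    simp only
    rw [hG, if_pos]
    rw [prod_inter_mul_prod_sdiff]
    exact prod_big_le h1 h2
  · intro y _
    rw [hG]
    split_ifs <;> norm_num

/-- The weight of a datum: the indicator of `N(r) 2^j ≤ N`, divided by `N/2^j`. -/
noncomputable def om (S : Finset ℕ) (N j : ℕ) (r : ℕ → ℕ) : ℝ :=
  if (∏ p ∈ supp S r, p) * 2 ^ j ≤ N then (2 : ℝ) ^ j / N else 0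

lemma om_le {S : Finset ℕ} (hS : ∀ p ∈ S, p.Prime) {N : ℕ} (hN : 0 < N) (j : ℕ) (r : ℕ → ℕ) :
    |om S N j r| ≤ wS S r := by
  unfold om
  have hN' : (0 : ℝ) < N := by exact_mod_cast hN
  split_ifs with h
  · rw [abs_of_nonneg (by positivity)]
    have e1 : wS S r = 1 / ((∏ p ∈ supp S r, p : ℕ) : ℝ) := by
      unfold wS
      push_cast
      rw [prod_div_distrib, prod_const_one]
    have hpos : 0 < ∏ p ∈ supp S r, p := prod_pos fun p hp => (hS p (mem_filter.1 hp).1).pos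
    have hpos' : (0 : ℝ) < ((∏ p ∈ supp S r, p : ℕ) : ℝ) := by exact_mod_cast hpos
    rw [e1, div_le_div_iff₀ hN' hpos', one_mul]
    have h2 : (((∏ p ∈ supp S r, p) * 2 ^ j : ℕ) : ℝ) ≤ N := Nat.cast_le.2 h
    push_cast at h2 ⊢
    linarith
  · rw [abs_zero]
    exact wS_nonneg _ _

lemma om_mul {S : Finset ℕ} {N : ℕ} (hN : 0 < N) (j : ℕ) (r : ℕ → ℕ) :
    (N : ℝ) / 2 ^ j * om S N j r = if (∏ p ∈ supp S r, p) * 2 ^ j ≤ N then 1 else 0 := by
  have hN' : (0 : ℝ) < N := by exact_mod_cast hN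
  unfold om
  split_ifs with h
  · field_simp
  · rw [mul_zero]

/-- The dyadic exponent of the product of the large primes. -/
def jj (S₂ : Finset ℕ) (r₂ : ℕ → ℕ) : ℕ := Nat.log 2 (∏ p ∈ supp S₂ r₂, p)

section classC

variable (f : ℤ[X]) (D : RelData f)

/-- Class (c). -/
theorem nclass_c (N : ℕ) (hN0 : 0 < N) (z₃ : ℝ) (U : Finset ℕ) (Dm : ℝ) (A : Finset ℤ)
    (hA : A ⊆ Tset f N)
    (S₁ S₂ : Finset ℕ) (hS₁ : S₁ = (PX D.C₀ N).filter (fun p : ℕ => (p : ℝ) ≤ z₃))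
    (hS₂ : S₂ = (PX D.C₀ N).filter (fun p : ℕ => ¬ (p : ℝ) ≤ z₃)) (hU : U ⊆ S₁)
    (hA2 : ∀ t ∈ A, ¬ Dm < ∏ p ∈ bigPrimes D.C₀ t ∩ U, (p : ℝ))
    (hA3 : ∀ t ∈ A, ∃ p ∈ bigPrimes D.C₀ t, ¬ (p : ℝ) ≤ z₃) :
    (A.card : ℝ) ≤ ∑ s ∈ Icc (-(P0 D.C₀ : ℤ)) (P0 D.C₀), ∑ e : Fin D.m,
      ∑ r₂ ∈ VV f S₂ N, (N : ℝ) / 2 ^ jj S₂ r₂ *
        ∑ r ∈ DatS f S₁ U Dm, om S₁ N (jj S₂ r₂) r *
        cond f U (cf f D S₁ s e (D.κ (supp S₂ r₂) (rt r₂))) r (D.g (supp S₂ r₂) (rt r₂)) := by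
  classical
  have hom0 : ∀ j r, 0 ≤ om S₁ N j r := by
    intro j r
    unfold om
    split_ifs <;> positivity
  -- choices
  have hch : ∀ t ∈ A, ∃ (ρ : ℕ → ℕ) (e : Fin D.m), Valid f D.C₀ (bigPrimes D.C₀ t) ρ ∧
      ∀ p ∈ (bigPrimes D.C₀ t).filter (fun p : ℕ => (p : ℝ) ≤ z₃), ∀ a ∈ R f p, a ≠ ρ p →
        D.c e (sp D.C₀ t) ((bigPrimes D.C₀ t).filter (fun p : ℕ => (p : ℝ) ≤ z₃)) ρ p a *
          (J(D.κ ((bigPrimes D.C₀ t).filter (fun p : ℕ => ¬ (p : ℝ) ≤ z₃)) ρ | p) *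
            W f p (ρ p) a (D.g ((bigPrimes D.C₀ t).filter (fun p : ℕ => ¬ (p : ℝ) ≤ z₃)) ρ)) = 1 := by
    intro t ht
    obtain ⟨h1, h2, h3⟩ := mem_Tset.1 (hA ht)
    obtain ⟨ρ, hρ, hrel⟩ := D.rel t h2 h3
    obtain ⟨e, he⟩ := hrel _ _ (disjoint_filter_filter_not (bigPrimes D.C₀ t) (bigPrimes D.C₀ t)
      (fun p : ℕ => (p : ℝ) ≤ z₃)) (filter_union_filter_not_eq _ _)
    exact ⟨ρ, e, hρ, he⟩
  rcases A.eq_empty_or_nonempty with hAe | ⟨t₀, ht₀⟩
  · rw [hAe, card_empty, Nat.cast_zero]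
    refine sum_nonneg fun s _ => sum_nonneg fun e _ => sum_nonneg fun r₂ _ =>
      mul_nonneg (by positivity) (sum_nonneg fun r _ => mul_nonneg (hom0 _ _)
        (cond_nonneg f U ?_ _ _))
    exact fun r p a => cf_le f D _ _ _ _ _ _ _
  have hne : Nonempty (Fin D.m) := by
    obtain ⟨_, e₀, _⟩ := hch t₀ ht₀
    exact ⟨e₀⟩
  choose! ρ e hval hrel using hch
  set T₁ : ℤ → Finset ℕ := fun t => (bigPrimes D.C₀ t).filter (fun p : ℕ => (p : ℝ) ≤ z₃) with hT₁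
  set T₂ : ℤ → Finset ℕ := fun t => (bigPrimes D.C₀ t).filter (fun p : ℕ => ¬ (p : ℝ) ≤ z₃) with hT₂
  have hsub1 : ∀ t ∈ A, T₁ t ⊆ S₁ := by
    intro t ht
    obtain ⟨h1, h2, h3⟩ := mem_Tset.1 (hA ht)
    rw [hS₁]
    exact filter_subset_filter _ (big_subset D.C₀ h1 h2.ne_zero)
  have hsub2 : ∀ t ∈ A, T₂ t ⊆ S₂ := by
    intro t ht
    obtain ⟨h1, h2, h3⟩ := mem_Tset.1 (hA ht)
    rw [hS₂]
    exact filter_subset_filter _ (big_subset D.C₀ h1 h2.ne_zero)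
  have hs1 : ∀ t ∈ A, supp S₁ (mk (T₁ t) (ρ t)) = T₁ t := by
    intro t ht
    rw [supp_mk, inter_eq_right.2 (hsub1 t ht)]
  have hs2 : ∀ t ∈ A, supp S₂ (mk (T₂ t) (ρ t)) = T₂ t := by
    intro t ht
    rw [supp_mk, inter_eq_right.2 (hsub2 t ht)]
  have hsU : ∀ t ∈ A, supp U (mk (T₁ t) (ρ t)) = bigPrimes D.C₀ t ∩ U := by
    intro t ht
    rw [supp_mk]
    ext p
    rw [mem_inter, mem_inter, hT₁]
    simp only [mem_filter]
    constructor
    · rintro ⟨h1, h2, _⟩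
      exact ⟨h2, h1⟩
    · rintro ⟨h1, h2⟩
      refine ⟨h2, h1, ?_⟩
      have := hU h2
      rw [hS₁, mem_filter] at this
      exact this.2
  have hT₂pos : ∀ t, 0 < ∏ p ∈ T₂ t, p := fun t =>
    prod_pos fun p hp => (Nat.prime_of_mem_primeFactors (mem_filter.1 (mem_filter.1 hp).1).1).pos
  have hsize : ∀ t ∈ A, (∏ p ∈ supp S₁ (mk (T₁ t) (ρ t)), p) * 2 ^ jj S₂ (mk (T₂ t) (ρ t)) ≤ N := by
    intro t ht
    obtain ⟨h1, h2, h3⟩ := mem_Tset.1 (hA ht)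
    unfold jj
    rw [hs1 t ht, hs2 t ht]
    refine (Nat.mul_le_mul_left _ (Nat.pow_log_le_self 2 (hT₂pos t).ne')).trans ?_
    rw [hT₁, hT₂]
    simp only
    rw [prod_filter_mul_prod_filter_not]
    exact prod_big_le h1 h2
  have h := sum_le_of_inj A (Icc (-(P0 D.C₀ : ℤ)) (P0 D.C₀) ×ˢ ((univ : Finset (Fin D.m)) ×ˢ
      (VV f S₂ N ×ˢ DatS f S₁ U Dm)))
    (fun t => (sp D.C₀ t, e t, mk (T₂ t) (ρ t), mk (T₁ t) (ρ t))) ?_ ?_
    (fun _ => (1 : ℝ))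
    (fun y => (N : ℝ) / 2 ^ jj S₂ y.2.2.1 * (om S₁ N (jj S₂ y.2.2.1) y.2.2.2 *
      cond f U (cf f D S₁ y.1 y.2.1 (D.κ (supp S₂ y.2.2.1) (rt y.2.2.1))) y.2.2.2
        (D.g (supp S₂ y.2.2.1) (rt y.2.2.1)))) ?_ ?_
  · rw [sum_const, nsmul_eq_mul, mul_one] at h
    refine h.trans (le_of_eq ?_)
    rw [sum_product]
    refine sum_congr rfl fun s _ => ?_
    rw [sum_product]
    refine sum_congr rfl fun e' _ => ?_
    rw [sum_product]
    refine sum_congr rfl fun r₂ _ => ?_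
    simp only
    rw [mul_sum]
  · intro t ht
    obtain ⟨h1, h2, h3⟩ := mem_Tset.1 (hA ht)
    simp only [mem_product, mem_univ, true_and]
    refine ⟨sp_mem D.C₀ h2, ?_, ?_⟩
    · unfold VV
      rw [mem_filter, hs2 t ht]
      refine ⟨mk_mem (hsub2 t ht) fun p hp => (hval t ht p (mem_filter.1 hp).1).2.2, ?_, ?_⟩
      · obtain ⟨p, hp, hpz⟩ := hA3 t ht
        exact ⟨p, mem_filter.2 ⟨hp, hpz⟩⟩
      · have h5 : ∏ p ∈ T₂ t, p ≤ ∏ p ∈ bigPrimes D.C₀ t, p := by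
          refine prod_le_prod_of_subset_of_one_le' (filter_subset _ _) fun p hp _ => ?_
          exact (Nat.prime_of_mem_primeFactors (mem_filter.1 hp).1).one_lt.le
        exact h5.trans (prod_big_le h1 h2)
    · unfold DatS
      rw [mem_filter, hsU t ht]
      refine ⟨mk_mem (hsub1 t ht) fun p hp => (hval t ht p (mem_filter.1 hp).1).2.2, ?_⟩
      exact not_lt.1 (hA2 t ht)
  · intro t ht t' ht' htt
    simp only [Prod.mk.injEq] at htt
    obtain ⟨e1, _, e2, e3⟩ := htt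
    refine sp_inj D.C₀ (mem_Tset.1 (hA ht)).2.1 (mem_Tset.1 (hA ht')).2.1 e1 ?_
    have h1 : T₁ t = T₁ t' := by
      rw [← hs1 t ht, ← hs1 t' ht', e3]
    have h2 : T₂ t = T₂ t' := by
      rw [← hs2 t ht, ← hs2 t' ht', e2]
    have h3 : ∀ t, T₁ t ∪ T₂ t = bigPrimes D.C₀ t := fun t => filter_union_filter_not_eq _ _
    rw [← h3 t, ← h3 t', h1, h2]
  · intro t ht
    obtain ⟨h1, h2, h3⟩ := mem_Tset.1 (hA ht)
    have hone : cond f U (cf f D S₁ (sp D.C₀ t) (e t)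
        (D.κ (supp S₂ (mk (T₂ t) (ρ t))) (rt (mk (T₂ t) (ρ t))))) (mk (T₁ t) (ρ t))
        (D.g (supp S₂ (mk (T₂ t) (ρ t))) (rt (mk (T₂ t) (ρ t)))) = 1 := by
      rw [hs2 t ht]
      have ek : D.κ (T₂ t) (rt (mk (T₂ t) (ρ t))) = D.κ (T₂ t) (ρ t) :=
        D.κ_congr _ _ _ fun p hp => rt_mk hp
      have eg : D.g (T₂ t) (rt (mk (T₂ t) (ρ t))) = D.g (T₂ t) (ρ t) :=
        D.g_congr _ _ _ fun p hp => rt_mk hp
      rw [ek, eg]
      unfold cond cf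
      refine prod_eq_one fun p hp => prod_eq_one fun a ha => ?_
      have hpT : p ∈ T₁ t := by
        rw [hsU t ht, mem_inter] at hp
        have := hU hp.2
        rw [hS₁, mem_filter] at this
        exact mem_filter.2 ⟨hp.1, this.2⟩
      rw [hs1 t ht]
      have ec : D.c (e t) (sp D.C₀ t) (T₁ t) (rt (mk (T₁ t) (ρ t))) p a =
          D.c (e t) (sp D.C₀ t) (T₁ t) (ρ t) p a :=
        D.c_congr _ _ _ _ _ _ _ fun p hp => rt_mk hp
      rw [rt_mk hpT] at ha ⊢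
      rw [ec]
      have ha' := mem_erase.1 (J_subset ha)
      have hr := hrel t ht p hpT a ha'.2 ha'.1
      have hr2 : ((D.c (e t) (sp D.C₀ t) (T₁ t) (ρ t) p a * J(D.κ (T₂ t) (ρ t) | p) : ℤ) : ℝ) *
          (W f p (ρ t p) a (D.g (T₂ t) (ρ t)) : ℝ) = 1 := by
        rw [← Int.cast_mul, mul_assoc]
        rw [hr]
        simp
      rw [hr2]
      norm_num
    simp only
    rw [hone, mul_one, om_mul hN0, if_pos (hsize t ht)]
  · intro y _
    refine mul_nonneg (by positivity) (mul_nonneg (hom0 _ _) (cond_nonneg f U ?_ _ _))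
    exact fun r p a => cf_le f D _ _ _ _ _ _ _

/-- The multiplicative weights of the main term. -/
noncomputable def Hm (f : ℤ[X]) (z₁ z₂ : ℝ) (p : ℕ) : ℝ :=
  if z₁ < (p : ℝ) ∧ (p : ℝ) ≤ z₂ then wt f p else nr f p

lemma Hm_nonneg (f : ℤ[X]) (z₁ z₂ : ℝ) (p : ℕ) : 0 ≤ Hm f z₁ z₂ p := by
  unfold Hm wt nr
  split_ifs
  · exact sum_nonneg fun _ _ => by positivity
  · exact Nat.cast_nonneg _

lemma sum_Dat_one (f : ℤ[X]) (S : Finset ℕ) (F : Finset ℕ → ℝ) :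
    ∑ r ∈ Dat f S, F (supp S r) = ∑ T ∈ S.powerset, F T * ∏ p ∈ T, nr f p := by
  have h := sum_Dat_supp f S F (fun _ _ => 1)
  simp only [prod_const_one, mul_one, sum_const, nsmul_eq_mul] at h
  exact h

lemma sum_Dat_hf (f : ℤ[X]) {S U : Finset ℕ} (hU : U ⊆ S) (F : Finset ℕ → ℝ) :
    ∑ r ∈ Dat f S, F (supp S r) * hf f U r =
      ∑ T ∈ S.powerset, F T * ∏ p ∈ T, (if p ∈ U then wt f p else nr f p) := by
  classical
  have h := sum_Dat_supp f S F (fun p a => if p ∈ U then (1 / 2 : ℝ) ^ (J f p a).card else 1)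
  have e1 : ∀ r, ∏ p ∈ supp S r, (if p ∈ U then (1 / 2 : ℝ) ^ (J f p (rt r p)).card else 1) =
      hf f U r := by
    intro r
    unfold hf
    rw [prod_ite_mem]
    have : supp S r ∩ U = supp U r := by
      ext p
      unfold supp
      rw [mem_inter, mem_filter, mem_filter]
      constructor
      · rintro ⟨⟨_, h2⟩, h3⟩
        exact ⟨h3, h2⟩
      · rintro ⟨h1, h2⟩
        exact ⟨⟨hU h1, h2⟩, h1⟩
    rw [this]
  rw [sum_congr rfl fun r _ => by rw [e1 r]] at h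
  rw [h]
  refine sum_congr rfl fun T _ => ?_
  congr 1
  refine prod_congr rfl fun p _ => ?_
  by_cases hp : p ∈ U
  · simp only [hp, if_true]
    rfl
  · simp only [hp, if_false, sum_const, nsmul_eq_mul, mul_one]
    rfl

/-- The main term is a sum of a multiplicative function. -/
theorem main_nat (N : ℕ) {z₁ z₂ z₃ : ℝ} (hz23 : z₂ ≤ z₃) (Dm : ℝ)
    (S₁ S₂ U : Finset ℕ) (hS₁ : S₁ = (PX D.C₀ N).filter (fun p : ℕ => (p : ℝ) ≤ z₃))
    (hS₂ : S₂ = (PX D.C₀ N).filter (fun p : ℕ => ¬ (p : ℝ) ≤ z₃))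
    (hUdef : U = UU' D.C₀ N z₁ z₂) (hU : U ⊆ S₁) :
    ∑ r₂ ∈ VV f S₂ N, ∑ r ∈ DatS f S₁ U Dm,
      (if (∏ p ∈ supp S₁ r, p) * 2 ^ jj S₂ r₂ ≤ N then hf f U r else 0) ≤
      ∑ n ∈ Icc 1 (2 * N), HT.hf (Hm f z₁ z₂) n := by
  classical
  have hPX : ∀ p ∈ PX D.C₀ N, p.Prime := by
    intro p hp
    unfold PX at hp
    exact (mem_filter.1 hp).2.1
  have hS2sub : S₂ ⊆ PX D.C₀ N := by rw [hS₂]; exact filter_subset _ _
  have hS1sub : S₁ ⊆ PX D.C₀ N := by rw [hS₁]; exact filter_subset _ _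
  have hdisj : Disjoint S₁ S₂ := by
    rw [hS₁, hS₂]
    exact disjoint_filter_filter_not _ _ _
  have hpos2 : ∀ r₂, 0 < ∏ p ∈ supp S₂ r₂, p := fun r₂ =>
    prod_pos fun p hp => (hPX p (hS2sub (mem_filter.1 hp).1)).pos
  -- relax the conditions
  have h1 : ∑ r₂ ∈ VV f S₂ N, ∑ r ∈ DatS f S₁ U Dm,
      (if (∏ p ∈ supp S₁ r, p) * 2 ^ jj S₂ r₂ ≤ N then hf f U r else 0) ≤
      ∑ r₂ ∈ Dat f S₂, ∑ r ∈ Dat f S₁,
      (if (∏ p ∈ supp S₁ r, p) * (∏ p ∈ supp S₂ r₂, p) ≤ 2 * N then (1 : ℝ) else 0) * hf f U r := by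
    refine (sum_le_sum_of_subset_of_nonneg (filter_subset _ _) fun r₂ _ _ =>
      sum_nonneg fun r _ => ?_).trans (sum_le_sum fun r₂ _ => ?_)
    · split_ifs
      · exact hf_nonneg _ _ _
      · exact le_rfl
    · refine (sum_le_sum_of_subset_of_nonneg (filter_subset _ _) fun r _ _ => ?_).trans
        (sum_le_sum fun r _ => ?_)
      · split_ifs
        · exact hf_nonneg _ _ _
        · exact le_rfl
      · by_cases h : (∏ p ∈ supp S₁ r, p) * 2 ^ jj S₂ r₂ ≤ N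
        · rw [if_pos h, if_pos, one_mul]
          have h2 : ∏ p ∈ supp S₂ r₂, p ≤ 2 ^ (jj S₂ r₂ + 1) :=
            (Nat.lt_pow_succ_log_self (by norm_num) _).le
          calc (∏ p ∈ supp S₁ r, p) * (∏ p ∈ supp S₂ r₂, p) ≤
                (∏ p ∈ supp S₁ r, p) * 2 ^ (jj S₂ r₂ + 1) := Nat.mul_le_mul_left _ h2
            _ = 2 * ((∏ p ∈ supp S₁ r, p) * 2 ^ jj S₂ r₂) := by rw [pow_succ]; ring
            _ ≤ 2 * N := Nat.mul_le_mul_left _ h
        · rw [if_neg h]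
          refine mul_nonneg ?_ (hf_nonneg _ _ _)
          split_ifs <;> norm_num
  refine h1.trans ?_
  have h2 : ∀ r₂ ∈ Dat f S₂, ∑ r ∈ Dat f S₁,
      (if (∏ p ∈ supp S₁ r, p) * (∏ p ∈ supp S₂ r₂, p) ≤ 2 * N then (1 : ℝ) else 0) * hf f U r =
      ∑ T ∈ S₁.powerset, (if (∏ p ∈ T, p) * (∏ p ∈ supp S₂ r₂, p) ≤ 2 * N then (1 : ℝ) else 0) *
        ∏ p ∈ T, Hm f z₁ z₂ p := by
    intro r₂ _
    rw [sum_Dat_hf f hU (fun T => if (∏ p ∈ T, p) * (∏ p ∈ supp S₂ r₂, p) ≤ 2 * N then (1 : ℝ)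
      else 0)]
    refine sum_congr rfl fun T hT => ?_
    congr 1
    refine prod_congr rfl fun p hp => ?_
    have hpS := mem_powerset.1 hT hp
    unfold Hm
    have hiff : p ∈ U ↔ (z₁ < (p : ℝ) ∧ (p : ℝ) ≤ z₂) := by
      rw [hUdef]
      unfold UU'
      rw [mem_filter]
      exact ⟨fun h => h.2, fun h => ⟨hS1sub hpS, h⟩⟩
    by_cases hpU : p ∈ U
    · rw [if_pos hpU, if_pos (hiff.1 hpU)]
    · rw [if_neg hpU, if_neg fun h => hpU (hiff.2 h)]
  rw [sum_congr rfl h2, sum_comm]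
  have h3 : ∀ T ∈ S₁.powerset, ∑ r₂ ∈ Dat f S₂,
      (if (∏ p ∈ T, p) * (∏ p ∈ supp S₂ r₂, p) ≤ 2 * N then (1 : ℝ) else 0) *
        ∏ p ∈ T, Hm f z₁ z₂ p =
      ∑ T' ∈ S₂.powerset, (if (∏ p ∈ T, p) * (∏ p ∈ T', p) ≤ 2 * N then
        ∏ p ∈ T ∪ T', Hm f z₁ z₂ p else 0) := by
    intro T hT
    rw [sum_Dat_one f S₂ (fun T' => (if (∏ p ∈ T, p) * (∏ p ∈ T', p) ≤ 2 * N then (1 : ℝ) else 0) *
        ∏ p ∈ T, Hm f z₁ z₂ p)]
    refine sum_congr rfl fun T' hT' => ?_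
    have hd : Disjoint T T' := disjoint_of_subset_left (mem_powerset.1 hT)
      (disjoint_of_subset_right (mem_powerset.1 hT') hdisj)
    have e1 : ∏ p ∈ T', nr f p = ∏ p ∈ T', Hm f z₁ z₂ p := by
      refine prod_congr rfl fun p hp => ?_
      have hpS := mem_powerset.1 hT' hp
      rw [hS₂, mem_filter] at hpS
      unfold Hm
      rw [if_neg]
      rintro ⟨_, h⟩
      exact hpS.2 (h.trans hz23)
    rw [prod_union hd, e1]
    split_ifs
    · rw [one_mul]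
    · rw [zero_mul, zero_mul]
  rw [sum_congr rfl h3, ← sum_product']
  rw [← sum_filter]
  refine sum_le_of_inj _ (Icc 1 (2 * N)) (fun y : Finset ℕ × Finset ℕ =>
    (∏ p ∈ y.1, p) * ∏ p ∈ y.2, p) ?_ ?_ _ (HT.hf (Hm f z₁ z₂)) ?_ ?_
  · intro y hy
    rw [mem_filter, mem_product, mem_powerset, mem_powerset] at hy
    rw [mem_Icc]
    refine ⟨?_, hy.2⟩
    exact Nat.mul_pos (prod_pos fun p hp => (hPX p (hS1sub (hy.1.1 hp))).pos)
      (prod_pos fun p hp => (hPX p (hS2sub (hy.1.2 hp))).pos)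
  · intro y hy y' hy' hyy
    rw [mem_coe, mem_filter, mem_product, mem_powerset, mem_powerset] at hy hy'
    simp only at hyy
    have hu : ∀ y : Finset ℕ × Finset ℕ, y.1 ⊆ S₁ → y.2 ⊆ S₂ →
        ((∏ p ∈ y.1, p) * ∏ p ∈ y.2, p).primeFactors = y.1 ∪ y.2 := by
      intro y h1 h2
      rw [← prod_union (disjoint_of_subset_left h1 (disjoint_of_subset_right h2 hdisj))]
      refine Nat.primeFactors_prod fun p hp => ?_
      rcases mem_union.1 hp with h | h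
      · exact hPX p (hS1sub (h1 h))
      · exact hPX p (hS2sub (h2 h))
    have hun : y.1 ∪ y.2 = y'.1 ∪ y'.2 := by
      rw [← hu y hy.1.1 hy.1.2, ← hu y' hy'.1.1 hy'.1.2, hyy]
    have hp1 : ∀ y : Finset ℕ × Finset ℕ, y.1 ⊆ S₁ → y.2 ⊆ S₂ → (y.1 ∪ y.2) ∩ S₁ = y.1 := by
      intro y h1 h2
      ext p
      rw [mem_inter, mem_union]
      constructor
      · rintro ⟨h | h, h'⟩
        · exact h
        · exact absurd (h2 h) (disjoint_left.1 hdisj h')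
      · intro h
        exact ⟨Or.inl h, h1 h⟩
    have hp2 : ∀ y : Finset ℕ × Finset ℕ, y.1 ⊆ S₁ → y.2 ⊆ S₂ → (y.1 ∪ y.2) ∩ S₂ = y.2 := by
      intro y h1 h2
      ext p
      rw [mem_inter, mem_union]
      constructor
      · rintro ⟨h | h, h'⟩
        · exact absurd h' (disjoint_left.1 hdisj (h1 h))
        · exact h
      · intro h
        exact ⟨Or.inr h, h2 h⟩
    refine Prod.ext ?_ ?_
    · rw [← hp1 y hy.1.1 hy.1.2, ← hp1 y' hy'.1.1 hy'.1.2, hun]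
    · rw [← hp2 y hy.1.1 hy.1.2, ← hp2 y' hy'.1.1 hy'.1.2, hun]
  · intro y hy
    rw [mem_filter, mem_product, mem_powerset, mem_powerset] at hy
    have hd := disjoint_of_subset_left hy.1.1 (disjoint_of_subset_right hy.1.2 hdisj)
    have hpr : ∀ p ∈ y.1 ∪ y.2, p.Prime := by
      intro p hp
      rcases mem_union.1 hp with h | h
      · exact hPX p (hS1sub (hy.1.1 h))
      · exact hPX p (hS2sub (hy.1.2 h))
    unfold HT.hf
    rw [← prod_union hd, if_pos (squarefree_prod_primes hpr), Nat.primeFactors_prod hpr]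
  · intro n _
    exact HT.hf_nonneg (fun p _ => Hm_nonneg f z₁ z₂ p) n

end classC

end Stoll308.Gen
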