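import Pool.Agent.Work.MP_308fa9_nt.Gen.SelMain
import Pool.Agent.Work.MP_308fa9_nt.Gen.Euler

set_option autoImplicit false

/-!
Upper bound for the twists with nonempty fake `2`-Selmer set.
-/

namespace Stoll308.Gen

open Finset Polynomial Filter Topology

lemma decay (K : ℝ) {a b : ℝ} (ha : 0 < a) (hb : 0 < b) : ∃ X₀ : ℕ, ∀ X : ℕ, X₀ ≤ X →
    Real.log X ^ K * Real.exp (-(b * Real.log X ^ a)) ≤ 1 := by
  have h1 : Tendsto (fun x : ℝ => x ^ (K / a) * Real.exp (-b * x)) atTop (𝓝 0) :=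
    tendsto_rpow_mul_exp_neg_mul_atTop_nhds_zero (K / a) b hb
  have h2 : Tendsto (fun X : ℕ => Real.log X ^ a) atTop atTop :=
    (tendsto_rpow_atTop ha).comp (Real.tendsto_log_atTop.comp tendsto_natCast_atTop_atTop)
  have h3 := (h1.comp h2).eventually_le_const (show (0 : ℝ) < 1 by norm_num)
  obtain ⟨X₀, hX₀⟩ := eventually_atTop.1 h3
  refine ⟨max X₀ 3, fun X hX => ?_⟩
  have h4 := hX₀ X ((le_max_left _ _).trans hX)
  have hX3 : (3 : ℝ) ≤ X := by exact_mod_cast (le_max_right _ _).trans hX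
  have hL : 0 < Real.log X := Real.log_pos (by linarith)
  simp only [Function.comp] at h4
  rw [← Real.rpow_mul hL.le, mul_div_cancel₀ _ ha.ne', neg_mul] at h4
  exact h4

lemma log2_le {X : ℕ} (hX : 3 ≤ X) : (Nat.log 2 X : ℝ) + 1 ≤ 3 * Real.log X := by
  have h1 : (2 : ℝ) ^ Nat.log 2 X ≤ X := by
    exact_mod_cast Nat.pow_log_le_self 2 (by omega)
  have h2 : (Nat.log 2 X : ℝ) * Real.log 2 ≤ Real.log X := by
    have := Real.log_le_log (by positivity) h1
    rwa [Real.log_pow] at this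
  have h3 := Real.log_two_gt_d9
  have hX3 : (3 : ℝ) ≤ X := by exact_mod_cast hX
  have h4 : 1 ≤ Real.log X := by
    rw [Real.le_log_iff_exp_le (by linarith)]
    have := Real.exp_one_lt_d9
    linarith
  have h5 : (0 : ℝ) ≤ Nat.log 2 X := Nat.cast_nonneg _
  nlinarith

lemma Pn_le_prod (C₀ N : ℕ) {n : ℝ} (hn : 0 ≤ n) :
    Pn C₀ N n ≤ ∏ p ∈ (Icc 1 N).filter Nat.Prime, (1 + n / (p : ℝ)) := by
  unfold Pn
  have hsub : PX C₀ N ⊆ (Icc 1 N).filter Nat.Prime := by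
    intro p hp
    unfold PX at hp
    rw [mem_filter] at hp ⊢
    exact ⟨hp.1, hp.2.1⟩
  rw [← prod_sdiff hsub]
  have h0 := prod_le_prod (s := (Icc 1 N).filter Nat.Prime \ PX C₀ N) (f := fun _ => (1 : ℝ))
    (g := fun p : ℕ => 1 + n / (p : ℝ)) (fun _ _ => zero_le_one) fun p _ => by
      have : 0 ≤ n / (p : ℝ) := by positivity
      linarith
  rw [prod_const_one] at h0
  exact le_mul_of_one_le_left (prod_nonneg fun p _ => by positivity) h0

lemma Pn_nonneg (C₀ N : ℕ) {n : ℝ} (hn : 0 ≤ n) : 0 ≤ Pn C₀ N n :=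
  prod_nonneg fun p _ => by positivity

lemma one_le_rootProd (f : ℤ[X]) (N : ℕ) : (1 : ℝ) ≤ ∏ p ∈ rootPrimes f N, (1 + 1 / (p : ℝ)) := by
  have h0 := prod_le_prod (s := rootPrimes f N) (f := fun _ => (1 : ℝ))
    (g := fun p : ℕ => 1 + 1 / (p : ℝ)) (fun _ _ => zero_le_one) fun p _ => by
      have : 0 ≤ 1 / (p : ℝ) := by positivity
      linarith
  rwa [prod_const_one] at h0

/-- The upper bound for large `X`. -/
theorem sel_upper_large (f : ℤ[X]) (hf : f.Monic) (h6 : 6 ≤ f.natDegree) (D : RelData f)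
    (hN : NonTriv f D.C₀) (hS : SplitMert f) : ∃ (c C : ℝ) (X₀ : ℕ), 0 < c ∧ 0 ≤ C ∧ 3 ≤ X₀ ∧
      ∀ N : ℕ, X₀ ≤ N → ∑ t ∈ Tset f N, 1 / |(t : ℝ)| ≤
        C * Real.log N ^ (-c) * ∏ p ∈ rootPrimes f N, (1 + 1 / (p : ℝ)) := by
  classical
  set n : ℕ := f.natDegree with hn
  have hn0 : (0 : ℝ) < n := by
    have : 0 < n := by omega
    exact_mod_cast this
  obtain ⟨η₀, hη₀, hmain⟩ := euler_main f hf h6 hS
  set η : ℝ := min η₀ (1 / 4) with hη
  have hη0 : 0 < η := lt_min hη₀ (by norm_num)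
  have hη4 : η ≤ 1 / 4 := min_le_right _ _
  have hη1 : η < 1 := by linarith
  obtain ⟨cm, hcm, Cm, Xm, hCm, hm⟩ := hmain η hη0 (min_le_left _ _)
  obtain ⟨ca, hca, Ca, Xa, hCa, ha⟩ := euler_short f (by omega) hS η hη0 hη1
  obtain ⟨Cb, Xb, hCb, hb⟩ := euler_rankin 1 zero_le_one η hη0 hη1
  obtain ⟨C1, hC1, h1⟩ := euler_const 1 zero_le_one
  obtain ⟨Cn, hCn, hcn⟩ := euler_const n hn0.le
  obtain ⟨Cq, hCq, hcq⟩ := euler_const ((n : ℝ) ^ 2) (by positivity)
  -- decay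
  obtain ⟨Y1, hY1⟩ := decay (Cb + 1 + 1) (a := η / 4) (b := 1) (by positivity) one_pos
  obtain ⟨Y2, hY2⟩ := decay (2 * (2 * n + (n : ℝ) ^ 2) + 4) (a := η) (b := 1) hη0 one_pos
  obtain ⟨Y3, hY3⟩ := eventually_rpow_log (a := η / 4) (by positivity) (4 * n)
  obtain ⟨Y4, hY4⟩ := eventually_rpow_log (a := 1 - 3 * η / 2) (by linarith) (2 * n)
  set c : ℝ := min (min ca cm) 1 with hc
  have hc0 : 0 < c := lt_min (lt_min hca hcm) one_pos
  set A0 : ℝ := 2 * P0 D.C₀ + 1 with hA0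
  have hA0' : 0 ≤ A0 := by positivity
  -- the constant of the error term
  set K : ℝ := Cn ^ 2 * Cq + 2 * n * Cn ^ 2 with hK
  have hK0 : 0 ≤ K := by positivity
  refine ⟨c, A0 * Ca + A0 * (Cb * C1) + A0 * (D.m * (Cm + (2 * D.C₀ + 1) *
    (3 * (2 * 3 ^ n * Real.sqrt K)))), max (max (max Xm Xa) (max Xb 3)) (max (max Y1 Y2)
    (max Y3 Y4)), hc0, by positivity, ?_, fun N hNX => ?_⟩
  · exact (le_max_right _ _).trans ((le_max_right _ _).trans (le_max_left _ _))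
  have hNm : Xm ≤ N := (le_max_left _ _).trans ((le_max_left _ _).trans ((le_max_left _ _).trans hNX))
  have hNa : Xa ≤ N := (le_max_right _ _).trans ((le_max_left _ _).trans ((le_max_left _ _).trans hNX))
  have hNb : Xb ≤ N := (le_max_left _ _).trans ((le_max_right _ _).trans ((le_max_left _ _).trans hNX))
  have hN3 : 3 ≤ N := (le_max_right _ _).trans ((le_max_right _ _).trans ((le_max_left _ _).trans hNX))
  have hN1 : Y1 ≤ N := (le_max_left _ _).trans ((le_max_left _ _).trans ((le_max_right _ _).trans hNX))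
  have hN2 : Y2 ≤ N := (le_max_right _ _).trans ((le_max_left _ _).trans ((le_max_right _ _).trans hNX))
  have hN33 : Y3 ≤ N := (le_max_left _ _).trans ((le_max_right _ _).trans ((le_max_right _ _).trans hNX))
  have hN4 : Y4 ≤ N := (le_max_right _ _).trans ((le_max_right _ _).trans ((le_max_right _ _).trans hNX))
  have hNr : (3 : ℝ) ≤ N := by exact_mod_cast hN3
  set L : ℝ := Real.log N with hL
  have hL1 : 1 ≤ L := by
    rw [hL, Real.le_log_iff_exp_le (by linarith)]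
    have := Real.exp_one_lt_d9
    linarith
  have hL0 : 0 < L := by linarith
  set Rp : ℝ := ∏ p ∈ rootPrimes f N, (1 + 1 / (p : ℝ)) with hRp
  have hRp1 : 1 ≤ Rp := one_le_rootProd f N
  have hLc0 : 0 < L ^ (-c) := by positivity
  have hLc : L ^ (-(1 : ℝ)) ≤ L ^ (-c) :=
    Real.rpow_le_rpow_of_exponent_le hL1 (neg_le_neg (min_le_right _ _))
  have hLa : L ^ (-ca) ≤ L ^ (-c) :=
    Real.rpow_le_rpow_of_exponent_le hL1 (neg_le_neg ((min_le_left _ _).trans (min_le_left _ _)))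
  have hLm : L ^ (-cm) ≤ L ^ (-c) :=
    Real.rpow_le_rpow_of_exponent_le hL1 (neg_le_neg ((min_le_left _ _).trans (min_le_right _ _)))
  have hLRp : L ^ (-(1 : ℝ)) ≤ L ^ (-c) * Rp :=
    hLc.trans (le_mul_of_one_le_right hLc0.le hRp1)
  set z₁ : ℝ := Real.exp (L ^ η) with hz₁
  set z₂ : ℝ := Real.exp (L ^ (1 - η)) with hz₂
  set z₃ : ℝ := Real.exp (L ^ (1 - η / 2)) with hz₃
  set Dm : ℝ := Real.exp (L ^ (1 - 3 * η / 4)) with hDm
  have hz23 : z₂ ≤ z₃ := Real.exp_le_exp.2 (Real.rpow_le_rpow_of_exponent_le hL1 (by linarith))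
  have hbound := sel_bound f D hf (by omega) hN N (z₁ := z₁) (z₂ := z₂) (z₃ := z₃) (Dm := Dm)
    (Real.exp_pos _) (Real.exp_pos _) hz23 (Real.exp_pos _).le
  refine hbound.trans ?_
  have e0 : ∀ a b d : ℝ, (a + b + d) * L ^ (-c) * Rp =
      a * L ^ (-c) * Rp + b * L ^ (-c) * Rp + d * L ^ (-c) * Rp := fun a b d => by ring
  rw [e0]
  refine add_le_add (add_le_add ?_ ?_) ?_
  · -- class (a)
    have h := ha N hNa
    calc A0 * ∏ p ∈ (rootPrimes f N).filter (fun p : ℕ => (p : ℝ) ≤ z₃), (1 + 1 / (p : ℝ)) ≤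
          A0 * (Ca * L ^ (-ca) * Rp) := mul_le_mul_of_nonneg_left h hA0'
      _ ≤ A0 * (Ca * L ^ (-c) * Rp) := by
          refine mul_le_mul_of_nonneg_left ?_ hA0'
          refine mul_le_mul_of_nonneg_right ?_ (by linarith)
          exact mul_le_mul_of_nonneg_left hLa hCa.le
      _ = A0 * Ca * L ^ (-c) * Rp := by ring
  · -- class (b)
    have h := hb N hNb
    have hPn1 : Pn D.C₀ N 1 ≤ C1 * L ^ (1 : ℝ) := (Pn_le_prod _ _ zero_le_one).trans (h1 N hN3)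
    have hsum : ∑ T ∈ (UU' D.C₀ N z₁ z₂).powerset.filter
        (fun T : Finset ℕ => Dm < ∏ p ∈ T, (p : ℝ)), ∏ p ∈ T, 1 / (p : ℝ) ≤
        Cb * L ^ Cb * Real.exp (-(L ^ (η / 4))) := by
      refine le_trans ?_ h
      have e1 : ∀ T : Finset ℕ, ∏ p ∈ T, 1 / (p : ℝ) = 1 ^ T.card / ((∏ p ∈ T, p : ℕ) : ℝ) := by
        intro T
        rw [prod_div_distrib, prod_const_one, one_pow]
        push_cast
        rfl
      rw [sum_congr rfl fun T _ => e1 T]
      refine sum_le_sum_of_subset_of_nonneg ?_ fun T _ _ => by positivity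
      intro T hT
      rw [mem_filter, mem_powerset] at hT ⊢
      refine ⟨hT.1.trans ?_, ?_⟩
      · intro p hp
        unfold UU' PX at hp
        rw [mem_filter, mem_filter] at hp
        rw [mem_filter, mem_filter]
        exact ⟨⟨hp.1.1, hp.1.2.1⟩, hp.2⟩
      · push_cast
        exact hT.2
    have hdec : L ^ (Cb + 1 + 1) * Real.exp (-(1 * L ^ (η / 4))) ≤ 1 := hY1 N hN1
    have hsum0 : 0 ≤ ∑ T ∈ (UU' D.C₀ N z₁ z₂).powerset.filter
        (fun T : Finset ℕ => Dm < ∏ p ∈ T, (p : ℝ)), ∏ p ∈ T, 1 / (p : ℝ) :=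
      sum_nonneg fun T _ => prod_nonneg fun p _ => by positivity
    have e2 : L ^ (Cb + 1 + 1) = L ^ Cb * L ^ (1 : ℝ) * L := by
      rw [Real.rpow_add hL0, Real.rpow_add hL0, Real.rpow_one]
    have hle : (∑ T ∈ (UU' D.C₀ N z₁ z₂).powerset.filter
        (fun T : Finset ℕ => Dm < ∏ p ∈ T, (p : ℝ)), ∏ p ∈ T, 1 / (p : ℝ)) * Pn D.C₀ N 1 ≤
        Cb * C1 * L ^ (-(1 : ℝ)) := by
      calc _ ≤ (Cb * L ^ Cb * Real.exp (-(L ^ (η / 4)))) * (C1 * L ^ (1 : ℝ)) :=
            mul_le_mul hsum hPn1 (Pn_nonneg _ _ zero_le_one) (by positivity)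
        _ = Cb * C1 * ((L ^ (Cb + 1 + 1) * Real.exp (-(1 * L ^ (η / 4)))) * L ^ (-(1 : ℝ))) := by
            rw [e2, one_mul, Real.rpow_neg hL0.le, Real.rpow_one]
            field_simp
        _ ≤ Cb * C1 * (1 * L ^ (-(1 : ℝ))) := by
            refine mul_le_mul_of_nonneg_left ?_ (by positivity)
            exact mul_le_mul_of_nonneg_right hdec (by positivity)
        _ = _ := by ring
    calc A0 * ((∑ T ∈ (UU' D.C₀ N z₁ z₂).powerset.filter
        (fun T : Finset ℕ => Dm < ∏ p ∈ T, (p : ℝ)), ∏ p ∈ T, 1 / (p : ℝ)) * Pn D.C₀ N 1) ≤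
          A0 * (Cb * C1 * L ^ (-(1 : ℝ))) := mul_le_mul_of_nonneg_left hle hA0'
      _ ≤ A0 * (Cb * C1 * (L ^ (-c) * Rp)) := by
          refine mul_le_mul_of_nonneg_left ?_ hA0'
          exact mul_le_mul_of_nonneg_left hLRp (by positivity)
      _ = A0 * (Cb * C1) * L ^ (-c) * Rp := by ring
  · -- class (c)
    have hmainN := hm N hNm
    -- the main term
    have hMT : ∏ p ∈ PX D.C₀ N,
        (1 + (if z₁ < (p : ℝ) ∧ (p : ℝ) ≤ z₂ then wt f p else nr f p) / (p : ℝ)) ≤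
        Cm * L ^ (-cm) * Rp := by
      refine le_trans ?_ hmainN
      have hsub : PX D.C₀ N ⊆ (Icc 1 N).filter Nat.Prime := by
        intro p hp
        unfold PX at hp
        rw [mem_filter] at hp ⊢
        exact ⟨hp.1, hp.2.1⟩
      have hpos : ∀ p : ℕ, 0 ≤ (if z₁ < (p : ℝ) ∧ (p : ℝ) ≤ z₂ then wt f p else nr f p) /
          (p : ℝ) := by
        intro p
        refine div_nonneg ?_ (Nat.cast_nonneg p)
        split_ifs
        · exact wt_nonneg p
        · exact nr_nonneg p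
      rw [← prod_sdiff hsub]
      have h0 := prod_le_prod (s := (Icc 1 N).filter Nat.Prime \ PX D.C₀ N) (f := fun _ => (1 : ℝ))
        (g := fun p : ℕ => 1 + (if z₁ < (p : ℝ) ∧ (p : ℝ) ≤ z₂ then wt f p else nr f p) / (p : ℝ))
        (fun _ _ => zero_le_one) fun p _ => by
          have := hpos p
          linarith
      rw [prod_const_one] at h0
      exact le_mul_of_one_le_left (prod_nonneg fun p _ => by
        have := hpos p
        linarith) h0
    -- the error term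
    have hPn : Pn D.C₀ N n ≤ Cn * L ^ (n : ℝ) := (Pn_le_prod _ _ hn0.le).trans (hcn N hN3)
    have hPq : Pn D.C₀ N ((n : ℝ) ^ 2) ≤ Cq * L ^ ((n : ℝ) ^ 2) :=
      (Pn_le_prod _ _ (by positivity)).trans (hcq N hN3)
    have hPn0 : 0 ≤ Pn D.C₀ N n := Pn_nonneg _ _ hn0.le
    have hPq0 : 0 ≤ Pn D.C₀ N ((n : ℝ) ^ 2) := Pn_nonneg _ _ (by positivity)
    set M : ℝ := 2 * n + (n : ℝ) ^ 2 with hM
    have hLn2 : (L ^ (n : ℝ)) ^ 2 ≤ L ^ M := by
      rw [← Real.rpow_natCast, ← Real.rpow_mul hL0.le]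
      refine Real.rpow_le_rpow_of_exponent_le hL1 ?_
      rw [hM]
      push_cast
      nlinarith
    have hA1 : Pn D.C₀ N n ^ 2 * ((1 / z₁) * Pn D.C₀ N ((n : ℝ) ^ 2)) ≤
        Cn ^ 2 * Cq * (L ^ M * Real.exp (-(L ^ η))) := by
      have h2 : Pn D.C₀ N n ^ 2 ≤ (Cn * L ^ (n : ℝ)) ^ 2 := pow_le_pow_left₀ hPn0 hPn 2
      have h3 : 1 / z₁ = Real.exp (-(L ^ η)) := by
        rw [hz₁, Real.exp_neg, one_div]
      rw [h3]
      have h4 : L ^ M = L ^ (n : ℝ) * L ^ (n : ℝ) * L ^ ((n : ℝ) ^ 2) := by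
        rw [hM, Real.rpow_add hL0, two_mul, Real.rpow_add hL0]
      calc _ ≤ (Cn * L ^ (n : ℝ)) ^ 2 * (Real.exp (-(L ^ η)) * (Cq * L ^ ((n : ℝ) ^ 2))) :=
            mul_le_mul h2 (mul_le_mul_of_nonneg_left hPq (Real.exp_pos _).le)
              (mul_nonneg (Real.exp_pos _).le hPq0) (by positivity)
        _ = _ := by
            rw [h4]
            ring
    have hexp : Dm ^ 2 * z₃ ^ (-(n : ℝ)⁻¹) ≤ Real.exp (-(L ^ η)) := by
      rw [hDm, hz₃, ← Real.exp_nat_mul, ← Real.exp_mul, ← Real.exp_add]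
      refine Real.exp_le_exp.2 ?_
      have h3 : 4 * (n : ℝ) ≤ L ^ (η / 4) := hY3 N hN33
      have h4 : 2 * (n : ℝ) ≤ L ^ (1 - 3 * η / 2) := hY4 N hN4
      have e3 : L ^ (1 - η / 2) = L ^ (1 - 3 * η / 4) * L ^ (η / 4) := by
        rw [← Real.rpow_add hL0]
        congr 1
        ring
      have e4 : L ^ (1 - η / 2) = L ^ (1 - 3 * η / 2) * L ^ η := by
        rw [← Real.rpow_add hL0]
        congr 1
        ring
      have h5 : 4 * n * L ^ (1 - 3 * η / 4) ≤ L ^ (1 - η / 2) := by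
        rw [e3, mul_comm]
        exact mul_le_mul_of_nonneg_left h3 (by positivity)
      have h6 : 2 * n * L ^ η ≤ L ^ (1 - η / 2) := by
        rw [e4]
        exact mul_le_mul_of_nonneg_right h4 (by positivity)
      have h7 : L ^ (1 - η / 2) * (-(n : ℝ)⁻¹) ≤ -(2 * L ^ (1 - 3 * η / 4)) - L ^ η := by
        rw [mul_neg, ← div_eq_mul_inv]
        have h8 : 2 * L ^ (1 - 3 * η / 4) + L ^ η ≤ L ^ (1 - η / 2) / n := by
          rw [le_div_iff₀ hn0]
          linarith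
        linarith
      push_cast
      linarith
    have hA2 : 2 * n * (Dm * Pn D.C₀ N n) ^ 2 * z₃ ^ (-(n : ℝ)⁻¹) ≤
        2 * n * Cn ^ 2 * (L ^ M * Real.exp (-(L ^ η))) := by
      have h2 : Pn D.C₀ N n ^ 2 ≤ (Cn * L ^ (n : ℝ)) ^ 2 := pow_le_pow_left₀ hPn0 hPn 2
      calc 2 * n * (Dm * Pn D.C₀ N n) ^ 2 * z₃ ^ (-(n : ℝ)⁻¹) =
            2 * n * (Pn D.C₀ N n ^ 2 * (Dm ^ 2 * z₃ ^ (-(n : ℝ)⁻¹))) := by ring
        _ ≤ 2 * n * ((Cn * L ^ (n : ℝ)) ^ 2 * Real.exp (-(L ^ η))) := by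
            refine mul_le_mul_of_nonneg_left ?_ (by positivity)
            exact mul_le_mul h2 hexp (by positivity) (by positivity)
        _ = 2 * n * Cn ^ 2 * ((L ^ (n : ℝ)) ^ 2 * Real.exp (-(L ^ η))) := by ring
        _ ≤ _ := by
            refine mul_le_mul_of_nonneg_left ?_ (by positivity)
            exact mul_le_mul_of_nonneg_right hLn2 (Real.exp_pos _).le
    have hdec : L ^ (2 * M + 4) * Real.exp (-(1 * L ^ η)) ≤ 1 := hY2 N hN2
    have hsq : Real.sqrt (Pn D.C₀ N n ^ 2 * ((1 / z₁) * Pn D.C₀ N ((n : ℝ) ^ 2)) +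
        2 * n * (Dm * Pn D.C₀ N n) ^ 2 * z₃ ^ (-(n : ℝ)⁻¹)) ≤ Real.sqrt K * L ^ (-(2 : ℝ)) := by
      have h2 : Pn D.C₀ N n ^ 2 * ((1 / z₁) * Pn D.C₀ N ((n : ℝ) ^ 2)) +
          2 * n * (Dm * Pn D.C₀ N n) ^ 2 * z₃ ^ (-(n : ℝ)⁻¹) ≤ K * L ^ (-(4 : ℝ)) := by
        have h3 : L ^ M * Real.exp (-(L ^ η)) ≤ L ^ (-(4 : ℝ)) := by
          have hM0 : 0 ≤ M := by positivity
          have e5 : L ^ M * Real.exp (-(L ^ η)) = L ^ (-(M + 4)) *
              (L ^ (2 * M + 4) * Real.exp (-(1 * L ^ η))) := by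
            rw [← mul_assoc, ← Real.rpow_add hL0, one_mul]
            congr 2
            ring
          rw [e5]
          calc L ^ (-(M + 4)) * (L ^ (2 * M + 4) * Real.exp (-(1 * L ^ η))) ≤
                L ^ (-(M + 4)) * 1 := mul_le_mul_of_nonneg_left hdec (by positivity)
            _ ≤ L ^ (-(4 : ℝ)) := by
                rw [mul_one]
                exact Real.rpow_le_rpow_of_exponent_le hL1 (by linarith)
        calc _ ≤ Cn ^ 2 * Cq * (L ^ M * Real.exp (-(L ^ η))) +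
              2 * n * Cn ^ 2 * (L ^ M * Real.exp (-(L ^ η))) := add_le_add hA1 hA2
          _ = K * (L ^ M * Real.exp (-(L ^ η))) := by
              rw [hK]
              ring
          _ ≤ _ := mul_le_mul_of_nonneg_left h3 hK0
      refine (Real.sqrt_le_sqrt h2).trans (le_of_eq ?_)
      rw [Real.sqrt_mul hK0]
      congr 1
      have e6 : L ^ (-(4 : ℝ)) = (L ^ (-(2 : ℝ))) ^ 2 := by
        rw [← Real.rpow_natCast, ← Real.rpow_mul hL0.le]
        congr 1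
        norm_num
      rw [e6, Real.sqrt_sq (by positivity)]
    have hE : (Nat.log 2 N + 1) * (2 * 3 ^ n * Real.sqrt
        (Pn D.C₀ N n ^ 2 * ((1 / z₁) * Pn D.C₀ N ((n : ℝ) ^ 2)) +
        2 * n * (Dm * Pn D.C₀ N n) ^ 2 * z₃ ^ (-(n : ℝ)⁻¹))) ≤
        3 * (2 * 3 ^ n * Real.sqrt K) * L ^ (-(1 : ℝ)) := by
      have h2 : (Nat.log 2 N : ℝ) + 1 ≤ 3 * L := log2_le hN3
      calc _ ≤ (3 * L) * (2 * 3 ^ n * (Real.sqrt K * L ^ (-(2 : ℝ)))) :=
            mul_le_mul h2 (mul_le_mul_of_nonneg_left hsq (by positivity)) (by positivity)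
              (by positivity)
        _ = 3 * (2 * 3 ^ n * Real.sqrt K) * (L * L ^ (-(2 : ℝ))) := by ring
        _ = _ := by
            congr 1
            nth_rewrite 1 [← Real.rpow_one L]
            rw [← Real.rpow_add hL0]
            norm_num
    have hm0 : (0 : ℝ) ≤ D.m := Nat.cast_nonneg _
    calc A0 * (D.m * (∏ p ∈ PX D.C₀ N,
          (1 + (if z₁ < (p : ℝ) ∧ (p : ℝ) ≤ z₂ then wt f p else nr f p) / (p : ℝ)) +
          (2 * D.C₀ + 1) * ((Nat.log 2 N + 1) * (2 * 3 ^ n * Real.sqrt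
          (Pn D.C₀ N n ^ 2 * ((1 / z₁) * Pn D.C₀ N ((n : ℝ) ^ 2)) +
          2 * n * (Dm * Pn D.C₀ N n) ^ 2 * z₃ ^ (-(n : ℝ)⁻¹)))))) ≤
        A0 * (D.m * (Cm * L ^ (-c) * Rp + (2 * D.C₀ + 1) *
          (3 * (2 * 3 ^ n * Real.sqrt K) * (L ^ (-c) * Rp)))) := by
          refine mul_le_mul_of_nonneg_left (mul_le_mul_of_nonneg_left (add_le_add ?_ ?_) hm0) hA0'
          · refine hMT.trans ?_
            refine mul_le_mul_of_nonneg_right ?_ (by linarith)
            exact mul_le_mul_of_nonneg_left hLm hCm.le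
          · refine mul_le_mul_of_nonneg_left (hE.trans ?_) (by positivity)
            exact mul_le_mul_of_nonneg_left hLRp (by positivity)
      _ = _ := by ring

open Classical in
/-- The upper bound for the twists with nonempty fake `2`-Selmer set. -/
theorem sel_upper (f : ℤ[X]) (hf : f.Monic) (h6 : 6 ≤ f.natDegree) (D : RelData f)
    (hN : NonTriv f D.C₀) (hS : SplitMert f) : ∃ c C : ℝ, 0 < c ∧ ∀ X : ℕ, 3 ≤ X →
      ∑ t ∈ (Icc (-(X : ℤ)) X).filter (fun t => Squarefree t ∧ Sel f t), 1 / |(t : ℝ)| ≤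
        C * Real.log X ^ (-c) * ∏ p ∈ rootPrimes f X, (1 + 1 / (p : ℝ)) := by
  obtain ⟨c, C, X₀, hc, hC, hX₀, h⟩ := sel_upper_large f hf h6 D hN hS
  set K₀ : ℝ := ∑ t ∈ Icc (-(X₀ : ℤ)) X₀, 1 / |(t : ℝ)| with hK₀
  have hK0 : 0 ≤ K₀ := sum_nonneg fun t _ => by positivity
  have hX₀r : (3 : ℝ) ≤ X₀ := by exact_mod_cast hX₀
  have hL₀ : 0 < Real.log X₀ := Real.log_pos (by linarith)
  refine ⟨c, C + K₀ * Real.log X₀ ^ c, hc, fun X hX => ?_⟩
  have hXr : (3 : ℝ) ≤ X := by exact_mod_cast hX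
  have hL : 0 < Real.log X := Real.log_pos (by linarith)
  have hRp1 := one_le_rootProd f X
  by_cases hXX : X₀ ≤ X
  · refine (h X hXX).trans ?_
    refine mul_le_mul_of_nonneg_right ?_ (by linarith)
    refine mul_le_mul_of_nonneg_right ?_ (by positivity)
    have : 0 ≤ K₀ * Real.log X₀ ^ c := by positivity
    linarith
  · push Not at hXX
    have h1 : ∑ t ∈ (Icc (-(X : ℤ)) X).filter (fun t => Squarefree t ∧ Sel f t), 1 / |(t : ℝ)| ≤
        K₀ := by
      refine sum_le_sum_of_subset_of_nonneg ?_ fun t _ _ => by positivity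
      intro t ht
      rw [mem_filter, mem_Icc] at ht
      rw [mem_Icc]
      omega
    have h2 : (1 : ℝ) ≤ Real.log X₀ ^ c * Real.log X ^ (-c) := by
      rw [Real.rpow_neg hL.le, ← div_eq_mul_inv, one_le_div (by positivity)]
      refine Real.rpow_le_rpow hL.le ?_ hc.le
      exact Real.log_le_log (by linarith) (by exact_mod_cast hXX.le)
    calc _ ≤ K₀ * 1 * 1 := by linarith
      _ ≤ K₀ * (Real.log X₀ ^ c * Real.log X ^ (-c)) *
          ∏ p ∈ rootPrimes f X, (1 + 1 / (p : ℝ)) :=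
          mul_le_mul (mul_le_mul_of_nonneg_left h2 hK0) hRp1 zero_le_one (by positivity)
      _ ≤ _ := by
          refine mul_le_mul_of_nonneg_right ?_ (by linarith)
          have : 0 ≤ C * Real.log X ^ (-c) := by positivity
          nlinarith

end Stoll308.Gen
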