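import Pool.Agent.Work.MP_308fa9_nt.Gen.NatErr
import Pool.Agent.Work.MP_308fa9_nt.Gen.SelUpper

set_option autoImplicit false

/-!
Upper bound for the number of the twists with nonempty fake `2`-Selmer set.
-/

namespace Stoll308.Gen

open Finset Polynomial Filter Topology

/-- Upper bound for a sum of a multiplicative function supported on squarefree numbers. -/
theorem sum_hf_le_prod {H : ℕ → ℝ} {K : ℝ} (h0 : ∀ p, p.Prime → 0 ≤ H p)
    (hK : ∀ p, p.Prime → H p ≤ K) {X : ℕ} (hX : 2 ≤ X) : ∑ n ∈ Icc 1 X, HT.hf H n ≤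
      (2 * K + 1) * (X / Real.log X) * ∏ p ∈ (Icc 1 X).filter Nat.Prime, (1 + H p / p) := by
  have hK0 : 0 ≤ K := (h0 2 Nat.prime_two).trans (hK 2 Nat.prime_two)
  have hXr : (2 : ℝ) ≤ X := by exact_mod_cast hX
  have hlog : 0 < Real.log X := Real.log_pos (by linarith)
  have hS : 0 ≤ ∑ m ∈ Icc 1 X, HT.hf H m / m :=
    sum_nonneg fun m _ => div_nonneg (HT.hf_nonneg h0 m) (Nat.cast_nonneg m)
  have h1 := HT.sum_hf_log_le h0 hK X
  have h2 : ∑ n ∈ Icc 1 X, HT.hf H n * (Real.log X - Real.log n) ≤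
      X * ∑ m ∈ Icc 1 X, HT.hf H m / m := by
    rw [mul_sum]
    refine sum_le_sum fun n hn => ?_
    have hn1 := mem_Icc.1 hn
    have hnpos : (0 : ℝ) < n := by exact_mod_cast hn1.1
    have h3 : Real.log X - Real.log n ≤ X / n := by
      rw [← Real.log_div (by linarith) hnpos.ne']
      exact (Real.log_le_sub_one_of_pos (by positivity)).trans (by linarith)
    calc HT.hf H n * (Real.log X - Real.log n) ≤ HT.hf H n * (X / n) :=
          mul_le_mul_of_nonneg_left h3 (HT.hf_nonneg h0 n)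
      _ = X * (HT.hf H n / n) := by ring
  have h3 : Real.log X * ∑ n ∈ Icc 1 X, HT.hf H n =
      ∑ n ∈ Icc 1 X, HT.hf H n * (Real.log X - Real.log n) +
        ∑ n ∈ Icc 1 X, HT.hf H n * Real.log n := by
    rw [← sum_add_distrib, mul_sum]
    refine sum_congr rfl fun n _ => ?_
    ring
  have h4 : Real.log 4 ≤ 2 := by
    have : (4 : ℝ) = 2 ^ 2 := by norm_num
    rw [this, Real.log_pow]
    have := Real.log_two_lt_d9
    push_cast
    linarith
  have h5 : Real.log X * ∑ n ∈ Icc 1 X, HT.hf H n ≤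
      (2 * K + 1) * X * ∑ m ∈ Icc 1 X, HT.hf H m / m := by
    have h6 : K * Real.log 4 * X * ∑ m ∈ Icc 1 X, HT.hf H m / m ≤
        K * 2 * X * ∑ m ∈ Icc 1 X, HT.hf H m / m := by
      gcongr
    rw [h3]
    calc _ ≤ X * ∑ m ∈ Icc 1 X, HT.hf H m / m + K * 2 * X * ∑ m ∈ Icc 1 X, HT.hf H m / m :=
          add_le_add h2 (h1.trans h6)
      _ = _ := by ring
  have h6 := HT.sum_div_le_prod h0 X
  have h7 : (2 * K + 1) * X * ∑ m ∈ Icc 1 X, HT.hf H m / m ≤
      (2 * K + 1) * X * ∏ p ∈ (Icc 1 X).filter Nat.Prime, (1 + H p / p) :=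
    mul_le_mul_of_nonneg_left h6 (by positivity)
  have h8 : ∑ n ∈ Icc 1 X, HT.hf H n ≤
      ((2 * K + 1) * X * ∏ p ∈ (Icc 1 X).filter Nat.Prime, (1 + H p / p)) / Real.log X := by
    rw [le_div_iff₀ hlog, mul_comm]
    exact h5.trans h7
  refine h8.trans (le_of_eq ?_)
  ring

lemma prod_double (H : ℕ → ℝ) {K : ℝ} (h0 : ∀ p, p.Prime → 0 ≤ H p)
    (hK : ∀ p, p.Prime → H p ≤ K) (N : ℕ) :
    ∏ p ∈ (Icc 1 (2 * N)).filter Nat.Prime, (1 + H p / p) ≤
      Real.exp K * ∏ p ∈ (Icc 1 N).filter Nat.Prime, (1 + H p / p) := by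
  classical
  have hK0 : 0 ≤ K := (h0 2 Nat.prime_two).trans (hK 2 Nat.prime_two)
  have hsub : (Icc 1 N).filter Nat.Prime ⊆ (Icc 1 (2 * N)).filter Nat.Prime := by
    intro p hp
    rw [mem_filter, mem_Icc] at hp ⊢
    exact ⟨⟨hp.1.1, by omega⟩, hp.2⟩
  rw [← prod_sdiff hsub]
  have h0' : ∀ p ∈ (Icc 1 N).filter Nat.Prime, 0 ≤ 1 + H p / (p : ℝ) := by
    intro p hp
    have := h0 p (mem_filter.1 hp).2
    positivity
  refine mul_le_mul_of_nonneg_right ?_ (prod_nonneg h0')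
  have h1 : ∏ p ∈ (Icc 1 (2 * N)).filter Nat.Prime \ (Icc 1 N).filter Nat.Prime,
      (1 + H p / (p : ℝ)) ≤ ∏ p ∈ (Icc 1 (2 * N)).filter Nat.Prime \ (Icc 1 N).filter Nat.Prime,
      Real.exp (K / N) := by
    refine prod_le_prod (fun p hp => ?_) fun p hp => ?_
    · have := h0 p (mem_filter.1 (Finset.mem_sdiff.1 hp).1).2
      positivity
    · rw [Finset.mem_sdiff, mem_filter, mem_Icc] at hp
      have hp2 := hp.1.2
      have hpN : N < p := by
        by_contra hcon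
        exact hp.2 (mem_filter.2 ⟨mem_Icc.2 ⟨hp.1.1.1, by omega⟩, hp2⟩)
      have hN0 : (0 : ℝ) ≤ N := Nat.cast_nonneg _
      have hpN' : (N : ℝ) ≤ p := by exact_mod_cast hpN.le
      have hNpos : (0 : ℝ) < N := by
        have : 0 < N := by omega
        exact_mod_cast this
      have h2 : H p / (p : ℝ) ≤ K / N := div_le_div₀ hK0 (hK p hp2) hNpos hpN'
      have := Real.add_one_le_exp (K / (N : ℝ))
      linarith
  refine h1.trans ?_
  rw [prod_const, ← Real.exp_nat_mul]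
  refine Real.exp_le_exp.2 ?_
  have hcard : ((Icc 1 (2 * N)).filter Nat.Prime \ (Icc 1 N).filter Nat.Prime).card ≤ N := by
    have : (Icc 1 (2 * N)).filter Nat.Prime \ (Icc 1 N).filter Nat.Prime ⊆ Ioc N (2 * N) := by
      intro p hp
      rw [Finset.mem_sdiff, mem_filter, mem_Icc] at hp
      rw [mem_Ioc]
      refine ⟨?_, hp.1.1.2⟩
      by_contra hcon
      exact hp.2 (mem_filter.2 ⟨mem_Icc.2 ⟨hp.1.1.1, by omega⟩, hp.1.2⟩)
    refine (card_le_card this).trans ?_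
    rw [Nat.card_Ioc]
    omega
  rcases Nat.eq_zero_or_pos N with hN | hN
  · subst hN
    simp only [CharP.cast_eq_zero, div_zero, mul_zero]
    exact hK0
  · have hNpos : (0 : ℝ) < N := by exact_mod_cast hN
    calc (((Icc 1 (2 * N)).filter Nat.Prime \ (Icc 1 N).filter Nat.Prime).card : ℝ) * (K / N) ≤
          N * (K / N) := mul_le_mul_of_nonneg_right (Nat.cast_le.2 hcard) (by positivity)
      _ = K := by field_simp

lemma Ha_nonneg (f : ℤ[X]) (z : ℝ) (p : ℕ) : 0 ≤ Ha f z p := by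
  unfold Ha
  split_ifs <;> norm_num

lemma Ha_le (f : ℤ[X]) (z : ℝ) (p : ℕ) : Ha f z p ≤ 1 := by
  unfold Ha
  split_ifs <;> norm_num

lemma Hm_le (f : ℤ[X]) (hf : f.Monic) (z₁ z₂ : ℝ) (p : ℕ) (hp : p.Prime) :
    Hm f z₁ z₂ p ≤ f.natDegree := by
  have : Fact p.Prime := ⟨hp⟩
  have h1 : nr f p ≤ f.natDegree := by
    unfold nr
    exact_mod_cast card_R_le_deg hf
  unfold Hm
  split_ifs
  · refine le_trans ?_ h1
    unfold wt nr
    refine (sum_le_sum (g := fun _ => (1 : ℝ)) fun a _ => pow_le_one₀ (by norm_num)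
      (by norm_num)).trans ?_
    rw [sum_const, nsmul_eq_mul, mul_one]
  · exact h1

lemma prod_Ha (f : ℤ[X]) (z : ℝ) (N : ℕ) :
    ∏ p ∈ (Icc 1 N).filter Nat.Prime, (1 + Ha f z p / (p : ℝ)) =
      ∏ p ∈ (rootPrimes f N).filter (fun p : ℕ => (p : ℝ) ≤ z), (1 + 1 / (p : ℝ)) := by
  classical
  have hsub : (rootPrimes f N).filter (fun p : ℕ => (p : ℝ) ≤ z) ⊆
      (Icc 1 N).filter Nat.Prime := by
    intro p hp
    unfold rootPrimes at hp
    rw [mem_filter, mem_filter] at hp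
    rw [mem_filter]
    exact ⟨hp.1.1, hp.1.2.1⟩
  rw [← prod_subset hsub (f := fun p : ℕ => 1 + Ha f z p / (p : ℝ))]
  · refine prod_congr rfl fun p hp => ?_
    unfold rootPrimes at hp
    rw [mem_filter, mem_filter] at hp
    unfold Ha
    rw [if_pos ⟨hp.1.2.2, hp.2⟩]
  · intro p hp hp'
    unfold Ha
    rw [if_neg, zero_div, add_zero]
    rintro ⟨h1, h2⟩
    apply hp'
    rw [mem_filter] at hp
    unfold rootPrimes
    rw [mem_filter, mem_filter]
    exact ⟨⟨hp.1, hp.2, h1⟩, h2⟩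

lemma card_Tset_le (f : ℤ[X]) (N : ℕ) : ((Tset f N).card : ℝ) ≤ 2 * N + 1 := by
  have h1 : (Tset f N).card ≤ (Icc (-(N : ℤ)) N).card :=
    card_le_card fun t ht => (mem_Tset.1 ht).1
  rw [Int.card_Icc] at h1
  have : ((N : ℤ) + 1 - -(N : ℤ)).toNat = 2 * N + 1 := by omega
  rw [this] at h1
  exact_mod_cast h1

/-- The upper bound for large `X`. -/
theorem sel_upper_nat_large (f : ℤ[X]) (hf : f.Monic) (h6 : 6 ≤ f.natDegree) (D : RelData f)
    (hN : NonTriv f D.C₀) (hS : SplitMert f) : ∃ (c C : ℝ) (X₀ : ℕ), 0 < c ∧ 0 ≤ C ∧ 3 ≤ X₀ ∧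
      ∀ N : ℕ, X₀ ≤ N → ((Tset f N).card : ℝ) ≤
        C * (N * Real.log N ^ (-1 - c)) * ∏ p ∈ rootPrimes f N, (1 + 1 / (p : ℝ)) := by
  classical
  set n : ℕ := f.natDegree with hn
  have hn0 : (0 : ℝ) < n := by
    have : 0 < n := by omega
    exact_mod_cast this
  obtain ⟨η₀, hη₀, hmain⟩ := euler_main f hf h6 hS
  set η : ℝ := min η₀ (1 / 4) with hη
  have hη0 : 0 < η := lt_min hη₀ (by norm_num)
  have hη4 : η ≤ 1 / 4 := min_le_right _ _
  have hη1 : η < 1 := by linarith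
  obtain ⟨cm, hcm, Cm, Xm, hCm, hm⟩ := hmain η hη0 (min_le_left _ _)
  obtain ⟨ca, hca, Ca, Xa, hCa, ha⟩ := euler_short f (by omega) hS η hη0 hη1
  obtain ⟨Cb, Xb, hCb, hb⟩ := euler_rankin 1 zero_le_one η hη0 hη1
  obtain ⟨Cn, hCn, hcn⟩ := euler_const n hn0.le
  obtain ⟨Cq, hCq, hcq⟩ := euler_const ((n : ℝ) ^ 2) (by positivity)
  -- decay
  obtain ⟨Y1, hY1⟩ := decay (Cb + 2) (a := η / 4) (b := 1) (by positivity) one_pos
  obtain ⟨Y2, hY2⟩ := decay (2 * (2 * n + (n : ℝ) ^ 2) + 6) (a := η) (b := 1) hη0 one_pos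
  obtain ⟨Y3, hY3⟩ := eventually_rpow_log (a := η / 4) (by positivity) (4 * n)
  obtain ⟨Y4, hY4⟩ := eventually_rpow_log (a := 1 - 3 * η / 2) (by linarith) (2 * n)
  set c : ℝ := min (min ca cm) 1 with hc
  have hc0 : 0 < c := lt_min (lt_min hca hcm) one_pos
  set A0 : ℝ := 2 * P0 D.C₀ + 1 with hA0
  have hA0' : 0 ≤ A0 := by positivity
  -- the constant of the error term
  set K : ℝ := Cn ^ 2 * Cq + 2 * n * Cn ^ 2 with hK
  have hK0 : 0 ≤ K := by positivity
  refine ⟨c, A0 * (3 * Ca) + A0 * Cb + A0 * (D.m * ((2 * n + 1) * 2 * (Real.exp n * Cm) +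
    (2 * D.C₀ + 1) * (6 * (2 * 3 ^ n * Real.sqrt K)))), max (max (max Xm Xa) (max Xb 3))
    (max (max Y1 Y2) (max Y3 Y4)), hc0, by positivity, ?_, fun N hNX => ?_⟩
  · exact (le_max_right _ _).trans ((le_max_right _ _).trans (le_max_left _ _))
  have hNm : Xm ≤ N := (le_max_left _ _).trans ((le_max_left _ _).trans ((le_max_left _ _).trans hNX))
  have hNa : Xa ≤ N := (le_max_right _ _).trans ((le_max_left _ _).trans ((le_max_left _ _).trans hNX))
  have hNb : Xb ≤ N := (le_max_left _ _).trans ((le_max_right _ _).trans ((le_max_left _ _).trans hNX))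
  have hN3 : 3 ≤ N := (le_max_right _ _).trans ((le_max_right _ _).trans ((le_max_left _ _).trans hNX))
  have hN1 : Y1 ≤ N := (le_max_left _ _).trans ((le_max_left _ _).trans ((le_max_right _ _).trans hNX))
  have hN2 : Y2 ≤ N := (le_max_right _ _).trans ((le_max_left _ _).trans ((le_max_right _ _).trans hNX))
  have hN33 : Y3 ≤ N := (le_max_left _ _).trans ((le_max_right _ _).trans ((le_max_right _ _).trans hNX))
  have hN4 : Y4 ≤ N := (le_max_right _ _).trans ((le_max_right _ _).trans ((le_max_right _ _).trans hNX))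
  have hNr : (3 : ℝ) ≤ N := by exact_mod_cast hN3
  have hNr0 : (0 : ℝ) < N := by linarith
  set L : ℝ := Real.log N with hL
  have hL1 : 1 ≤ L := by
    rw [hL, Real.le_log_iff_exp_le (by linarith)]
    have := Real.exp_one_lt_d9
    linarith
  have hL0 : 0 < L := by linarith
  set Rp : ℝ := ∏ p ∈ rootPrimes f N, (1 + 1 / (p : ℝ)) with hRp
  have hRp1 : 1 ≤ Rp := one_le_rootProd f N
  have hLc0 : 0 < L ^ (-1 - c) := by positivity
  have hL1c : L ^ (-1 - c) = L ^ (-1 : ℝ) * L ^ (-c) := by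
    rw [← Real.rpow_add hL0]
    congr 1
  have hLinv : L ^ (-1 : ℝ) = 1 / L := by rw [Real.rpow_neg_one, one_div]
  have hLc : L ^ (-(2 : ℝ)) ≤ L ^ (-1 - c) := by
    refine Real.rpow_le_rpow_of_exponent_le hL1 ?_
    have : c ≤ 1 := min_le_right _ _
    linarith
  have hLa : L ^ (-ca) ≤ L ^ (-c) :=
    Real.rpow_le_rpow_of_exponent_le hL1 (neg_le_neg ((min_le_left _ _).trans (min_le_left _ _)))
  have hLm : L ^ (-cm) ≤ L ^ (-c) :=
    Real.rpow_le_rpow_of_exponent_le hL1 (neg_le_neg ((min_le_left _ _).trans (min_le_right _ _)))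
  have hLRp : N * L ^ (-(2 : ℝ)) ≤ N * L ^ (-1 - c) * Rp := by
    rw [mul_assoc]
    exact mul_le_mul_of_nonneg_left (hLc.trans (le_mul_of_one_le_right hLc0.le hRp1)) hNr0.le
  set z₁ : ℝ := Real.exp (L ^ η) with hz₁
  set z₂ : ℝ := Real.exp (L ^ (1 - η)) with hz₂
  set z₃ : ℝ := Real.exp (L ^ (1 - η / 2)) with hz₃
  set Dm : ℝ := Real.exp (L ^ (1 - 3 * η / 4)) with hDm
  have hz23 : z₂ ≤ z₃ := Real.exp_le_exp.2 (Real.rpow_le_rpow_of_exponent_le hL1 (by linarith))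
  have hbound := sel_bound_nat f D hf (by omega) hN N (by omega) (z₁ := z₁) (z₂ := z₂) (z₃ := z₃)
    (Dm := Dm) (Real.exp_pos _) (Real.exp_pos _) hz23 (Real.exp_pos _).le
  refine hbound.trans ?_
  have e0 : ∀ a b d : ℝ, (a + b + d) * (N * L ^ (-1 - c)) * Rp =
      a * (N * L ^ (-1 - c) * Rp) + b * (N * L ^ (-1 - c) * Rp) +
        d * (N * L ^ (-1 - c) * Rp) := fun a b d => by ring
  rw [e0]
  refine add_le_add (add_le_add ?_ ?_) ?_
  · -- class (a)
    have h := ha N hNa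
    have h1 := sum_hf_le_prod (H := Ha f z₃) (K := 1) (fun p _ => Ha_nonneg f z₃ p)
      (fun p _ => Ha_le f z₃ p) (X := N) (by omega)
    rw [prod_Ha] at h1
    have h2 : ∑ n ∈ Icc 1 N, HT.hf (Ha f z₃) n ≤ 3 * Ca * (N * L ^ (-1 - c) * Rp) := by
      refine h1.trans ?_
      calc (2 * 1 + 1) * (N / L) * ∏ p ∈ (rootPrimes f N).filter (fun p : ℕ => (p : ℝ) ≤ z₃),
            (1 + 1 / (p : ℝ)) ≤ (2 * 1 + 1) * (N / L) * (Ca * L ^ (-c) * Rp) := by
            refine mul_le_mul_of_nonneg_left (h.trans ?_) (by positivity)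
            refine mul_le_mul_of_nonneg_right ?_ (by linarith)
            exact mul_le_mul_of_nonneg_left hLa hCa.le
        _ = 3 * Ca * (N * L ^ (-1 - c) * Rp) := by
            rw [hL1c, hLinv]
            ring
    calc A0 * ∑ n ∈ Icc 1 N, HT.hf (Ha f z₃) n ≤ A0 * (3 * Ca * (N * L ^ (-1 - c) * Rp)) :=
          mul_le_mul_of_nonneg_left h2 hA0'
      _ = _ := by ring
  · -- class (b)
    have h := hb N hNb
    have hsum : ∑ T ∈ (UU' D.C₀ N z₁ z₂).powerset.filter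
        (fun T : Finset ℕ => Dm < ∏ p ∈ T, (p : ℝ)), ∏ p ∈ T, 1 / (p : ℝ) ≤
        Cb * L ^ Cb * Real.exp (-(L ^ (η / 4))) := by
      refine le_trans ?_ h
      have e1 : ∀ T : Finset ℕ, ∏ p ∈ T, 1 / (p : ℝ) = 1 ^ T.card / ((∏ p ∈ T, p : ℕ) : ℝ) := by
        intro T
        rw [prod_div_distrib, prod_const_one, one_pow]
        push_cast
        rfl
      rw [sum_congr rfl fun T _ => e1 T]
      refine sum_le_sum_of_subset_of_nonneg ?_ fun T _ _ => by positivity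
      intro T hT
      rw [mem_filter, mem_powerset] at hT ⊢
      refine ⟨hT.1.trans ?_, ?_⟩
      · intro p hp
        unfold UU' PX at hp
        rw [mem_filter, mem_filter] at hp
        rw [mem_filter, mem_filter]
        exact ⟨⟨hp.1.1, hp.1.2.1⟩, hp.2⟩
      · push_cast
        exact hT.2
    have hdec : L ^ (Cb + 2) * Real.exp (-(1 * L ^ (η / 4))) ≤ 1 := hY1 N hN1
    have hle : ∑ T ∈ (UU' D.C₀ N z₁ z₂).powerset.filter
        (fun T : Finset ℕ => Dm < ∏ p ∈ T, (p : ℝ)), ∏ p ∈ T, 1 / (p : ℝ) ≤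
        Cb * L ^ (-(2 : ℝ)) := by
      refine hsum.trans ?_
      have e3 : L ^ Cb = L ^ (Cb + 2) * L ^ (-(2 : ℝ)) := by
        rw [← Real.rpow_add hL0]
        congr 1
        ring
      calc Cb * L ^ Cb * Real.exp (-(L ^ (η / 4))) =
            Cb * ((L ^ (Cb + 2) * Real.exp (-(1 * L ^ (η / 4)))) * L ^ (-(2 : ℝ))) := by
            rw [e3, one_mul]
            ring
        _ ≤ Cb * (1 * L ^ (-(2 : ℝ))) := by
            refine mul_le_mul_of_nonneg_left ?_ hCb.le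
            exact mul_le_mul_of_nonneg_right hdec (by positivity)
        _ = _ := by ring
    calc A0 * (N * ∑ T ∈ (UU' D.C₀ N z₁ z₂).powerset.filter
        (fun T : Finset ℕ => Dm < ∏ p ∈ T, (p : ℝ)), ∏ p ∈ T, 1 / (p : ℝ)) ≤
          A0 * (N * (Cb * L ^ (-(2 : ℝ)))) :=
          mul_le_mul_of_nonneg_left (mul_le_mul_of_nonneg_left hle hNr0.le) hA0'
      _ = A0 * Cb * (N * L ^ (-(2 : ℝ))) := by ring
      _ ≤ A0 * Cb * (N * L ^ (-1 - c) * Rp) := mul_le_mul_of_nonneg_left hLRp (by positivity)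
  · -- class (c)
    have hmainN := hm N hNm
    -- the main term
    have hMT : ∑ n ∈ Icc 1 (2 * N), HT.hf (Hm f z₁ z₂) n ≤
        (2 * n + 1) * 2 * (Real.exp n * Cm) * (N * L ^ (-1 - c) * Rp) := by
      have h1 := sum_hf_le_prod (H := Hm f z₁ z₂) (K := n) (fun p _ => Hm_nonneg f z₁ z₂ p)
        (fun p hp => Hm_le f hf z₁ z₂ p hp) (X := 2 * N) (by omega)
      have h2 := prod_double (Hm f z₁ z₂) (K := n) (fun p _ => Hm_nonneg f z₁ z₂ p)
        (fun p hp => Hm_le f hf z₁ z₂ p hp) N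
      have h3 : ∏ p ∈ (Icc 1 N).filter Nat.Prime, (1 + Hm f z₁ z₂ p / (p : ℝ)) ≤
          Cm * L ^ (-c) * Rp := by
        refine le_trans (le_of_eq ?_) (hmainN.trans ?_)
        · rfl
        · refine mul_le_mul_of_nonneg_right ?_ (by linarith)
          exact mul_le_mul_of_nonneg_left hLm hCm.le
      have h4 : ((2 * N : ℕ) : ℝ) / Real.log ((2 * N : ℕ) : ℝ) ≤ 2 * N / L := by
        push_cast
        refine div_le_div_of_nonneg_left (by positivity) hL0 ?_
        exact Real.log_le_log hNr0 (by linarith)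
      refine h1.trans ?_
      calc (2 * (n : ℝ) + 1) * (((2 * N : ℕ) : ℝ) / Real.log ((2 * N : ℕ) : ℝ)) *
            ∏ p ∈ (Icc 1 (2 * N)).filter Nat.Prime, (1 + Hm f z₁ z₂ p / (p : ℝ)) ≤
            (2 * (n : ℝ) + 1) * (2 * N / L) * (Real.exp n * (Cm * L ^ (-c) * Rp)) := by
            refine mul_le_mul (mul_le_mul_of_nonneg_left h4 (by positivity)) ?_ ?_ (by positivity)
            · exact h2.trans (mul_le_mul_of_nonneg_left h3 (Real.exp_pos _).le)
            · refine prod_nonneg fun p _ => ?_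
              have := Hm_nonneg f z₁ z₂ p
              positivity
        _ = _ := by
            rw [hL1c, hLinv]
            ring
    -- the error term
    have hPn : Pn D.C₀ N n ≤ Cn * L ^ (n : ℝ) := (Pn_le_prod _ _ hn0.le).trans (hcn N hN3)
    have hPq : Pn D.C₀ N ((n : ℝ) ^ 2) ≤ Cq * L ^ ((n : ℝ) ^ 2) :=
      (Pn_le_prod _ _ (by positivity)).trans (hcq N hN3)
    have hPn0 : 0 ≤ Pn D.C₀ N n := Pn_nonneg _ _ hn0.le
    have hPq0 : 0 ≤ Pn D.C₀ N ((n : ℝ) ^ 2) := Pn_nonneg _ _ (by positivity)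
    set M : ℝ := 2 * n + (n : ℝ) ^ 2 with hM
    have hLn2 : (L ^ (n : ℝ)) ^ 2 ≤ L ^ M := by
      rw [← Real.rpow_natCast, ← Real.rpow_mul hL0.le]
      refine Real.rpow_le_rpow_of_exponent_le hL1 ?_
      rw [hM]
      push_cast
      nlinarith
    have hA1 : Pn D.C₀ N n ^ 2 * ((1 / z₁) * Pn D.C₀ N ((n : ℝ) ^ 2)) ≤
        Cn ^ 2 * Cq * (L ^ M * Real.exp (-(L ^ η))) := by
      have h2 : Pn D.C₀ N n ^ 2 ≤ (Cn * L ^ (n : ℝ)) ^ 2 := pow_le_pow_left₀ hPn0 hPn 2
      have h3 : 1 / z₁ = Real.exp (-(L ^ η)) := by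
        rw [hz₁, Real.exp_neg, one_div]
      rw [h3]
      have h4 : L ^ M = L ^ (n : ℝ) * L ^ (n : ℝ) * L ^ ((n : ℝ) ^ 2) := by
        rw [hM, Real.rpow_add hL0, two_mul, Real.rpow_add hL0]
      calc _ ≤ (Cn * L ^ (n : ℝ)) ^ 2 * (Real.exp (-(L ^ η)) * (Cq * L ^ ((n : ℝ) ^ 2))) :=
            mul_le_mul h2 (mul_le_mul_of_nonneg_left hPq (Real.exp_pos _).le)
              (mul_nonneg (Real.exp_pos _).le hPq0) (by positivity)
        _ = _ := by
            rw [h4]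
            ring
    have hexp : Dm ^ 2 * z₃ ^ (-(n : ℝ)⁻¹) ≤ Real.exp (-(L ^ η)) := by
      rw [hDm, hz₃, ← Real.exp_nat_mul, ← Real.exp_mul, ← Real.exp_add]
      refine Real.exp_le_exp.2 ?_
      have h3 : 4 * (n : ℝ) ≤ L ^ (η / 4) := hY3 N hN33
      have h4 : 2 * (n : ℝ) ≤ L ^ (1 - 3 * η / 2) := hY4 N hN4
      have e3 : L ^ (1 - η / 2) = L ^ (1 - 3 * η / 4) * L ^ (η / 4) := by
        rw [← Real.rpow_add hL0]
        congr 1
        ring
      have e4 : L ^ (1 - η / 2) = L ^ (1 - 3 * η / 2) * L ^ η := by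
        rw [← Real.rpow_add hL0]
        congr 1
        ring
      have h5 : 4 * n * L ^ (1 - 3 * η / 4) ≤ L ^ (1 - η / 2) := by
        rw [e3, mul_comm]
        exact mul_le_mul_of_nonneg_left h3 (by positivity)
      have h6 : 2 * n * L ^ η ≤ L ^ (1 - η / 2) := by
        rw [e4]
        exact mul_le_mul_of_nonneg_right h4 (by positivity)
      have h7 : L ^ (1 - η / 2) * (-(n : ℝ)⁻¹) ≤ -(2 * L ^ (1 - 3 * η / 4)) - L ^ η := by
        rw [mul_neg, ← div_eq_mul_inv]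
        have h8 : 2 * L ^ (1 - 3 * η / 4) + L ^ η ≤ L ^ (1 - η / 2) / n := by
          rw [le_div_iff₀ hn0]
          linarith
        linarith
      push_cast
      linarith
    have hA2 : 2 * n * (Dm * Pn D.C₀ N n) ^ 2 * z₃ ^ (-(n : ℝ)⁻¹) ≤
        2 * n * Cn ^ 2 * (L ^ M * Real.exp (-(L ^ η))) := by
      have h2 : Pn D.C₀ N n ^ 2 ≤ (Cn * L ^ (n : ℝ)) ^ 2 := pow_le_pow_left₀ hPn0 hPn 2
      calc 2 * n * (Dm * Pn D.C₀ N n) ^ 2 * z₃ ^ (-(n : ℝ)⁻¹) =
            2 * n * (Pn D.C₀ N n ^ 2 * (Dm ^ 2 * z₃ ^ (-(n : ℝ)⁻¹))) := by ring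
        _ ≤ 2 * n * ((Cn * L ^ (n : ℝ)) ^ 2 * Real.exp (-(L ^ η))) := by
            refine mul_le_mul_of_nonneg_left ?_ (by positivity)
            exact mul_le_mul h2 hexp (by positivity) (by positivity)
        _ = 2 * n * Cn ^ 2 * ((L ^ (n : ℝ)) ^ 2 * Real.exp (-(L ^ η))) := by ring
        _ ≤ _ := by
            refine mul_le_mul_of_nonneg_left ?_ (by positivity)
            exact mul_le_mul_of_nonneg_right hLn2 (Real.exp_pos _).le
    have hdec : L ^ (2 * M + 6) * Real.exp (-(1 * L ^ η)) ≤ 1 := hY2 N hN2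
    have hsq : Real.sqrt (Pn D.C₀ N n ^ 2 * ((1 / z₁) * Pn D.C₀ N ((n : ℝ) ^ 2)) +
        2 * n * (Dm * Pn D.C₀ N n) ^ 2 * z₃ ^ (-(n : ℝ)⁻¹)) ≤ Real.sqrt K * L ^ (-(3 : ℝ)) := by
      have h2 : Pn D.C₀ N n ^ 2 * ((1 / z₁) * Pn D.C₀ N ((n : ℝ) ^ 2)) +
          2 * n * (Dm * Pn D.C₀ N n) ^ 2 * z₃ ^ (-(n : ℝ)⁻¹) ≤ K * L ^ (-(6 : ℝ)) := by
        have h3 : L ^ M * Real.exp (-(L ^ η)) ≤ L ^ (-(6 : ℝ)) := by
          have hM0 : 0 ≤ M := by positivity
          have e5 : L ^ M * Real.exp (-(L ^ η)) = L ^ (-(M + 6)) *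
              (L ^ (2 * M + 6) * Real.exp (-(1 * L ^ η))) := by
            rw [← mul_assoc, ← Real.rpow_add hL0, one_mul]
            congr 2
            ring
          rw [e5]
          calc L ^ (-(M + 6)) * (L ^ (2 * M + 6) * Real.exp (-(1 * L ^ η))) ≤
                L ^ (-(M + 6)) * 1 := mul_le_mul_of_nonneg_left hdec (by positivity)
            _ ≤ L ^ (-(6 : ℝ)) := by
                rw [mul_one]
                exact Real.rpow_le_rpow_of_exponent_le hL1 (by linarith)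
        calc _ ≤ Cn ^ 2 * Cq * (L ^ M * Real.exp (-(L ^ η))) +
              2 * n * Cn ^ 2 * (L ^ M * Real.exp (-(L ^ η))) := add_le_add hA1 hA2
          _ = K * (L ^ M * Real.exp (-(L ^ η))) := by
              rw [hK]
              ring
          _ ≤ _ := mul_le_mul_of_nonneg_left h3 hK0
      refine (Real.sqrt_le_sqrt h2).trans (le_of_eq ?_)
      rw [Real.sqrt_mul hK0]
      congr 1
      have e6 : L ^ (-(6 : ℝ)) = (L ^ (-(3 : ℝ))) ^ 2 := by
        rw [← Real.rpow_natCast, ← Real.rpow_mul hL0.le]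
        congr 1
        norm_num
      rw [e6, Real.sqrt_sq (by positivity)]
    have hE : (Nat.log 2 N + 1) * (2 * N * Er D.C₀ N n z₁ z₃ Dm) ≤
        6 * (2 * 3 ^ n * Real.sqrt K) * (N * L ^ (-(2 : ℝ))) := by
      have h2 : (Nat.log 2 N : ℝ) + 1 ≤ 3 * L := log2_le hN3
      unfold Er
      calc _ ≤ (3 * L) * (2 * N * (2 * 3 ^ n * (Real.sqrt K * L ^ (-(3 : ℝ))))) := by
            refine mul_le_mul h2 ?_ (by positivity) (by positivity)
            refine mul_le_mul_of_nonneg_left ?_ (by positivity)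
            exact mul_le_mul_of_nonneg_left hsq (by positivity)
        _ = 6 * (2 * 3 ^ n * Real.sqrt K) * (N * (L * L ^ (-(3 : ℝ)))) := by ring
        _ = _ := by
            congr 2
            nth_rewrite 1 [← Real.rpow_one L]
            rw [← Real.rpow_add hL0]
            norm_num
    have hm0 : (0 : ℝ) ≤ D.m := Nat.cast_nonneg _
    calc A0 * (D.m * (∑ n ∈ Icc 1 (2 * N), HT.hf (Hm f z₁ z₂) n +
          (2 * D.C₀ + 1) * ((Nat.log 2 N + 1) * (2 * N * Er D.C₀ N n z₁ z₃ Dm)))) ≤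
        A0 * (D.m * ((2 * n + 1) * 2 * (Real.exp n * Cm) * (N * L ^ (-1 - c) * Rp) +
          (2 * D.C₀ + 1) * (6 * (2 * 3 ^ n * Real.sqrt K) * (N * L ^ (-1 - c) * Rp)))) := by
          refine mul_le_mul_of_nonneg_left (mul_le_mul_of_nonneg_left (add_le_add hMT ?_) hm0) hA0'
          refine mul_le_mul_of_nonneg_left (hE.trans ?_) (by positivity)
          exact mul_le_mul_of_nonneg_left hLRp (by positivity)
      _ = _ := by ring

open Classical in
/-- The upper bound for the number of the twists with nonempty fake `2`-Selmer set. -/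
theorem sel_upper_nat (f : ℤ[X]) (hf : f.Monic) (h6 : 6 ≤ f.natDegree) (D : RelData f)
    (hN : NonTriv f D.C₀) (hS : SplitMert f) : ∃ c C : ℝ, 0 < c ∧ ∀ X : ℕ, 3 ≤ X →
      (((Icc (-(X : ℤ)) X).filter (fun t => Squarefree t ∧ Sel f t)).card : ℝ) ≤
        C * X * Real.log X ^ (-1 - c) * ∏ p ∈ rootPrimes f X, (1 + 1 / (p : ℝ)) := by
  obtain ⟨c, C, X₀, hc, hC, hX₀, h⟩ := sel_upper_nat_large f hf h6 D hN hS
  have hX₀r : (3 : ℝ) ≤ X₀ := by exact_mod_cast hX₀
  have hL₀ : 0 < Real.log X₀ := Real.log_pos (by linarith)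
  refine ⟨c, C + 3 * Real.log X₀ ^ (1 + c), hc, fun X hX => ?_⟩
  have hXr : (3 : ℝ) ≤ X := by exact_mod_cast hX
  have hX0 : (0 : ℝ) < X := by linarith
  have hL : 0 < Real.log X := Real.log_pos (by linarith)
  have hRp1 := one_le_rootProd f X
  have hcard : (((Icc (-(X : ℤ)) X).filter (fun t => Squarefree t ∧ Sel f t)).card : ℝ) =
      ((Tset f X).card : ℝ) := rfl
  rw [hcard]
  by_cases hXX : X₀ ≤ X
  · refine (h X hXX).trans ?_
    refine mul_le_mul_of_nonneg_right ?_ (by linarith)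
    rw [← mul_assoc]
    refine mul_le_mul_of_nonneg_right ?_ (by positivity)
    refine mul_le_mul_of_nonneg_right ?_ hX0.le
    have : 0 ≤ 3 * Real.log X₀ ^ (1 + c) := by positivity
    linarith
  · push Not at hXX
    have h1 : ((Tset f X).card : ℝ) ≤ 3 * X := by
      have := card_Tset_le f X
      linarith
    have h2 : (1 : ℝ) ≤ Real.log X₀ ^ (1 + c) * Real.log X ^ (-1 - c) := by
      have e1 : (-1 - c) = -(1 + c) := by ring
      rw [e1, Real.rpow_neg hL.le, ← div_eq_mul_inv, one_le_div (by positivity)]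
      refine Real.rpow_le_rpow hL.le ?_ (by linarith)
      exact Real.log_le_log (by linarith) (by exact_mod_cast hXX.le)
    calc ((Tset f X).card : ℝ) ≤ 3 * X * 1 * 1 := by linarith
      _ ≤ 3 * X * (Real.log X₀ ^ (1 + c) * Real.log X ^ (-1 - c)) *
          ∏ p ∈ rootPrimes f X, (1 + 1 / (p : ℝ)) :=
          mul_le_mul (mul_le_mul_of_nonneg_left h2 (by positivity)) hRp1 zero_le_one
            (by positivity)
      _ ≤ _ := by
          refine mul_le_mul_of_nonneg_right ?_ (by linarith)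
          have : 0 ≤ C * X * Real.log X ^ (-1 - c) := by positivity
          calc 3 * X * (Real.log X₀ ^ (1 + c) * Real.log X ^ (-1 - c)) =
                3 * Real.log X₀ ^ (1 + c) * X * Real.log X ^ (-1 - c) := by ring
            _ ≤ _ := by
                rw [add_mul, add_mul]
                linarith

end Stoll308.Gen
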