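import Mathlib
import Pool.Agent.Work.MP_2b9663_nt.Weil

set_option autoImplicit false

/-!
Values of a squarefree polynomial modulo a large prime take both quadratic characters.
-/

namespace Stoll308.Gen

open Finset Polynomial

variable {p : ℕ} [hp : Fact p.Prime]

open Pool.Agent.Work.MP_2b9663_nt in
/-- For a large prime `p` a squarefree nonconstant polynomial over `𝔽_p` takes values of both
quadratic characters. -/
theorem exists_value (hp2 : p ≠ 2) (h : (ZMod p)[X]) (hsf : Squarefree h) (hd : 1 ≤ h.natDegree)
    (hbig : (2 * h.natDegree + 2) ^ 2 ≤ p) {ε : ℤ} (hε : ε = 1 ∨ ε = -1) :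
    ∃ x : ZMod p, quadraticChar (ZMod p) (h.eval x) = ε := by
  classical
  have hp2' : ringChar (ZMod p) ≠ 2 := by
    rw [ZMod.ringChar_zmod_n]
    exact hp2
  set d := h.natDegree with hdd
  have hw := weil_bound hp2' hsf (by rw [← hdd]; exact hd)
  rw [← hdd, ZMod.card] at hw
  by_contra hcon
  push Not at hcon
  have hf0 : h ≠ 0 := by
    intro h0
    rw [h0] at hdd
    simp at hdd
    omega
  -- the values of the character
  have hval : ∀ x, quadraticChar (ZMod p) (h.eval x) = if h.eval x = 0 then 0 else -ε := by
    intro x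
    split_ifs with h0
    · rw [h0]; simp
    · have h1 := hcon x
      rcases quadraticChar_dichotomy h0 with h | h <;> rcases hε with h' | h'
      · exact absurd (h.trans h'.symm) h1
      · rw [h, h']; norm_num
      · rw [h, h']
      · exact absurd (h.trans h'.symm) h1
  have hsum : charSum (ZMod p) h = -ε * ((univ.filter fun x => h.eval x ≠ 0).card : ℤ) := by
    unfold charSum
    rw [sum_congr rfl fun x _ => hval x, card_filter]
    push_cast
    rw [mul_sum]
    refine sum_congr rfl fun x _ => ?_
    by_cases h : eval x h = 0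
    · simp [h]
    · simp [h]
  have hcard : p ≤ (univ.filter fun x => h.eval x ≠ 0).card + d := by
    have h1 : (univ.filter fun x : ZMod p => h.eval x = 0).card ≤ d := by
      rw [hdd]
      refine le_trans ?_ (card_roots' h)
      refine le_trans ?_ (Multiset.toFinset_card_le _)
      apply card_le_card
      intro x hx
      rw [mem_filter] at hx
      rw [Multiset.mem_toFinset, mem_roots hf0]
      exact hx.2
    have h2 := card_filter_add_card_filter_not (s := (univ : Finset (ZMod p)))
      (fun x : ZMod p => h.eval x = 0)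
    rw [card_univ, ZMod.card] at h2
    have h3 : (univ.filter fun x : ZMod p => ¬ h.eval x = 0) =
        univ.filter fun x : ZMod p => h.eval x ≠ 0 := rfl
    rw [h3] at h2
    omega
  have habs : |(charSum (ZMod p) h : ℝ)| = ((univ.filter fun x => h.eval x ≠ 0).card : ℝ) := by
    rw [hsum]
    push_cast
    rw [abs_mul, abs_neg]
    have : |(ε : ℝ)| = 1 := by rcases hε with h | h <;> rw [h] <;> simp
    rw [this, one_mul, abs_of_nonneg (Nat.cast_nonneg _)]
  rw [habs] at hw
  have h4 : ((d - 1 : ℕ) : ℝ) = d - 1 := by
    rw [Nat.cast_sub (by omega)]; push_cast; ring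
  rw [h4] at hw
  have h5 : (p : ℝ) ≤ ((univ.filter fun x => h.eval x ≠ 0).card : ℝ) + d := by
    exact_mod_cast hcard
  have h6 : (2 * (d : ℝ) + 2) ≤ Real.sqrt p := by
    apply Real.le_sqrt_of_sq_le
    exact_mod_cast hbig
  have h7 : Real.sqrt p * Real.sqrt p = p := Real.mul_self_sqrt (Nat.cast_nonneg p)
  have h8 : (1 : ℝ) ≤ d := by exact_mod_cast hd
  nlinarith

end Stoll308.Gen
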