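import Pool.Agent.Work.MP_308fa9_nt.Gen.Res
import Pool.Agent.Work.MP_308fa9_nt.Gen.WeilGen

set_option autoImplicit false

/-!
The characters `∏_{a ∈ A} W f p ρ a` are nontrivial.
-/

namespace Stoll308.Gen

open Polynomial Finset NumberTheorySymbols

/-- `f` modulo `p`. -/
noncomputable abbrev fp (f : ℤ[X]) (p : ℕ) : (ZMod p)[X] := f.map (Int.castRingHom (ZMod p))

section roots

variable (f : ℤ[X]) (p : ℕ)

lemma mem_R {f : ℤ[X]} {p a : ℕ} : a ∈ R f p ↔ a < p ∧ (fp f p).eval (a : ZMod p) = 0 := by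
  unfold R fp
  rw [mem_filter, mem_range]
  apply and_congr_right
  intro _
  rw [← ZMod.intCast_zmod_eq_zero_iff_dvd]
  have : (f.map (Int.castRingHom (ZMod p))).eval ((a : ℕ) : ZMod p) =
      ((f.eval (a : ℤ) : ℤ) : ZMod p) := by
    have h := eval_map_apply (p := f) (f := Int.castRingHom (ZMod p)) (a : ℤ)
    rwa [eq_intCast, eq_intCast, Int.cast_natCast] at h
  rw [this]

lemma cast_inj_of_lt {p a b : ℕ} (ha : a < p) (hb : b < p) (h : (a : ZMod p) = b) : a = b := by
  rw [ZMod.natCast_eq_natCast_iff'] at h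
  rwa [Nat.mod_eq_of_lt ha, Nat.mod_eq_of_lt hb] at h

lemma card_R_le_deg {f : ℤ[X]} {p : ℕ} [Fact p.Prime] (hf : f.Monic) :
    (R f p).card ≤ f.natDegree := by
  classical
  have hm : (fp f p).Monic := hf.map _
  have h1 : (R f p).card ≤ (fp f p).roots.toFinset.card := by
    apply card_le_card_of_injOn (fun a => ((a : ℕ) : ZMod p))
    · intro a ha
      simp only [mem_coe, Multiset.mem_toFinset]
      rw [mem_roots hm.ne_zero]
      exact (mem_R.1 ha).2
    · intro a ha b hb hab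
      exact cast_inj_of_lt (mem_R.1 ha).1 (mem_R.1 hb).1 hab
  refine h1.trans ((Multiset.toFinset_card_le _).trans ((card_roots' _).trans ?_))
  exact natDegree_map_le

lemma J_subset {f : ℤ[X]} {p ρ : ℕ} : J f p ρ ⊆ (R f p).erase ρ := by
  unfold J
  split_ifs
  · exact subset_rfl
  · exact erase_subset _ _

lemma card_A_le {f : ℤ[X]} {p : ℕ} [Fact p.Prime] (hf : f.Monic) {ρ : ℕ} (hρ : ρ ∈ R f p)
    {A : Finset ℕ} (hA : A ⊆ J f p ρ) (hne : A.Nonempty) : A.card + 2 ≤ f.natDegree := by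
  have h1 := card_R_le_deg (f := f) (p := p) hf
  have h2 := card_erase_of_mem hρ
  have h3 : 0 < (R f p).card := card_pos.2 ⟨ρ, hρ⟩
  have h4 := card_le_card hA
  have h5 : 0 < A.card := card_pos.2 hne
  unfold J at h4
  split_ifs at h4 with hc
  · omega
  · have hne' : ((R f p).erase ρ).Nonempty := by
      rw [← card_pos]
      have h6 := card_erase_le (s := (R f p).erase ρ) (a := ((R f p).erase ρ).sup id)
      omega
    have hmem : ((R f p).erase ρ).sup id ∈ (R f p).erase ρ := by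
      obtain ⟨b, hb, hb'⟩ := exists_mem_eq_sup ((R f p).erase ρ) hne' id
      rw [hb']
      exact hb
    have h6 := card_erase_of_mem hmem
    omega

end roots

section sum

variable {f : ℤ[X]} {p : ℕ} [hp : Fact p.Prime]

/-- The character on polynomials. -/
noncomputable def Ψ (f : ℤ[X]) (p : ℕ) [Fact p.Prime] (ρ : ℕ) (A : Finset ℕ)
    (q : (ZMod p)[X]) : ℤ :=
  ∏ a ∈ A, quadraticChar (ZMod p) (q.eval (a : ZMod p) * q.eval (ρ : ZMod p) *
    resultant (fp f p) q)

lemma W_eq (hf : f.Monic) (ρ a : ℕ) (g : Fin f.natDegree → ℤ) :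
    W f p ρ a g = quadraticChar (ZMod p) ((poly (fun i => (g i : ZMod p))).eval (a : ZMod p) *
      (poly (fun i => (g i : ZMod p))).eval (ρ : ZMod p) *
      resultant (fp f p) (poly (fun i => (g i : ZMod p)))) := by
  have hm : (fp f p).Monic := hf.map _
  have hd : (fp f p).natDegree = f.natDegree := hf.natDegree_map _
  unfold W
  rw [← jacobiSym.legendreSym.to_jacobiSym, legendreSym]
  congr 1
  push_cast
  rw [ev_cast, ev_cast, Nm_cast, poly_eval, poly_eval]
  unfold Nm
  rw [← res_pad (fp f p) (poly fun i => (g i : ZMod p)) hm f.natDegree (poly_natDegree_le _), hd]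
  simp

lemma Ψ_mul (hf : f.Monic) (ρ : ℕ) (A : Finset ℕ) (q r : (ZMod p)[X]) :
    Ψ f p ρ A (q * r) = Ψ f p ρ A q * Ψ f p ρ A r := by
  have hm : (fp f p).Monic := hf.map _
  unfold Ψ
  rw [← prod_mul_distrib]
  refine prod_congr rfl fun a _ => ?_
  rw [← map_mul]
  congr 1
  rw [eval_mul, eval_mul, res_mul_right _ _ _ hm]
  ring

lemma Ψ_congr (hf : f.Monic) {ρ : ℕ} {A : Finset ℕ} (hρ : ρ ∈ R f p) (hA : A ⊆ R f p)
    {q r : (ZMod p)[X]} (h : fp f p ∣ q - r) :
    Ψ f p ρ A q = Ψ f p ρ A r := by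
  have hm : (fp f p).Monic := hf.map _
  have hev : ∀ a ∈ R f p, q.eval (a : ZMod p) = r.eval (a : ZMod p) := by
    intro a ha
    obtain ⟨s, hs⟩ := h
    have h1 : (q - r).eval (a : ZMod p) = 0 := by
      rw [hs, eval_mul, (mem_R.1 ha).2, zero_mul]
    rwa [eval_sub, sub_eq_zero] at h1
  unfold Ψ
  refine prod_congr rfl fun a ha => ?_
  rw [hev a (hA ha), hev ρ hρ, res_congr _ _ _ hm h]

/-- The bijection `g ↦ u g` modulo `f`. -/
noncomputable def mulMap (f : ℤ[X]) (p : ℕ) (u : (ZMod p)[X]) (g : Fin f.natDegree → ZMod p) :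
    Fin f.natDegree → ZMod p :=
  fun i => ((u * poly g) %ₘ (fp f p)).coeff i

lemma poly_mulMap (hf : f.Monic) (u : (ZMod p)[X]) (g : Fin f.natDegree → ZMod p) :
    poly (mulMap f p u g) = (u * poly g) %ₘ (fp f p) := by
  have hm : (fp f p).Monic := hf.map _
  apply poly_of_degree_lt
  have h := degree_modByMonic_lt (u * poly g) hm
  rwa [degree_eq_natDegree hm.ne_zero, hf.natDegree_map] at h

lemma poly_injective {n : ℕ} {A : Type*} [CommRing A] :
    Function.Injective (poly : (Fin n → A) → A[X]) := by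
  intro g g' h
  funext i
  rw [← poly_coeff g i, ← poly_coeff g' i, h]

lemma mulMap_injective (hf : f.Monic) {u : (ZMod p)[X]} (hu : IsCoprime u (fp f p)) :
    Function.Injective (mulMap f p u) := by
  have hm : (fp f p).Monic := hf.map _
  intro g g' h
  have h1 : (u * poly g) %ₘ (fp f p) = (u * poly g') %ₘ (fp f p) := by
    rw [← poly_mulMap hf, ← poly_mulMap hf, h]
  have h2 : fp f p ∣ u * (poly g - poly g') := by
    rw [← modByMonic_eq_zero_iff_dvd hm, mul_sub, sub_modByMonic, h1, sub_self]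
  have h3 : fp f p ∣ poly g - poly g' := (hu.symm).dvd_of_dvd_mul_left h2
  apply poly_injective
  rw [← sub_eq_zero]
  apply eq_zero_of_dvd_of_degree_lt h3
  refine (degree_sub_le _ _).trans_lt ?_
  rw [degree_eq_natDegree hm.ne_zero, hf.natDegree_map]
  exact max_lt (poly_degree_lt _) (poly_degree_lt _)

lemma sum_Ψ_eq_zero (hf : f.Monic) {ρ : ℕ} {A : Finset ℕ} (hρ : ρ ∈ R f p) (hA : A ⊆ R f p)
    {u : (ZMod p)[X]} (hu : IsCoprime u (fp f p)) (hΨ : Ψ f p ρ A u = -1) :
    ∑ g : Fin f.natDegree → ZMod p, Ψ f p ρ A (poly g) = 0 := by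
  have hm : (fp f p).Monic := hf.map _
  have hbij : Function.Bijective (mulMap f p u) :=
    (Finite.injective_iff_bijective).1 (mulMap_injective hf hu)
  have h1 : ∑ g : Fin f.natDegree → ZMod p, Ψ f p ρ A (poly g) =
      ∑ g : Fin f.natDegree → ZMod p, Ψ f p ρ A (poly (mulMap f p u g)) :=
    (Function.Bijective.sum_comp hbij fun g => Ψ f p ρ A (poly g)).symm
  have h2 : ∀ g : Fin f.natDegree → ZMod p, Ψ f p ρ A (poly (mulMap f p u g)) =
      - Ψ f p ρ A (poly g) := by
    intro g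
    rw [poly_mulMap hf]
    have h3 : fp f p ∣ (u * poly g) %ₘ (fp f p) - u * poly g := by
      refine ⟨-((u * poly g) /ₘ (fp f p)), ?_⟩
      have := modByMonic_add_div (u * poly g) (fp f p)
      linear_combination this
    rw [Ψ_congr hf hρ hA h3, Ψ_mul hf, hΨ]
    ring
  rw [sum_congr rfl fun g _ => h2 g, sum_neg_distrib] at h1
  omega

lemma sum_W_eq (hf : f.Monic) (ρ : ℕ) (A : Finset ℕ) :
    ∑ g : Fin f.natDegree → Fin p, ∏ a ∈ A, W f p ρ a (fun i => ((g i : ℕ) : ℤ)) =
      ∑ g : Fin f.natDegree → ZMod p, Ψ f p ρ A (poly g) := by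
  have hp0 : p ≠ 0 := hp.out.ne_zero
  let e : Fin p ≃ ZMod p :=
    { toFun := fun i => ((i : ℕ) : ZMod p)
      invFun := fun z => ⟨z.val, ZMod.val_lt z⟩
      left_inv := fun i => by
        apply Fin.ext
        exact ZMod.val_cast_of_lt i.2
      right_inv := fun z => ZMod.natCast_zmod_val z }
  have h := Equiv.sum_comp (Equiv.piCongrRight fun _ : Fin f.natDegree => e)
    (fun g => Ψ f p ρ A (poly g))
  rw [← h]
  refine sum_congr rfl fun g _ => ?_
  unfold Ψ
  refine prod_congr rfl fun a _ => ?_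
  rw [W_eq hf]
  have he : (fun i => (((g i : ℕ) : ℤ) : ZMod p)) =
      (Equiv.piCongrRight fun _ : Fin f.natDegree => e) g := by
    funext i
    simp [e]
  rw [he]

end sum

section unit

variable {f : ℤ[X]} {p : ℕ} [hp : Fact p.Prime]

/-- Chinese remainder theorem for polynomials over a field: `u ≡ v` mod `k`, `u ≡ w` mod `h`. -/
lemma exists_crt {F : Type*} [Field F] {k h : F[X]} (hc : IsCoprime k h) (v w : F[X]) :
    ∃ u : F[X], k ∣ u - v ∧ h ∣ u - w := by
  obtain ⟨s, t, hst⟩ := hc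
  refine ⟨w * (s * k) + v * (t * h), ⟨(w - v) * s, ?_⟩, ⟨(v - w) * t, ?_⟩⟩
  · linear_combination v * hst
  · linear_combination w * hst

lemma eval_eq_of_dvd {F : Type*} [Field F] {k u v : F[X]} {a : F} (h : k ∣ u - v)
    (ha : k.eval a = 0) : u.eval a = v.eval a := by
  obtain ⟨s, hs⟩ := h
  have h1 : (u - v).eval a = 0 := by rw [hs, eval_mul, ha, zero_mul]
  rwa [eval_sub, sub_eq_zero] at h1

lemma res_one {F : Type*} [Field F] {k : F[X]} (_hk : k.Monic) : resultant k 1 = 1 := by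
  rw [resultant_one_right]
  simp

lemma exists_nonres (hp2 : p ≠ 2) : ∃ ν : ZMod p, quadraticChar (ZMod p) ν = -1 := by
  have hp2' : ringChar (ZMod p) ≠ 2 := by
    rw [ZMod.ringChar_zmod_n]
    exact hp2
  exact quadraticChar_exists_neg_one hp2'

/-- The linear factors of the roots in a set. -/
lemma prod_roots_dvd (hf : f.Monic) {S : Finset ℕ} (hS : S ⊆ R f p) :
    (∏ a ∈ S, (X - C (a : ZMod p))) ∣ fp f p := by
  classical
  have hm : (fp f p).Monic := hf.map _
  apply Finset.prod_dvd_of_coprime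
  · intro a ha b hb hab
    apply isCoprime_X_sub_C_of_isUnit_sub
    rw [isUnit_iff_ne_zero, sub_ne_zero]
    intro h
    exact hab (cast_inj_of_lt (mem_R.1 (hS ha)).1 (mem_R.1 (hS hb)).1 h)
  · intro a ha
    rw [dvd_iff_isRoot]
    exact (mem_R.1 (hS ha)).2

/-- A unit at which the character is `-1`. -/
lemma exists_unit (hf : f.Monic) (hev : Even f.natDegree) (hsep : (fp f p).Separable)
    (hp2 : p ≠ 2) (hbig : (2 * f.natDegree + 2) ^ 2 ≤ p) {ρ : ℕ} (hρ : ρ ∈ R f p)
    {A : Finset ℕ} (hA : A ⊆ J f p ρ) (hne : A.Nonempty) :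
    ∃ u : (ZMod p)[X], IsCoprime u (fp f p) ∧ Ψ f p ρ A u = -1 := by
  classical
  have hm : (fp f p).Monic := hf.map _
  have hAR : A ⊆ R f p := hA.trans (J_subset.trans (erase_subset _ _))
  have hρA : ρ ∉ A := fun h => by
    have := J_subset (hA h)
    simp at this
  have hcard := card_A_le hf hρ hA hne
  have hcop : ∀ u, IsUnit (resultant (fp f p) u) → IsCoprime u (fp f p) := fun u hu =>
    ((isUnit_resultant_iff_isCoprime hm).1 hu).symm
  rcases Nat.even_or_odd A.card with hAe | hAo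
  · -- even case
    obtain ⟨a₁, ha₁⟩ := hne
    obtain ⟨ν, hν⟩ := exists_nonres (p := p) hp2
    have hν0 : ν ≠ 0 := by
      rintro rfl
      simp at hν
    have hd : (X - C (a₁ : ZMod p)) ∣ fp f p := dvd_iff_isRoot.2 (mem_R.1 (hAR ha₁)).2
    obtain ⟨k, hk⟩ := hd
    have hkm : k.Monic := (monic_X_sub_C _).of_mul_monic_left (hk ▸ hm)
    have hc : IsCoprime (X - C (a₁ : ZMod p)) k := by
      rw [hk] at hsep
      exact hsep.isCoprime
    obtain ⟨u, hu1, hu2⟩ := exists_crt hc (C ν) 1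
    have hua : u.eval (a₁ : ZMod p) = ν := by
      rw [eval_eq_of_dvd hu1 (by simp)]; simp
    have hres : resultant (fp f p) u = ν := by
      rw [hk, res_mul_left _ _ _ (monic_X_sub_C _) hkm, res_X_sub_C, hua,
        res_congr _ _ _ hkm hu2, res_one hkm, mul_one]
    have hother : ∀ b ∈ R f p, b ≠ a₁ → u.eval (b : ZMod p) = 1 := by
      intro b hb hba
      have h1 : k.eval (b : ZMod p) = 0 := by
        have h2 := (mem_R.1 hb).2
        rw [hk, eval_mul] at h2
        rcases mul_eq_zero.1 h2 with h3 | h3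
        · exfalso
          rw [eval_sub, eval_X, eval_C, sub_eq_zero] at h3
          exact hba (cast_inj_of_lt (mem_R.1 hb).1 (mem_R.1 (hAR ha₁)).1 h3)
        · exact h3
      rw [eval_eq_of_dvd hu2 h1]; simp
    refine ⟨u, hcop u (by rw [hres]; exact isUnit_iff_ne_zero.2 hν0), ?_⟩
    unfold Ψ
    rw [← mul_prod_erase A _ ha₁]
    have h1 : ∀ a ∈ A.erase a₁, quadraticChar (ZMod p) (u.eval (a : ZMod p) *
        u.eval (ρ : ZMod p) * resultant (fp f p) u) = -1 := by
      intro a ha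
      rw [hother a (hAR (mem_of_mem_erase ha)) (ne_of_mem_erase ha),
        hother ρ hρ (fun h => hρA (h ▸ ha₁)), hres, one_mul, one_mul, hν]
    have h2 : quadraticChar (ZMod p) (u.eval (a₁ : ZMod p) *
        u.eval (ρ : ZMod p) * resultant (fp f p) u) = 1 := by
      rw [hua, hother ρ hρ (fun h => hρA (h ▸ ha₁)), hres, mul_one, map_mul, hν]
      norm_num
    have h3 := prod_congr rfl h1
    rw [prod_const, card_erase_of_mem ha₁] at h3
    have h4 : (-1 : ℤ) ^ (A.card - 1) = -1 := by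
      apply Odd.neg_one_pow
      have h5 : 0 < A.card := card_pos.2 ⟨a₁, ha₁⟩
      obtain ⟨m, hm'⟩ := hAe
      exact ⟨m - 1, by omega⟩
    rw [h4] at h3
    rw [h2, h3, one_mul]
  · -- odd case
    have hKd : (∏ a ∈ insert ρ A, (X - C (a : ZMod p))) ∣ fp f p :=
      prod_roots_dvd hf (insert_subset hρ hAR)
    set K := ∏ a ∈ insert ρ A, (X - C (a : ZMod p)) with hK
    have hKm : K.Monic := monic_prod_of_monic _ _ fun a _ => monic_X_sub_C _
    obtain ⟨h, hh⟩ := hKd
    have hhm : h.Monic := hKm.of_mul_monic_left (hh ▸ hm)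
    have hdegK : K.natDegree = A.card + 1 := by
      rw [hK, natDegree_prod_of_monic _ _ fun a _ => monic_X_sub_C _,
        sum_congr rfl fun a _ => natDegree_X_sub_C _, sum_const, card_insert_of_notMem hρA]
      simp
    have hdeg : K.natDegree + h.natDegree = f.natDegree := by
      rw [← hKm.natDegree_mul hhm, ← hh, hf.natDegree_map]
    have hhev : Even h.natDegree := by
      obtain ⟨m, hm'⟩ := hev
      obtain ⟨l, hl⟩ := hAo
      exact ⟨m - l - 1, by omega⟩
    have hc : IsCoprime K h := by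
      rw [hh] at hsep
      exact hsep.isCoprime
    have hhsep : h.Separable := by
      rw [hh] at hsep
      exact hsep.of_mul_right
    obtain ⟨b, hb⟩ := exists_value (p := p) hp2 h hhsep.squarefree (by omega)
      (le_trans (Nat.pow_le_pow_left (by omega) 2) hbig) (Or.inr rfl)
    have hb0 : h.eval b ≠ 0 := by
      intro h0
      rw [h0] at hb
      simp at hb
    obtain ⟨u, hu1, hu2⟩ := exists_crt hc 1 (X - C b)
    have hres : resultant (fp f p) u = h.eval b := by
      rw [hh, res_mul_left _ _ _ hKm hhm, res_congr _ _ _ hKm hu1, res_one hKm, one_mul,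
        res_congr _ _ _ hhm hu2]
      have h1 := resultant_X_sub_C_right h h.natDegree b le_rfl
      rw [hhev.neg_one_pow, one_mul] at h1
      rw [← h1, ← res_pad h (X - C b) hhm 1 (natDegree_X_sub_C_le _)]
    have hev1 : ∀ a ∈ insert ρ A, u.eval (a : ZMod p) = 1 := by
      intro a ha
      have : K.eval (a : ZMod p) = 0 := by
        rw [hK, eval_prod]
        exact prod_eq_zero ha (by simp)
      rw [eval_eq_of_dvd hu1 this]; simp
    refine ⟨u, hcop u (by rw [hres]; exact isUnit_iff_ne_zero.2 hb0), ?_⟩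
    unfold Ψ
    have h1 : ∀ a ∈ A, quadraticChar (ZMod p) (u.eval (a : ZMod p) *
        u.eval (ρ : ZMod p) * resultant (fp f p) u) = -1 := by
      intro a ha
      rw [hev1 a (mem_insert_of_mem ha), hev1 ρ (mem_insert_self _ _), hres, one_mul, one_mul, hb]
    have h3 := prod_congr rfl h1
    rw [prod_const, hAo.neg_one_pow] at h3
    exact h3

end unit

/-- Clearing denominators. -/
lemma exists_clear (a : ℚ[X]) : ∃ d : ℤ, d ≠ 0 ∧ ∃ a' : ℤ[X],
    a'.map (Int.castRingHom ℚ) = C (d : ℚ) * a := by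
  obtain ⟨d1, hd1, h1⟩ := IsLocalization.integerNormalization_spec (nonZeroDivisors ℤ) a
  refine ⟨d1, nonZeroDivisors.ne_zero hd1,
    IsLocalization.integerNormalization (nonZeroDivisors ℤ) a, ?_⟩
  change Polynomial.map (algebraMap ℤ ℚ) _ = _
  rw [h1]
  ext i
  simp

/-- `f` is separable modulo all large primes. -/
lemma exists_separable (f : ℤ[X]) (hf : f.Monic) (hirr : Irreducible f) :
    ∃ B : ℕ, ∀ p : ℕ, p.Prime → B < p → (fp f p).Separable := by
  have hirr' : Irreducible (f.map (Int.castRingHom ℚ)) := by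
    have h := (hf.irreducible_iff_irreducible_map_fraction_map (K := ℚ)).1 hirr
    simpa using h
  have hsep : (f.map (Int.castRingHom ℚ)).Separable := hirr'.separable
  obtain ⟨a, b, hab⟩ := hsep
  -- clear denominators
  obtain ⟨d₁, hd₁, a₁, ha₁⟩ := exists_clear a
  obtain ⟨d₂, hd₂, b₁, hb₁⟩ := exists_clear b
  set d := d₁ * d₂ with hd
  obtain ⟨a', ha'⟩ : ∃ a', a' = C d₂ * a₁ := ⟨_, rfl⟩
  obtain ⟨b', hb'⟩ : ∃ b', b' = C d₁ * b₁ := ⟨_, rfl⟩
  have hd0 : d ≠ 0 := mul_ne_zero hd₁ hd₂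
  have key : a' * f + b' * derivative f = C d := by
    apply Polynomial.map_injective (Int.castRingHom ℚ) Int.cast_injective
    rw [Polynomial.map_add, Polynomial.map_mul, Polynomial.map_mul, ha', hb', Polynomial.map_mul,
      Polynomial.map_mul, map_C, map_C, ha₁, hb₁, map_C, ← derivative_map]
    have : (C ((Int.castRingHom ℚ) d) : ℚ[X]) = C (d₁ : ℚ) * C (d₂ : ℚ) * 1 := by
      rw [hd, ← C_mul]; simp
    rw [this, ← hab]
    simp only [eq_intCast]
    ring
  refine ⟨d.natAbs, fun p hp hpd => ?_⟩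
  have : Fact p.Prime := ⟨hp⟩
  have hdp : (d : ZMod p) ≠ 0 := by
    intro h
    rw [ZMod.intCast_zmod_eq_zero_iff_dvd] at h
    have h1 := Int.natAbs_dvd_natAbs.2 h
    rw [Int.natAbs_natCast] at h1
    exact absurd (Nat.le_of_dvd (Int.natAbs_pos.2 hd0) h1) (by omega)
  have key' := congrArg (Polynomial.map (Int.castRingHom (ZMod p))) key
  rw [Polynomial.map_add, Polynomial.map_mul, Polynomial.map_mul, map_C, ← derivative_map] at key'
  refine ⟨C (d : ZMod p)⁻¹ * a'.map (Int.castRingHom (ZMod p)),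
    C (d : ZMod p)⁻¹ * b'.map (Int.castRingHom (ZMod p)), ?_⟩
  have h1 : C (d : ZMod p)⁻¹ * C ((Int.castRingHom (ZMod p)) d) = 1 := by
    rw [← C_mul]
    simp [inv_mul_cancel₀ hdp]
  rw [← h1, ← key']
  ring

/-- Nontriviality of the characters for large primes. -/
theorem nonTriv (f : ℤ[X]) (hf : f.Monic) (hirr : Irreducible f) (hev : Even f.natDegree) :
    ∃ B : ℕ, ∀ C₀ : ℕ, B ≤ C₀ → NonTriv f C₀ := by
  obtain ⟨B, hB⟩ := exists_separable f hf hirr
  refine ⟨max (max B 2) ((2 * f.natDegree + 2) ^ 2), fun C₀ hC p hp hpC ρ hρ A hA hne => ?_⟩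
  have : Fact p.Prime := ⟨hp⟩
  obtain ⟨u, hu, hΨ⟩ := exists_unit (p := p) hf hev (hB p hp (by omega)) (by omega)
    (by omega) hρ hA hne
  rw [sum_W_eq hf]
  exact sum_Ψ_eq_zero hf hρ (hA.trans (J_subset.trans (erase_subset _ _))) hu hΨ

end Stoll308.Gen
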