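import Pool.Agent.Work.MP_308fa9_nt.Gen.Approx
import Pool.Agent.Work.MP_308fa9_nt.Gen.Minkowski

set_option autoImplicit false

/-!
Even valuations in the number field `ℚ[X]/f`.
-/

namespace Stoll308.Gen

open Polynomial Finset NumberField UniqueFactorizationMonoid
open scoped nonZeroDivisors

variable {f : ℤ[X]} [hirr : Fact (Irreducible (fr f))]

/-- The number field. -/
abbrev KK (f : ℤ[X]) : Type := AdjoinRoot (fr f)

lemma aeval_root_int (a : ℤ[X]) : aeval (AdjoinRoot.root (fr f)) a =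
    AdjoinRoot.mk (fr f) (a.map (Int.castRingHom ℚ)) := by
  have h := AdjoinRoot.aeval_eq (R := ℚ) (f := fr f) (a.map (Int.castRingHom ℚ))
  rw [aeval_def, eval₂_map] at h
  rw [← h, aeval_def]
  congr 1

lemma isIntegral_root (hf : f.Monic) : IsIntegral ℤ (AdjoinRoot.root (fr f)) := by
  refine ⟨f, hf, ?_⟩
  rw [← aeval_def, aeval_root_int]
  exact AdjoinRoot.mk_self

/-- The root as an algebraic integer. -/
noncomputable def th (hf : f.Monic) : 𝓞 (KK f) := ⟨AdjoinRoot.root (fr f), isIntegral_root hf⟩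

lemma coe_aeval_th (hf : f.Monic) (a : ℤ[X]) :
    algebraMap (𝓞 (KK f)) (KK f) (aeval (th hf) a) =
      AdjoinRoot.mk (fr f) (a.map (Int.castRingHom ℚ)) := by
  have h1 : algebraMap (𝓞 (KK f)) (KK f) (aeval (th hf) a) = aeval (AdjoinRoot.root (fr f)) a :=
    (aeval_algebraMap_apply (KK f) (th hf) a).symm
  rw [h1, aeval_root_int]

lemma aeval_th_self (hf : f.Monic) : (aeval (th hf) f : 𝓞 (KK f)) = 0 := by
  rw [← RingOfIntegers.coe_eq_zero_iff, coe_aeval_th]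
  exact AdjoinRoot.mk_self

/-- A polynomial which is coprime to `f` modulo `p` is not in any prime above `p`. -/
lemma aeval_notMem (hf : f.Monic) {p : ℕ} [Fact p.Prime] {a : ℤ[X]}
    (ha : IsCoprime (a.map (Int.castRingHom (ZMod p))) (fp f p)) {q : Ideal (𝓞 (KK f))}
    (hq : q.IsPrime) (hp : (p : 𝓞 (KK f)) ∈ q) : (aeval (th hf) a : 𝓞 (KK f)) ∉ q := by
  intro hmem
  obtain ⟨v, w, hvw⟩ := ha
  obtain ⟨v, rfl⟩ := Polynomial.map_surjective (Int.castRingHom (ZMod p))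
    (ZMod.ringHom_surjective _) v
  obtain ⟨w, rfl⟩ := Polynomial.map_surjective (Int.castRingHom (ZMod p))
    (ZMod.ringHom_surjective _) w
  have h1 : (v * a + w * f - 1).map (Int.castRingHom (ZMod p)) = 0 := by
    rw [Polynomial.map_sub, Polynomial.map_add, Polynomial.map_mul, Polynomial.map_mul,
      Polynomial.map_one, hvw, sub_self]
  obtain ⟨z, hz⟩ : C (p : ℤ) ∣ v * a + w * f - 1 := by
    rw [Polynomial.C_dvd_iff_dvd_coeff]
    intro i
    rw [← ZMod.intCast_zmod_eq_zero_iff_dvd]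
    have := congrArg (fun r => coeff r i) h1
    simpa only [coeff_map, coeff_zero, eq_intCast] using this
  have h2 := congrArg (aeval (th hf)) hz
  rw [map_sub, map_add, map_mul, map_mul, map_mul, aeval_th_self, mul_zero, add_zero, map_one] at h2
  have h3 : (aeval (th hf) (C (p : ℤ)) : 𝓞 (KK f)) = (p : 𝓞 (KK f)) := by
    rw [aeval_C]; simp
  rw [h3] at h2
  apply hq.ne_top
  rw [Ideal.eq_top_iff_one]
  have h4 : (1 : 𝓞 (KK f)) = aeval (th hf) v * aeval (th hf) a - p * aeval (th hf) z := by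
    rw [← h2]; ring
  rw [h4]
  exact q.sub_mem (q.mul_mem_left _ hmem) (q.mul_mem_right _ hp)

lemma intCast_notMem {p : ℕ} (hpp : p.Prime) {d : ℤ} (hd : ¬ (p : ℤ) ∣ d)
    {q : Ideal (𝓞 (KK f))} (hq : q.IsPrime) (hp : (p : 𝓞 (KK f)) ∈ q) :
    (d : 𝓞 (KK f)) ∉ q := by
  intro hmem
  have h1 : IsCoprime (p : ℤ) d := by
    rw [(Nat.prime_iff_prime_int.1 hpp).irreducible.coprime_iff_not_dvd]
    exact hd
  obtain ⟨u, v, huv⟩ := h1
  apply hq.ne_top
  rw [Ideal.eq_top_iff_one]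
  have h2 : (1 : 𝓞 (KK f)) = (u : 𝓞 (KK f)) * (p : 𝓞 (KK f)) + (v : 𝓞 (KK f)) * (d : 𝓞 (KK f)) := by
    have := congrArg (Int.cast : ℤ → 𝓞 (KK f)) huv
    push_cast at this
    exact this.symm
  rw [h2]
  exact q.add_mem (q.mul_mem_left _ hp) (q.mul_mem_left _ hmem)

/-- The multiplicity of a prime ideal in a principal ideal. -/
noncomputable def vq (q : Ideal (𝓞 (KK f))) (y : 𝓞 (KK f)) : ℕ :=
  haveI := Classical.decEq (Ideal (𝓞 (KK f)))
  (normalizedFactors (Ideal.span {y})).count q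

lemma vq_mul (q : Ideal (𝓞 (KK f))) {y z : 𝓞 (KK f)} (hy : y ≠ 0) (hz : z ≠ 0) :
    vq q (y * z) = vq q y + vq q z := by
  unfold vq
  rw [← Ideal.span_singleton_mul_span_singleton, normalizedFactors_mul, Multiset.count_add]
  · rw [Ideal.zero_eq_bot, Ne, Ideal.span_singleton_eq_bot]; exact hy
  · rw [Ideal.zero_eq_bot, Ne, Ideal.span_singleton_eq_bot]; exact hz

lemma vq_eq_zero {q : Ideal (𝓞 (KK f))} {y : 𝓞 (KK f)} (hy : y ∉ q) : vq q y = 0 := by
  unfold vq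
  rw [Multiset.count_eq_zero]
  intro h
  have h1 := dvd_of_mem_normalizedFactors h
  rw [Ideal.dvd_span_singleton] at h1
  exact hy h1

/-- Parity at the primes where `EvenAt` holds. -/
lemma even_vq (hf : f.Monic) {p : ℕ} [hp : Fact p.Prime] {Δ : ℚ[X]} (hE : EvenAt f p Δ)
    {X₀ : 𝓞 (KK f)} (hX₀ : X₀ ≠ 0) {D : ℤ} (hD : D ≠ 0)
    (hX : algebraMap (𝓞 (KK f)) (KK f) X₀ = AdjoinRoot.mk (fr f) Δ * (D : KK f) ^ 2)
    {q : Ideal (𝓞 (KK f))} (hq : q.IsPrime) (hpq : (p : 𝓞 (KK f)) ∈ q) : Even (vq q X₀) := by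
  obtain ⟨w, a, d, hd, ha, hdvd⟩ := hE
  have hA := aeval_notMem hf ha hq hpq
  have hdq := intCast_notMem hp.out hd hq hpq
  have hA0 : (aeval (th hf) a : 𝓞 (KK f)) ≠ 0 := by
    intro h
    apply hA
    rw [h]
    exact q.zero_mem
  have hd0 : (d : 𝓞 (KK f)) ≠ 0 := by
    intro h
    apply hdq
    rw [h]
    exact q.zero_mem
  have heq := AdjoinRoot.mk_eq_mk.2 hdvd
  rw [map_mul, map_mul, map_pow, ← coe_aeval_th hf] at heq
  have hC : AdjoinRoot.mk (fr f) (C (d : ℚ)) = (d : KK f) := by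
    rw [AdjoinRoot.mk_C]; simp
  rw [hC] at heq
  obtain ⟨w₁, w₂, hw₂, hw⟩ := IsFractionRing.div_surjective (A := 𝓞 (KK f))
    (AdjoinRoot.mk (fr f) w)
  have hw₂0 : w₂ ≠ 0 := nonZeroDivisors.ne_zero hw₂
  have hw₂K : algebraMap (𝓞 (KK f)) (KK f) w₂ ≠ 0 := RingOfIntegers.coe_ne_zero_iff.2 hw₂0
  rw [← hw] at heq
  have hD0 : (D : 𝓞 (KK f)) ≠ 0 := by exact_mod_cast hD
  have key : (d : 𝓞 (KK f)) * X₀ * (w₁ * w₁) = aeval (th hf) a * ((D * w₂) * (D * w₂)) := by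
    apply FaithfulSMul.algebraMap_injective (𝓞 (KK f)) (KK f)
    simp only [map_mul, map_intCast]
    rw [hX, ← heq]
    field_simp
  have hw₁0 : w₁ ≠ 0 := by
    rintro rfl
    rw [mul_zero, mul_zero] at key
    exact mul_ne_zero hA0 (mul_ne_zero (mul_ne_zero hD0 hw₂0) (mul_ne_zero hD0 hw₂0)) key.symm
  have h1 := congrArg (vq q) key
  rw [vq_mul q (mul_ne_zero hd0 hX₀) (mul_ne_zero hw₁0 hw₁0), vq_mul q hd0 hX₀,
    vq_mul q hw₁0 hw₁0, vq_mul q hA0 (mul_ne_zero (mul_ne_zero hD0 hw₂0) (mul_ne_zero hD0 hw₂0)),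
    vq_mul q (mul_ne_zero hD0 hw₂0) (mul_ne_zero hD0 hw₂0), vq_eq_zero hdq, vq_eq_zero hA] at h1
  exact ⟨vq q (D * w₂) - vq q w₁, by omega⟩

/-- A nonzero prime ideal contains a prime number. -/
lemma exists_prime_mem {q : Ideal (𝓞 (KK f))} (hq : q.IsPrime) (hq0 : q ≠ ⊥) :
    ∃ p : ℕ, p.Prime ∧ (p : 𝓞 (KK f)) ∈ q := by
  have h1 : ∀ n : ℕ, n ≠ 0 → (n : 𝓞 (KK f)) ∈ q → ∃ p : ℕ, p.Prime ∧ (p : 𝓞 (KK f)) ∈ q := by
    intro n
    induction n using Nat.strong_induction_on with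
    | _ n ih =>
      intro hn hmem
      have hn1 : n ≠ 1 := by
        rintro rfl
        apply hq.ne_top
        rw [Ideal.eq_top_iff_one]
        simpa using hmem
      obtain ⟨p, hp, m, hm⟩ := Nat.exists_prime_and_dvd hn1
      rw [hm, Nat.cast_mul] at hmem
      rcases hq.mem_or_mem hmem with h | h
      · exact ⟨p, hp, h⟩
      · have hm0 : m ≠ 0 := by
          rintro rfl
          exact hn (by rw [hm, mul_zero])
        refine ih m ?_ hm0 h
        rw [hm]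
        exact (Nat.lt_mul_iff_one_lt_left (Nat.pos_of_ne_zero hm0)).2 hp.one_lt
  refine h1 (Ideal.absNorm q) ?_ (Ideal.absNorm_mem q)
  rw [Ne, Ideal.absNorm_eq_zero_iff]
  exact hq0

/-- Finiteness of the elements with even valuations outside the primes `≤ C₀`, modulo squares. -/
theorem exists_reps (hf : f.Monic) (C₀ : ℕ) : ∃ S : Set (KK f), S.Finite ∧
    ∀ Δ : ℚ[X], AdjoinRoot.mk (fr f) Δ ≠ 0 →
      (∀ (p : ℕ) [Fact p.Prime], C₀ < p → EvenAt f p Δ) →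
        ∃ ε ∈ S, ∃ γ : KK f, γ ≠ 0 ∧ AdjoinRoot.mk (fr f) Δ = ε * γ ^ 2 := by
  classical
  set M : Ideal (𝓞 (KK f)) := Ideal.span {((C₀.factorial : ℕ) : 𝓞 (KK f))} with hM
  obtain ⟨S, hS, hSx⟩ := exists_square_reps (KK f) (Ideal.absNorm M)
  refine ⟨S, hS, fun Δ hΔ hE => ?_⟩
  -- scale to an integral element
  obtain ⟨D, hD, hint⟩ : ∃ D : ℤ, D ≠ 0 ∧ IsIntegral ℤ (AdjoinRoot.mk (fr f) Δ * (D : KK f) ^ 2) := by
    have halg : IsAlgebraic ℤ (AdjoinRoot.mk (fr f) Δ) := by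
      have h1 : IsAlgebraic ℚ (AdjoinRoot.mk (fr f) Δ) := Algebra.IsAlgebraic.isAlgebraic _
      exact (IsFractionRing.isAlgebraic_iff ℤ ℚ (KK f)).2 h1
    obtain ⟨D, hD, hint⟩ := halg.exists_integral_multiple
    refine ⟨D, hD, ?_⟩
    have h2 : AdjoinRoot.mk (fr f) Δ * (D : KK f) ^ 2 =
        (D • AdjoinRoot.mk (fr f) Δ) * (D : KK f) := by
      rw [zsmul_eq_mul]; ring
    rw [h2]
    exact hint.mul (isIntegral_intCast (R := ℤ) D)
  set X₀ : 𝓞 (KK f) := ⟨_, hint⟩ with hX₀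
  have hX : algebraMap (𝓞 (KK f)) (KK f) X₀ = AdjoinRoot.mk (fr f) Δ * (D : KK f) ^ 2 := rfl
  have hDK : (D : KK f) ≠ 0 := by exact_mod_cast hD
  have hX0 : X₀ ≠ 0 := by
    rw [← RingOfIntegers.coe_ne_zero_iff, hX]
    exact mul_ne_zero hΔ (pow_ne_zero 2 hDK)
  have hI : Ideal.span {X₀} ≠ 0 := by
    rw [Ideal.zero_eq_bot, Ne, Ideal.span_singleton_eq_bot]; exact hX0
  obtain ⟨b, c, hbc, hbM⟩ := exists_decomp (I := Ideal.span {X₀}) (M := M) hI (by
    intro q hq hodd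
    by_contra hqM
    have hq' : q.IsPrime := Ideal.isPrime_of_prime hq
    obtain ⟨p, hp, hpq⟩ := exists_prime_mem hq' hq.ne_zero
    have : Fact p.Prime := ⟨hp⟩
    have hpC : C₀ < p := by
      by_contra hle
      apply hqM
      rw [hM, Ideal.dvd_span_singleton]
      have h1 : p ∣ C₀.factorial := (hp.dvd_factorial).2 (not_lt.1 hle)
      obtain ⟨m, hm⟩ := h1
      rw [hm, Nat.cast_mul]
      exact q.mul_mem_right _ hpq
    have h2 := even_vq hf (hE p hpC) hX0 hD hX hq' hpq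
    rw [← Nat.not_odd_iff_even] at h2
    apply h2
    unfold vq
    have e : (Classical.decEq (Ideal (𝓞 (KK f)))) =
        (fun a b => Classical.propDecidable (a = b)) := Subsingleton.elim _ _
    rw [e]
    exact hodd)
  have hbN : (Ideal.absNorm b : ℝ) ≤ Ideal.absNorm M := by
    have h1 : Ideal.absNorm b ∣ Ideal.absNorm M := map_dvd _ hbM
    have h2 : Ideal.absNorm M ≠ 0 := by
      rw [Ne, Ideal.absNorm_eq_zero_iff, hM, Ideal.span_singleton_eq_bot]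
      exact_mod_cast Nat.factorial_ne_zero C₀
    exact_mod_cast Nat.le_of_dvd (Nat.pos_of_ne_zero h2) h1
  obtain ⟨ε, hε, γ, hγ, hx⟩ := hSx X₀ hX0 b c hbc hbN
  refine ⟨ε, hε, γ / D, div_ne_zero hγ hDK, ?_⟩
  rw [RingOfIntegers.coe_eq_algebraMap, hX] at hx
  rw [div_pow, mul_div_assoc', ← hx]
  field_simp

end Stoll308.Gen
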