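import Pool.Agent.Work.MP_308fa9_nt.Gen.Defs

set_option autoImplicit false

/-!
Finite sets of functions with finite support and the sum-product formula.
-/

namespace Stoll308.Gen

open Finset

section piF

variable {α : Type*}

open Classical in
/-- The functions with values in `t p` for `p ∈ S` and the value `d` outside `S`. -/
noncomputable def piF (S : Finset ℕ) (t : ℕ → Finset α) (d : α) : Finset (ℕ → α) :=
  (Fintype.piFinset (fun p : S => t p)).image (fun r q => if h : q ∈ S then r ⟨q, h⟩ else d)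

lemma mem_piF {S : Finset ℕ} {t : ℕ → Finset α} {d : α} {x : ℕ → α} :
    x ∈ piF S t d ↔ (∀ p ∈ S, x p ∈ t p) ∧ ∀ p, p ∉ S → x p = d := by
  classical
  unfold piF
  rw [mem_image]
  constructor
  · rintro ⟨r, hr, rfl⟩
    rw [Fintype.mem_piFinset] at hr
    refine ⟨fun p hp => ?_, fun p hp => ?_⟩
    · simp only [hp, dite_true]
      exact hr ⟨p, hp⟩
    · simp only [hp, dite_false]
  · rintro ⟨h1, h2⟩
    refine ⟨fun p => x p, ?_, ?_⟩
    · rw [Fintype.mem_piFinset]
      exact fun p => h1 p p.2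
    · funext q
      by_cases hq : q ∈ S
      · simp only [hq, dite_true]
      · simp only [hq, dite_false]
        exact (h2 q hq).symm

lemma sum_prod_piF (S : Finset ℕ) (t : ℕ → Finset α) (d : α) (f : ℕ → α → ℝ) :
    ∑ x ∈ piF S t d, ∏ p ∈ S, f p (x p) = ∏ p ∈ S, ∑ a ∈ t p, f p a := by
  classical
  unfold piF
  rw [sum_image]
  · rw [← prod_coe_sort S (fun p => ∑ a ∈ t p, f p a), prod_univ_sum]
    refine sum_congr rfl fun r _ => ?_
    rw [← prod_coe_sort S]
    refine prod_congr rfl fun p _ => ?_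
    simp only [p.2, dite_true, Subtype.coe_eta]
  · intro r _ r' _ h
    funext p
    have := congrFun h p
    simpa only [p.2, dite_true, Subtype.coe_eta] using this

lemma card_piF (S : Finset ℕ) (t : ℕ → Finset α) (d : α) :
    (piF S t d).card = ∏ p ∈ S, (t p).card := by
  have h := sum_prod_piF S t d (fun _ _ => 1)
  simp only [prod_const_one, sum_const, nsmul_eq_mul, mul_one] at h
  exact_mod_cast h

end piF

/-- The data `r` over a set of primes `S`: `r p = 0`, or `r p = ρ + 1` where `ρ` is a root of `f`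
modulo `p`. -/
noncomputable def Dat (f : Polynomial ℤ) (S : Finset ℕ) : Finset (ℕ → ℕ) :=
  piF S (fun p => insert 0 ((R f p).image Nat.succ)) 0

/-- The support of a datum. -/
def supp (S : Finset ℕ) (r : ℕ → ℕ) : Finset ℕ := S.filter fun p => r p ≠ 0

/-- The roots of a datum. -/
def rt (r : ℕ → ℕ) : ℕ → ℕ := fun p => r p - 1

lemma sum_insert_succ (s : Finset ℕ) (w : ℕ → ℝ) :
    ∑ x ∈ insert 0 (s.image Nat.succ), w x = w 0 + ∑ a ∈ s, w (a + 1) := by
  rw [sum_insert]
  · rw [sum_image (fun _ _ _ _ h => Nat.succ_injective h)]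
  · intro h
    obtain ⟨a, _, ha⟩ := mem_image.1 h
    exact Nat.succ_ne_zero a ha

lemma sum_Dat (f : Polynomial ℤ) (S : Finset ℕ) (w : ℕ → ℕ → ℝ) :
    ∑ r ∈ Dat f S, ∏ p ∈ S, w p (r p) = ∏ p ∈ S, (w p 0 + ∑ a ∈ R f p, w p (a + 1)) := by
  unfold Dat
  rw [sum_prod_piF]
  exact prod_congr rfl fun p _ => sum_insert_succ _ _

lemma rt_mem {f : Polynomial ℤ} {S : Finset ℕ} {r : ℕ → ℕ} (hr : r ∈ Dat f S) {p : ℕ}
    (hp : p ∈ supp S r) : rt r p ∈ R f p ∧ r p = rt r p + 1 := by
  have h := (mem_piF.1 hr).1 p (mem_filter.1 hp).1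
  rcases mem_insert.1 h with h | h
  · exact absurd h (mem_filter.1 hp).2
  · obtain ⟨a, ha, ha'⟩ := mem_image.1 h
    have : rt r p = a := by
      unfold rt
      omega
    rw [this]
    exact ⟨ha, by omega⟩

/-- The product over the support as a product over `S`. -/
lemma prod_supp (S : Finset ℕ) (r : ℕ → ℕ) (w : ℕ → ℝ) :
    ∏ p ∈ supp S r, w p = ∏ p ∈ S, (if r p = 0 then 1 else w p) := by
  unfold supp
  rw [prod_filter]
  refine prod_congr rfl fun p _ => ?_
  by_cases h : r p = 0 <;> simp [h]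

end Stoll308.Gen
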