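import Pool.Agent.Work.MP_308fa9_nt.Gen.Parity

set_option autoImplicit false

/-!
Assembly: `EvenAt` for `r δ g₁ g₂`.
-/

namespace Stoll308.Gen

open Polynomial Finset NumberTheorySymbols

section evenAt

variable {f : ℤ[X]}

lemma EvenAt.unit_mul {p : ℕ} [hp : Fact p.Prime] {Δ : ℚ[X]} (h : EvenAt f p Δ) {u v : ℤ}
    (hu : ¬ (p : ℤ) ∣ u) (hv : ¬ (p : ℤ) ∣ v) : EvenAt f p (C ((u : ℚ) / v) * Δ) := by
  obtain ⟨w, a, d, hd, ha, hdvd⟩ := h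
  have hpp : Prime (p : ℤ) := Nat.prime_iff_prime_int.1 hp.out
  have hv0 : (v : ℚ) ≠ 0 := by
    intro h
    apply hv
    have : v = 0 := by exact_mod_cast h
    rw [this]
    exact dvd_zero _
  refine ⟨w, C u * a, d * v, fun h => ?_, ?_, ?_⟩
  · rcases hpp.dvd_mul.1 h with h | h
    · exact hd h
    · exact hv h
  · rw [Polynomial.map_mul, map_C]
    have hu' : IsUnit (C ((Int.castRingHom (ZMod p)) u)) := by
      rw [Polynomial.isUnit_C, isUnit_iff_ne_zero, eq_intCast, Ne,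
        ZMod.intCast_zmod_eq_zero_iff_dvd]
      exact hu
    exact (isCoprime_mul_unit_left_left hu' _ _).2 ha
  · have h1 : C ((d * v : ℤ) : ℚ) * (C ((u : ℚ) / v) * Δ) * w ^ 2 -
        (C u * a).map (Int.castRingHom ℚ) =
        C (u : ℚ) * (C (d : ℚ) * Δ * w ^ 2 - a.map (Int.castRingHom ℚ)) := by
      rw [Polynomial.map_mul, map_C, eq_intCast]
      have h2 : C ((d * v : ℤ) : ℚ) * C ((u : ℚ) / v) = C (u : ℚ) * C (d : ℚ) := by
        rw [← C_mul, ← C_mul]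
        congr 1
        push_cast
        field_simp
      linear_combination (Δ * w ^ 2) * h2
    rw [h1]
    exact Dvd.dvd.mul_left hdvd _

lemma EvenAt.zpow_mul {p q : ℕ} [hp : Fact p.Prime] {Δ : ℚ[X]} (h : EvenAt f p Δ)
    (hq : q.Prime) (hpq : p ≠ q) (e : ℤ) : EvenAt f p (C ((q : ℚ) ^ e) * Δ) := by
  have hpp : Prime (p : ℤ) := Nat.prime_iff_prime_int.1 hp.out
  have hk : ∀ k : ℕ, ¬ (p : ℤ) ∣ (q : ℤ) ^ k := by
    intro k hdiv
    have h1 := hpp.dvd_of_dvd_pow hdiv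
    rw [Int.natCast_dvd_natCast] at h1
    exact hpq ((Nat.prime_dvd_prime_iff_eq hp.out hq).1 h1)
  have h1 : ¬ (p : ℤ) ∣ 1 := by simpa using hk 0
  rcases Int.eq_nat_or_neg e with ⟨k, hk' | hk'⟩
  · have := h.unit_mul (hk k) h1
    rw [hk', zpow_natCast]
    simpa using this
  · have := h.unit_mul h1 (hk k)
    rw [hk', zpow_neg, zpow_natCast]
    simpa using this

lemma EvenAt.prod_mul {p : ℕ} [hp : Fact p.Prime] {Δ : ℚ[X]} (h : EvenAt f p Δ) (Q : Finset ℕ)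
    (hQ : ∀ q ∈ Q, q.Prime) (hpQ : p ∉ Q) (e : ℕ → ℤ) :
    EvenAt f p (C (∏ q ∈ Q, (q : ℚ) ^ (e q)) * Δ) := by
  classical
  induction Q using Finset.induction_on with
  | empty => simpa using h
  | insert q Q hq ih =>
    rw [prod_insert hq, C_mul, mul_assoc]
    apply (ih (fun r hr => hQ r (mem_insert_of_mem hr)) (fun h => hpQ (mem_insert_of_mem h))).zpow_mul
      (hQ q (mem_insert_self _ _))
    rintro rfl
    exact hpQ (mem_insert_self _ _)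

/-- `EvenAt` for almost all primes. -/
lemma evenAt_almost (hirr : Irreducible (fr f)) {Δ : ℚ[X]} (hΔ : ¬ fr f ∣ Δ) :
    ∃ B : ℕ, ∀ (p : ℕ) [Fact p.Prime], B < p → EvenAt f p Δ := by
  have hco : IsCoprime Δ (fr f) := ((hirr.coprime_iff_not_dvd).2 hΔ).symm
  obtain ⟨u, v, huv⟩ := hco
  obtain ⟨d₁, hd₁, a₁, ha₁⟩ := exists_clear Δ
  obtain ⟨d₂, hd₂, u₁, hu₁⟩ := exists_clear u
  obtain ⟨d₃, hd₃, v₁, hv₁⟩ := exists_clear v
  have key : C d₃ * u₁ * a₁ + C (d₁ * d₂) * v₁ * f = C (d₁ * d₂ * d₃) := by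
    apply Polynomial.map_injective (Int.castRingHom ℚ) Int.cast_injective
    have hcast : ∀ z : ℤ, (Int.castRingHom ℚ) z = (z : ℚ) := fun _ => rfl
    simp only [Polynomial.map_add, Polynomial.map_mul, map_C, ha₁, hu₁, hv₁, hcast, C_mul]

    linear_combination (C (d₁ : ℚ) * C (d₂ : ℚ) * C (d₃ : ℚ)) * huv
  refine ⟨(d₁ * d₂ * d₃).natAbs, fun p hpf hp => ?_⟩
  have hne : d₁ * d₂ * d₃ ≠ 0 := mul_ne_zero (mul_ne_zero hd₁ hd₂) hd₃
  have hnd : ¬ (p : ℤ) ∣ d₁ * d₂ * d₃ := by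
    intro h
    have h1 := Int.natAbs_dvd_natAbs.2 h
    rw [Int.natAbs_natCast] at h1
    exact absurd (Nat.le_of_dvd (Int.natAbs_pos.2 hne) h1) (by omega)
  refine ⟨1, a₁, d₁, fun h => hnd ((h.mul_right d₂).mul_right d₃), ?_, ?_⟩
  · have hc : ((d₁ * d₂ * d₃ : ℤ) : ZMod p) ≠ 0 := by
      rw [Ne, ZMod.intCast_zmod_eq_zero_iff_dvd]
      exact hnd
    have key' := congrArg (Polynomial.map (Int.castRingHom (ZMod p))) key
    simp only [Polynomial.map_add, Polynomial.map_mul, map_C] at key'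
    set c : ZMod p := ((d₁ * d₂ * d₃ : ℤ) : ZMod p) with hcdef
    refine ⟨C c⁻¹ * (C ((Int.castRingHom (ZMod p)) d₃) * u₁.map (Int.castRingHom (ZMod p))),
      C c⁻¹ * (C ((Int.castRingHom (ZMod p)) (d₁ * d₂)) * v₁.map (Int.castRingHom (ZMod p))), ?_⟩
    have h1 : C c⁻¹ * C ((Int.castRingHom (ZMod p)) (d₁ * d₂ * d₃)) = 1 := by
      rw [← C_mul, eq_intCast, ← hcdef, inv_mul_cancel₀ hc, C_1]
    rw [← h1, ← key']
    ring
  · rw [ha₁, one_pow, mul_one, sub_self]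
    exact dvd_zero _

end evenAt

section units

variable {f : ℤ[X]} {C₀ : ℕ} (hG : GoodBound f C₀) {T : Finset ℕ} {ρ : ℕ → ℕ}
  (hV : Valid f C₀ T ρ)

/-- The Thue element over `ℚ`. -/
noncomputable abbrev tq (f : ℤ[X]) (T : Finset ℕ) (ρ : ℕ → ℕ) : ℚ[X] :=
  poly (fun i => (thue f T ρ i : ℚ))

lemma dq_tq (p : ℕ) [Fact p.Prime] :
    dq (tq f T ρ) p = (poly (fun i => (thue f T ρ i : ℤ_[p]))).map (algebraMap ℤ_[p] ℚ_[p]) := by
  unfold dq tq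
  rw [poly_map, poly_map]
  simp

lemma mkq_tq (p : ℕ) [Fact p.Prime] :
    mkq f p (dq (tq f T ρ) p) = mkz f p (poly (fun i => (thue f T ρ i : ℤ_[p]))) := by
  rw [dq_tq, mkz_apply]

lemma rd_poly (p : ℕ) [Fact p.Prime] :
    (poly (fun i => (thue f T ρ i : ℤ_[p]))).map (rd p) =
      poly (fun i => (thue f T ρ i : ZMod p)) := by
  rw [poly_map]
  simp

include hG hV

lemma UU_tq {p : ℕ} [hp : Fact p.Prime] (hpC : C₀ < p) (hpT : p ∉ T) :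
    UU f p (mkq f p (dq (tq f T ρ) p)) := by
  refine ⟨poly (fun i => (thue f T ρ i : ℤ_[p])), ?_, (mkq_tq p).symm⟩
  rw [rd_poly]
  exact thue_coprime hG hV hp.out hpC hpT

lemma PP_tq {p : ℕ} [hp : Fact p.Prime] (hpT : p ∈ T) {α : ℤ_[p]} (hα : Lift f p (ρ p) α)
    {k : ℤ_[p][X]} {κ : ℤ_[p]} (hkm : k.Monic) (hk : fz f p = (X - C α) * k)
    (hκ : κ * k.eval α = 1) :
    ∃ u, UU f p u ∧ mkq f p (dq (tq f T ρ) p) = PP f k κ (p : ℚ_[p]) * u := by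
  obtain ⟨⟨v, hv, hev⟩, hco⟩ := thue_local hG hV hpT hα hkm hk
  refine ⟨_, ⟨_, PP_coprime hk hκ (poly (fun i => (thue f T ρ i : ℤ_[p]))) hv ?_, rfl⟩, ?_⟩
  · rw [rd_poly]
    exact hco
  · rw [mkq_tq, PP_decomp hk hκ _ hev]
    congr 1

end units

section unitAll

variable {f : ℤ[X]} {C₀ : ℕ} (hG : GoodBound f C₀)

include hG

/-- The key local statement at a prime of `T`. -/
lemma unit_mem {p : ℕ} [hp : Fact p.Prime] (hpC : C₀ < p) {T T' : Finset ℕ} {ρ : ℕ → ℕ}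
    (hV : Valid f C₀ T ρ) (hV' : Valid f C₀ T' ρ) (hpT : p ∈ T) (hpT' : p ∉ T') {α : ℤ_[p]}
    (hα : Lift f p (ρ p) α) {δ : ℚ[X]}
    (h : ∀ (k : ℤ_[p][X]) (κ : ℤ_[p]), k.Monic → fz f p = (X - C α) * k → κ * k.eval α = 1 →
        ∃ (e : ℤ) (w : AdjoinRoot (fq f p)), ∃ u, UU f p u ∧
          mkq f p (C ((p : ℚ_[p]) ^ e)) * mkq f p (dq δ p) * w ^ 2 = PP f k κ (p : ℚ_[p]) * u) :
    ∃ (e : ℤ) (w : AdjoinRoot (fq f p)),
      UU f p (mkq f p (C ((p : ℚ_[p]) ^ e)) * mkq f p (dq (δ * (tq f T ρ * tq f T' ρ)) p) * w ^ 2) := by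
  obtain ⟨k, hkm, hk⟩ := exists_factor hG.monic hα.1
  obtain ⟨κ, hκ⟩ := (factor_eval_unit (hG.sep p hp.out hpC) hk (x := α) rfl).exists_left_inv
  obtain ⟨e, w, u, hu, h1⟩ := h k κ hkm hk hκ
  obtain ⟨u', hu', h2⟩ := PP_tq hG hV hpT hα hkm hk hκ
  have h3 := UU_tq hG hV' hpC hpT'
  refine ⟨e, w * PP f k κ ((p : ℚ_[p])⁻¹), ?_⟩
  have h4 : PP f k κ (p : ℚ_[p]) * PP f k κ ((p : ℚ_[p])⁻¹) = 1 := by
    rw [PP_mul hk hκ, mul_inv_cancel₀ p_ne_zero_q, PP_one]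
  have h5 : mkq f p (C ((p : ℚ_[p]) ^ e)) * mkq f p (dq (δ * (tq f T ρ * tq f T' ρ)) p) *
      (w * PP f k κ ((p : ℚ_[p])⁻¹)) ^ 2 = (u * u') * mkq f p (dq (tq f T' ρ) p) := by
    have h6 : dq (δ * (tq f T ρ * tq f T' ρ)) p =
        dq δ p * (dq (tq f T ρ) p * dq (tq f T' ρ) p) := by
      unfold dq
      rw [Polynomial.map_mul, Polynomial.map_mul]
    rw [h6, map_mul, map_mul, h2]
    linear_combination (PP f k κ (p : ℚ_[p]) * u' * mkq f p (dq (tq f T' ρ) p) *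
      PP f k κ ((p : ℚ_[p])⁻¹) ^ 2) * h1 + (u * u' * mkq f p (dq (tq f T' ρ) p) *
      (PP f k κ (p : ℚ_[p]) * PP f k κ ((p : ℚ_[p])⁻¹) + 1)) * h4
  rw [h5]
  exact (hu.mul hu').mul h3

end unitAll

end Stoll308.Gen
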