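import Pool.Agent.Work.MP_308fa9_nt.Gen.RelAsm

set_option autoImplicit false

/-!
The relation data of the twists.
-/

namespace Stoll308.Gen

open Polynomial Finset NumberTheorySymbols

section sel

variable {f : ℤ[X]} {C₀ : ℕ} (hG : GoodBound f C₀)

lemma mem_bigPrimes {t : ℤ} (ht : t ≠ 0) {p : ℕ} :
    p ∈ bigPrimes C₀ t ↔ p.Prime ∧ (p : ℤ) ∣ t ∧ C₀ < p := by
  unfold bigPrimes
  rw [mem_filter, Nat.mem_primeFactors, ← Int.natCast_dvd]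
  constructor
  · rintro ⟨⟨h1, h2, -⟩, h3⟩
    exact ⟨h1, h2, h3⟩
  · rintro ⟨h1, h2, h3⟩
    exact ⟨⟨h1, h2, by simpa using ht⟩, h3⟩

lemma prod_bigPrimes_dvd {t : ℤ} :
    ((∏ p ∈ bigPrimes C₀ t, p : ℕ) : ℤ) ∣ t := by
  rw [Int.natCast_dvd]
  refine dvd_trans ?_ (Nat.prod_primeFactors_dvd t.natAbs)
  exact prod_dvd_prod_of_subset _ _ _ (filter_subset _ _)

include hG in
/-- The local data of a Selmer element at the primes dividing `t`. -/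
lemma exists_rho (hev : Even f.natDegree) {t : ℤ} (ht : Squarefree t) {δ : ℚ[X]}
    (hloc : ∀ (p : ℕ) [Fact p.Prime], LocalImage f t δ ℚ_[p]) :
    ∃ ρ : ℕ → ℕ, Valid f C₀ (bigPrimes C₀ t) ρ ∧ ∀ (p : ℕ) [Fact p.Prime], p ∈ bigPrimes C₀ t →
      ∃ α : ℤ_[p], Lift f p (ρ p) α ∧
      (∀ β : ℤ_[p], (fz f p).eval β = 0 → β ≠ α →
        (dq δ p).eval (α : ℚ_[p]) ≠ 0 ∧ (dq δ p).eval (β : ℚ_[p]) ≠ 0 ∧
        IsSquare ((dq δ p).eval (β : ℚ_[p]) * (dq δ p).eval (α : ℚ_[p]) * t *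
          ((((derivative (fz f p)).eval α * (α - β) : ℤ_[p]) : ℚ_[p])))) ∧
      ∀ (k : ℤ_[p][X]) (κ : ℤ_[p]), k.Monic → fz f p = (X - C α) * k → κ * k.eval α = 1 →
        ∃ (e : ℤ) (w : AdjoinRoot (fq f p)), ∃ u, UU f p u ∧
          mkq f p (C ((p : ℚ_[p]) ^ e)) * mkq f p (dq δ p) * w ^ 2 = PP f k κ (p : ℚ_[p]) * u := by
  have h1 : ∀ p : ℕ, ∃ r : ℕ, ∀ (_ : Fact p.Prime), p ∈ bigPrimes C₀ t → r ∈ R f p ∧
      ∃ α : ℤ_[p], Lift f p r α ∧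
      (∀ β : ℤ_[p], (fz f p).eval β = 0 → β ≠ α →
        (dq δ p).eval (α : ℚ_[p]) ≠ 0 ∧ (dq δ p).eval (β : ℚ_[p]) ≠ 0 ∧
        IsSquare ((dq δ p).eval (β : ℚ_[p]) * (dq δ p).eval (α : ℚ_[p]) * t *
          ((((derivative (fz f p)).eval α * (α - β) : ℤ_[p]) : ℚ_[p])))) ∧
      ∀ (k : ℤ_[p][X]) (κ : ℤ_[p]), k.Monic → fz f p = (X - C α) * k → κ * k.eval α = 1 →
        ∃ (e : ℤ) (w : AdjoinRoot (fq f p)), ∃ u, UU f p u ∧
          mkq f p (C ((p : ℚ_[p]) ^ e)) * mkq f p (dq δ p) * w ^ 2 =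
            PP f k κ (p : ℚ_[p]) * u := by
    intro p
    by_cases hp : p.Prime
    · have hpf : Fact p.Prime := ⟨hp⟩
      by_cases hpb : p ∈ bigPrimes C₀ t
      · rw [mem_bigPrimes ht.ne_zero] at hpb
        obtain ⟨-, hpt, hpC⟩ := hpb
        obtain ⟨α, hα, h2, h3⟩ := local_dvd hG.monic hev (hG.ne_two hpC) (hG.sep p hp hpC) ht hpt
          (hloc p)
        refine ⟨(rd p α).val, fun _ _ => ⟨root_mem_R hα, α, ⟨hα, ?_⟩, h2, h3⟩⟩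
        rw [ZMod.natCast_zmod_val]
      · exact ⟨0, fun _ h => absurd h hpb⟩
    · exact ⟨0, fun h _ => absurd h.out hp⟩
  choose ρ hρ using h1
  refine ⟨ρ, fun p hp => ?_, fun p hpf hp => (hρ p hpf hp).2⟩
  have hpb := hp
  rw [mem_bigPrimes ht.ne_zero] at hp
  exact ⟨hp.1, hp.2.2, (hρ p ⟨hp.1⟩ hpb).1⟩

include hG in
/-- The unit statement at all good primes. -/
lemma unit_all {t : ℤ} (ht : Squarefree t) {δ : ℚ[X]}
    (hloc : ∀ (p : ℕ) [Fact p.Prime], LocalImage f t δ ℚ_[p]) {ρ : ℕ → ℕ}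
    (hV : Valid f C₀ (bigPrimes C₀ t) ρ)
    (hρ : ∀ (p : ℕ) [Fact p.Prime], p ∈ bigPrimes C₀ t → ∃ α : ℤ_[p], Lift f p (ρ p) α ∧
      ∀ (k : ℤ_[p][X]) (κ : ℤ_[p]), k.Monic → fz f p = (X - C α) * k → κ * k.eval α = 1 →
        ∃ (e : ℤ) (w : AdjoinRoot (fq f p)), ∃ u, UU f p u ∧
          mkq f p (C ((p : ℚ_[p]) ^ e)) * mkq f p (dq δ p) * w ^ 2 = PP f k κ (p : ℚ_[p]) * u)
    {T₁ T₂ : Finset ℕ} (hd : Disjoint T₁ T₂) (hun : T₁ ∪ T₂ = bigPrimes C₀ t)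
    (p : ℕ) [hp : Fact p.Prime] (hpC : C₀ < p) :
    ∃ (e : ℤ) (w : AdjoinRoot (fq f p)),
      UU f p (mkq f p (C ((p : ℚ_[p]) ^ e)) *
        mkq f p (dq (δ * (tq f T₁ ρ * tq f T₂ ρ)) p) * w ^ 2) := by
  have hV₁ : Valid f C₀ T₁ ρ := fun q hq => hV q (hun ▸ mem_union_left _ hq)
  have hV₂ : Valid f C₀ T₂ ρ := fun q hq => hV q (hun ▸ mem_union_right _ hq)
  by_cases hpb : p ∈ bigPrimes C₀ t
  · obtain ⟨α, hα, h⟩ := hρ p hpb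
    rw [← hun, mem_union] at hpb
    rcases hpb with hp1 | hp2
    · exact unit_mem hG hpC hV₁ hV₂ hp1 (fun h => disjoint_left.1 hd hp1 h) hα h
    · have := unit_mem hG hpC hV₂ hV₁ hp2 (fun h' => disjoint_left.1 hd h' hp2) hα h
      rwa [mul_comm (tq f T₂ ρ)] at this
  · have hpt : ¬ (p : ℤ) ∣ t := fun h => hpb ((mem_bigPrimes ht.ne_zero).2 ⟨hp.out, h, hpC⟩)
    obtain ⟨e, w, h⟩ := local_not_dvd hG.monic (hG.sep p hp.out hpC) hpt (hloc p)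
    have h1 : p ∉ T₁ := fun h => hpb (hun ▸ mem_union_left _ h)
    have h2 : p ∉ T₂ := fun h => hpb (hun ▸ mem_union_right _ h)
    refine ⟨e, w, ?_⟩
    have h3 := (h.mul (UU_tq hG hV₁ hpC h1)).mul (UU_tq hG hV₂ hpC h2)
    have h4 : dq (δ * (tq f T₁ ρ * tq f T₂ ρ)) p =
        dq δ p * (dq (tq f T₁ ρ) p * dq (tq f T₂ ρ) p) := by
      unfold dq
      rw [Polynomial.map_mul, Polynomial.map_mul]
    rw [h4, map_mul, map_mul]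
    convert! h3 using 1
    ring

end sel

section evalHom

variable {f : ℤ[X]} {p : ℕ} [hp : Fact p.Prime]

/-- Evaluation at a root in `ℤ_p`. -/
noncomputable def evHom {α : ℤ_[p]} (hα : (fz f p).eval α = 0) : AdjoinRoot (fr f) →+* ℚ_[p] :=
  AdjoinRoot.lift (algebraMap ℚ ℚ_[p]) (α : ℚ_[p]) (by
    rw [eval₂_eq_eval_map, fr_map, fq_eval_coe, hα]
    rfl)

lemma evHom_mk {α : ℤ_[p]} (hα : (fz f p).eval α = 0) (q : ℚ[X]) :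
    evHom hα (AdjoinRoot.mk (fr f) q) = (dq q p).eval (α : ℚ_[p]) := by
  unfold evHom
  rw [AdjoinRoot.lift_mk, eval₂_eq_eval_map]

lemma dq_tq_eval {T : Finset ℕ} {ρ : ℕ → ℕ} (α : ℤ_[p]) :
    (dq (tq f T ρ) p).eval (α : ℚ_[p]) =
      (((poly (fun i => (thue f T ρ i : ℤ_[p]))).eval α : ℤ_[p]) : ℚ_[p]) := by
  rw [dq_tq]
  exact eval_map_apply (algebraMap ℤ_[p] ℚ_[p]) α

end evalHom

end Stoll308.Gen
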