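import Pool.Agent.Work.MP_308fa9_nt.Gen.Defs

set_option autoImplicit false

/-!
Resultants with a monic polynomial: the norm form `Nm`, its base change, and its prime factors.
-/

namespace Stoll308.Gen

open Polynomial Finset NumberTheorySymbols

section poly

variable {n : ℕ} {A B : Type*} [CommRing A] [CommRing B]

lemma poly_map (φ : A →+* B) (g : Fin n → A) : (poly g).map φ = poly (fun i => φ (g i)) := by
  simp [poly, Polynomial.map_sum]

lemma poly_natDegree_le (g : Fin n → A) : (poly g).natDegree ≤ n := by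
  unfold poly
  refine natDegree_sum_le_of_forall_le _ _ (fun i _ => ?_)
  exact (natDegree_C_mul_X_pow_le _ _).trans i.2.le

lemma poly_degree_lt (g : Fin n → A) : (poly g).degree < n := by
  unfold poly
  refine (Polynomial.degree_sum_le _ _).trans_lt ?_
  rw [Finset.sup_lt_iff (WithBot.bot_lt_coe _)]
  intro i _
  refine (degree_C_mul_X_pow_le _ _).trans_lt ?_
  exact_mod_cast i.2

lemma poly_coeff (g : Fin n → A) (i : Fin n) : (poly g).coeff (i : ℕ) = g i := by
  unfold poly
  rw [finsetSum_coeff, Finset.sum_eq_single i]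
  · simp
  · intro j _ hj
    rw [coeff_C_mul_X_pow, if_neg (fun h => hj (Fin.ext h.symm))]
  · simp

lemma poly_coeff' (g : Fin n → A) (k : ℕ) (hk : n ≤ k) : (poly g).coeff k = 0 := by
  apply coeff_eq_zero_of_degree_lt
  exact (poly_degree_lt g).trans_le (by exact_mod_cast hk)

lemma poly_of_degree_lt (q : A[X]) (hq : q.degree < n) : poly (fun i : Fin n => q.coeff i) = q := by
  ext k
  by_cases hk : k < n
  · exact poly_coeff (fun i : Fin n => q.coeff i) ⟨k, hk⟩
  · rw [poly_coeff' _ _ (not_lt.1 hk)]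
    symm
    apply coeff_eq_zero_of_degree_lt
    exact hq.trans_le (by exact_mod_cast (not_lt.1 hk))

lemma poly_eval (g : Fin n → A) (a : A) : (poly g).eval a = ev g a := by
  simp [poly, ev, eval_finsetSum]

lemma ev_map (φ : A →+* B) (g : Fin n → A) (a : A) : φ (ev g a) = ev (fun i => φ (g i)) (φ a) := by
  simp [ev]

lemma map_cast_map (f : ℤ[X]) (φ : A →+* B) :
    (f.map (Int.castRingHom A)).map φ = f.map (Int.castRingHom B) := by
  rw [Polynomial.map_map]
  congr 1
  exact RingHom.ext_int _ _

lemma Nm_map (f : ℤ[X]) (φ : A →+* B) (g : Fin n → A) :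
    φ (Nm f g) = Nm f (fun i => φ (g i)) := by
  unfold Nm
  rw [← resultant_map_map, poly_map, map_cast_map]

lemma Nm_cast (f : ℤ[X]) (g : Fin n → ℤ) : ((Nm f g : ℤ) : A) = Nm f (fun i => (g i : A)) := by
  have h := Nm_map f (Int.castRingHom A) g
  simpa using h

lemma ev_cast (g : Fin n → ℤ) (a : ℤ) : ((ev g a : ℤ) : A) = ev (fun i => (g i : A)) (a : A) := by
  have h := ev_map (Int.castRingHom A) g a
  simpa using h

end poly

/-- `W` only depends on `g` modulo `p`. -/
lemma W_congr (f : ℤ[X]) (p ρ a : ℕ) {n : ℕ} (g g' : Fin n → ℤ)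
    (h : ∀ i, (p : ℤ) ∣ g i - g' i) : W f p ρ a g = W f p ρ a g' := by
  unfold W
  have hc : ∀ i, ((g i : ℤ) : ZMod p) = ((g' i : ℤ) : ZMod p) := by
    intro i
    have := (ZMod.intCast_zmod_eq_zero_iff_dvd (g i - g' i) p).2 (h i)
    rw [Int.cast_sub, sub_eq_zero] at this
    exact this
  have hg : (fun i => ((g i : ℤ) : ZMod p)) = fun i => ((g' i : ℤ) : ZMod p) := funext hc
  have key : ((ev g (a : ℤ) * ev g (ρ : ℤ) * Nm f g : ℤ) : ZMod p) =
      ((ev g' (a : ℤ) * ev g' (ρ : ℤ) * Nm f g' : ℤ) : ZMod p) := by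
    push_cast
    rw [ev_cast, ev_cast, ev_cast, ev_cast, Nm_cast, Nm_cast, hg]
  rw [ZMod.intCast_eq_intCast_iff] at key
  rw [jacobiSym.mod_left, key, ← jacobiSym.mod_left]

section res

variable {A : Type*} [CommRing A]

/-- For monic `f` the padding of `g` does not matter. -/
lemma res_pad (f g : A[X]) (hf : f.Monic) (n : ℕ) (hn : g.natDegree ≤ n) :
    resultant f g f.natDegree n = resultant f g := by
  obtain ⟨k, rfl⟩ := Nat.exists_eq_add_of_le hn
  rw [resultant_add_right_deg _ _ _ _ _ le_rfl]
  simp [hf]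

lemma res_mul_right (f g h : A[X]) (hf : f.Monic) :
    resultant f (g * h) = resultant f g * resultant f h := by
  rw [← resultant_mul_right f g h _ le_rfl, res_pad f (g * h) hf _ natDegree_mul_le]

lemma res_add_mul (f g h : A[X]) (hf : f.Monic) :
    resultant f (g + f * h) = resultant f g := by
  set n := max (max g.natDegree (g + f * h).natDegree) (h.natDegree + f.natDegree) with hn
  rw [← res_pad f (g + f * h) hf n (by omega), ← res_pad f g hf n (by omega)]
  exact resultant_add_mul_right f g h _ n (by omega) le_rfl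

lemma res_mul_left (f₁ f₂ g : A[X]) (h₁ : f₁.Monic) (h₂ : f₂.Monic) :
    resultant (f₁ * f₂) g = resultant f₁ g * resultant f₂ g := by
  have h := resultant_mul_left f₁ f₂ g g.natDegree le_rfl
  rwa [← h₁.natDegree_mul h₂] at h

lemma res_X_sub_C (a : A) (g : A[X]) [Nontrivial A] : resultant (X - C a) g = g.eval a := by
  have h := resultant_X_sub_C_left g g.natDegree a le_rfl
  rwa [← natDegree_X_sub_C a] at h

lemma res_congr (f g h : A[X]) (hf : f.Monic) (hd : f ∣ g - h) :
    resultant f g = resultant f h := by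
  obtain ⟨q, hq⟩ := hd
  have : g = h + f * q := by rw [← hq]; ring
  rw [this, res_add_mul f h q hf]

end res

end Stoll308.Gen
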