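import Mathlib

set_option autoImplicit false

/-!
Sums over boxes of products of periodic functions.
-/

namespace Stoll308.Gen

open Finset

variable {n : ℕ}

/-- The box `|g_i| ≤ B`. -/
noncomputable def bx (n B : ℕ) : Finset (Fin n → ℤ) :=
  Fintype.piFinset fun _ => Icc (-(B : ℤ)) B

lemma mem_bx {B : ℕ} {g : Fin n → ℤ} : g ∈ bx n B ↔ ∀ i, |g i| ≤ B := by
  unfold bx
  rw [Fintype.mem_piFinset]
  refine forall_congr' fun i => ?_
  rw [mem_Icc, abs_le]

lemma card_bx (n B : ℕ) : (bx n B).card = (2 * B + 1) ^ n := by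
  unfold bx
  rw [Fintype.card_piFinset, prod_const, card_univ, Fintype.card_fin, Int.card_Icc]
  congr 1
  omega

/-- `F` depends only on the residues modulo `q`. -/
def Per (q : ℕ) (F : (Fin n → ℤ) → ℝ) : Prop :=
  ∀ g h : Fin n → ℤ, (∀ i, (q : ℤ) ∣ g i - h i) → F g = F h

lemma card_face (B w : ℕ) (lo hi : ℤ) (hw : hi - lo + 1 ≤ w) (i : Fin n) :
    ((bx n B).filter fun g => lo ≤ g i ∧ g i ≤ hi).card ≤ w * (2 * B + 1) ^ (n - 1) := by
  classical
  have hsub : ((bx n B).filter fun g => lo ≤ g i ∧ g i ≤ hi) ⊆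
      Fintype.piFinset (fun j : Fin n => if j = i then Icc lo hi else Icc (-(B : ℤ)) B) := by
    intro g hg
    rw [mem_filter, mem_bx] at hg
    rw [Fintype.mem_piFinset]
    intro j
    by_cases hj : j = i
    · rw [if_pos hj, hj, mem_Icc]
      exact hg.2
    · rw [if_neg hj, mem_Icc, ← abs_le]
      exact hg.1 j
  refine (card_le_card hsub).trans ?_
  rw [Fintype.card_piFinset]
  have h1 : ∀ j : Fin n, (if j = i then Icc lo hi else Icc (-(B : ℤ)) B).card ≤
      if j = i then w else 2 * B + 1 := by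
    intro j
    by_cases hj : j = i
    · rw [if_pos hj, if_pos hj, Int.card_Icc]
      omega
    · rw [if_neg hj, if_neg hj, Int.card_Icc]
      omega
  refine (prod_le_prod' fun j _ => h1 j).trans ?_
  rw [prod_ite, prod_const, prod_const]
  have e1 : (univ.filter fun j : Fin n => j = i).card = 1 := by
    rw [filter_eq' univ i, if_pos (mem_univ i), card_singleton]
  have e2 : (univ.filter fun j : Fin n => ¬ j = i).card = n - 1 := by
    rw [filter_not, card_sdiff_of_subset (filter_subset _ _), e1, card_univ, Fintype.card_fin]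
  rw [e1, e2, pow_one]

/-- The sum over a shifted box differs little from the sum over the box. -/
lemma shift_bx (B q : ℕ) (G : (Fin n → ℤ) → ℝ) (hG : ∀ g, |G g| ≤ 1) (w : Fin n → ℤ)
    (hw0 : ∀ i, 0 ≤ w i) (hw : ∀ i, w i ≤ q) :
    |∑ g ∈ bx n B, G (g + w) - ∑ g ∈ bx n B, G g| ≤ 2 * (n * q * (2 * B + 1) ^ (n - 1)) := by
  classical
  have e1 : ∑ g ∈ bx n B, G (g + w) =
      ∑ g ∈ (bx n B).filter (fun g => g + w ∈ bx n B), G (g + w) +
      ∑ g ∈ (bx n B).filter (fun g => ¬ g + w ∈ bx n B), G (g + w) :=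
    (sum_filter_add_sum_filter_not _ _ _).symm
  have e2 : ∑ g ∈ bx n B, G g =
      ∑ g ∈ (bx n B).filter (fun g => g - w ∈ bx n B), G g +
      ∑ g ∈ (bx n B).filter (fun g => ¬ g - w ∈ bx n B), G g :=
    (sum_filter_add_sum_filter_not _ _ _).symm
  have e3 : ∑ g ∈ (bx n B).filter (fun g => g + w ∈ bx n B), G (g + w) =
      ∑ g ∈ (bx n B).filter (fun g => g - w ∈ bx n B), G g := by
    refine sum_bij (fun g _ => g + w) ?_ ?_ ?_ ?_
    · intro g hg
      rw [mem_filter] at hg ⊢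
      refine ⟨hg.2, ?_⟩
      rw [add_sub_cancel_right]
      exact hg.1
    · intro g _ g' _ h
      exact add_right_cancel h
    · intro g hg
      rw [mem_filter] at hg
      refine ⟨g - w, ?_, sub_add_cancel g w⟩
      rw [mem_filter, sub_add_cancel]
      exact ⟨hg.2, hg.1⟩
    · intro g _
      rfl
  have hb : ∀ (s : Finset (Fin n → ℤ)) (G' : (Fin n → ℤ) → ℝ) (hG' : ∀ g, |G' g| ≤ 1)
      (hs : s.card ≤ n * (q * (2 * B + 1) ^ (n - 1))),
      |∑ g ∈ s, G' g| ≤ n * q * (2 * B + 1) ^ (n - 1) := by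
    intro s G' hG' hs
    refine (abs_sum_le_sum_abs _ _).trans ((sum_le_sum fun g _ => hG' g).trans ?_)
    rw [sum_const, nsmul_eq_mul, mul_one]
    have : (s.card : ℝ) ≤ ((n * (q * (2 * B + 1) ^ (n - 1)) : ℕ) : ℝ) := by exact_mod_cast hs
    refine this.trans (le_of_eq ?_)
    push_cast
    ring
  have c1 : ((bx n B).filter fun g => ¬ g + w ∈ bx n B).card ≤
      n * (q * (2 * B + 1) ^ (n - 1)) := by
    have hsub : ((bx n B).filter fun g => ¬ g + w ∈ bx n B) ⊆
        univ.biUnion fun i : Fin n =>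
          (bx n B).filter fun g => (B : ℤ) - w i + 1 ≤ g i ∧ g i ≤ B := by
      intro g hg
      rw [mem_filter] at hg
      have h2 := hg.2
      rw [mem_bx] at h2
      push Not at h2
      obtain ⟨i, hi⟩ := h2
      rw [mem_biUnion]
      refine ⟨i, mem_univ i, ?_⟩
      rw [mem_filter]
      refine ⟨hg.1, ?_⟩
      have h3 := abs_le.1 (mem_bx.1 hg.1 i)
      rw [Pi.add_apply] at hi
      have h4 := hw0 i
      rcases lt_abs.1 hi with h | h
      · constructor <;> omega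
      · omega
    refine (card_le_card hsub).trans (card_biUnion_le.trans ?_)
    refine (sum_le_sum fun i _ => card_face B q _ _ ?_ i).trans ?_
    · have := hw i
      omega
    · rw [sum_const, card_univ, Fintype.card_fin, smul_eq_mul]
  have c2 : ((bx n B).filter fun g => ¬ g - w ∈ bx n B).card ≤
      n * (q * (2 * B + 1) ^ (n - 1)) := by
    have hsub : ((bx n B).filter fun g => ¬ g - w ∈ bx n B) ⊆
        univ.biUnion fun i : Fin n =>
          (bx n B).filter fun g => -(B : ℤ) ≤ g i ∧ g i ≤ -(B : ℤ) + w i - 1 := by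
      intro g hg
      rw [mem_filter] at hg
      have h2 := hg.2
      rw [mem_bx] at h2
      push Not at h2
      obtain ⟨i, hi⟩ := h2
      rw [mem_biUnion]
      refine ⟨i, mem_univ i, ?_⟩
      rw [mem_filter]
      refine ⟨hg.1, ?_⟩
      have h3 := abs_le.1 (mem_bx.1 hg.1 i)
      rw [Pi.sub_apply] at hi
      have h4 := hw0 i
      rcases lt_abs.1 hi with h | h
      · omega
      · constructor <;> omega
    refine (card_le_card hsub).trans (card_biUnion_le.trans ?_)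
    refine (sum_le_sum fun i _ => card_face B q _ _ ?_ i).trans ?_
    · have := hw i
      omega
    · rw [sum_const, card_univ, Fintype.card_fin, smul_eq_mul]
  rw [e1, e2, e3, add_sub_add_left_eq_sub]
  have h1 := hb _ (fun g => G (g + w)) (fun g => hG _) c1
  have h2 := hb _ G hG c2
  refine (abs_sub _ _).trans ?_
  linarith

/-- The sum of a function with mean value `0` over a shifted and dilated system of residues. -/
lemma sum_shift_eq_zero {p q : ℕ} (hp : p.Prime) (hpq : Nat.Coprime p q)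
    (F : (Fin n → ℤ) → ℝ) (hF : Per p F)
    (h0 : ∑ v : Fin n → Fin p, F (fun i => ((v i : ℕ) : ℤ)) = 0) (g : Fin n → ℤ) :
    ∑ v : Fin n → Fin p, F (g + fun i => (q : ℤ) * ((v i : ℕ) : ℤ)) = 0 := by
  classical
  have : Fact p.Prime := ⟨hp⟩
  have : NeZero p := ⟨hp.ne_zero⟩
  -- transport to `ZMod p`
  let Fb : (Fin n → ZMod p) → ℝ := fun v => F (fun i => ((v i).val : ℤ))
  have hFb : ∀ g : Fin n → ℤ, F g = Fb (fun i => ((g i : ℤ) : ZMod p)) := by
    intro g
    refine hF _ _ fun i => ?_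
    rw [← ZMod.intCast_eq_intCast_iff_dvd_sub]
    rw [Int.cast_natCast, ZMod.natCast_zmod_val]
  let e : (Fin n → Fin p) ≃ (Fin n → ZMod p) :=
    Equiv.arrowCongr (Equiv.refl _) (ZMod.finEquiv p).toEquiv
  have he : ∀ (v : Fin n → Fin p) (i : Fin n), e v i = (((v i : ℕ) : ℤ) : ZMod p) := by
    intro v i
    have h : e v i = (ZMod.finEquiv p) (v i) := rfl
    have hval : ((ZMod.finEquiv p) (v i)).val = (v i : ℕ) := by
      revert v i
      cases p with
      | zero => exact absurd rfl hp.ne_zero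
      | succ k => intros; rfl
    rw [h, Int.cast_natCast, ← hval, ZMod.natCast_zmod_val]
  have hq : (q : ZMod p) ≠ 0 := by
    intro h
    rw [ZMod.natCast_eq_zero_iff] at h
    have := Nat.dvd_gcd (dvd_refl p) h
    rw [hpq] at this
    exact hp.one_lt.ne' (Nat.dvd_one.1 this)
  have h1 : ∑ v : Fin n → ZMod p, Fb v = 0 := by
    rw [← h0, ← Equiv.sum_comp e]
    refine sum_congr rfl fun v _ => ?_
    rw [hFb]
    congr 1
    funext i
    exact he v i
  let e2 : (Fin n → ZMod p) ≃ (Fin n → ZMod p) :=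
    Equiv.arrowCongr (Equiv.refl _) (Equiv.mulLeft₀ (q : ZMod p) hq)
  have he2 : ∀ (v : Fin n → ZMod p) (i : Fin n), e2 v i = q * v i := fun v i => rfl
  have h2 : ∑ v : Fin n → ZMod p, Fb ((fun i => ((g i : ℤ) : ZMod p)) + e2 v) = 0 := by
    rw [Equiv.sum_comp e2 (fun v => Fb ((fun i => ((g i : ℤ) : ZMod p)) + v))]
    rw [← h1]
    exact Equiv.sum_comp (Equiv.addLeft (fun i => ((g i : ℤ) : ZMod p))) Fb
  rw [← h2, ← Equiv.sum_comp e]
  refine sum_congr rfl fun v _ => ?_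
  rw [hFb]
  congr 1
  funext i
  rw [Pi.add_apply, Pi.add_apply, he2, he]
  push_cast
  ring

/-- X1: the sum over a box of the product of a function with mean value `0` modulo `p` and a
function modulo `q`, `p ∤ q`. -/
theorem bx_sum {p q : ℕ} (hp : p.Prime) (hq : q ≠ 0) (hpq : Nat.Coprime p q)
    (F H : (Fin n → ℤ) → ℝ) (hF : Per p F) (hH : Per q H) (hF1 : ∀ g, |F g| ≤ 1)
    (hH1 : ∀ g, |H g| ≤ 1)
    (h0 : ∑ v : Fin n → Fin p, F (fun i => ((v i : ℕ) : ℤ)) = 0) (B : ℕ) :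
    |∑ g ∈ bx n B, F g * H g| ≤ 2 * (n * (p * q) * (2 * B + 1) ^ (n - 1)) := by
  classical
  have : NeZero p := ⟨hp.ne_zero⟩
  set E : ℝ := 2 * (n * (p * q) * (2 * B + 1) ^ (n - 1)) with hE
  set S := ∑ g ∈ bx n B, F g * H g with hS
  -- the shifted sums
  have h1 : ∀ v : Fin n → Fin p,
      |∑ g ∈ bx n B, F (g + fun i => (q : ℤ) * ((v i : ℕ) : ℤ)) * H g - S| ≤ E := by
    intro v
    have h := shift_bx B (p * q) (fun g => F g * H g) (fun g => by
      rw [abs_mul]
      exact mul_le_one₀ (hF1 g) (abs_nonneg _) (hH1 g)) (fun i => (q : ℤ) * ((v i : ℕ) : ℤ))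
      (fun i => by positivity) (fun i => by
        have : (v i : ℕ) ≤ p := (v i).2.le
        push_cast
        rw [mul_comm (p : ℤ)]
        exact mul_le_mul_of_nonneg_left (by exact_mod_cast this) (by positivity))
    rw [hE]
    refine le_trans (le_of_eq ?_) (h.trans (le_of_eq ?_))
    · congr 2
      refine sum_congr rfl fun g _ => ?_
      congr 1
      refine hH _ _ fun i => ?_
      rw [Pi.add_apply, sub_add_cancel_left]
      exact (dvd_neg).2 (dvd_mul_right _ _)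
    · push_cast
      ring
  have h2 : ∑ v : Fin n → Fin p, ∑ g ∈ bx n B, F (g + fun i => (q : ℤ) * ((v i : ℕ) : ℤ)) * H g
      = 0 := by
    rw [sum_comm]
    refine sum_eq_zero fun g _ => ?_
    rw [← sum_mul, sum_shift_eq_zero hp hpq F hF h0 g, zero_mul]
  have h3 : |∑ v : Fin n → Fin p, (∑ g ∈ bx n B,
      F (g + fun i => (q : ℤ) * ((v i : ℕ) : ℤ)) * H g - S)| ≤ ∑ _v : Fin n → Fin p, E :=
    (abs_sum_le_sum_abs _ _).trans (sum_le_sum fun v _ => h1 v)
  rw [sum_sub_distrib, h2, zero_sub, abs_neg, sum_const, sum_const, nsmul_eq_mul, nsmul_eq_mul,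
    abs_mul, Nat.abs_cast] at h3
  have hc : (0 : ℝ) < ((univ : Finset (Fin n → Fin p)).card : ℝ) := by
    have : 0 < (univ : Finset (Fin n → Fin p)).card := by
      rw [card_univ]
      exact Fintype.card_pos
    exact_mod_cast this
  exact le_of_mul_le_mul_left h3 hc

lemma Per.prod {D : Finset ℕ} {F : ℕ → (Fin n → ℤ) → ℝ} (hF : ∀ p ∈ D, Per p (F p)) :
    Per (∏ p ∈ D, p) (fun g => ∏ p ∈ D, F p g) := by
  intro g h hgh
  refine prod_congr rfl fun p hp => hF p hp g h fun i => ?_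
  exact dvd_trans (by exact_mod_cast dvd_prod_of_mem (fun p => p) hp) (hgh i)

lemma Per.mul {q q' : ℕ} {F G : (Fin n → ℤ) → ℝ} (hF : Per q F) (hG : Per q' G) :
    Per (q * q') (fun g => F g * G g) := by
  intro g h hgh
  have h1 : F g = F h := hF g h fun i => dvd_trans (by push_cast; exact dvd_mul_right _ _) (hgh i)
  have h2 : G g = G h := hG g h fun i => dvd_trans (by push_cast; exact dvd_mul_left _ _) (hgh i)
  simp only [h1, h2]

lemma abs_prod_le_one {D : Finset ℕ} {F : ℕ → (Fin n → ℤ) → ℝ} (hF : ∀ p ∈ D, ∀ g, |F p g| ≤ 1)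
    (g : Fin n → ℤ) : |∏ p ∈ D, F p g| ≤ 1 := by
  rw [abs_prod]
  exact prod_le_one (fun _ _ => abs_nonneg _) fun p hp => hF p hp g

/-- Two products of functions modulo the primes of two different sets. -/
lemma bx_pair {D D' : Finset ℕ} (hD : ∀ p ∈ D, p.Prime) (hD' : ∀ p ∈ D', p.Prime)
    (F F' : ℕ → (Fin n → ℤ) → ℝ) (hF : ∀ p ∈ D, Per p (F p)) (hF' : ∀ p ∈ D', Per p (F' p))
    (h1 : ∀ p ∈ D, ∀ g, |F p g| ≤ 1) (h1' : ∀ p ∈ D', ∀ g, |F' p g| ≤ 1)
    (h0 : ∀ p ∈ D, ∑ v : Fin n → Fin p, F p (fun i => ((v i : ℕ) : ℤ)) = 0) (B : ℕ)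
    {p : ℕ} (hp : p ∈ D) (hp' : p ∉ D') :
    |∑ g ∈ bx n B, (∏ p ∈ D, F p g) * ∏ p ∈ D', F' p g| ≤
      2 * (n * ((∏ p ∈ D, (p : ℝ)) * ∏ p ∈ D', (p : ℝ)) * (2 * B + 1) ^ (n - 1)) := by
  classical
  have hcop : Nat.Coprime p ((∏ p ∈ D.erase p, p) * ∏ p ∈ D', p) := by
    refine Nat.Coprime.mul_right ?_ ?_
    · refine Nat.Coprime.prod_right fun x hx => ?_
      rw [mem_erase] at hx
      exact (Nat.coprime_primes (hD p hp) (hD x hx.2)).2 (Ne.symm hx.1)
    · refine Nat.Coprime.prod_right fun x hx => ?_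
      refine (Nat.coprime_primes (hD p hp) (hD' x hx)).2 ?_
      rintro rfl
      exact hp' hx
  have hne : (∏ p ∈ D.erase p, p) * ∏ p ∈ D', p ≠ 0 := by
    refine mul_ne_zero ?_ ?_
    · exact prod_ne_zero_iff.2 fun x hx => (hD x (mem_erase.1 hx).2).ne_zero
    · exact prod_ne_zero_iff.2 fun x hx => (hD' x hx).ne_zero
  have h := bx_sum (hD p hp) hne hcop (F p)
    (fun g => (∏ p ∈ D.erase p, F p g) * ∏ p ∈ D', F' p g) (hF p hp)
    (Per.mul (Per.prod fun x hx => hF x (mem_erase.1 hx).2) (Per.prod hF')) (h1 p hp)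
    (fun g => by
      rw [abs_mul]
      exact mul_le_one₀ (abs_prod_le_one (fun x hx => h1 x (mem_erase.1 hx).2) g) (abs_nonneg _)
        (abs_prod_le_one h1' g)) (h0 p hp) B
  refine le_trans (le_of_eq ?_) (h.trans (le_of_eq ?_))
  · congr 1
    refine sum_congr rfl fun g _ => ?_
    rw [← mul_assoc, mul_prod_erase D (fun x => F x g) hp]
  · have e : (∏ p ∈ D, (p : ℝ)) = p * ∏ p ∈ D.erase p, (p : ℝ) :=
      (mul_prod_erase D (fun x => (x : ℝ)) hp).symm
    rw [e]
    push_cast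
    ring

/-- X2: mean square over a box of a linear combination of products of periodic functions. -/
theorem bx_sq {ι : Type*} (I : Finset ι) (γ : ι → ℝ) (D : ι → Finset ℕ)
    (F : ι → ℕ → (Fin n → ℤ) → ℝ) (hD : ∀ i ∈ I, ∀ p ∈ D i, p.Prime)
    (hF : ∀ i ∈ I, ∀ p ∈ D i, Per p (F i p)) (h1 : ∀ i ∈ I, ∀ p ∈ D i, ∀ g, |F i p g| ≤ 1)
    (h0 : ∀ i ∈ I, ∀ p ∈ D i, ∑ v : Fin n → Fin p, F i p (fun i => ((v i : ℕ) : ℤ)) = 0)
    (B : ℕ) :
    ∑ g ∈ bx n B, (∑ i ∈ I, γ i * ∏ p ∈ D i, F i p g) ^ 2 ≤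
      ∑ i ∈ I, ∑ j ∈ I, |γ i| * |γ j| * (if D i = D j then (2 * B + 1 : ℝ) ^ n else
        2 * (n * ((∏ p ∈ D i, (p : ℝ)) * ∏ p ∈ D j, (p : ℝ)) * (2 * B + 1) ^ (n - 1))) := by
  classical
  have e1 : ∑ g ∈ bx n B, (∑ i ∈ I, γ i * ∏ p ∈ D i, F i p g) ^ 2 =
      ∑ i ∈ I, ∑ j ∈ I, γ i * γ j *
        ∑ g ∈ bx n B, (∏ p ∈ D i, F i p g) * ∏ p ∈ D j, F j p g := by
    have e0 : ∀ g ∈ bx n B, (∑ i ∈ I, γ i * ∏ p ∈ D i, F i p g) ^ 2 =
        ∑ i ∈ I, ∑ j ∈ I, (γ i * ∏ p ∈ D i, F i p g) * (γ j * ∏ p ∈ D j, F j p g) := by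
      intro g _
      rw [pow_two, sum_mul_sum]
    rw [sum_congr rfl e0, sum_comm]
    refine sum_congr rfl fun i _ => ?_
    rw [sum_comm]
    refine sum_congr rfl fun j _ => ?_
    rw [mul_sum]
    refine sum_congr rfl fun g _ => ?_
    ring
  rw [e1]
  refine sum_le_sum fun i hi => sum_le_sum fun j hj => ?_
  refine (le_abs_self _).trans ?_
  rw [abs_mul, abs_mul]
  refine mul_le_mul_of_nonneg_left ?_ (mul_nonneg (abs_nonneg _) (abs_nonneg _))
  by_cases hij : D i = D j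
  · rw [if_pos hij]
    refine (abs_sum_le_sum_abs _ _).trans ((sum_le_sum (g := fun _ => (1 : ℝ))
      fun g _ => ?_).trans ?_)
    · rw [abs_mul]
      exact mul_le_one₀ (abs_prod_le_one (h1 i hi) g) (abs_nonneg _)
        (abs_prod_le_one (h1 j hj) g)
    · rw [sum_const, card_bx, nsmul_eq_mul, mul_one]
      push_cast
      exact le_rfl
  · rw [if_neg hij]
    by_cases hsub : D i ⊆ D j
    · obtain ⟨p, hp, hp'⟩ : ∃ p ∈ D j, p ∉ D i := by
        by_contra hcon
        push Not at hcon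
        exact hij (Subset.antisymm hsub hcon)
      have h := bx_pair (hD j hj) (hD i hi) (F j) (F i) (hF j hj) (hF i hi) (h1 j hj) (h1 i hi)
        (h0 j hj) B hp hp'
      refine le_trans (le_of_eq ?_) (h.trans (le_of_eq ?_))
      · congr 1
        exact sum_congr rfl fun g _ => mul_comm _ _
      · ring
    · obtain ⟨p, hp, hp'⟩ := not_subset.1 hsub
      exact bx_pair (hD i hi) (hD j hj) (F i) (F j) (hF i hi) (hF j hj) (h1 i hi) (h1 j hj)
        (h0 i hi) B hp hp'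

end Stoll308.Gen
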