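import Pool.Agent.Work.MP_308fa9_nt.Gen.SelBox

set_option autoImplicit false

/-!
Sums over lattice points ordered dyadically, by Cauchy's inequality over boxes.
-/

namespace Stoll308.Gen

open Finset

variable {n : ℕ}

/-- One dyadic piece. -/
lemma cauchy_piece {ι : Type*} (V : Finset ι) (γ : ι → Fin n → ℤ) (N : ι → ℕ) (hn : n ≠ 0)
    (hinj : Set.InjOn γ V) (hγ : ∀ v ∈ V, ∀ i, |γ v i| ^ n ≤ (N v : ℤ)) (j : ℕ)
    (hN1 : ∀ v ∈ V, 2 ^ j ≤ N v) (hN2 : ∀ v ∈ V, N v < 2 ^ (j + 1)) {z : ℝ} (hz : 0 < z)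
    (hNz : ∀ v ∈ V, z < N v) (h : (Fin n → ℤ) → ℝ) {α β : ℝ} (hα : 0 ≤ α) (hβ : 0 ≤ β)
    (hh : ∀ B : ℕ, ∑ g ∈ bx n B, h g ^ 2 ≤
      (2 * B + 1 : ℝ) ^ n * α + (2 * B + 1 : ℝ) ^ (n - 1) * β) :
    ∑ v ∈ V, |h (γ v)| / N v ≤ 2 * 3 ^ n * Real.sqrt (α + β * z ^ (-(n : ℝ)⁻¹)) := by
  classical
  rcases V.eq_empty_or_nonempty with hV | ⟨v₀, hv₀⟩
  · rw [hV, sum_empty]
    positivity
  set Y : ℝ := ((2 : ℝ) ^ (j + 1)) ^ ((n : ℝ)⁻¹) with hY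
  have hYn : Y ^ n = 2 ^ (j + 1) := Real.rpow_inv_natCast_pow (by positivity) hn
  have hY0 : 0 < Y := by positivity
  have hn0 : (0 : ℝ) < (n : ℝ)⁻¹ := by
    have : (0 : ℝ) < n := by exact_mod_cast Nat.pos_of_ne_zero hn
    positivity
  have hY1 : 1 ≤ Y := Real.one_le_rpow (one_le_pow₀ (by norm_num)) hn0.le
  have hYz : z ^ ((n : ℝ)⁻¹) ≤ Y := by
    refine Real.rpow_le_rpow hz.le ?_ hn0.le
    have h1 := hNz v₀ hv₀
    have h2 : (N v₀ : ℝ) < 2 ^ (j + 1) := by exact_mod_cast hN2 v₀ hv₀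
    linarith
  set B : ℕ := ⌊Y⌋₊ with hB
  have hBY : (B : ℝ) ≤ Y := Nat.floor_le hY0.le
  have hbox : ∀ v ∈ V, γ v ∈ bx n B := by
    intro v hv
    rw [mem_bx]
    intro i
    have h1 : ((|γ v i| : ℤ) : ℝ) ^ n ≤ Y ^ n := by
      rw [hYn]
      have h2 : ((|γ v i| ^ n : ℤ) : ℝ) ≤ ((N v : ℤ) : ℝ) := by exact_mod_cast hγ v hv i
      have h3 : (N v : ℝ) < 2 ^ (j + 1) := by exact_mod_cast hN2 v hv
      push_cast at h2 ⊢
      linarith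
    have h2 : ((|γ v i| : ℤ) : ℝ) ≤ Y :=
      le_of_pow_le_pow_left₀ hn hY0.le h1
    have h3 : ((γ v i).natAbs : ℝ) ≤ Y := by
      rw [Int.abs_eq_natAbs, Int.cast_natCast] at h2
      exact h2
    have h4 : (γ v i).natAbs ≤ B := Nat.le_floor h3
    rw [Int.abs_eq_natAbs]
    exact_mod_cast h4
  have h3Y : (2 * B + 1 : ℝ) ≤ 3 * Y := by linarith
  have hc1 : (2 * B + 1 : ℝ) ^ n ≤ 3 ^ n * 2 ^ (j + 1) := by
    rw [← hYn, ← mul_pow]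
    exact pow_le_pow_left₀ (by positivity) h3Y n
  have hc2 : (2 * B + 1 : ℝ) ^ (n - 1) ≤ 3 ^ n * 2 ^ (j + 1) * z ^ (-(n : ℝ)⁻¹) := by
    have h1 : (2 * B + 1 : ℝ) ^ (n - 1) ≤ (3 * Y) ^ (n - 1) :=
      pow_le_pow_left₀ (by positivity) h3Y _
    refine h1.trans ?_
    have h2 : (3 * Y) ^ n = 3 * Y * (3 * Y) ^ (n - 1) := by
      rw [← pow_succ']
      congr 1
      omega
    have h3 : z ^ (-(n : ℝ)⁻¹) * Y ≥ 1 := by
      rw [Real.rpow_neg hz.le]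
      have h4 : 0 < z ^ ((n : ℝ)⁻¹) := by positivity
      rw [ge_iff_le, inv_mul_eq_div, le_div_iff₀ h4, one_mul]
      exact hYz
    rw [← hYn, ← mul_pow, h2]
    have h5 : 0 ≤ (3 * Y) ^ (n - 1) := by positivity
    have h6 : (1 : ℝ) ≤ 3 * Y * z ^ (-(n : ℝ)⁻¹) := by nlinarith
    calc (3 * Y) ^ (n - 1) = (3 * Y) ^ (n - 1) * 1 := (mul_one _).symm
      _ ≤ (3 * Y) ^ (n - 1) * (3 * Y * z ^ (-(n : ℝ)⁻¹)) := mul_le_mul_of_nonneg_left h6 h5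
      _ = _ := by ring
  set Q : ℝ := α + β * z ^ (-(n : ℝ)⁻¹) with hQ
  have hQ0 : 0 ≤ Q := by positivity
  have hsq : ∑ g ∈ bx n B, h g ^ 2 ≤ 3 ^ n * 2 ^ (j + 1) * Q := by
    refine (hh B).trans ?_
    rw [hQ, mul_add]
    refine add_le_add (mul_le_mul_of_nonneg_right hc1 hα) ?_
    calc (2 * B + 1 : ℝ) ^ (n - 1) * β ≤ 3 ^ n * 2 ^ (j + 1) * z ^ (-(n : ℝ)⁻¹) * β :=
          mul_le_mul_of_nonneg_right hc2 hβ
      _ = _ := by ring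
  have hsum : ∑ g ∈ bx n B, |h g| ≤ 3 ^ n * 2 ^ (j + 1) * Real.sqrt Q := by
    have h1 : (∑ g ∈ bx n B, |h g|) ^ 2 ≤ (3 ^ n * 2 ^ (j + 1) * Real.sqrt Q) ^ 2 := by
      have h2 := sq_sum_le_card_mul_sum_sq (s := bx n B) (f := fun g => |h g|)
      simp only [sq_abs] at h2
      refine h2.trans ?_
      have h3 : ((bx n B).card : ℝ) ≤ 3 ^ n * 2 ^ (j + 1) := by
        rw [card_bx]
        push_cast
        exact hc1
      calc ((bx n B).card : ℝ) * ∑ g ∈ bx n B, h g ^ 2 ≤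
            3 ^ n * 2 ^ (j + 1) * (3 ^ n * 2 ^ (j + 1) * Q) :=
            mul_le_mul h3 hsq (sum_nonneg fun _ _ => sq_nonneg _) (by positivity)
        _ = (3 ^ n * 2 ^ (j + 1)) ^ 2 * Real.sqrt Q ^ 2 := by
            rw [Real.sq_sqrt hQ0]
            ring
        _ = _ := by ring
    exact le_of_sq_le_sq h1 (by positivity)
  have h1 : ∑ v ∈ V, |h (γ v)| / N v ≤ ∑ v ∈ V, |h (γ v)| / 2 ^ j := by
    refine sum_le_sum fun v hv => ?_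
    have h2 : (2 : ℝ) ^ j ≤ N v := by exact_mod_cast hN1 v hv
    exact div_le_div_of_nonneg_left (abs_nonneg _) (by positivity) h2
  refine h1.trans ?_
  rw [← sum_div]
  have h2 : ∑ v ∈ V, |h (γ v)| ≤ ∑ g ∈ bx n B, |h g| := by
    rw [← sum_image (f := fun g => |h g|) hinj]
    refine sum_le_sum_of_subset_of_nonneg ?_ fun _ _ _ => abs_nonneg _
    intro g hg
    obtain ⟨v, hv, rfl⟩ := mem_image.1 hg
    exact hbox v hv
  rw [div_le_iff₀ (by positivity)]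
  refine (h2.trans hsum).trans (le_of_eq ?_)
  rw [pow_succ]
  ring

/-- Sum over all the dyadic pieces. -/
theorem cauchy_sum {ι : Type*} (V : Finset ι) (γ : ι → Fin n → ℤ) (N : ι → ℕ) (hn : n ≠ 0)
    (hinj : Set.InjOn γ V) (hγ : ∀ v ∈ V, ∀ i, |γ v i| ^ n ≤ (N v : ℤ)) {X : ℕ}
    (hN0 : ∀ v ∈ V, N v ≠ 0) (hNX : ∀ v ∈ V, N v ≤ X) {z : ℝ} (hz : 0 < z)
    (hNz : ∀ v ∈ V, z < N v) (h : (Fin n → ℤ) → ℝ) {α β : ℝ} (hα : 0 ≤ α) (hβ : 0 ≤ β)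
    (hh : ∀ B : ℕ, ∑ g ∈ bx n B, h g ^ 2 ≤
      (2 * B + 1 : ℝ) ^ n * α + (2 * B + 1 : ℝ) ^ (n - 1) * β) :
    ∑ v ∈ V, |h (γ v)| / N v ≤
      (Nat.log 2 X + 1) * (2 * 3 ^ n * Real.sqrt (α + β * z ^ (-(n : ℝ)⁻¹))) := by
  classical
  rw [← sum_fiberwise_of_maps_to (s := V) (t := range (Nat.log 2 X + 1))
    (g := fun v => Nat.log 2 (N v))]
  · refine (sum_le_sum (g := fun _ => 2 * 3 ^ n * Real.sqrt (α + β * z ^ (-(n : ℝ)⁻¹)))
      fun j _ => ?_).trans ?_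
    · refine cauchy_piece _ γ N hn (hinj.mono ?_) ?_ j ?_ ?_ hz ?_ h hα hβ hh
      · intro v hv
        exact (mem_filter.1 hv).1
      · intro v hv
        exact hγ v (mem_filter.1 hv).1
      · intro v hv
        rw [mem_filter] at hv
        rw [← hv.2]
        exact Nat.pow_log_le_self 2 (hN0 v hv.1)
      · intro v hv
        rw [mem_filter] at hv
        rw [← hv.2]
        exact Nat.lt_pow_succ_log_self (by norm_num) _
      · intro v hv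
        exact hNz v (mem_filter.1 hv).1
    · rw [sum_const, card_range, nsmul_eq_mul]
      push_cast
      exact le_rfl
  · intro v hv
    rw [mem_range]
    exact Nat.lt_succ_of_le (Nat.log_mono_right (hNX v hv))

end Stoll308.Gen
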