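import Pool.Agent.Work.MP_308fa9_nt.Gen.SelExp
import Pool.Agent.Work.MP_308fa9_nt.Gen.SelCau

set_option autoImplicit false

/-!
The sum over the twists with nonempty fake `2`-Selmer set is bounded by Euler products and error
terms.
-/

namespace Stoll308.Gen

open Finset Polynomial NumberTheorySymbols

lemma sum_le_of_inj {α β : Type*} (A : Finset α) (Y : Finset β) (φ : α → β)
    (hφ : ∀ t ∈ A, φ t ∈ Y) (hinj : Set.InjOn φ A) (w : α → ℝ) (W : β → ℝ)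
    (h : ∀ t ∈ A, w t ≤ W (φ t)) (hW : ∀ y ∈ Y, 0 ≤ W y) : ∑ t ∈ A, w t ≤ ∑ y ∈ Y, W y := by
  classical
  refine (sum_le_sum h).trans ?_
  rw [← sum_image (f := W) hinj]
  refine sum_le_sum_of_subset_of_nonneg ?_ fun y hy _ => hW y hy
  intro y hy
  obtain ⟨t, ht, rfl⟩ := mem_image.1 hy
  exact hφ t ht

section dec

variable (C₀ : ℕ)

/-- The part of `t` composed of the primes `≤ C₀`. -/
def sp (t : ℤ) : ℤ := t / ((∏ p ∈ bigPrimes C₀ t, p : ℕ) : ℤ)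

lemma natAbs_eq {t : ℤ} (ht : Squarefree t) :
    t.natAbs = (∏ p ∈ bigPrimes C₀ t, p) *
      ∏ p ∈ t.natAbs.primeFactors.filter (fun p => ¬ C₀ < p), p := by
  unfold bigPrimes
  rw [prod_filter_mul_prod_filter_not]
  exact (Nat.prod_primeFactors_of_squarefree (Int.squarefree_natAbs.2 ht)).symm

lemma prod_big_pos (t : ℤ) : 0 < ∏ p ∈ bigPrimes C₀ t, p :=
  prod_pos fun _ hp => (Nat.prime_of_mem_primeFactors (mem_filter.1 hp).1).pos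

lemma sp_mul {t : ℤ} (ht : Squarefree t) :
    sp C₀ t * ((∏ p ∈ bigPrimes C₀ t, p : ℕ) : ℤ) = t := by
  unfold sp
  refine Int.ediv_mul_cancel ?_
  rw [← Int.dvd_natAbs]
  exact_mod_cast Dvd.intro _ (natAbs_eq C₀ ht).symm

/-- The product of the primes up to `C₀`. -/
def P0 : ℕ := ∏ p ∈ (range (C₀ + 1)).filter Nat.Prime, p

lemma sp_natAbs {t : ℤ} (ht : Squarefree t) :
    (sp C₀ t).natAbs = ∏ p ∈ t.natAbs.primeFactors.filter (fun p => ¬ C₀ < p), p := by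
  have h1 := congrArg Int.natAbs (sp_mul C₀ ht)
  rw [Int.natAbs_mul, Int.natAbs_natCast, natAbs_eq C₀ ht, mul_comm] at h1
  exact Nat.eq_of_mul_eq_mul_left (prod_big_pos C₀ t) h1

lemma sp_mem {t : ℤ} (ht : Squarefree t) : sp C₀ t ∈ Icc (-(P0 C₀ : ℤ)) (P0 C₀) := by
  have h1 : (sp C₀ t).natAbs ≤ P0 C₀ := by
    rw [sp_natAbs C₀ ht]
    unfold P0
    refine prod_le_prod_of_subset_of_one_le' ?_ fun p hp _ => (mem_filter.1 hp).2.one_lt.le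
    intro p hp
    rw [mem_filter] at hp ⊢
    refine ⟨?_, Nat.prime_of_mem_primeFactors hp.1⟩
    rw [mem_range]
    omega
  rw [mem_Icc]
  omega

lemma card_sp : ((Icc (-(P0 C₀ : ℤ)) (P0 C₀)).card : ℝ) = 2 * P0 C₀ + 1 := by
  rw [Int.card_Icc]
  have : ((P0 C₀ : ℤ) + 1 - -(P0 C₀ : ℤ)).toNat = 2 * P0 C₀ + 1 := by omega
  rw [this]
  push_cast
  ring

lemma inv_abs_le {t : ℤ} (ht : Squarefree t) :
    1 / |(t : ℝ)| ≤ ∏ p ∈ bigPrimes C₀ t, 1 / (p : ℝ) := by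
  have h1 : ∏ p ∈ bigPrimes C₀ t, 1 / (p : ℝ) = 1 / ((∏ p ∈ bigPrimes C₀ t, p : ℕ) : ℝ) := by
    push_cast
    rw [prod_div_distrib, prod_const_one]
  rw [h1]
  have h0 : (0 : ℝ) < ((∏ p ∈ bigPrimes C₀ t, p : ℕ) : ℝ) := by exact_mod_cast prod_big_pos C₀ t
  refine one_div_le_one_div_of_le h0 ?_
  have h2 : (∏ p ∈ bigPrimes C₀ t, p) ≤ t.natAbs := by
    rw [natAbs_eq C₀ ht]
    refine Nat.le_mul_of_pos_right _ ?_
    exact prod_pos fun _ hp => (Nat.prime_of_mem_primeFactors (mem_filter.1 hp).1).pos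
  have h3 : |(t : ℝ)| = (t.natAbs : ℝ) := by
    rw [← Int.cast_abs, Int.abs_eq_natAbs, Int.cast_natCast]
  rw [h3]
  exact_mod_cast h2

/-- The primes `> C₀` up to `X`. -/
def PX (X : ℕ) : Finset ℕ := (Icc 1 X).filter fun p => p.Prime ∧ C₀ < p

lemma big_subset {X : ℕ} {t : ℤ} (ht : t ∈ Icc (-(X : ℤ)) X) (ht0 : t ≠ 0) :
    bigPrimes C₀ t ⊆ PX C₀ X := by
  intro p hp
  unfold bigPrimes at hp
  rw [mem_filter] at hp
  have hpp := Nat.prime_of_mem_primeFactors hp.1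
  unfold PX
  rw [mem_filter, mem_Icc]
  refine ⟨⟨hpp.one_lt.le, ?_⟩, hpp, hp.2⟩
  have h1 := Nat.le_of_dvd (Int.natAbs_pos.2 ht0) (Nat.dvd_of_mem_primeFactors hp.1)
  rw [mem_Icc] at ht
  omega

/-- The pair `(s, T)` determines `t`. -/
lemma sp_inj {t t' : ℤ} (ht : Squarefree t) (ht' : Squarefree t') (h1 : sp C₀ t = sp C₀ t')
    (h2 : bigPrimes C₀ t = bigPrimes C₀ t') : t = t' := by
  rw [← sp_mul C₀ ht, ← sp_mul C₀ ht', h1, h2]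

end dec

/-- The squarefree `t`, `|t| ≤ X`, with nonempty fake Selmer set. -/
noncomputable def Tset (f : ℤ[X]) (N : ℕ) : Finset ℤ :=
  open Classical in
  (Icc (-(N : ℤ)) N).filter (fun t => Squarefree t ∧ Sel f t)

lemma mem_Tset {f : ℤ[X]} {N : ℕ} {t : ℤ} :
    t ∈ Tset f N ↔ t ∈ Icc (-(N : ℤ)) N ∧ Squarefree t ∧ Sel f t := by
  classical
  unfold Tset
  rw [mem_filter]

/-- Class (a): no prime `> z₃`. -/
theorem class_a (f : ℤ[X]) (D : RelData f) (N : ℕ) (z₃ : ℝ) (A : Finset ℤ)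
    (hA : A ⊆ Tset f N) (hA2 : ∀ t ∈ A, ∀ p ∈ bigPrimes D.C₀ t, (p : ℝ) ≤ z₃) :
    ∑ t ∈ A, 1 / |(t : ℝ)| ≤ (2 * P0 D.C₀ + 1) *
      ∏ p ∈ (rootPrimes f N).filter (fun p : ℕ => (p : ℝ) ≤ z₃), (1 + 1 / (p : ℝ)) := by
  classical
  have h := sum_le_of_inj A (Icc (-(P0 D.C₀ : ℤ)) (P0 D.C₀) ×ˢ
    ((rootPrimes f N).filter (fun p : ℕ => (p : ℝ) ≤ z₃)).powerset)
    (fun t => (sp D.C₀ t, bigPrimes D.C₀ t)) ?_ ?_ (fun t => 1 / |(t : ℝ)|)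
    (fun y => ∏ p ∈ y.2, 1 / (p : ℝ)) ?_ ?_
  · refine h.trans (le_of_eq ?_)
    rw [sum_product]
    simp only
    rw [sum_const, nsmul_eq_mul, card_sp, prod_one_add]
  · intro t ht
    obtain ⟨h1, h2, h3⟩ := mem_Tset.1 (hA ht)
    simp only [mem_product, mem_powerset]
    refine ⟨sp_mem D.C₀ h2, fun p hp => ?_⟩
    obtain ⟨ρ, hρ, _⟩ := D.rel t h2 h3
    have h4 := big_subset D.C₀ h1 h2.ne_zero hp
    unfold PX at h4
    rw [mem_filter] at h4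
    rw [mem_filter]
    unfold rootPrimes
    rw [mem_filter]
    exact ⟨⟨h4.1, h4.2.1, ⟨ρ p, (hρ p hp).2.2⟩⟩, hA2 t ht p hp⟩
  · intro t ht t' ht' htt
    simp only [Prod.mk.injEq] at htt
    exact sp_inj D.C₀ (mem_Tset.1 (hA ht)).2.1 (mem_Tset.1 (hA ht')).2.1 htt.1 htt.2
  · intro t ht
    exact inv_abs_le D.C₀ (mem_Tset.1 (hA ht)).2.1
  · intro y _
    exact prod_nonneg fun p _ => by positivity

/-- Class (b): the product of the primes in `U` is large. -/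
theorem class_b (f : ℤ[X]) (D : RelData f) (N : ℕ) (U : Finset ℕ) (Dm : ℝ) (A : Finset ℤ)
    (hA : A ⊆ Tset f N) (hA2 : ∀ t ∈ A, Dm < ∏ p ∈ bigPrimes D.C₀ t ∩ U, (p : ℝ)) :
    ∑ t ∈ A, 1 / |(t : ℝ)| ≤ (2 * P0 D.C₀ + 1) *
      ((∑ T ∈ U.powerset.filter (fun T : Finset ℕ => Dm < ∏ p ∈ T, (p : ℝ)),
        ∏ p ∈ T, 1 / (p : ℝ)) *
      ∏ p ∈ PX D.C₀ N, (1 + 1 / (p : ℝ))) := by
  classical
  have h := sum_le_of_inj A (Icc (-(P0 D.C₀ : ℤ)) (P0 D.C₀) ×ˢ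
    (U.powerset.filter (fun T : Finset ℕ => Dm < ∏ p ∈ T, (p : ℝ)) ×ˢ (PX D.C₀ N).powerset))
    (fun t => (sp D.C₀ t, bigPrimes D.C₀ t ∩ U, bigPrimes D.C₀ t \ U)) ?_ ?_
    (fun t => 1 / |(t : ℝ)|)
    (fun y : ℤ × Finset ℕ × Finset ℕ =>
      (∏ p ∈ y.2.1, 1 / (p : ℝ)) * ∏ p ∈ y.2.2, 1 / (p : ℝ)) ?_ ?_
  · refine h.trans (le_of_eq ?_)
    rw [sum_product]
    simp only
    rw [sum_const, nsmul_eq_mul, card_sp, prod_one_add, sum_product, sum_mul_sum]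
  · intro t ht
    obtain ⟨h1, h2, h3⟩ := mem_Tset.1 (hA ht)
    simp only [mem_product, mem_powerset, mem_filter]
    refine ⟨sp_mem D.C₀ h2, ⟨inter_subset_right, hA2 t ht⟩, ?_⟩
    exact sdiff_subset.trans (big_subset D.C₀ h1 h2.ne_zero)
  · intro t ht t' ht' htt
    simp only [Prod.mk.injEq] at htt
    refine sp_inj D.C₀ (mem_Tset.1 (hA ht)).2.1 (mem_Tset.1 (hA ht')).2.1 htt.1 ?_
    have e1 := sdiff_union_inter (bigPrimes D.C₀ t) U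
    have e2 := sdiff_union_inter (bigPrimes D.C₀ t') U
    rw [← e1, ← e2, htt.2.1, htt.2.2]
  · intro t ht
    refine (inv_abs_le D.C₀ (mem_Tset.1 (hA ht)).2.1).trans (le_of_eq ?_)
    rw [← prod_inter_mul_prod_sdiff (bigPrimes D.C₀ t) U]
  · intro y _
    exact mul_nonneg (prod_nonneg fun p _ => by positivity) (prod_nonneg fun p _ => by positivity)

/-- The datum of a set of primes and roots. -/
def mk (T : Finset ℕ) (ρ : ℕ → ℕ) : ℕ → ℕ := fun p => if p ∈ T then ρ p + 1 else 0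

lemma mk_mem {f : ℤ[X]} {S T : Finset ℕ} {ρ : ℕ → ℕ} (hT : T ⊆ S) (hρ : ∀ p ∈ T, ρ p ∈ R f p) :
    mk T ρ ∈ Dat f S := by
  unfold Dat
  rw [mem_piF]
  refine ⟨fun p _ => ?_, fun p hp => ?_⟩
  · unfold mk
    by_cases hpT : p ∈ T
    · rw [if_pos hpT]
      exact mem_insert_of_mem (mem_image.2 ⟨ρ p, hρ p hpT, rfl⟩)
    · rw [if_neg hpT]
      exact mem_insert_self _ _
  · unfold mk
    rw [if_neg fun h => hp (hT h)]

lemma supp_mk (S T : Finset ℕ) (ρ : ℕ → ℕ) : supp S (mk T ρ) = S ∩ T := by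
  ext p
  unfold supp mk
  rw [mem_filter, mem_inter]
  by_cases hp : p ∈ T
  · simp [hp]
  · simp [hp]

lemma rt_mk {T : Finset ℕ} {ρ : ℕ → ℕ} {p : ℕ} (hp : p ∈ T) : rt (mk T ρ) p = ρ p := by
  unfold rt mk
  rw [if_pos hp, Nat.add_sub_cancel]

section classC

variable (f : ℤ[X]) (D : RelData f)

/-- The coefficients of the relations. -/
noncomputable def cf (S : Finset ℕ) (s : ℤ) (e : Fin D.m) (k : ℤ) (r : ℕ → ℕ) (p a : ℕ) : ℝ :=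
  ((D.c e s (supp S r) (rt r) p a * J(k | p) : ℤ) : ℝ)

lemma abs_jacobi_le_one (k : ℤ) (p : ℕ) : |J(k | p)| ≤ 1 := by
  rcases jacobiSym.trichotomy k p with h | h | h <;> rw [h] <;> simp

lemma cf_le (S : Finset ℕ) (s : ℤ) (e : Fin D.m) (k : ℤ) (r : ℕ → ℕ) (p a : ℕ) :
    |cf f D S s e k r p a| ≤ 1 := by
  unfold cf
  rw [← Int.cast_abs]
  have : |D.c e s (supp S r) (rt r) p a * J(k | p)| ≤ 1 := by
    rw [abs_mul]
    exact mul_le_one₀ (D.c_le _ _ _ _ _ _) (abs_nonneg _) (abs_jacobi_le_one _ _)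
  exact_mod_cast this

lemma cond_nonneg (U : Finset ℕ) {c : (ℕ → ℕ) → ℕ → ℕ → ℝ} (hc : ∀ r p a, |c r p a| ≤ 1)
    (r : ℕ → ℕ) (g : Fin f.natDegree → ℤ) : 0 ≤ cond f U c r g := by
  unfold cond
  refine prod_nonneg fun p _ => prod_nonneg fun a _ => ?_
  have h1 : |c r p a * (W f p (rt r p) a g : ℝ)| ≤ 1 := by
    rw [abs_mul]
    refine mul_le_one₀ (hc r p a) (abs_nonneg _) ?_
    rw [← Int.cast_abs]
    have : |W f p (rt r p) a g| ≤ 1 := abs_jacobi_le_one _ _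
    exact_mod_cast this
  have := (abs_le.1 h1).1
  linarith

/-- The data over the large primes. -/
noncomputable def VV (S₂ : Finset ℕ) (N : ℕ) : Finset (ℕ → ℕ) :=
  (Dat f S₂).filter fun r => (supp S₂ r).Nonempty ∧ ∏ p ∈ supp S₂ r, p ≤ N

/-- Class (c): the main step. -/
theorem class_c (N : ℕ) (z₃ : ℝ) (U : Finset ℕ) (Dm : ℝ) (A : Finset ℤ)
    (hA : A ⊆ Tset f N)
    (S₁ S₂ : Finset ℕ) (hS₁ : S₁ = (PX D.C₀ N).filter (fun p : ℕ => (p : ℝ) ≤ z₃))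
    (hS₂ : S₂ = (PX D.C₀ N).filter (fun p : ℕ => ¬ (p : ℝ) ≤ z₃)) (hU : U ⊆ S₁)
    (hA2 : ∀ t ∈ A, ¬ Dm < ∏ p ∈ bigPrimes D.C₀ t ∩ U, (p : ℝ))
    (hA3 : ∀ t ∈ A, ∃ p ∈ bigPrimes D.C₀ t, ¬ (p : ℝ) ≤ z₃) :
    ∑ t ∈ A, 1 / |(t : ℝ)| ≤ ∑ s ∈ Icc (-(P0 D.C₀ : ℤ)) (P0 D.C₀), ∑ e : Fin D.m,
      ∑ r₂ ∈ VV f S₂ N, wS S₂ r₂ * ∑ r ∈ DatS f S₁ U Dm, wS S₁ r *
        cond f U (cf f D S₁ s e (D.κ (supp S₂ r₂) (rt r₂))) r (D.g (supp S₂ r₂) (rt r₂)) := by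
  classical
  -- choices
  have hch : ∀ t ∈ A, ∃ (ρ : ℕ → ℕ) (e : Fin D.m), Valid f D.C₀ (bigPrimes D.C₀ t) ρ ∧
      ∀ p ∈ (bigPrimes D.C₀ t).filter (fun p : ℕ => (p : ℝ) ≤ z₃), ∀ a ∈ R f p, a ≠ ρ p →
        D.c e (sp D.C₀ t) ((bigPrimes D.C₀ t).filter (fun p : ℕ => (p : ℝ) ≤ z₃)) ρ p a *
          (J(D.κ ((bigPrimes D.C₀ t).filter (fun p : ℕ => ¬ (p : ℝ) ≤ z₃)) ρ | p) *
            W f p (ρ p) a (D.g ((bigPrimes D.C₀ t).filter (fun p : ℕ => ¬ (p : ℝ) ≤ z₃)) ρ)) = 1 := by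
    intro t ht
    obtain ⟨h1, h2, h3⟩ := mem_Tset.1 (hA ht)
    obtain ⟨ρ, hρ, hrel⟩ := D.rel t h2 h3
    obtain ⟨e, he⟩ := hrel _ _ (disjoint_filter_filter_not (bigPrimes D.C₀ t) (bigPrimes D.C₀ t)
      (fun p : ℕ => (p : ℝ) ≤ z₃)) (filter_union_filter_not_eq _ _)
    exact ⟨ρ, e, hρ, he⟩
  rcases A.eq_empty_or_nonempty with hAe | ⟨t₀, ht₀⟩
  · rw [hAe, sum_empty]
    refine sum_nonneg fun s _ => sum_nonneg fun e _ => sum_nonneg fun r₂ _ =>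
      mul_nonneg (wS_nonneg _ _) (sum_nonneg fun r _ => mul_nonneg (wS_nonneg _ _)
        (cond_nonneg f U ?_ _ _))
    exact fun r p a => cf_le f D _ _ _ _ _ _ _
  have hne : Nonempty (Fin D.m) := by
    obtain ⟨_, e₀, _⟩ := hch t₀ ht₀
    exact ⟨e₀⟩
  choose! ρ e hval hrel using hch
  set T₁ : ℤ → Finset ℕ := fun t => (bigPrimes D.C₀ t).filter (fun p : ℕ => (p : ℝ) ≤ z₃) with hT₁
  set T₂ : ℤ → Finset ℕ := fun t => (bigPrimes D.C₀ t).filter (fun p : ℕ => ¬ (p : ℝ) ≤ z₃) with hT₂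
  have hsub1 : ∀ t ∈ A, T₁ t ⊆ S₁ := by
    intro t ht
    obtain ⟨h1, h2, h3⟩ := mem_Tset.1 (hA ht)
    rw [hS₁]
    exact filter_subset_filter _ (big_subset D.C₀ h1 h2.ne_zero)
  have hsub2 : ∀ t ∈ A, T₂ t ⊆ S₂ := by
    intro t ht
    obtain ⟨h1, h2, h3⟩ := mem_Tset.1 (hA ht)
    rw [hS₂]
    exact filter_subset_filter _ (big_subset D.C₀ h1 h2.ne_zero)
  have hs1 : ∀ t ∈ A, supp S₁ (mk (T₁ t) (ρ t)) = T₁ t := by
    intro t ht
    rw [supp_mk, inter_eq_right.2 (hsub1 t ht)]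
  have hs2 : ∀ t ∈ A, supp S₂ (mk (T₂ t) (ρ t)) = T₂ t := by
    intro t ht
    rw [supp_mk, inter_eq_right.2 (hsub2 t ht)]
  have hsU : ∀ t ∈ A, supp U (mk (T₁ t) (ρ t)) = bigPrimes D.C₀ t ∩ U := by
    intro t ht
    rw [supp_mk]
    ext p
    rw [mem_inter, mem_inter, hT₁]
    simp only [mem_filter]
    constructor
    · rintro ⟨h1, h2, _⟩
      exact ⟨h2, h1⟩
    · rintro ⟨h1, h2⟩
      refine ⟨h2, h1, ?_⟩
      have := hU h2
      rw [hS₁, mem_filter] at this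
      exact this.2
  have hprod : ∀ t ∈ A, ∏ p ∈ bigPrimes D.C₀ t, 1 / (p : ℝ) =
      wS S₁ (mk (T₁ t) (ρ t)) * wS S₂ (mk (T₂ t) (ρ t)) := by
    intro t ht
    unfold wS
    rw [hs1 t ht, hs2 t ht, hT₁, hT₂]
    simp only
    rw [prod_filter_mul_prod_filter_not]
  have h := sum_le_of_inj A (Icc (-(P0 D.C₀ : ℤ)) (P0 D.C₀) ×ˢ ((univ : Finset (Fin D.m)) ×ˢ
      (VV f S₂ N ×ˢ DatS f S₁ U Dm)))
    (fun t => (sp D.C₀ t, e t, mk (T₂ t) (ρ t), mk (T₁ t) (ρ t))) ?_ ?_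
    (fun t => 1 / |(t : ℝ)|)
    (fun y => wS S₂ y.2.2.1 * (wS S₁ y.2.2.2 *
      cond f U (cf f D S₁ y.1 y.2.1 (D.κ (supp S₂ y.2.2.1) (rt y.2.2.1))) y.2.2.2
        (D.g (supp S₂ y.2.2.1) (rt y.2.2.1)))) ?_ ?_
  · refine h.trans (le_of_eq ?_)
    rw [sum_product]
    refine sum_congr rfl fun s _ => ?_
    rw [sum_product]
    refine sum_congr rfl fun e' _ => ?_
    rw [sum_product]
    refine sum_congr rfl fun r₂ _ => ?_
    simp only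
    rw [mul_sum]
  · intro t ht
    obtain ⟨h1, h2, h3⟩ := mem_Tset.1 (hA ht)
    simp only [mem_product, mem_univ, true_and]
    refine ⟨sp_mem D.C₀ h2, ?_, ?_⟩
    · unfold VV
      rw [mem_filter, hs2 t ht]
      refine ⟨mk_mem (hsub2 t ht) fun p hp => (hval t ht p (mem_filter.1 hp).1).2.2, ?_, ?_⟩
      · obtain ⟨p, hp, hpz⟩ := hA3 t ht
        exact ⟨p, mem_filter.2 ⟨hp, hpz⟩⟩
      · have h5 : ∏ p ∈ T₂ t, p ≤ ∏ p ∈ bigPrimes D.C₀ t, p := by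
          refine prod_le_prod_of_subset_of_one_le' (filter_subset _ _) fun p hp _ => ?_
          exact (Nat.prime_of_mem_primeFactors (mem_filter.1 hp).1).one_lt.le
        have h6 : (∏ p ∈ bigPrimes D.C₀ t, p) ≤ t.natAbs := by
          rw [natAbs_eq D.C₀ h2]
          refine Nat.le_mul_of_pos_right _ ?_
          exact prod_pos fun _ hp => (Nat.prime_of_mem_primeFactors (mem_filter.1 hp).1).pos
        rw [mem_Icc] at h1
        omega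
    · unfold DatS
      rw [mem_filter, hsU t ht]
      refine ⟨mk_mem (hsub1 t ht) fun p hp => (hval t ht p (mem_filter.1 hp).1).2.2, ?_⟩
      exact not_lt.1 (hA2 t ht)
  · intro t ht t' ht' htt
    simp only [Prod.mk.injEq] at htt
    obtain ⟨e1, _, e2, e3⟩ := htt
    refine sp_inj D.C₀ (mem_Tset.1 (hA ht)).2.1 (mem_Tset.1 (hA ht')).2.1 e1 ?_
    have h1 : T₁ t = T₁ t' := by
      rw [← hs1 t ht, ← hs1 t' ht', e3]
    have h2 : T₂ t = T₂ t' := by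
      rw [← hs2 t ht, ← hs2 t' ht', e2]
    have h3 : ∀ t, T₁ t ∪ T₂ t = bigPrimes D.C₀ t := fun t => filter_union_filter_not_eq _ _
    rw [← h3 t, ← h3 t', h1, h2]
  · intro t ht
    obtain ⟨h1, h2, h3⟩ := mem_Tset.1 (hA ht)
    have hone : cond f U (cf f D S₁ (sp D.C₀ t) (e t)
        (D.κ (supp S₂ (mk (T₂ t) (ρ t))) (rt (mk (T₂ t) (ρ t))))) (mk (T₁ t) (ρ t))
        (D.g (supp S₂ (mk (T₂ t) (ρ t))) (rt (mk (T₂ t) (ρ t)))) = 1 := by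
      rw [hs2 t ht]
      have ek : D.κ (T₂ t) (rt (mk (T₂ t) (ρ t))) = D.κ (T₂ t) (ρ t) :=
        D.κ_congr _ _ _ fun p hp => rt_mk hp
      have eg : D.g (T₂ t) (rt (mk (T₂ t) (ρ t))) = D.g (T₂ t) (ρ t) :=
        D.g_congr _ _ _ fun p hp => rt_mk hp
      rw [ek, eg]
      unfold cond cf
      refine prod_eq_one fun p hp => prod_eq_one fun a ha => ?_
      have hpT : p ∈ T₁ t := by
        rw [hsU t ht, mem_inter] at hp
        have := hU hp.2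
        rw [hS₁, mem_filter] at this
        exact mem_filter.2 ⟨hp.1, this.2⟩
      rw [hs1 t ht]
      have ec : D.c (e t) (sp D.C₀ t) (T₁ t) (rt (mk (T₁ t) (ρ t))) p a =
          D.c (e t) (sp D.C₀ t) (T₁ t) (ρ t) p a :=
        D.c_congr _ _ _ _ _ _ _ fun p hp => rt_mk hp
      rw [rt_mk hpT] at ha ⊢
      rw [ec]
      have ha' := mem_erase.1 (J_subset ha)
      have hr := hrel t ht p hpT a ha'.2 ha'.1
      have hr2 : ((D.c (e t) (sp D.C₀ t) (T₁ t) (ρ t) p a * J(D.κ (T₂ t) (ρ t) | p) : ℤ) : ℝ) *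
          (W f p (ρ t p) a (D.g (T₂ t) (ρ t)) : ℝ) = 1 := by
        rw [← Int.cast_mul, mul_assoc]
        rw [hr]
        simp
      rw [hr2]
      norm_num
    simp only
    rw [hone, mul_one, mul_comm, ← hprod t ht]
    exact inv_abs_le D.C₀ h2
  · intro y _
    refine mul_nonneg (wS_nonneg _ _) (mul_nonneg (wS_nonneg _ _) (cond_nonneg f U ?_ _ _))
    exact fun r p a => cf_le f D _ _ _ _ _ _ _

end classC

end Stoll308.Gen
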