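import Pool.Agent.Work.MP_308fa9_nt.Gen.PiF
import Pool.Agent.Work.MP_308fa9_nt.Gen.SelBox
import Pool.Agent.Work.MP_308fa9_nt.Gen.NonTriv

set_option autoImplicit false

/-!
Expansion of the product of the conditions at the primes, and the mean square of the nontrivial
part over a box.
-/

namespace Stoll308.Gen

open Finset Polynomial

/-- The reciprocal of the product of the primes of the support of a datum. -/
noncomputable def wS (S : Finset ℕ) (r : ℕ → ℕ) : ℝ := ∏ p ∈ supp S r, 1 / (p : ℝ)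

lemma wS_nonneg (S : Finset ℕ) (r : ℕ → ℕ) : 0 ≤ wS S r :=
  prod_nonneg fun p _ => by positivity

lemma wS_eq (S : Finset ℕ) (r : ℕ → ℕ) :
    wS S r = ∏ p ∈ S, (if r p = 0 then (1 : ℝ) else 1 / (p : ℝ)) := prod_supp S r _

/-- The sum of the weights of all data. -/
lemma sum_wS (f : ℤ[X]) (S : Finset ℕ) :
    ∑ r ∈ Dat f S, wS S r = ∏ p ∈ S, (1 + nr f p / p) := by
  have h := sum_Dat f S (fun p x => if x = 0 then (1 : ℝ) else 1 / (p : ℝ))
  rw [← sum_congr rfl fun r _ => wS_eq S r] at h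
  rw [h]
  refine prod_congr rfl fun p _ => ?_
  unfold nr
  simp only [Nat.add_eq_zero_iff, one_ne_zero, and_false, if_false, if_true, sum_const,
    nsmul_eq_mul]
  ring

/-- The sum of the weights of the data whose support contains `D`. -/
lemma sum_wS_sub (f : ℤ[X]) {S D : Finset ℕ} (hD : D ⊆ S) {n : ℝ} (hn : 0 ≤ n)
    (hR : ∀ p ∈ S, nr f p ≤ n) :
    ∑ r ∈ (Dat f S).filter (fun r => D ⊆ supp S r), wS S r ≤
      (∏ p ∈ D, (n / p)) * ∏ p ∈ S, (1 + n / p) := by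
  classical
  have h := sum_Dat f S
    (fun p x => if x = 0 then (if p ∈ D then 0 else (1 : ℝ)) else 1 / (p : ℝ))
  have e1 : ∑ r ∈ (Dat f S).filter (fun r => D ⊆ supp S r), wS S r ≤
      ∑ r ∈ Dat f S, ∏ p ∈ S, (if r p = 0 then (if p ∈ D then 0 else (1 : ℝ)) else 1 / (p : ℝ)) := by
    rw [sum_filter]
    refine sum_le_sum fun r _ => ?_
    by_cases hr : D ⊆ supp S r
    · rw [if_pos hr, wS_eq]
      refine le_of_eq (prod_congr rfl fun p _ => ?_)
      by_cases h0 : r p = 0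
      · have : p ∉ D := fun hp => (mem_filter.1 (hr hp)).2 h0
        simp [h0, this]
      · simp [h0]
    · rw [if_neg hr]
      refine prod_nonneg fun p _ => ?_
      split_ifs <;> positivity
  refine e1.trans ?_
  rw [h]
  have e2 : ∏ p ∈ D, (n / (p : ℝ)) = ∏ p ∈ S, (if p ∈ D then n / (p : ℝ) else 1) := by
    rw [prod_ite_mem, inter_eq_right.2 hD]
  rw [e2, ← prod_mul_distrib]
  refine prod_le_prod (fun p _ => ?_) fun p hp => ?_
  · refine add_nonneg ?_ (sum_nonneg fun a _ => ?_)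
    · simp only [if_true]
      split_ifs <;> positivity
    · simp only [Nat.add_eq_zero_iff, one_ne_zero, and_false, if_false]
      positivity
  · simp only [Nat.add_eq_zero_iff, one_ne_zero, and_false, if_false, if_true, sum_const,
      nsmul_eq_mul]
    have h1 : ((R f p).card : ℝ) * (1 / (p : ℝ)) ≤ n / p := by
      rw [mul_one_div]
      exact div_le_div_of_nonneg_right (hR p hp) (Nat.cast_nonneg p)
    have h2 : 0 ≤ n / (p : ℝ) := div_nonneg hn (Nat.cast_nonneg p)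
    by_cases hpD : p ∈ D
    · rw [if_pos hpD, if_pos hpD, zero_add]
      refine h1.trans ?_
      rw [mul_add, mul_one]
      have := mul_nonneg h2 h2
      linarith
    · rw [if_neg hpD, if_neg hpD, one_mul]
      linarith

/-- The choices of a subset of `J` at the primes of `U` in the support. -/
noncomputable def Ch (f : ℤ[X]) (U : Finset ℕ) (r : ℕ → ℕ) : Finset (ℕ → Finset ℕ) :=
  piF (supp U r) (fun p => (J f p (rt r p)).powerset) ∅

/-- The product of the conditions. -/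
noncomputable def cond (f : ℤ[X]) (U : Finset ℕ) (c : (ℕ → ℕ) → ℕ → ℕ → ℝ) (r : ℕ → ℕ)
    (g : Fin f.natDegree → ℤ) : ℝ :=
  ∏ p ∈ supp U r, ∏ a ∈ J f p (rt r p), (1 + c r p a * W f p (rt r p) a g) / 2

/-- The factor `2^{-|J|}`. -/
noncomputable def hf (f : ℤ[X]) (U : Finset ℕ) (r : ℕ → ℕ) : ℝ :=
  ∏ p ∈ supp U r, (1 / 2 : ℝ) ^ (J f p (rt r p)).card

lemma hf_nonneg (f : ℤ[X]) (U : Finset ℕ) (r : ℕ → ℕ) : 0 ≤ hf f U r :=
  prod_nonneg fun p _ => by positivity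

/-- The coefficient of a term of the expansion. -/
noncomputable def gam (f : ℤ[X]) (U : Finset ℕ) (ω : (ℕ → ℕ) → ℝ) (c : (ℕ → ℕ) → ℕ → ℕ → ℝ)
    (i : Σ _ : ℕ → ℕ, ℕ → Finset ℕ) : ℝ :=
  ω i.1 * (hf f U i.1 * ∏ p ∈ supp U i.1, ∏ a ∈ i.2 p, c i.1 p a)

/-- The primes at which a nonempty set was chosen. -/
def Dd (U : Finset ℕ) (i : Σ _ : ℕ → ℕ, ℕ → Finset ℕ) : Finset ℕ :=
  (supp U i.1).filter fun p => (i.2 p).Nonempty

/-- The character of a term of the expansion at `p`. -/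
noncomputable def Ff (f : ℤ[X]) (i : Σ _ : ℕ → ℕ, ℕ → Finset ℕ) (p : ℕ)
    (g : Fin f.natDegree → ℤ) : ℝ :=
  ∏ a ∈ i.2 p, (W f p (rt i.1 p) a g : ℝ)

/-- The data with small product of the primes in `U`. -/
noncomputable def DatS (f : ℤ[X]) (S U : Finset ℕ) (Dm : ℝ) : Finset (ℕ → ℕ) :=
  (Dat f S).filter fun r => ∏ p ∈ supp U r, (p : ℝ) ≤ Dm

/-- The nontrivial terms of the expansion. -/
noncomputable def Ix (f : ℤ[X]) (S U : Finset ℕ) (Dm : ℝ) :
    Finset (Σ _ : ℕ → ℕ, ℕ → Finset ℕ) :=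
  open Classical in
  (DatS f S U Dm).sigma fun r => (Ch f U r).filter fun A => A ≠ fun _ => ∅

/-- The nontrivial part. -/
noncomputable def hh (f : ℤ[X]) (S U : Finset ℕ) (Dm : ℝ) (ω : (ℕ → ℕ) → ℝ)
    (c : (ℕ → ℕ) → ℕ → ℕ → ℝ) (g : Fin f.natDegree → ℤ) : ℝ :=
  ∑ i ∈ Ix f S U Dm, gam f U ω c i * ∏ p ∈ Dd U i, Ff f i p g

/-- The main term. -/
noncomputable def Mn (f : ℤ[X]) (S U : Finset ℕ) (Dm : ℝ) (ω : (ℕ → ℕ) → ℝ) : ℝ :=
  ∑ r ∈ DatS f S U Dm, ω r * hf f U r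

lemma cond_expand (f : ℤ[X]) (U : Finset ℕ) (c : (ℕ → ℕ) → ℕ → ℕ → ℝ) (r : ℕ → ℕ)
    (g : Fin f.natDegree → ℤ) :
    cond f U c r g = ∑ A ∈ Ch f U r, hf f U r *
      ((∏ p ∈ supp U r, ∏ a ∈ A p, c r p a) * ∏ p ∈ supp U r, Ff f ⟨r, A⟩ p g) := by
  have h := sum_prod_piF (supp U r) (fun p => (J f p (rt r p)).powerset) (∅ : Finset ℕ)
    (fun p A => (1 / 2 : ℝ) ^ (J f p (rt r p)).card *
      ∏ a ∈ A, (c r p a * W f p (rt r p) a g))
  unfold cond
  have e : ∏ p ∈ supp U r, ∏ a ∈ J f p (rt r p), (1 + c r p a * W f p (rt r p) a g) / 2 =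
      ∏ p ∈ supp U r, ∑ A ∈ (J f p (rt r p)).powerset, (1 / 2 : ℝ) ^ (J f p (rt r p)).card *
      ∏ a ∈ A, (c r p a * W f p (rt r p) a g) := by
    refine prod_congr rfl fun p _ => ?_
    rw [← mul_sum, ← prod_one_add]
    rw [prod_div_distrib, prod_const]
    rw [one_div, inv_pow]
    rw [div_eq_mul_inv, mul_comm]
  rw [e, ← h]
  refine sum_congr rfl fun A _ => ?_
  unfold hf Ff
  rw [← prod_mul_distrib, ← prod_mul_distrib]
  refine prod_congr rfl fun p _ => ?_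
  rw [prod_mul_distrib]

/-- Expansion of the sum over the data. -/
theorem sum_cond (f : ℤ[X]) (S U : Finset ℕ) (Dm : ℝ) (ω : (ℕ → ℕ) → ℝ)
    (c : (ℕ → ℕ) → ℕ → ℕ → ℝ) (g : Fin f.natDegree → ℤ) :
    ∑ r ∈ DatS f S U Dm, ω r * cond f U c r g = Mn f S U Dm ω + hh f S U Dm ω c g := by
  classical
  unfold Mn hh Ix
  rw [sum_sigma, ← sum_add_distrib]
  refine sum_congr rfl fun r _ => ?_
  have h0 : (fun _ => ∅) ∈ Ch f U r := by
    unfold Ch
    rw [mem_piF]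
    exact ⟨fun p _ => empty_mem_powerset _, fun _ _ => rfl⟩
  rw [cond_expand, ← add_sum_erase _ _ h0, mul_add]
  congr 1
  · simp [Ff]
  · rw [filter_ne', mul_sum]
    refine sum_congr rfl fun A _ => ?_
    unfold gam
    have e : ∏ p ∈ Dd U ⟨r, A⟩, Ff f ⟨r, A⟩ p g = ∏ p ∈ supp U r, Ff f ⟨r, A⟩ p g := by
      unfold Dd
      rw [prod_filter]
      refine prod_congr rfl fun p _ => ?_
      by_cases hA : (A p).Nonempty
      · rw [if_pos hA]
      · rw [if_neg hA]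
        rw [not_nonempty_iff_eq_empty] at hA
        unfold Ff
        simp [hA]
    rw [e]
    ring

/-- The main term is at most an Euler product. -/
theorem Mn_le (f : ℤ[X]) {S U : Finset ℕ} (hU : U ⊆ S) (Dm : ℝ) :
    Mn f S U Dm (wS S) ≤ ∏ p ∈ S, (1 + (if p ∈ U then wt f p else nr f p) / p) := by
  classical
  have h := sum_Dat f S (fun p x => if x = 0 then (1 : ℝ) else
    (if p ∈ U then (1 / 2 : ℝ) ^ (J f p (x - 1)).card else 1) / (p : ℝ))
  have e1 : Mn f S U Dm (wS S) ≤ ∑ r ∈ Dat f S, ∏ p ∈ S, (if r p = 0 then (1 : ℝ) else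
      (if p ∈ U then (1 / 2 : ℝ) ^ (J f p (r p - 1)).card else 1) / (p : ℝ)) := by
    unfold Mn DatS
    refine (sum_le_sum_of_subset_of_nonneg (filter_subset _ _) fun r _ _ =>
      mul_nonneg (wS_nonneg _ _) (hf_nonneg _ _ _)).trans ?_
    refine sum_le_sum fun r _ => le_of_eq ?_
    have e2 : hf f U r = ∏ p ∈ S, (if r p = 0 then (1 : ℝ) else
        (if p ∈ U then (1 / 2 : ℝ) ^ (J f p (r p - 1)).card else 1)) := by
      unfold hf
      rw [prod_supp]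
      rw [← prod_subset hU (f := fun p => (if r p = 0 then (1 : ℝ) else
        (if p ∈ U then (1 / 2 : ℝ) ^ (J f p (r p - 1)).card else 1)))]
      · refine prod_congr rfl fun p hp => ?_
        rw [if_pos hp]
        rfl
      · intro p _ hp
        rw [if_neg hp]
        simp
    rw [wS_eq, e2, ← prod_mul_distrib]
    refine prod_congr rfl fun p _ => ?_
    by_cases h0 : r p = 0
    · simp [h0]
    · rw [if_neg h0, if_neg h0, if_neg h0]
      ring
  refine e1.trans (le_of_eq ?_)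
  rw [h]
  refine prod_congr rfl fun p _ => ?_
  simp only [Nat.add_eq_zero_iff, one_ne_zero, and_false, if_false, if_true, Nat.add_sub_cancel]
  congr 1
  rw [← sum_div]
  congr 1
  by_cases hp : p ∈ U
  · simp only [hp, if_true]
    rfl
  · simp only [hp, if_false, sum_const, nsmul_eq_mul, mul_one]
    rfl

lemma abs_gam_le (f : ℤ[X]) (S U : Finset ℕ) {ω : (ℕ → ℕ) → ℝ} (hω : ∀ r, |ω r| ≤ wS S r)
    {c : (ℕ → ℕ) → ℕ → ℕ → ℝ}
    (hc : ∀ r p a, |c r p a| ≤ 1) (i : Σ _ : ℕ → ℕ, ℕ → Finset ℕ) :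
    |gam f U ω c i| ≤ wS S i.1 * hf f U i.1 := by
  unfold gam
  have h0 : 0 ≤ hf f U i.1 := hf_nonneg _ _ _
  rw [abs_mul, abs_mul, abs_of_nonneg h0]
  refine mul_le_mul (hω _) ?_ (mul_nonneg h0 (abs_nonneg _)) (wS_nonneg _ _)
  refine mul_le_of_le_one_right h0 ?_
  rw [abs_prod]
  refine prod_le_one (fun _ _ => abs_nonneg _) fun p _ => ?_
  rw [abs_prod]
  exact prod_le_one (fun _ _ => abs_nonneg _) fun a _ => hc _ _ _

lemma sum_Ch (f : ℤ[X]) (U : Finset ℕ) (r : ℕ → ℕ) : ∑ _A ∈ Ch f U r, hf f U r = 1 := by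
  rw [sum_const, nsmul_eq_mul]
  unfold Ch hf
  rw [card_piF]
  push_cast
  rw [← prod_mul_distrib]
  refine prod_eq_one fun p _ => ?_
  rw [card_powerset]
  push_cast
  rw [← mul_pow]
  norm_num

/-- The sum of the absolute values of the coefficients belonging to the set of primes `D`. -/
lemma sum_gam_D (f : ℤ[X]) {S U : Finset ℕ} (hU : U ⊆ S) (Dm : ℝ) {ω : (ℕ → ℕ) → ℝ}
    (hω : ∀ r, |ω r| ≤ wS S r) {c : (ℕ → ℕ) → ℕ → ℕ → ℝ}
    (hc : ∀ r p a, |c r p a| ≤ 1) {n : ℝ} (hn : 0 ≤ n) (hR : ∀ p ∈ S, nr f p ≤ n)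
    {D : Finset ℕ} (hD : D ⊆ U) :
    ∑ i ∈ (Ix f S U Dm).filter (fun i => Dd U i = D), |gam f U ω c i| ≤
      (∏ p ∈ D, (n / p)) * ∏ p ∈ S, (1 + n / p) := by
  classical
  refine le_trans ?_ (sum_wS_sub f (hD.trans hU) hn hR)
  have e1 : ∑ i ∈ (Ix f S U Dm).filter (fun i => Dd U i = D), |gam f U ω c i| ≤
      ∑ i ∈ ((Dat f S).filter (fun r => D ⊆ supp S r)).sigma (fun r => Ch f U r),
        wS S i.1 * hf f U i.1 := by
    refine (sum_le_sum fun i _ => abs_gam_le f S U hω hc i).trans ?_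
    refine sum_le_sum_of_subset_of_nonneg ?_ fun i _ _ =>
      mul_nonneg (wS_nonneg _ _) (hf_nonneg _ _ _)
    intro i hi
    rw [mem_filter] at hi
    obtain ⟨hi, hiD⟩ := hi
    unfold Ix DatS at hi
    rw [mem_sigma, mem_filter, mem_filter] at hi
    rw [mem_sigma, mem_filter]
    refine ⟨⟨hi.1.1, ?_⟩, hi.2.1⟩
    intro p hp
    rw [← hiD] at hp
    unfold Dd supp at hp
    rw [mem_filter, mem_filter] at hp
    unfold supp
    rw [mem_filter]
    exact ⟨hU hp.1.1, hp.1.2⟩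
  refine e1.trans (le_of_eq ?_)
  rw [sum_sigma]
  refine sum_congr rfl fun r _ => ?_
  change ∑ _A ∈ Ch f U r, wS S r * hf f U r = wS S r
  rw [← mul_sum, sum_Ch, mul_one]

/-- The sum of the absolute values of all the coefficients. -/
lemma sum_gam (f : ℤ[X]) {S U : Finset ℕ} (Dm : ℝ) {ω : (ℕ → ℕ) → ℝ}
    (hω : ∀ r, |ω r| ≤ wS S r) {c : (ℕ → ℕ) → ℕ → ℕ → ℝ}
    (hc : ∀ r p a, |c r p a| ≤ 1) {n : ℝ} (hR : ∀ p ∈ S, nr f p ≤ n) :
    ∑ i ∈ Ix f S U Dm, |gam f U ω c i| ≤ ∏ p ∈ S, (1 + n / p) := by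
  classical
  have e1 : ∑ i ∈ Ix f S U Dm, |gam f U ω c i| ≤
      ∑ i ∈ (Dat f S).sigma (fun r => Ch f U r), wS S i.1 * hf f U i.1 := by
    refine (sum_le_sum fun i _ => abs_gam_le f S U hω hc i).trans ?_
    refine sum_le_sum_of_subset_of_nonneg ?_ fun i _ _ =>
      mul_nonneg (wS_nonneg _ _) (hf_nonneg _ _ _)
    intro i hi
    unfold Ix DatS at hi
    rw [mem_sigma, mem_filter, mem_filter] at hi
    rw [mem_sigma]
    exact ⟨hi.1.1, hi.2.1⟩
  refine e1.trans ?_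
  rw [sum_sigma]
  have e2 : ∀ r ∈ Dat f S, ∑ A ∈ Ch f U r, wS S r * hf f U r = wS S r := by
    intro r _
    rw [← mul_sum, sum_Ch, mul_one]
  rw [sum_congr rfl e2, sum_wS]
  refine prod_le_prod (fun p _ => ?_) fun p hp => ?_
  · unfold nr
    positivity
  · have := div_le_div_of_nonneg_right (hR p hp) (Nat.cast_nonneg p)
    linarith

lemma Dd_ne {f : ℤ[X]} {S U : Finset ℕ} {Dm : ℝ} {i : Σ _ : ℕ → ℕ, ℕ → Finset ℕ}
    (hi : i ∈ Ix f S U Dm) : (Dd U i).Nonempty := by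
  classical
  unfold Ix at hi
  rw [mem_sigma, mem_filter] at hi
  obtain ⟨_, h2, h3⟩ := hi
  by_contra hcon
  rw [not_nonempty_iff_eq_empty] at hcon
  apply h3
  funext p
  unfold Ch at h2
  rw [mem_piF] at h2
  by_cases hp : p ∈ supp U i.1
  · by_contra hA
    have : p ∈ Dd U i := by
      unfold Dd
      rw [mem_filter]
      exact ⟨hp, nonempty_iff_ne_empty.2 hA⟩
    rw [hcon] at this
    exact notMem_empty p this
  · exact h2.2 p hp

lemma prod_Dd_le {f : ℤ[X]} {S U : Finset ℕ} {Dm : ℝ} (hU1 : ∀ p ∈ U, 1 ≤ p)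
    {i : Σ _ : ℕ → ℕ, ℕ → Finset ℕ} (hi : i ∈ Ix f S U Dm) : ∏ p ∈ Dd U i, (p : ℝ) ≤ Dm := by
  classical
  unfold Ix DatS at hi
  rw [mem_sigma, mem_filter] at hi
  refine le_trans ?_ hi.1.2
  have h : ∏ p ∈ Dd U i, p ≤ ∏ p ∈ supp U i.1, p := by
    refine prod_le_prod_of_subset_of_one_le' (filter_subset _ _) fun p hp _ => ?_
    exact hU1 p (mem_filter.1 hp).1
  rw [← Nat.cast_prod, ← Nat.cast_prod]
  exact Nat.cast_le.2 h

/-- The mean square of the nontrivial part over a box. -/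
theorem hh_sq (f : ℤ[X]) (hfm : f.Monic) {C₀ : ℕ} (hN : NonTriv f C₀) {S U : Finset ℕ}
    (hU : U ⊆ S) (hS : ∀ p ∈ S, p.Prime ∧ C₀ < p) {z : ℝ} (hz : 0 < z) (hzU : ∀ p ∈ U, z < p)
    {Dm : ℝ} (hDm : 0 ≤ Dm) {ω : (ℕ → ℕ) → ℝ} (hω : ∀ r, |ω r| ≤ wS S r)
    {c : (ℕ → ℕ) → ℕ → ℕ → ℝ} (hc : ∀ r p a, |c r p a| ≤ 1) (B : ℕ) :
    ∑ g ∈ bx f.natDegree B, hh f S U Dm ω c g ^ 2 ≤
      (2 * B + 1 : ℝ) ^ f.natDegree * ((∏ p ∈ S, (1 + (f.natDegree : ℝ) / p)) ^ 2 *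
        ((1 / z) * ∏ p ∈ U, (1 + (f.natDegree : ℝ) ^ 2 / p))) +
      2 * (f.natDegree * (2 * B + 1 : ℝ) ^ (f.natDegree - 1)) *
        (Dm * ∏ p ∈ S, (1 + (f.natDegree : ℝ) / p)) ^ 2 := by
  classical
  set n : ℕ := f.natDegree with hn
  set P : ℝ := ∏ p ∈ S, (1 + (n : ℝ) / p) with hP
  have hP0 : 0 ≤ P := prod_nonneg fun p _ => by positivity
  have hR : ∀ p ∈ S, nr f p ≤ n := by
    intro p hp
    have : Fact p.Prime := ⟨(hS p hp).1⟩
    unfold nr
    exact_mod_cast card_R_le_deg hfm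
  have hsuppU : ∀ {i : Σ _ : ℕ → ℕ, ℕ → Finset ℕ} {p : ℕ}, p ∈ Dd U i → p ∈ U := by
    intro i p hp
    exact (mem_filter.1 (mem_filter.1 hp).1).1
  have hI : ∀ i ∈ Ix f S U Dm, ∀ p ∈ Dd U i, rt i.1 p ∈ R f p ∧ i.2 p ⊆ J f p (rt i.1 p) ∧
      (i.2 p).Nonempty := by
    intro i hi p hp
    unfold Ix DatS at hi
    rw [mem_sigma, mem_filter, mem_filter] at hi
    have hp2 := mem_filter.1 hp
    have hp3 : p ∈ supp S i.1 := by
      have := mem_filter.1 hp2.1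
      exact mem_filter.2 ⟨hU this.1, this.2⟩
    refine ⟨(rt_mem hi.1.1 hp3).1, ?_, hp2.2⟩
    have := hi.2.1
    unfold Ch at this
    rw [mem_piF] at this
    exact mem_powerset.1 (this.1 p hp2.1)
  have hsq := bx_sq (Ix f S U Dm) (gam f U ω c) (Dd U) (Ff f)
    (fun i _ p hp => (hS p (hU (hsuppU hp))).1)
    (fun i _ p _ g g' hgg => by
      unfold Ff
      refine prod_congr rfl fun a _ => ?_
      rw [W_congr f p (rt i.1 p) a g g' hgg])
    (fun i _ p _ g => by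
      unfold Ff
      rw [abs_prod]
      refine prod_le_one (fun _ _ => abs_nonneg _) fun a _ => ?_
      unfold W
      have h := jacobiSym.trichotomy (ev g (a : ℤ) * ev g ((rt i.1 p : ℕ) : ℤ) * Nm f g) p
      rcases h with h | h | h <;> rw [h] <;> simp)
    (fun i hi p hp => by
      obtain ⟨h1, h2, h3⟩ := hI i hi p hp
      have h := hN p (hS p (hU (hsuppU hp))).1 (hS p (hU (hsuppU hp))).2 _ h1 _ h2 h3
      unfold Ff
      exact_mod_cast h) B
  refine hsq.trans ?_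
  set I := Ix f S U Dm with hIdef
  set G : Finset ℕ → ℝ := fun D => ∑ i ∈ I.filter (fun i => Dd U i = D), |gam f U ω c i| with hG
  -- split
  have hb0 : (0 : ℝ) ≤ (2 * B + 1 : ℝ) ^ (n - 1) := by positivity
  have ha0 : (0 : ℝ) ≤ (2 * B + 1 : ℝ) ^ n := by positivity
  have h1 : ∑ i ∈ I, ∑ j ∈ I, |gam f U ω c i| * |gam f U ω c j| *
      (if Dd U i = Dd U j then (2 * B + 1 : ℝ) ^ n else
        2 * (n * ((∏ p ∈ Dd U i, (p : ℝ)) * ∏ p ∈ Dd U j, (p : ℝ)) * (2 * B + 1) ^ (n - 1))) ≤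
      ∑ i ∈ I, ∑ j ∈ I, (|gam f U ω c i| * |gam f U ω c j| *
        (if Dd U i = Dd U j then (2 * B + 1 : ℝ) ^ n else 0) +
        2 * (n * (2 * B + 1 : ℝ) ^ (n - 1)) * ((|gam f U ω c i| * Dm) * (|gam f U ω c j| * Dm))) := by
    refine sum_le_sum fun i hi => sum_le_sum fun j hj => ?_
    have hi1 : ∏ p ∈ Dd U i, (p : ℝ) ≤ Dm :=
      prod_Dd_le (fun p hp => (hS p (hU hp)).1.one_lt.le) hi
    have hj1 : ∏ p ∈ Dd U j, (p : ℝ) ≤ Dm :=
      prod_Dd_le (fun p hp => (hS p (hU hp)).1.one_lt.le) hj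
    have hi0 : 0 ≤ ∏ p ∈ Dd U i, (p : ℝ) := prod_nonneg fun p _ => Nat.cast_nonneg p
    have hj0 : 0 ≤ ∏ p ∈ Dd U j, (p : ℝ) := prod_nonneg fun p _ => Nat.cast_nonneg p
    have hg : 0 ≤ |gam f U ω c i| * |gam f U ω c j| := by positivity
    by_cases hD : Dd U i = Dd U j
    · rw [if_pos hD, if_pos hD]
      have : 0 ≤ 2 * (n * (2 * B + 1 : ℝ) ^ (n - 1)) *
          ((|gam f U ω c i| * Dm) * (|gam f U ω c j| * Dm)) := by positivity
      linarith
    · rw [if_neg hD, if_neg hD, mul_zero, zero_add]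
      have h2 : (∏ p ∈ Dd U i, (p : ℝ)) * ∏ p ∈ Dd U j, (p : ℝ) ≤ Dm * Dm :=
        mul_le_mul hi1 hj1 hj0 hDm
      have h3 : |gam f U ω c i| * |gam f U ω c j| *
          ((∏ p ∈ Dd U i, (p : ℝ)) * ∏ p ∈ Dd U j, (p : ℝ)) ≤
          |gam f U ω c i| * |gam f U ω c j| * (Dm * Dm) := mul_le_mul_of_nonneg_left h2 hg
      have h4 : 0 ≤ 2 * (n * (2 * B + 1 : ℝ) ^ (n - 1)) := by positivity
      have h5 := mul_le_mul_of_nonneg_left h3 h4
      calc _ = 2 * (n * (2 * B + 1 : ℝ) ^ (n - 1)) * (|gam f U ω c i| * |gam f U ω c j| *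
          ((∏ p ∈ Dd U i, (p : ℝ)) * ∏ p ∈ Dd U j, (p : ℝ))) := by ring
        _ ≤ _ := h5
        _ = _ := by ring
  refine h1.trans ?_
  simp only [sum_add_distrib]
  refine add_le_add ?_ ?_
  · -- the diagonal
    have h2 : ∑ i ∈ I, ∑ j ∈ I, |gam f U ω c i| * |gam f U ω c j| *
        (if Dd U i = Dd U j then (2 * B + 1 : ℝ) ^ n else 0) =
        (2 * B + 1 : ℝ) ^ n * ∑ i ∈ I, |gam f U ω c i| * G (Dd U i) := by
      rw [mul_sum]
      refine sum_congr rfl fun i _ => ?_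
      rw [hG]
      simp only
      rw [sum_filter, mul_sum, mul_sum]
      refine sum_congr rfl fun j _ => ?_
      by_cases hD : Dd U i = Dd U j
      · rw [if_pos hD, if_pos hD.symm]
        ring
      · rw [if_neg hD, if_neg (Ne.symm hD)]
        ring
    rw [h2]
    refine mul_le_mul_of_nonneg_left ?_ ha0
    have h3 : ∑ i ∈ I, |gam f U ω c i| * G (Dd U i) =
        ∑ D ∈ U.powerset.erase ∅, G D * G D := by
      rw [← sum_fiberwise_of_maps_to (s := I) (t := U.powerset.erase ∅) (g := Dd U)]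
      · refine sum_congr rfl fun D _ => ?_
        rw [hG]
        simp only
        rw [sum_mul]
        refine sum_congr rfl fun i hi => ?_
        rw [(mem_filter.1 hi).2]
      · intro i hi
        rw [mem_erase, mem_powerset]
        exact ⟨nonempty_iff_ne_empty.1 (Dd_ne hi), fun p hp => hsuppU hp⟩
    rw [h3]
    have hGD : ∀ D ∈ U.powerset.erase ∅, G D ≤ (∏ p ∈ D, ((n : ℝ) / p)) * P := by
      intro D hD
      rw [mem_erase, mem_powerset] at hD
      exact sum_gam_D f hU Dm hω hc (Nat.cast_nonneg n) hR hD.2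
    have hG0 : ∀ D, 0 ≤ G D := fun D => sum_nonneg fun i _ => abs_nonneg _
    have h4 : ∀ D ∈ U.powerset.erase ∅, G D * G D ≤
        P ^ 2 * ((1 / z) * ∏ p ∈ D, ((n : ℝ) ^ 2 / p)) := by
      intro D hD
      have h5 := mul_le_mul (hGD D hD) (hGD D hD) (hG0 D) ((hG0 D).trans (hGD D hD))
      refine h5.trans ?_
      rw [mem_erase, mem_powerset] at hD
      have h6 : (∏ p ∈ D, ((n : ℝ) / p)) * (∏ p ∈ D, ((n : ℝ) / p)) =
          (∏ p ∈ D, (1 / (p : ℝ))) * ∏ p ∈ D, ((n : ℝ) ^ 2 / p) := by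
        rw [← prod_mul_distrib, ← prod_mul_distrib]
        refine prod_congr rfl fun p _ => ?_
        ring
      have h7 : ∏ p ∈ D, (1 / (p : ℝ)) ≤ 1 / z := by
        obtain ⟨q, hq⟩ := nonempty_iff_ne_empty.2 hD.1
        rw [← mul_prod_erase D (fun p => 1 / (p : ℝ)) hq]
        have hq1 : 1 / (q : ℝ) ≤ 1 / z :=
          one_div_le_one_div_of_le hz (hzU q (hD.2 hq)).le
        have hq2 : ∏ p ∈ D.erase q, (1 / (p : ℝ)) ≤ 1 := by
          refine prod_le_one (fun p _ => by positivity) fun p hp => ?_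
          have : (1 : ℝ) ≤ p := by
            exact_mod_cast (hS p (hU (hD.2 (mem_erase.1 hp).2))).1.one_lt.le
          rw [div_le_one (by linarith)]
          exact this
        calc 1 / (q : ℝ) * ∏ p ∈ D.erase q, (1 / (p : ℝ)) ≤ 1 / z * 1 :=
              mul_le_mul hq1 hq2 (prod_nonneg fun p _ => by positivity) (by positivity)
          _ = 1 / z := mul_one _
      have h8 : 0 ≤ ∏ p ∈ D, ((n : ℝ) ^ 2 / p) := prod_nonneg fun p _ => by positivity
      calc (∏ p ∈ D, ((n : ℝ) / p)) * P * ((∏ p ∈ D, ((n : ℝ) / p)) * P) =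
            P ^ 2 * ((∏ p ∈ D, ((n : ℝ) / p)) * (∏ p ∈ D, ((n : ℝ) / p))) := by ring
        _ = P ^ 2 * ((∏ p ∈ D, (1 / (p : ℝ))) * ∏ p ∈ D, ((n : ℝ) ^ 2 / p)) := by rw [h6]
        _ ≤ _ := mul_le_mul_of_nonneg_left (mul_le_mul_of_nonneg_right h7 h8) (by positivity)
    refine (sum_le_sum h4).trans ?_
    rw [← mul_sum, ← mul_sum]
    refine mul_le_mul_of_nonneg_left ?_ (by positivity)
    refine mul_le_mul_of_nonneg_left ?_ (by positivity)
    rw [prod_one_add]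
    exact sum_le_sum_of_subset_of_nonneg (erase_subset _ _) fun D _ _ =>
      prod_nonneg fun p _ => by positivity
  · -- the rest
    have h2 : ∑ i ∈ I, ∑ j ∈ I, 2 * (n * (2 * B + 1 : ℝ) ^ (n - 1)) *
        ((|gam f U ω c i| * Dm) * (|gam f U ω c j| * Dm)) =
        2 * (n * (2 * B + 1 : ℝ) ^ (n - 1)) * (Dm * ∑ i ∈ I, |gam f U ω c i|) ^ 2 := by
      rw [pow_two, mul_sum, sum_mul_sum, mul_sum]
      refine sum_congr rfl fun i _ => ?_
      rw [mul_sum]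
      refine sum_congr rfl fun j _ => ?_
      ring
    rw [h2]
    refine mul_le_mul_of_nonneg_left ?_ (by positivity)
    have h3 := sum_gam f (U := U) Dm hω hc hR
    have h4 : 0 ≤ ∑ i ∈ I, |gam f U ω c i| := sum_nonneg fun i _ => abs_nonneg _
    exact pow_le_pow_left₀ (mul_nonneg hDm h4) (mul_le_mul_of_nonneg_left h3 hDm) 2

end Stoll308.Gen
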