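import Pool.Agent.Work.MP_308fa9_nt.Gen.SelDec

set_option autoImplicit false

/-!
The sum over the twists with nonempty fake `2`-Selmer set: an explicit upper bound.
-/

namespace Stoll308.Gen

open Finset Polynomial NumberTheorySymbols

variable (f : ℤ[X]) (D : RelData f)

/-- The primes in the middle range. -/
noncomputable def UU' (C₀ N : ℕ) (z₁ z₂ : ℝ) : Finset ℕ :=
  (PX C₀ N).filter fun p : ℕ => z₁ < (p : ℝ) ∧ (p : ℝ) ≤ z₂

/-- The product of `1 + n/p`. -/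
noncomputable def Pn (C₀ N : ℕ) (n : ℝ) : ℝ := ∏ p ∈ PX C₀ N, (1 + n / (p : ℝ))

lemma valid_of_mem {N : ℕ} {S₂ : Finset ℕ} (hS₂ : S₂ ⊆ PX D.C₀ N) {r : ℕ → ℕ}
    (hr : r ∈ Dat f S₂) : Valid f D.C₀ (supp S₂ r) (rt r) := by
  intro p hp
  have h1 := hS₂ (mem_filter.1 hp).1
  unfold PX at h1
  rw [mem_filter] at h1
  exact ⟨h1.2.1, h1.2.2, (rt_mem hr hp).1⟩

lemma dat_ext {S : Finset ℕ} {r r' : ℕ → ℕ} (hr : r ∈ Dat f S) (hr' : r' ∈ Dat f S)
    (h1 : supp S r = supp S r') (h2 : ∀ p ∈ supp S r, rt r p = rt r' p) : r = r' := by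
  funext p
  by_cases hp : p ∈ supp S r
  · rw [(rt_mem hr hp).2, (rt_mem hr' (h1 ▸ hp)).2, h2 p hp]
  · by_cases hpS : p ∈ S
    · have e1 : r p = 0 := by
        by_contra h
        exact hp (mem_filter.2 ⟨hpS, h⟩)
      have e2 : r' p = 0 := by
        by_contra h
        exact hp (h1 ▸ mem_filter.2 ⟨hpS, h⟩)
      rw [e1, e2]
    · unfold Dat at hr hr'
      rw [(mem_piF.1 hr).2 p hpS, (mem_piF.1 hr').2 p hpS]

/-- The sum over the data of the large primes of the nontrivial part. -/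
lemma sum_hh (hf : f.Monic) (hdeg : f.natDegree ≠ 0) (hN : NonTriv f D.C₀) (N : ℕ)
    {z₁ z₂ z₃ Dm : ℝ} (hz1 : 0 < z₁) (hz3 : 0 < z₃) (hz23 : z₂ ≤ z₃) (hDm : 0 ≤ Dm)
    (s : ℤ) (e : Fin D.m) (k : ℤ) :
    ∑ r₂ ∈ VV f ((PX D.C₀ N).filter (fun p : ℕ => ¬ (p : ℝ) ≤ z₃)) N,
      wS ((PX D.C₀ N).filter (fun p : ℕ => ¬ (p : ℝ) ≤ z₃)) r₂ *
        |hh f ((PX D.C₀ N).filter (fun p : ℕ => (p : ℝ) ≤ z₃)) (UU' D.C₀ N z₁ z₂) Dm
          (wS ((PX D.C₀ N).filter (fun p : ℕ => (p : ℝ) ≤ z₃))) (cf f D ((PX D.C₀ N).filter (fun p : ℕ => (p : ℝ) ≤ z₃)) s e k)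
          (D.g (supp ((PX D.C₀ N).filter (fun p : ℕ => ¬ (p : ℝ) ≤ z₃)) r₂) (rt r₂))| ≤
    (Nat.log 2 N + 1) * (2 * 3 ^ f.natDegree * Real.sqrt
      (Pn D.C₀ N f.natDegree ^ 2 * ((1 / z₁) * Pn D.C₀ N (f.natDegree ^ 2)) +
        2 * f.natDegree * (Dm * Pn D.C₀ N f.natDegree) ^ 2 * z₃ ^ (-(f.natDegree : ℝ)⁻¹))) := by
  classical
  set S₁ : Finset ℕ := (PX D.C₀ N).filter (fun p : ℕ => (p : ℝ) ≤ z₃) with hS₁
  set S₂ : Finset ℕ := (PX D.C₀ N).filter (fun p : ℕ => ¬ (p : ℝ) ≤ z₃) with hS₂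
  have hS2sub : S₂ ⊆ PX D.C₀ N := filter_subset _ _
  have hU : UU' D.C₀ N z₁ z₂ ⊆ S₁ := by
    intro p hp
    unfold UU' at hp
    rw [mem_filter] at hp
    rw [hS₁, mem_filter]
    exact ⟨hp.1, hp.2.2.trans hz23⟩
  have hPX : ∀ p ∈ PX D.C₀ N, p.Prime ∧ D.C₀ < p := by
    intro p hp
    unfold PX at hp
    exact (mem_filter.1 hp).2
  have hP0 : ∀ n : ℝ, 0 ≤ n → 0 ≤ Pn D.C₀ N n := fun n hn => by
    unfold Pn
    exact prod_nonneg fun p _ => by positivity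
  have hPsub : ∀ (S : Finset ℕ) (n : ℝ), S ⊆ PX D.C₀ N → 0 ≤ n →
      ∏ p ∈ S, (1 + n / (p : ℝ)) ≤ Pn D.C₀ N n := by
    intro S n hS hn
    unfold Pn
    rw [← prod_sdiff hS]
    have h1 : (1 : ℝ) ≤ ∏ p ∈ PX D.C₀ N \ S, (1 + n / (p : ℝ)) := by
      have h0 := prod_le_prod (s := PX D.C₀ N \ S) (f := fun _ => (1 : ℝ))
        (g := fun p : ℕ => 1 + n / (p : ℝ)) (fun _ _ => zero_le_one) fun p _ => by
          have : 0 ≤ n / (p : ℝ) := by positivity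
          linarith
      rwa [prod_const_one] at h0
    exact le_mul_of_one_le_left (prod_nonneg fun p _ => by positivity) h1
  have h := cauchy_sum (n := f.natDegree) (VV f S₂ N)
    (fun r => D.g (supp S₂ r) (rt r)) (fun r => ∏ p ∈ supp S₂ r, p) hdeg ?_ ?_ (X := N) ?_ ?_
    (z := z₃) hz3 ?_ (hh f S₁ (UU' D.C₀ N z₁ z₂) Dm (wS S₁) (cf f D S₁ s e k))
    (α := Pn D.C₀ N f.natDegree ^ 2 * ((1 / z₁) * Pn D.C₀ N (f.natDegree ^ 2)))
    (β := 2 * f.natDegree * (Dm * Pn D.C₀ N f.natDegree) ^ 2) ?_ ?_ ?_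
  · refine le_trans (le_of_eq ?_) h
    refine sum_congr rfl fun r _ => ?_
    unfold wS
    rw [prod_div_distrib, prod_const_one]
    push_cast
    ring
  · intro r hr r' hr' h
    simp only at h
    have hr1 : r ∈ Dat f S₂ := (mem_filter.1 hr).1
    have hr1' : r' ∈ Dat f S₂ := (mem_filter.1 hr').1
    obtain ⟨e1, e2⟩ := D.g_inj _ _ _ _ (valid_of_mem f D hS2sub hr1)
      (valid_of_mem f D hS2sub hr1') h
    exact dat_ext f hr1 hr1' e1 e2
  · intro r hr i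
    exact D.g_le _ _ (valid_of_mem f D hS2sub (mem_filter.1 hr).1) i
  · intro r hr
    exact (prod_pos fun p hp => (hPX p (hS2sub (mem_filter.1 hp).1)).1.pos).ne'
  · intro r hr
    exact (mem_filter.1 hr).2.2
  · intro r hr
    obtain ⟨p, hp⟩ := (mem_filter.1 hr).2.1
    have h1 : z₃ < p := by
      have := (mem_filter.1 hp).1
      rw [hS₂, mem_filter] at this
      exact not_le.1 this.2
    have h2 : p ≤ ∏ p ∈ supp S₂ r, p :=
      Nat.le_of_dvd (prod_pos fun p hp => (hPX p (hS2sub (mem_filter.1 hp).1)).1.pos)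
        (dvd_prod_of_mem (fun p => p) hp)
    have h3 : (p : ℝ) ≤ ((∏ p ∈ supp S₂ r, p : ℕ) : ℝ) := Nat.cast_le.2 h2
    linarith
  · have := hP0 (f.natDegree ^ 2) (by positivity)
    have := hP0 f.natDegree (by positivity)
    positivity
  · positivity
  · intro B
    have hsq := hh_sq f hf hN hU (fun p hp => hPX p (mem_filter.1 hp).1) hz1
      (fun p hp => by
        unfold UU' at hp
        exact (mem_filter.1 hp).2.1) hDm (ω := wS S₁)
      (fun r => by rw [abs_of_nonneg (wS_nonneg _ _)]) (c := cf f D S₁ s e k) (fun r p a => cf_le f D _ _ _ _ _ _ _) B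
    refine hsq.trans ?_
    have hA := hPsub S₁ f.natDegree (filter_subset _ _) (by positivity)
    have hA0 : 0 ≤ ∏ p ∈ S₁, (1 + (f.natDegree : ℝ) / (p : ℝ)) :=
      prod_nonneg fun p _ => by positivity
    have hB := hPsub (UU' D.C₀ N z₁ z₂) (f.natDegree ^ 2) (filter_subset _ _) (by positivity)
    have hB0 : 0 ≤ ∏ p ∈ UU' D.C₀ N z₁ z₂, (1 + (f.natDegree : ℝ) ^ 2 / (p : ℝ)) :=
      prod_nonneg fun p _ => by positivity
    refine add_le_add ?_ ?_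
    · refine mul_le_mul_of_nonneg_left ?_ (by positivity)
      refine mul_le_mul (pow_le_pow_left₀ hA0 hA 2) ?_ (by positivity) (by positivity)
      exact mul_le_mul_of_nonneg_left hB (by positivity)
    · have h1 : (Dm * ∏ p ∈ S₁, (1 + (f.natDegree : ℝ) / (p : ℝ))) ^ 2 ≤
          (Dm * Pn D.C₀ N f.natDegree) ^ 2 :=
        pow_le_pow_left₀ (by positivity) (mul_le_mul_of_nonneg_left hA hDm) 2
      calc 2 * ((f.natDegree : ℝ) * (2 * B + 1 : ℝ) ^ (f.natDegree - 1)) *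
            (Dm * ∏ p ∈ S₁, (1 + (f.natDegree : ℝ) / (p : ℝ))) ^ 2 ≤
            2 * ((f.natDegree : ℝ) * (2 * B + 1 : ℝ) ^ (f.natDegree - 1)) *
            (Dm * Pn D.C₀ N f.natDegree) ^ 2 := mul_le_mul_of_nonneg_left h1 (by positivity)
        _ = _ := by ring

/-- The explicit bound. -/
theorem sel_bound (hf : f.Monic) (hdeg : f.natDegree ≠ 0) (hN : NonTriv f D.C₀) (N : ℕ)
    {z₁ z₂ z₃ Dm : ℝ} (hz1 : 0 < z₁) (hz3 : 0 < z₃) (hz23 : z₂ ≤ z₃) (hDm : 0 ≤ Dm) :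
    ∑ t ∈ Tset f N, 1 / |(t : ℝ)| ≤
      (2 * P0 D.C₀ + 1) *
        ∏ p ∈ (rootPrimes f N).filter (fun p : ℕ => (p : ℝ) ≤ z₃), (1 + 1 / (p : ℝ)) +
      (2 * P0 D.C₀ + 1) *
        ((∑ T ∈ (UU' D.C₀ N z₁ z₂).powerset.filter (fun T : Finset ℕ => Dm < ∏ p ∈ T, (p : ℝ)),
          ∏ p ∈ T, 1 / (p : ℝ)) * Pn D.C₀ N 1) +
      (2 * P0 D.C₀ + 1) * (D.m *
        (∏ p ∈ PX D.C₀ N, (1 + (if z₁ < (p : ℝ) ∧ (p : ℝ) ≤ z₂ then wt f p else nr f p) / p) +
        (2 * D.C₀ + 1) * ((Nat.log 2 N + 1) * (2 * 3 ^ f.natDegree * Real.sqrt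
          (Pn D.C₀ N f.natDegree ^ 2 * ((1 / z₁) * Pn D.C₀ N (f.natDegree ^ 2)) +
          2 * f.natDegree * (Dm * Pn D.C₀ N f.natDegree) ^ 2 *
            z₃ ^ (-(f.natDegree : ℝ)⁻¹)))))) := by
  classical
  set S₁ : Finset ℕ := (PX D.C₀ N).filter (fun p : ℕ => (p : ℝ) ≤ z₃) with hS₁
  set S₂ : Finset ℕ := (PX D.C₀ N).filter (fun p : ℕ => ¬ (p : ℝ) ≤ z₃) with hS₂
  set U : Finset ℕ := UU' D.C₀ N z₁ z₂ with hUdef
  set E : ℝ := (Nat.log 2 N + 1) * (2 * 3 ^ f.natDegree * Real.sqrt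
      (Pn D.C₀ N f.natDegree ^ 2 * ((1 / z₁) * Pn D.C₀ N (f.natDegree ^ 2)) +
        2 * f.natDegree * (Dm * Pn D.C₀ N f.natDegree) ^ 2 * z₃ ^ (-(f.natDegree : ℝ)⁻¹))) with hE
  have hS2sub : S₂ ⊆ PX D.C₀ N := filter_subset _ _
  have hU : U ⊆ S₁ := by
    intro p hp
    rw [hUdef] at hp
    unfold UU' at hp
    rw [mem_filter] at hp
    rw [hS₁, mem_filter]
    exact ⟨hp.1, hp.2.2.trans hz23⟩
  -- the three classes
  set A : Finset ℤ := (Tset f N).filter fun t => ∀ p ∈ bigPrimes D.C₀ t, (p : ℝ) ≤ z₃ with hA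
  set A' : Finset ℤ := (Tset f N).filter fun t => ¬ ∀ p ∈ bigPrimes D.C₀ t, (p : ℝ) ≤ z₃ with hA'
  set Bc : Finset ℤ := A'.filter fun t => Dm < ∏ p ∈ bigPrimes D.C₀ t ∩ U, (p : ℝ) with hBc
  set Cc : Finset ℤ := A'.filter fun t => ¬ Dm < ∏ p ∈ bigPrimes D.C₀ t ∩ U, (p : ℝ) with hCc
  have e1 : ∑ t ∈ Tset f N, 1 / |(t : ℝ)| = ∑ t ∈ A, 1 / |(t : ℝ)| + ∑ t ∈ Bc, 1 / |(t : ℝ)| +
      ∑ t ∈ Cc, 1 / |(t : ℝ)| := by
    rw [add_assoc, hBc, hCc, sum_filter_add_sum_filter_not, hA, hA',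
      sum_filter_add_sum_filter_not]
  rw [e1]
  refine add_le_add (add_le_add ?_ ?_) ?_
  · exact class_a f D N z₃ A (filter_subset _ _) fun t ht => (mem_filter.1 ht).2
  · exact class_b f D N U Dm Bc ((filter_subset _ _).trans (filter_subset _ _))
      fun t ht => (mem_filter.1 ht).2
  · refine (class_c f D N z₃ U Dm Cc ((filter_subset _ _).trans (filter_subset _ _)) S₁ S₂ hS₁ hS₂
      hU (fun t ht => (mem_filter.1 ht).2) fun t ht => ?_).trans ?_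
    · have := (mem_filter.1 (mem_filter.1 ht).1).2
      push Not at this
      obtain ⟨p, hp, hp'⟩ := this
      exact ⟨p, hp, not_le.2 hp'⟩
    · have hone : ∀ (s : ℤ) (e : Fin D.m), ∑ r₂ ∈ VV f S₂ N, wS S₂ r₂ *
          ∑ r ∈ DatS f S₁ U Dm, wS S₁ r *
            cond f U (cf f D S₁ s e (D.κ (supp S₂ r₂) (rt r₂))) r (D.g (supp S₂ r₂) (rt r₂)) ≤
          ∏ p ∈ PX D.C₀ N, (1 + (if z₁ < (p : ℝ) ∧ (p : ℝ) ≤ z₂ then wt f p else nr f p) / p) +
          (2 * D.C₀ + 1) * E := by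
        intro s e
        have hstep : ∀ r₂ ∈ VV f S₂ N, wS S₂ r₂ *
            ∑ r ∈ DatS f S₁ U Dm, wS S₁ r *
              cond f U (cf f D S₁ s e (D.κ (supp S₂ r₂) (rt r₂))) r (D.g (supp S₂ r₂) (rt r₂)) ≤
            wS S₂ r₂ * Mn f S₁ U Dm (wS S₁) + ∑ k ∈ Icc (-(D.C₀ : ℤ)) D.C₀, wS S₂ r₂ *
              |hh f S₁ U Dm (wS S₁) (cf f D S₁ s e k) (D.g (supp S₂ r₂) (rt r₂))| := by
          intro r₂ hr₂
          rw [sum_cond, mul_add]
          refine add_le_add le_rfl ?_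
          rw [← mul_sum]
          refine mul_le_mul_of_nonneg_left ?_ (wS_nonneg _ _)
          refine (le_abs_self _).trans ?_
          refine single_le_sum (f := fun k => |hh f S₁ U Dm (wS S₁) (cf f D S₁ s e k)
            (D.g (supp S₂ r₂) (rt r₂))|) (fun k _ => abs_nonneg _) ?_
          rw [mem_Icc, ← abs_le]
          exact D.κ_le _ _ (valid_of_mem f D hS2sub (mem_filter.1 hr₂).1)
        refine (sum_le_sum hstep).trans ?_
        rw [sum_add_distrib]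
        refine add_le_add ?_ ?_
        · rw [← sum_mul]
          have h1 : ∑ r₂ ∈ VV f S₂ N, wS S₂ r₂ ≤ ∏ p ∈ S₂, (1 + nr f p / p) := by
            rw [← sum_wS]
            exact sum_le_sum_of_subset_of_nonneg (filter_subset _ _) fun r _ _ => wS_nonneg _ _
          have h2 := Mn_le f hU Dm
          have h3 : 0 ≤ Mn f S₁ U Dm (wS S₁) :=
            sum_nonneg fun r _ => mul_nonneg (wS_nonneg _ _) (hf_nonneg _ _ _)
          have h4 : 0 ≤ ∏ p ∈ S₂, (1 + nr f p / (p : ℝ)) := prod_nonneg fun p _ => by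
            unfold nr
            positivity
          refine (mul_le_mul h1 h2 h3 h4).trans (le_of_eq ?_)
          rw [mul_comm, hS₁, hS₂]
          rw [← prod_filter_mul_prod_filter_not (PX D.C₀ N) (fun p : ℕ => (p : ℝ) ≤ z₃)
            (fun p => (1 + (if z₁ < (p : ℝ) ∧ (p : ℝ) ≤ z₂ then wt f p else nr f p) / (p : ℝ)))]
          congr 1
          · refine prod_congr rfl fun p hp => ?_
            have hiff : p ∈ U ↔ (z₁ < (p : ℝ) ∧ (p : ℝ) ≤ z₂) := by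
              rw [hUdef]
              unfold UU'
              rw [mem_filter]
              exact ⟨fun h => h.2, fun h => ⟨(mem_filter.1 hp).1, h⟩⟩
            by_cases hpU : p ∈ U
            · rw [if_pos hpU, if_pos (hiff.1 hpU)]
            · rw [if_neg hpU, if_neg fun h => hpU (hiff.2 h)]
          · refine prod_congr rfl fun p hp => ?_
            rw [if_neg]
            rintro ⟨_, h⟩
            exact (mem_filter.1 hp).2 (h.trans hz23)
        · rw [sum_comm]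
          have h1 : ∀ k ∈ Icc (-(D.C₀ : ℤ)) D.C₀, ∑ r₂ ∈ VV f S₂ N, wS S₂ r₂ *
              |hh f S₁ U Dm (wS S₁) (cf f D S₁ s e k) (D.g (supp S₂ r₂) (rt r₂))| ≤ E := fun k _ =>
            sum_hh f D hf hdeg hN N hz1 hz3 hz23 hDm s e k
          refine (sum_le_sum h1).trans ?_
          rw [sum_const, nsmul_eq_mul, Int.card_Icc]
          have : ((D.C₀ : ℤ) + 1 - -(D.C₀ : ℤ)).toNat = 2 * D.C₀ + 1 := by omega
          rw [this]
          push_cast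
          exact le_rfl
      refine (sum_le_sum fun s _ => sum_le_sum fun e _ => hone s e).trans ?_
      rw [sum_const, sum_const, card_univ, Fintype.card_fin, nsmul_eq_mul, nsmul_eq_mul, card_sp]

end Stoll308.Gen
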